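import Mathlib
import Pool.Agent.W522.U.C7
import Pool.Agent.W548.Odd.Basic

/-!
# The group generated by the one-parameter groups of the involutions of a Lie algebra
-/

set_option linter.unusedSectionVars false

namespace Pool.Agent.Y90

open Module Pool.Agent.H204R3.SP Pool.Agent.H204R3.GP Pool.Agent.W522.U Pool.Agent.W548.Odd

noncomputable section

variable {V : Type*} [AddCommGroup V] [Module ℂ V]

/-- The one-parameter group of an involution. -/
def torE (D : End ℂ V) (z : ℂˣ) : End ℂ V :=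
  (((z : ℂ) + (z : ℂ)⁻¹) / 2) • 1 + (((z : ℂ) - (z : ℂ)⁻¹) / 2) • D

theorem torE_one (D : End ℂ V) : torE D 1 = 1 := by
  unfold torE
  simp only [Units.val_one, inv_one, sub_self, zero_div, zero_smul, add_zero]
  norm_num

theorem torE_mul {D : End ℂ V} (hD : D * D = 1) (z w : ℂˣ) :
    torE D (z * w) = torE D z * torE D w := by
  unfold torE
  have hz : (z : ℂ) ≠ 0 := z.ne_zero
  have hw : (w : ℂ) ≠ 0 := w.ne_zero
  rw [add_mul, mul_add, mul_add, smul_mul_smul_comm, smul_mul_smul_comm, smul_mul_smul_comm,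
    smul_mul_smul_comm, one_mul, one_mul, mul_one, hD, Units.val_mul]
  match_scalars
  · field_simp
    ring
  · field_simp
    ring

theorem torE_apply (D : End ℂ V) (z : ℂˣ) (v : V) :
    torE D z v = (((z : ℂ) + (z : ℂ)⁻¹) / 2) • v + (((z : ℂ) - (z : ℂ)⁻¹) / 2) • D v := rfl

/-- The one-parameter group of an involution. -/
def tor {D : End ℂ V} (hD : D * D = 1) : ℂˣ →* (End ℂ V)ˣ :=
  MonoidHom.toHomUnits
    { toFun := torE D
      map_one' := torE_one D
      map_mul' := torE_mul hD }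

theorem tor_coe {D : End ℂ V} (hD : D * D = 1) (z : ℂˣ) :
    ((tor hD z : (End ℂ V)ˣ) : End ℂ V) = torE D z := rfl

variable (G : Submodule ℂ (End ℂ V))

/-- The group generated by the one-parameter groups of the involutions in `G`. -/
def Gam : Subgroup (End ℂ V)ˣ :=
  Subgroup.closure {g | ∃ (D : End ℂ V) (hD : D * D = 1) (z : ℂˣ), D ∈ G ∧ g = tor hD z}

/-- The tautological representation. -/
def RG : Representation ℂ (Gam G) V := (Units.coeHom (End ℂ V)).comp (Gam G).subtype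

variable {G}

theorem RG_apply (g : Gam G) (v : V) : RG G g v = ((g : (End ℂ V)ˣ) : End ℂ V) v := rfl

/-- The elements of the one-parameter groups. -/
def gt {D : End ℂ V} (hD : D * D = 1) (hDG : D ∈ G) (z : ℂˣ) : Gam G :=
  ⟨tor hD z, Subgroup.subset_closure ⟨D, hD, z, hDG, rfl⟩⟩

theorem RG_gt {D : End ℂ V} (hD : D * D = 1) (hDG : D ∈ G) (z : ℂˣ) :
    RG G (gt hD hDG z) = torE D z := rfl

theorem gt_pow {D : End ℂ V} (hD : D * D = 1) (hDG : D ∈ G) (z : ℂˣ) (n : ℕ) :
    gt hD hDG (z ^ n) = gt hD hDG z ^ n := by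
  apply Subtype.ext
  exact map_pow (tor hD) z n

theorem gt_inv {D : End ℂ V} (hD : D * D = 1) (hDG : D ∈ G) (z : ℂˣ) :
    gt hD hDG z⁻¹ = (gt hD hDG z)⁻¹ := by
  apply Subtype.ext
  exact map_inv (tor hD) z

/-- Induction over the group. -/
theorem gam_induction {p : Gam G → Prop}
    (h : ∀ {D : End ℂ V} (hD : D * D = 1) (hDG : D ∈ G) (z : ℂˣ), p (gt hD hDG z))
    (h1 : p 1) (hmul : ∀ g h, p g → p h → p (g * h)) (g : Gam G) : p g := by
  obtain ⟨g, hg⟩ := g
  suffices h3 : ∀ g : (End ℂ V)ˣ, g ∈ Gam G → ∃ hg : g ∈ Gam G, p ⟨g, hg⟩ ∧ p ⟨g, hg⟩⁻¹ by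
    exact (h3 g hg).choose_spec.1
  intro g hg
  refine Subgroup.closure_induction (p := fun g _ => ∃ hg : g ∈ Gam G, p ⟨g, hg⟩ ∧ p ⟨g, hg⟩⁻¹)
    ?_ ?_ ?_ ?_ hg
  · rintro _ ⟨D, hD, z, hDG, rfl⟩
    refine ⟨(gt hD hDG z).2, h hD hDG z, ?_⟩
    have h4 := h hD hDG z⁻¹
    rw [gt_inv] at h4
    exact h4
  · exact ⟨one_mem _, h1, by
      have h4 : (⟨1, one_mem _⟩ : Gam G)⁻¹ = 1 := inv_one
      rw [h4]
      exact h1⟩
  · rintro a b _ _ ⟨ha, ha1, ha2⟩ ⟨hb, hb1, hb2⟩
    refine ⟨mul_mem ha hb, hmul ⟨a, ha⟩ ⟨b, hb⟩ ha1 hb1, ?_⟩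
    have h4 : (⟨a * b, mul_mem ha hb⟩ : Gam G)⁻¹ = (⟨b, hb⟩ : Gam G)⁻¹ * (⟨a, ha⟩ : Gam G)⁻¹ :=
      mul_inv_rev (⟨a, ha⟩ : Gam G) ⟨b, hb⟩
    rw [h4]
    exact hmul _ _ hb2 ha2
  · rintro a _ ⟨ha, ha1, ha2⟩
    refine ⟨inv_mem ha, ha2, ?_⟩
    have h4 : (⟨a⁻¹, inv_mem ha⟩ : Gam G)⁻¹ = ⟨a, ha⟩ := inv_inv (⟨a, ha⟩ : Gam G)
    rw [h4]
    exact ha1

/-- There are no proper subgroups of finite index. -/
theorem fi_top (Δ : Subgroup (Gam G)) (hΔ : Δ.FiniteIndex) : Δ = ⊤ := by
  have h1 : Δ.normalCore.FiniteIndex := inferInstance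
  have h0 : Δ.normalCore.index ≠ 0 := h1.index_ne_zero
  rw [eq_top_iff]
  intro g _
  refine Subgroup.normalCore_le Δ ?_
  refine gam_induction (p := fun g => g ∈ Δ.normalCore) (fun {D} hD hDG z => ?_) (one_mem _)
    (fun g h hg hh => mul_mem hg hh) g
  obtain ⟨w, hw⟩ := IsAlgClosed.exists_pow_nat_eq (z : ℂ) (Nat.pos_of_ne_zero h0)
  have hw0 : w ≠ 0 := by
    rintro rfl
    rw [zero_pow h0] at hw
    exact z.ne_zero hw.symm
  have h2 : z = (Units.mk0 w hw0) ^ Δ.normalCore.index := by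
    apply Units.ext
    rw [Units.val_pow_eq_pow_val, Units.val_mk0, hw]
  rw [h2, gt_pow]
  exact Subgroup.pow_index_mem _ _

/-- The element `2`. -/
def two : ℂˣ := Units.mk0 2 two_ne_zero

theorem torE_two (D : End ℂ V) (v : V) :
    torE D two v = (5 / 4 : ℂ) • v + (3 / 4 : ℂ) • D v := by
  rw [torE_apply]
  unfold two
  norm_num

/-- The Lie algebra is generated by its involutions. -/
def GenI (G : Submodule ℂ (End ℂ V)) : Prop := ∀ L : Submodule ℂ (End ℂ V),
  (∀ D ∈ G, D * D = 1 → D ∈ L) → (∀ y ∈ L, ∀ z ∈ L, y * z - z * y ∈ L) → G ≤ L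

/-- Stability under the group and stability under the Lie algebra. -/
theorem stable_iff (hG : GenI G) (U : Submodule ℂ V) :
    (∀ g : Gam G, ∀ u ∈ U, RG G g u ∈ U) ↔ ∀ y ∈ G, ∀ u ∈ U, y u ∈ U := by
  constructor
  · intro h
    let L : Submodule ℂ (End ℂ V) :=
      { carrier := {y | ∀ u ∈ U, y u ∈ U}
        add_mem' := fun ha hb u hu => U.add_mem (ha u hu) (hb u hu)
        zero_mem' := fun u _ => U.zero_mem
        smul_mem' := fun c a ha u hu => U.smul_mem c (ha u hu) }
    refine hG L (fun D hDG hD u hu => ?_) (fun y hy z hz u hu => ?_)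
    · have h1 := h (gt hD hDG two) u hu
      rw [RG_gt, torE_two] at h1
      have h2 := U.sub_mem h1 (U.smul_mem (5 / 4 : ℂ) hu)
      rw [add_sub_cancel_left] at h2
      have h3 := U.smul_mem (4 / 3 : ℂ) h2
      rw [smul_smul] at h3
      norm_num at h3
      exact h3
    · exact U.sub_mem (hy _ (hz u hu)) (hz _ (hy u hu))
  · intro h g
    refine gam_induction (p := fun g => ∀ u ∈ U, RG G g u ∈ U) (fun {D} hD hDG z u hu => ?_)
      (fun u hu => by rw [map_one]; exact hu) (fun g h hg hh u hu => ?_) g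
    · rw [RG_gt, torE_apply]
      exact U.add_mem (U.smul_mem _ hu) (U.smul_mem _ (h D hDG u hu))
    · rw [map_mul]
      exact hg _ (hh u hu)

/-- Equivariance on a stable subspace. -/
theorem equiv_iff {V' : Type*} [AddCommGroup V'] [Module ℂ V'] (hG : GenI G) (U : Submodule ℂ V)
    (hU : ∀ y ∈ G, ∀ u ∈ U, y u ∈ U) (T : V →ₗ[ℂ] V) :
    (∀ g : Gam G, ∀ u ∈ U, T (RG G g u) = RG G g (T u)) ↔ ∀ y ∈ G, ∀ u ∈ U, T (y u) = y (T u) := by
  constructor
  · intro h
    let L : Submodule ℂ (End ℂ V) :=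
      { carrier := {y | ∀ u ∈ U, y u ∈ U ∧ T (y u) = y (T u)}
        add_mem' := fun {a b} ha hb u hu => ⟨U.add_mem (ha u hu).1 (hb u hu).1, by
          rw [LinearMap.add_apply, LinearMap.add_apply, map_add, (ha u hu).2, (hb u hu).2]⟩
        zero_mem' := fun u _ => ⟨U.zero_mem, by
          rw [LinearMap.zero_apply, LinearMap.zero_apply, map_zero]⟩
        smul_mem' := fun c a ha u hu => ⟨U.smul_mem c (ha u hu).1, by
          rw [LinearMap.smul_apply, LinearMap.smul_apply, map_smul, (ha u hu).2]⟩ }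
    have h5 : G ≤ L := by
      refine hG L (fun D hDG hD u hu => ⟨hU D hDG u hu, ?_⟩) (fun y hy z hz u hu => ⟨?_, ?_⟩)
      · have h1 := h (gt hD hDG two) u hu
        rw [RG_gt, torE_two, torE_two, map_add, map_smul, map_smul] at h1
        have h2 := add_left_cancel h1
        have h3 := congrArg (fun x => (4 / 3 : ℂ) • x) h2
        simp only [smul_smul] at h3
        norm_num at h3
        exact h3
      · exact U.sub_mem (hy _ (hz u hu).1).1 (hz _ (hy u hu).1).1
      · rw [LinearMap.sub_apply, LinearMap.sub_apply, map_sub, Module.End.mul_apply,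
          Module.End.mul_apply, Module.End.mul_apply, Module.End.mul_apply,
          (hy _ (hz u hu).1).2, (hz _ (hy u hu).1).2, (hy u hu).2, (hz u hu).2]
    exact fun y hy u hu => (h5 hy u hu).2
  · intro h g
    suffices h2 : ∀ u ∈ U, RG G g u ∈ U ∧ T (RG G g u) = RG G g (T u) from
      fun u hu => (h2 u hu).2
    refine gam_induction (p := fun g => ∀ u ∈ U, RG G g u ∈ U ∧ T (RG G g u) = RG G g (T u))
      (fun {D} hD hDG z u hu => ⟨?_, ?_⟩)
      (fun u hu => ⟨by rw [map_one]; exact hu, by rw [map_one]; rfl⟩)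
      (fun g h hg hh u hu => ⟨?_, ?_⟩) g
    · rw [RG_gt, torE_apply]
      exact U.add_mem (U.smul_mem _ hu) (U.smul_mem _ (hU D hDG u hu))
    · rw [RG_gt, torE_apply, torE_apply, map_add, map_smul, map_smul, h D hDG u hu]
    · rw [map_mul]
      exact (hg _ (hh u hu).1).1
    · rw [map_mul, Module.End.mul_apply, Module.End.mul_apply, (hg _ (hh u hu).1).2, (hh u hu).2]

/-- Invariant bilinear forms. -/
theorem bil_iff (hG : GenI G) (U U' : Submodule ℂ V)
    (hU : ∀ y ∈ G, ∀ u ∈ U, y u ∈ U) (hU' : ∀ y ∈ G, ∀ u ∈ U', y u ∈ U')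
    (b : V →ₗ[ℂ] V →ₗ[ℂ] ℂ) :
    (∀ g : Gam G, ∀ u ∈ U, ∀ v ∈ U', b (RG G g u) (RG G g v) = b u v) ↔
      ∀ y ∈ G, ∀ u ∈ U, ∀ v ∈ U', b (y u) v + b u (y v) = 0 := by
  constructor
  · intro h
    let L : Submodule ℂ (End ℂ V) :=
      { carrier := {y | (∀ u ∈ U, y u ∈ U) ∧ (∀ v ∈ U', y v ∈ U') ∧
          ∀ u ∈ U, ∀ v ∈ U', b (y u) v + b u (y v) = 0}
        add_mem' := fun {x y} hx hy => ⟨fun u hu => U.add_mem (hx.1 u hu) (hy.1 u hu),
          fun u hu => U'.add_mem (hx.2.1 u hu) (hy.2.1 u hu), fun u hu v hv => by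
          have h1 := hx.2.2 u hu v hv
          have h2 := hy.2.2 u hu v hv
          rw [LinearMap.add_apply, LinearMap.add_apply, map_add, map_add, LinearMap.add_apply]
          linear_combination h1 + h2⟩
        zero_mem' := ⟨fun u _ => U.zero_mem, fun u _ => U'.zero_mem, fun u _ v _ => by
          rw [LinearMap.zero_apply, LinearMap.zero_apply, map_zero, map_zero,
            LinearMap.zero_apply, add_zero]⟩
        smul_mem' := fun c y hy => ⟨fun u hu => U.smul_mem c (hy.1 u hu),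
          fun u hu => U'.smul_mem c (hy.2.1 u hu), fun u hu v hv => by
          have h1 := hy.2.2 u hu v hv
          rw [LinearMap.smul_apply, LinearMap.smul_apply, map_smul, map_smul,
            LinearMap.smul_apply, ← smul_add, h1, smul_zero]⟩ }
    have h5 : G ≤ L := by
      refine hG L (fun D hDG hD => ⟨hU D hDG, hU' D hDG, fun u hu v hv => ?_⟩)
        (fun y hy z hz => ⟨fun u hu => ?_, fun u hu => ?_, fun u hu v hv => ?_⟩)
      · have h1 := h (gt hD hDG two) u hu v hv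
        have h2 := h (gt hD hDG two⁻¹) u hu v hv
        rw [RG_gt, torE_apply, torE_apply] at h1 h2
        simp only [two, Units.val_mk0, Units.val_inv_eq_inv_val, map_add, map_smul,
          LinearMap.add_apply, LinearMap.smul_apply, smul_eq_mul, inv_inv] at h1 h2
        linear_combination (8 / 15 : ℂ) * h1 - (8 / 15 : ℂ) * h2
      · exact U.sub_mem (hy.1 _ (hz.1 u hu)) (hz.1 _ (hy.1 u hu))
      · exact U'.sub_mem (hy.2.1 _ (hz.2.1 u hu)) (hz.2.1 _ (hy.2.1 u hu))
      · have e1 := hy.2.2 _ (hz.1 u hu) v hv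
        have e2 := hz.2.2 _ (hy.1 u hu) v hv
        have e3 := hy.2.2 u hu _ (hz.2.1 v hv)
        have e4 := hz.2.2 u hu _ (hy.2.1 v hv)
        rw [LinearMap.sub_apply, LinearMap.sub_apply, map_sub, map_sub, LinearMap.sub_apply,
          Module.End.mul_apply, Module.End.mul_apply, Module.End.mul_apply, Module.End.mul_apply]
        linear_combination e1 - e2 + e3 - e4
    exact fun y hy => (h5 hy).2.2
  · intro h g
    suffices h2 : (∀ u ∈ U, RG G g u ∈ U) ∧ (∀ u ∈ U', RG G g u ∈ U') ∧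
        ∀ u ∈ U, ∀ v ∈ U', b (RG G g u) (RG G g v) = b u v from h2.2.2
    refine gam_induction (p := fun g => (∀ u ∈ U, RG G g u ∈ U) ∧ (∀ u ∈ U', RG G g u ∈ U') ∧
        ∀ u ∈ U, ∀ v ∈ U', b (RG G g u) (RG G g v) = b u v)
      (fun {D} hD hDG z => ⟨fun u hu => ?_, fun u hu => ?_, fun u hu v hv => ?_⟩)
      ⟨fun u hu => by rw [map_one]; exact hu, fun u hu => by rw [map_one]; exact hu,
        fun u _ v _ => by rw [map_one]; rfl⟩
      (fun g h hg hh => ⟨fun u hu => ?_, fun u hu => ?_, fun u hu v hv => ?_⟩) g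
    · rw [RG_gt, torE_apply]
      exact U.add_mem (U.smul_mem _ hu) (U.smul_mem _ (hU D hDG u hu))
    · rw [RG_gt, torE_apply]
      exact U'.add_mem (U'.smul_mem _ hu) (U'.smul_mem _ (hU' D hDG u hu))
    · have hz : (z : ℂ) ≠ 0 := z.ne_zero
      have e1 := h D hDG u hu v hv
      have e2 := h D hDG (D u) (hU D hDG u hu) v hv
      have e3 : D (D u) = u := by rw [← Module.End.mul_apply, hD, Module.End.one_apply]
      rw [e3] at e2
      rw [RG_gt, torE_apply, torE_apply]
      simp only [map_add, map_smul, LinearMap.add_apply, LinearMap.smul_apply, smul_eq_mul]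
      have e4 : b (D u) (D v) = -b u v := by linear_combination e2
      rw [e4]
      have e5 : b u (D v) = -b (D u) v := by linear_combination e1
      rw [e5]
      field_simp
      ring
    · rw [map_mul]
      exact hg.1 _ (hh.1 u hu)
    · rw [map_mul]
      exact hg.2.1 _ (hh.2.1 u hu)
    · rw [map_mul, Module.End.mul_apply, Module.End.mul_apply,
        hg.2.2 _ (hh.1 u hu) _ (hh.2.1 v hv), hh.2.2 u hu v hv]

/-- Elements of degree one give unipotent elements. -/
theorem unip_mem {D N : End ℂ V} (hD : D * D = 1) (hDG : D ∈ G) (hN : N ∈ G) (h1 : D * N = N)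
    (h2 : N * D = -N) : ∃ γ : Gam G, RG G γ = 1 + N := by
  have hNN : N * N = 0 := by
    have h3 : N * N = -(N * N) := by
      calc N * N = N * (D * N) := by rw [h1]
        _ = -(N * N) := by rw [← mul_assoc, h2, neg_mul]
    have h4 : (2 : ℂ) • (N * N) = 0 := by
      rw [two_smul]
      nth_rewrite 1 [h3]
      rw [neg_add_cancel]
    exact (smul_eq_zero.1 h4).resolve_left two_ne_zero
  let D' : End ℂ V := D + (2 / 3 : ℂ) • N
  have hD' : D' * D' = 1 := by
    change (D + (2 / 3 : ℂ) • N) * (D + (2 / 3 : ℂ) • N) = 1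
    rw [add_mul, mul_add, mul_add, mul_smul_comm, smul_mul_assoc, smul_mul_smul_comm, hD, hNN,
      h1, h2]
    simp
  have hDG' : D' ∈ G := G.add_mem hDG (G.smul_mem _ hN)
  refine ⟨gt hD' hDG' two * gt hD hDG two⁻¹, ?_⟩
  rw [map_mul, RG_gt, RG_gt]
  have h3 : torE D' two = torE D two + (1 / 2 : ℂ) • N := by
    refine LinearMap.ext fun v => ?_
    rw [LinearMap.add_apply, torE_two, torE_two]
    change _ + (3 / 4 : ℂ) • (D v + (2 / 3 : ℂ) • N v) = _ + (1 / 2 : ℂ) • N v
    rw [smul_add, smul_smul]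
    norm_num
    abel
  have h4 : torE D two * torE D two⁻¹ = 1 := by
    rw [← torE_mul hD, mul_inv_cancel, torE_one]
  rw [h3, add_mul, h4]
  congr 1
  unfold torE two
  rw [mul_add, mul_smul_comm, mul_smul_comm, smul_mul_assoc, smul_mul_assoc, mul_one, h2]
  simp only [Units.val_inv_eq_inv_val, Units.val_mk0, inv_inv]
  rw [smul_neg, smul_neg, ← neg_smul, smul_smul, smul_smul, ← add_smul]
  norm_num

/-- An elementary fact on involutions: equivariance up to a scalar. -/
theorem twist_free {U : Submodule ℂ V} {T : V →ₗ[ℂ] V} (hTi : ∀ u ∈ U, T u = 0 → u = 0)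
    {D : End ℂ V} (hD : D * D = 1) (hDU : ∀ u ∈ U, D u ∈ U)
    (hns : ∀ c : ℂ, ∃ u ∈ U, D u ≠ c • u) (ψ : ℂ)
    (hT : ∀ u ∈ U, T (torE D two u) = ψ • torE D two (T u)) (hψ : ψ ≠ 0) :
    ∀ u ∈ U, T (D u) = D (T u) := by
  have hq : ∀ v, torE D two (torE D two v) = (5 / 2 : ℂ) • torE D two v - v := by
    intro v
    have h3 : D (D v) = v := by rw [← Module.End.mul_apply, hD, Module.End.one_apply]
    simp only [torE_two, map_add, map_smul, h3]
    module
  have hU : ∀ u ∈ U, torE D two u ∈ U := by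
    intro u hu
    rw [torE_two]
    exact U.add_mem (U.smul_mem _ hu) (U.smul_mem _ (hDU u hu))
  have hψ1 : ψ = 1 := by
    by_contra hne
    have h1 : ∀ u ∈ U, torE D two u = ((1 + ψ) * (2 / 5)) • u := by
      intro u hu
      have e1 := hT _ (hU u hu)
      rw [hT u hu, map_smul, hq, hq, map_sub, map_smul, hT u hu] at e1
      -- (5/2) ψ s - T u = ψ ψ ((5/2) s - T u)
      set s := torE D two (T u) with hs
      have e2 : ((1 - ψ) * ψ * (5 / 2)) • s = ((1 - ψ) * (1 + ψ)) • T u := by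
        have e3 : (5 / 2 : ℂ) • ψ • s - T u = ψ • ψ • ((5 / 2 : ℂ) • s - T u) := e1
        have e4 : ((1 - ψ) * ψ * (5 / 2)) • s - ((1 - ψ) * (1 + ψ)) • T u =
            ((5 / 2 : ℂ) • ψ • s - T u) - ψ • ψ • ((5 / 2 : ℂ) • s - T u) := by module
        rw [← sub_eq_zero, e4, e3, sub_self]
      have h6 : (1 - ψ) ≠ 0 := sub_ne_zero.2 (Ne.symm hne)
      have e5 : ψ • s = ((1 + ψ) * (2 / 5)) • T u := by
        have e6 := congrArg (fun x => ((1 - ψ)⁻¹ * (2 / 5)) • x) e2
        simp only [smul_smul] at e6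
        have e7 : (1 - ψ)⁻¹ * (2 / 5) * ((1 - ψ) * ψ * (5 / 2)) = ψ := by
          field_simp
        have e8 : (1 - ψ)⁻¹ * (2 / 5) * ((1 - ψ) * (1 + ψ)) = (1 + ψ) * (2 / 5) := by
          field_simp
        rwa [e7, e8] at e6
      have e9 : T (torE D two u - ((1 + ψ) * (2 / 5)) • u) = 0 := by
        rw [map_sub, map_smul, hT u hu, ← hs, e5, sub_self]
      exact sub_eq_zero.1 (hTi _ (U.sub_mem (hU u hu) (U.smul_mem _ hu)) e9)
    obtain ⟨u, hu, hne2⟩ := hns ((4 / 3) * ((1 + ψ) * (2 / 5) - 5 / 4))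
    apply hne2
    have h2 := h1 u hu
    rw [torE_two] at h2
    have h3 : D u = (4 / 3 : ℂ) • (((5 / 4 : ℂ) • u + (3 / 4 : ℂ) • D u) - (5 / 4 : ℂ) • u) := by
      module
    rw [h3, h2]
    module
  intro u hu
  have h1 := hT u hu
  rw [hψ1, one_smul, torE_two, torE_two, map_add, map_smul, map_smul] at h1
  have h2 := add_left_cancel h1
  have h3 := congrArg (fun x => (4 / 3 : ℂ) • x) h2
  simp only [smul_smul] at h3
  norm_num at h3
  exact h3

/-- Forms killed by an involution are invariant under its one-parameter group. -/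
theorem inv_of_kill {κ : Type*} [Fintype κ] [DecidableEq κ]
    (φ : MultilinearMap ℂ (fun _ : κ => V) ℂ) {D : End ℂ V} (hD : D * D = 1) (h : Kills D φ)
    (z : ℂˣ) (v : κ → V) : φ (fun k => torE D z (v k)) = φ v := by
  have hDD : ∀ u, D (D u) = u := fun u => by
    rw [← Module.End.mul_apply, hD, Module.End.one_apply]
  let P : κ → V := fun k => (1 / 2 : ℂ) • (v k + D (v k))
  let Q : κ → V := fun k => (1 / 2 : ℂ) • (v k - D (v k))
  have h1 : (fun k => torE D z (v k)) = (fun k => (z : ℂ) • P k) + fun k => (z : ℂ)⁻¹ • Q k := by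
    funext k
    rw [torE_apply, Pi.add_apply]
    change _ = (z : ℂ) • (1 / 2 : ℂ) • (v k + D (v k)) + (z : ℂ)⁻¹ • (1 / 2 : ℂ) • (v k - D (v k))
    module
  have h2 : v = P + Q := by
    funext k
    rw [Pi.add_apply]
    change _ = (1 / 2 : ℂ) • (v k + D (v k)) + (1 / 2 : ℂ) • (v k - D (v k))
    module
  conv_rhs => rw [h2]
  rw [h1, MultilinearMap.map_add_univ, MultilinearMap.map_add_univ]
  refine Finset.sum_congr rfl fun s _ => ?_
  let w : κ → V := s.piecewise P Q
  have h3 : s.piecewise (fun k => (z : ℂ) • P k) (fun k => (z : ℂ)⁻¹ • Q k) =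
      fun k => (if k ∈ s then (z : ℂ) else (z : ℂ)⁻¹) • w k := by
    funext k
    by_cases hk : k ∈ s
    · simp only [w, Finset.piecewise_eq_of_mem _ _ _ hk, if_pos hk]
    · simp only [w, Finset.piecewise_eq_of_notMem _ _ _ hk, if_neg hk]
  rw [h3, MultilinearMap.map_smul_univ]
  change _ • φ w = φ w
  by_cases h0 : φ w = 0
  · rw [h0, smul_zero]
  have h4 : ∀ k, D (w k) = (if k ∈ s then (1 : ℂ) else -1) • w k := by
    intro k
    by_cases hk : k ∈ s
    · simp only [w, Finset.piecewise_eq_of_mem _ _ _ hk, if_pos hk]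
      change D ((1 / 2 : ℂ) • (v k + D (v k))) = (1 : ℂ) • (1 / 2 : ℂ) • (v k + D (v k))
      rw [map_smul, map_add, hDD]
      module
    · simp only [w, Finset.piecewise_eq_of_notMem _ _ _ hk, if_neg hk]
      change D ((1 / 2 : ℂ) • (v k - D (v k))) = (-1 : ℂ) • (1 / 2 : ℂ) • (v k - D (v k))
      rw [map_smul, map_sub, hDD]
      module
  have h5 := h w
  have h6 : ∀ k, φ (Function.update w k (D (w k))) = (if k ∈ s then (1 : ℂ) else -1) * φ w := by
    intro k
    rw [h4, MultilinearMap.map_update_smul, Function.update_eq_self, smul_eq_mul]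
  rw [Finset.sum_congr rfl (fun k _ => h6 k), ← Finset.sum_mul] at h5
  have h7 := (mul_eq_zero.1 h5).resolve_right h0
  rw [Finset.sum_ite, Finset.sum_const, Finset.sum_const, nsmul_eq_mul, nsmul_eq_mul] at h7
  have h8 : ((Finset.univ.filter (fun k => k ∈ s)).card : ℂ) =
      ((Finset.univ.filter (fun k => ¬k ∈ s)).card : ℂ) := by linear_combination h7
  have h9 : (Finset.univ.filter (fun k => k ∈ s)).card =
      (Finset.univ.filter (fun k => ¬k ∈ s)).card := by exact_mod_cast h8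
  rw [Finset.prod_ite, Finset.prod_const, Finset.prod_const, h9, ← mul_pow,
    mul_inv_cancel₀ z.ne_zero, one_pow, one_smul]

/-- Forms killed by the Lie algebra are invariant under the group. -/
theorem inv_gam {κ : Type*} [Fintype κ] [DecidableEq κ]
    (φ : MultilinearMap ℂ (fun _ : κ => V) ℂ) (h : ∀ D ∈ G, D * D = 1 → Kills D φ)
    (g : Gam G) (v : κ → V) : φ (fun k => RG G g (v k)) = φ v := by
  revert v
  refine gam_induction (p := fun g => ∀ v : κ → V, φ (fun k => RG G g (v k)) = φ v)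
    (fun {D} hD hDG z v => ?_) (fun v => ?_) (fun g h hg hh v => ?_) g
  · exact inv_of_kill φ hD (h D hDG hD) z v
  · simp only [map_one, Module.End.one_apply]
  · simp only [map_mul, Module.End.mul_apply]
    rw [hg (fun k => RG G h (v k)), hh]

end

end Pool.Agent.Y90
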