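import Mathlib
import Pool.Agent.W548.Odd.Hodge
import Pool.Agent.Y90.Tor

/-!
# Irreducible submodules of the complexified Hodge Lie algebra
-/

set_option linter.unusedSectionVars false

namespace Pool.Agent.Y90

open Matrix Module Pool.Agent.W437.HC Pool.Agent.W437.HD Pool.Agent.W548.Odd Pool.Agent.W522.U

noncomputable section

section gen

variable {B : Type*} [Fintype B] [DecidableEq B]

/-- Stability under a space of matrices. -/
def Stab (L : Submodule ℂ (Matrix B B ℂ)) (U : Submodule ℂ (B → ℂ)) : Prop :=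
  ∀ X ∈ L, ∀ u ∈ U, X *ᵥ u ∈ U

/-- Irreducible submodules. -/
def IrS (L : Submodule ℂ (Matrix B B ℂ)) (U : Submodule ℂ (B → ℂ)) : Prop :=
  U ≠ ⊥ ∧ Stab L U ∧ ∀ W ≤ U, Stab L W → W = ⊥ ∨ W = U

variable {L : Submodule ℂ (Matrix B B ℂ)}

theorem Stab.inf {U U' : Submodule ℂ (B → ℂ)} (h : Stab L U) (h' : Stab L U') :
    Stab L (U ⊓ U') := fun X hX u hu => ⟨h X hX u hu.1, h' X hX u hu.2⟩

theorem Stab.sup {U U' : Submodule ℂ (B → ℂ)} (h : Stab L U) (h' : Stab L U') :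
    Stab L (U ⊔ U') := by
  intro X hX u hu
  obtain ⟨a, ha, b, hb, rfl⟩ := Submodule.mem_sup.1 hu
  rw [mulVec_add]
  exact Submodule.add_mem_sup (h X hX a ha) (h' X hX b hb)

theorem stab_top : Stab L (⊤ : Submodule ℂ (B → ℂ)) := fun _ _ _ _ => trivial

/-- Each nonzero stable subspace contains an irreducible one. -/
theorem exists_irS (n : ℕ) : ∀ W : Submodule ℂ (B → ℂ), finrank ℂ W = n → W ≠ ⊥ → Stab L W →
    ∃ U ≤ W, IrS L U := by
  induction n using Nat.strong_induction_on with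
  | _ n ih =>
    intro W hn hW hs
    by_cases h : ∀ W' ≤ W, Stab L W' → W' = ⊥ ∨ W' = W
    · exact ⟨W, le_rfl, hW, hs, h⟩
    · push Not at h
      obtain ⟨W', hle, hs', h0, h1⟩ := h
      obtain ⟨U, hU, hU'⟩ := ih (finrank ℂ W') (by
        rw [← hn]
        exact Submodule.finrank_lt_finrank_of_lt (lt_of_le_of_ne hle h1)) W' rfl h0 hs'
      exact ⟨U, hU.trans hle, hU'⟩

theorem stab_GG {U : Submodule ℂ (B → ℂ)} : (∀ y ∈ GG L, ∀ u ∈ U, y u ∈ U) ↔ Stab L U := by
  constructor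
  · intro h X hX u hu
    exact h (ph B X) (mem_GG.2 hX) u hu
  · intro h y hy u hu
    obtain ⟨A, hA, rfl⟩ := exists_GG hy
    exact h A hA u hu

theorem pot_iff (hG : GenI (GG L)) {U : Submodule ℂ (B → ℂ)} :
    Pot (RG (GG L)) U ↔ Stab L U := by
  rw [← stab_GG, ← stable_iff hG]
  constructor
  · rintro ⟨Δ, hΔ, h⟩ g u hu
    obtain rfl := fi_top Δ hΔ
    exact h g (Subgroup.mem_top g) u hu
  · intro h
    exact ⟨⊤, inferInstance, fun g _ u hu => h g u hu⟩

theorem si_iff (hG : GenI (GG L)) {U : Submodule ℂ (B → ℂ)} :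
    W522.U.SI (RG (GG L)) U ↔ IrS L U := by
  unfold W522.U.SI IrS
  rw [pot_iff hG]
  refine and_congr Iff.rfl (and_congr Iff.rfl (forall_congr' fun W => ?_))
  rw [pot_iff hG]

/-- Equivariance for matrices. -/
theorem comm_GG {V' : Type*} [AddCommGroup V'] [Module ℂ V'] {U : Submodule ℂ (B → ℂ)}
    (T : (B → ℂ) →ₗ[ℂ] (B → ℂ)) :
    (∀ y ∈ GG L, ∀ u ∈ U, T (y u) = y (T u)) ↔ ∀ X ∈ L, ∀ u ∈ U, T (X *ᵥ u) = X *ᵥ (T u) := by
  constructor
  · intro h X hX u hu
    exact h (ph B X) (mem_GG.2 hX) u hu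
  · intro h y hy u hu
    obtain ⟨A, hA, rfl⟩ := exists_GG hy
    exact h A hA u hu

/-- The conjugate of a subspace. -/
def cjS (σ : ℂ ≃+* ℂ) (U : Submodule ℂ (B → ℂ)) : Submodule ℂ (B → ℂ) where
  carrier := {v | (fun i => σ.symm (v i)) ∈ U}
  add_mem' := by
    intro a b ha hb
    have h1 := U.add_mem ha hb
    have h2 : (fun i => σ.symm ((a + b) i)) = (fun i => σ.symm (a i)) + fun i => σ.symm (b i) := by
      funext i
      exact map_add σ.symm _ _
    change (fun i => σ.symm ((a + b) i)) ∈ U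
    rw [h2]
    exact h1
  zero_mem' := by
    have h2 : (fun i => σ.symm ((0 : B → ℂ) i)) = 0 := by
      funext i
      exact map_zero σ.symm
    change (fun i => σ.symm ((0 : B → ℂ) i)) ∈ U
    rw [h2]
    exact U.zero_mem
  smul_mem' := by
    intro c a ha
    have h1 := U.smul_mem (σ.symm c) ha
    have h2 : (fun i => σ.symm ((c • a) i)) = σ.symm c • fun i => σ.symm (a i) := by
      funext i
      exact map_mul σ.symm _ _
    change (fun i => σ.symm ((c • a) i)) ∈ U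
    rw [h2]
    exact h1

theorem mem_cjS {σ : ℂ ≃+* ℂ} {U : Submodule ℂ (B → ℂ)} {v : B → ℂ} :
    v ∈ cjS σ U ↔ (fun i => σ.symm (v i)) ∈ U := Iff.rfl

theorem cj_mem_cjS {σ : ℂ ≃+* ℂ} {U : Submodule ℂ (B → ℂ)} {v : B → ℂ} (hv : v ∈ U) :
    (fun i => σ (v i)) ∈ cjS σ U := by
  rw [mem_cjS]
  simpa using hv

theorem cjS_symm (σ : ℂ ≃+* ℂ) (U : Submodule ℂ (B → ℂ)) : cjS σ.symm (cjS σ U) = U := by
  ext v
  rw [mem_cjS, mem_cjS]
  simp

theorem cjS_symm' (σ : ℂ ≃+* ℂ) (U : Submodule ℂ (B → ℂ)) : cjS σ (cjS σ.symm U) = U := by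
  ext v
  rw [mem_cjS, mem_cjS]
  simp

theorem cjS_mono {σ : ℂ ≃+* ℂ} {U W : Submodule ℂ (B → ℂ)} (h : U ≤ W) : cjS σ U ≤ cjS σ W :=
  fun _ hv => h hv

theorem cjS_bot (σ : ℂ ≃+* ℂ) : cjS σ (⊥ : Submodule ℂ (B → ℂ)) = ⊥ := by
  rw [eq_bot_iff]
  intro v hv
  rw [mem_cjS, Submodule.mem_bot] at hv
  rw [Submodule.mem_bot]
  funext i
  have h1 := congrFun hv i
  simpa using h1

theorem cjS_trans (σ τ : ℂ ≃+* ℂ) (U : Submodule ℂ (B → ℂ)) :
    cjS σ (cjS τ U) = cjS (τ.trans σ) U := by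
  ext v
  rfl

/-- The space of matrices is stable under automorphisms. -/
def Gal (L : Submodule ℂ (Matrix B B ℂ)) : Prop := ∀ (σ : ℂ ≃+* ℂ), ∀ X ∈ L, X.map σ ∈ L

theorem map_mulVec_aut (σ : ℂ ≃+* ℂ) {A : Type*} [Fintype A] (X : Matrix A B ℂ) (v : B → ℂ) :
    (fun i => σ ((X *ᵥ v) i)) = X.map σ *ᵥ fun i => σ (v i) := by
  funext i
  simp [mulVec, dotProduct]

theorem Stab.cj (hL : Gal L) {U : Submodule ℂ (B → ℂ)} (h : Stab L U) (σ : ℂ ≃+* ℂ) :
    Stab L (cjS σ U) := by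
  intro X hX u hu
  rw [mem_cjS] at hu ⊢
  rw [map_mulVec_aut σ.symm]
  exact h _ (hL σ.symm X hX) _ hu

theorem IrS.cj (hL : Gal L) {U : Submodule ℂ (B → ℂ)} (h : IrS L U) (σ : ℂ ≃+* ℂ) :
    IrS L (cjS σ U) := by
  refine ⟨fun h0 => h.1 ?_, h.2.1.cj hL σ, fun W hW hs => ?_⟩
  · rw [← cjS_symm σ U, h0, cjS_bot]
  · have h1 : cjS σ.symm W ≤ U := by
      rw [← cjS_symm σ U]
      exact cjS_mono hW
    rcases h.2.2 _ h1 (hs.cj hL σ.symm) with h2 | h2
    · left
      rw [← cjS_symm' σ W, h2, cjS_bot]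
    · right
      rw [← h2, cjS_symm']

theorem finrank_cjS (σ : ℂ ≃+* ℂ) (U : Submodule ℂ (B → ℂ)) :
    finrank ℂ (cjS σ U) = finrank ℂ U := by
  let j : cjS σ U ≃+ U :=
    { toFun := fun v => ⟨_, v.2⟩
      invFun := fun v => ⟨_, cj_mem_cjS v.2⟩
      left_inv := fun v => by
        apply Subtype.ext
        funext i
        simp
      right_inv := fun v => by
        apply Subtype.ext
        funext i
        simp
      map_add' := fun a b => by
        apply Subtype.ext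
        funext i
        exact map_add σ.symm _ _ }
  have h1 := rank_eq_of_equiv_equiv (fun x => σ.symm x) j σ.symm.bijective (fun r m => by
    apply Subtype.ext
    funext i
    exact map_mul σ.symm _ _)
  exact congrArg Cardinal.toNat h1

section cr

variable {L : Submodule ℂ (Matrix B B ℂ)}

/-- Complete reducibility. -/
def CRed (L : Submodule ℂ (Matrix B B ℂ)) : Prop := ∀ M : Submodule ℂ (B → ℂ), Stab L M →
  ∃ π : (B → ℂ) →ₗ[ℂ] (B → ℂ), (∀ X ∈ L, ∀ w, π (X *ᵥ w) = X *ᵥ π w) ∧ (∀ w, π w ∈ M) ∧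
    ∀ w ∈ M, π w = w

theorem cred_of_setup {st : End ℂ (B → ℂ) →ₗ[ℂ] End ℂ (B → ℂ)} (h : Setup (GG L) st) :
    CRed L := by
  intro M hM
  obtain ⟨π, h1, h2, h3⟩ := h.cr M (stab_GG.2 hM)
  exact ⟨π, fun X hX w => congrArg (fun f : End ℂ (B → ℂ) => f w) (h1 (ph B X) (mem_GG.2 hX)),
    h2, h3⟩

/-- A stable complement inside a stable subspace. -/
theorem CRed.compl (h : CRed L) {M Y : Submodule ℂ (B → ℂ)} (hM : Stab L M) (hY : Stab L Y)
    (hMY : M ≤ Y) : ∃ C, Stab L C ∧ C ≤ Y ∧ M ⊓ C = ⊥ ∧ M ⊔ C = Y := by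
  obtain ⟨π, h1, h2, h3⟩ := h M hM
  have hk : Stab L (LinearMap.ker π) := by
    intro X hX u hu
    rw [LinearMap.mem_ker] at hu ⊢
    rw [h1 X hX, hu, mulVec_zero]
  refine ⟨LinearMap.ker π ⊓ Y, hk.inf hY, inf_le_right, ?_, ?_⟩
  · rw [eq_bot_iff]
    rintro x ⟨hx, hx', -⟩
    rw [Submodule.mem_bot, ← h3 x hx]
    exact hx'
  · apply le_antisymm (sup_le hMY inf_le_right)
    intro y hy
    have h4 : y = π y + (y - π y) := by abel
    rw [h4]
    refine Submodule.add_mem_sup (h2 y) ⟨?_, Y.sub_mem hy (hMY (h2 y))⟩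
    change π (y - π y) = 0
    rw [map_sub, h3 _ (h2 y), sub_self]

theorem finrank_split {M C Y : Submodule ℂ (B → ℂ)} (h1 : M ⊓ C = ⊥) (h2 : M ⊔ C = Y) :
    finrank ℂ M + finrank ℂ C = finrank ℂ Y := by
  have h3 := Submodule.finrank_sup_add_finrank_inf_eq M C
  rw [h1, h2, finrank_bot, add_zero] at h3
  exact h3.symm

/-- If all irreducible submodules have the same dimension then it divides the dimension of each
stable subspace. -/
theorem CRed.dvd (h : CRed L) {n : ℕ} (hn : ∀ U, IrS L U → finrank ℂ U = n) (m : ℕ) :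
    ∀ Y : Submodule ℂ (B → ℂ), finrank ℂ Y = m → Stab L Y → n ∣ m := by
  induction m using Nat.strong_induction_on with
  | _ m ih =>
    intro Y hY hs
    by_cases h0 : Y = ⊥
    · rw [← hY, h0, finrank_bot]
      exact dvd_zero n
    obtain ⟨U, hU, hU'⟩ := exists_irS _ Y rfl h0 hs
    obtain ⟨C, hC, hCY, h1, h2⟩ := h.compl hU'.2.1 hs hU
    have h3 := finrank_split h1 h2
    have h4 := hn U hU'
    have h5 : 0 < finrank ℂ U := by
      rw [Nat.pos_iff_ne_zero, ne_eq, Submodule.finrank_eq_zero]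
      exact hU'.1
    have h6 := ih (finrank ℂ C) (by omega) C rfl hC
    rw [← hY, ← h3, h4]
    exact (Nat.dvd_add_right (dvd_refl n)).2 h6

/-- The space is spanned by the irreducible submodules. -/
theorem CRed.span (h : CRed L) : sSup {U | IrS L U} = ⊤ := by
  by_contra hne
  set S := sSup {U | IrS L U} with hS
  have hSs : Stab L S := by
    intro X hX u hu
    rw [hS, Submodule.mem_sSup_iff_exists_finset] at hu
    obtain ⟨T, hT, hu⟩ := hu
    have h1 : Stab L (⨆ U ∈ T, U) := by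
      intro X hX u hu
      induction hu using Submodule.iSup_induction' with
      | mem i x hx =>
        induction hx using Submodule.iSup_induction' with
        | mem hi x hx =>
          exact Submodule.mem_iSup_of_mem i (Submodule.mem_iSup_of_mem hi ((hT hi).2.1 X hX x hx))
        | zero =>
          rw [mulVec_zero]
          exact Submodule.zero_mem _
        | add x y _ _ hx hy =>
          rw [mulVec_add]
          exact Submodule.add_mem _ hx hy
      | zero =>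
        rw [mulVec_zero]
        exact Submodule.zero_mem _
      | add x y _ _ hx hy =>
        rw [mulVec_add]
        exact Submodule.add_mem _ hx hy
    have h2 : (⨆ U ∈ T, U) ≤ S := iSup₂_le fun U hU => le_sSup (hT hU)
    exact h2 (h1 X hX u hu)
  obtain ⟨C, hC, -, h1, h2⟩ := h.compl hSs stab_top le_top
  have hC0 : C ≠ ⊥ := by
    rintro rfl
    rw [sup_bot_eq] at h2
    exact hne h2
  obtain ⟨U, hU, hU'⟩ := exists_irS _ C rfl hC0 hC
  have h3 : U ≤ S := le_sSup hU'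
  have h4 : U ≤ S ⊓ C := le_inf h3 hU
  rw [h1] at h4
  exact hU'.1 (le_bot_iff.1 h4)

end cr

end gen

end

end Pool.Agent.Y90
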