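import Mathlib
import Pool.Agent.Y90.Bas
import Pool.Agent.W548.Odd.VG

/-!
# The Lie algebra of a period matrix
-/

set_option linter.unusedSectionVars false

namespace Pool.Agent.Y90

open Matrix Module Pool.Agent.W437.HC Pool.Agent.W437.HD Pool.Agent.W548.Odd Pool.Agent.W522.U

noncomputable section

section schur

variable {B : Type*} [Fintype B] [DecidableEq B] {L : Submodule ℂ (Matrix B B ℂ)}
  {U U' : Submodule ℂ (B → ℂ)} {T : (B → ℂ) →ₗ[ℂ] (B → ℂ)}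

/-- Equivariant maps are injective on irreducible submodules or vanish there. -/
theorem IrS.inj (hU : IrS L U) (hT : ∀ X ∈ L, ∀ u ∈ U, T (X *ᵥ u) = X *ᵥ T u)
    (h0 : ∃ u ∈ U, T u ≠ 0) : ∀ u ∈ U, T u = 0 → u = 0 := by
  have hs : Stab L (U ⊓ LinearMap.ker T) := by
    rintro X hX u ⟨hu, hu'⟩
    refine ⟨hU.2.1 X hX u hu, ?_⟩
    change T (X *ᵥ u) = 0
    rw [hT X hX u hu, LinearMap.mem_ker.1 hu', mulVec_zero]
  rcases hU.2.2 _ inf_le_left hs with h | h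
  · intro u hu hu'
    have h1 : u ∈ U ⊓ LinearMap.ker T := ⟨hu, hu'⟩
    rwa [h, Submodule.mem_bot] at h1
  · obtain ⟨u, hu, hu'⟩ := h0
    exfalso
    apply hu'
    have h1 : u ∈ U ⊓ LinearMap.ker T := by rw [h]; exact hu
    exact h1.2

theorem stab_map (hU : Stab L U) (hT : ∀ X ∈ L, ∀ u ∈ U, T (X *ᵥ u) = X *ᵥ T u) :
    Stab L (U.map T) := by
  rintro X hX _ ⟨u, hu, rfl⟩
  exact ⟨X *ᵥ u, hU X hX u hu, hT X hX u hu⟩

theorem IrS.map_eq (hU : IrS L U) (hU' : IrS L U')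
    (hT : ∀ X ∈ L, ∀ u ∈ U, T (X *ᵥ u) = X *ᵥ T u)
    (h0 : ∃ u ∈ U, T u ≠ 0) (hTU : ∀ u ∈ U, T u ∈ U') : U.map T = U' := by
  have h1 : U.map T ≤ U' := by
    rintro _ ⟨u, hu, rfl⟩
    exact hTU u hu
  rcases hU'.2.2 _ h1 (stab_map hU.2.1 hT) with h | h
  · obtain ⟨u, hu, hu'⟩ := h0
    have h2 : T u ∈ U.map T := ⟨u, hu, rfl⟩
    rw [h, Submodule.mem_bot] at h2
    exact absurd h2 hu'
  · exact h

theorem finrank_map_of_inj (h : ∀ u ∈ U, T u = 0 → u = 0) :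
    finrank ℂ (U.map T) = finrank ℂ U := by
  have h1 := LinearMap.finrank_range_of_inj (f := T.domRestrict U) (by
    rw [injective_iff_map_eq_zero]
    intro u hu
    exact Subtype.ext (h u u.2 hu))
  rw [← h1]
  have h2 : LinearMap.range (T.domRestrict U) = U.map T := by
    rw [LinearMap.range_domRestrict]
  rw [h2]

theorem IrS.disjoint (hU : IrS L U) {W : Submodule ℂ (B → ℂ)} (hW : Stab L W) (h : ¬U ≤ W) :
    U ⊓ W = ⊥ := by
  rcases hU.2.2 _ inf_le_left (hU.2.1.inf hW) with h1 | h1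
  · exact h1
  · exact absurd (inf_eq_left.1 h1) h

end schur

variable {g : ℕ}

/-- The Lie algebra generated by the conjugates of the complex structure. -/
def LZ (Z : Matrix (Fin g) (Fin g) ℂ) : Submodule ℂ (Matrix (Fin g ⊕ Fin g) (Fin g ⊕ Fin g) ℂ) :=
  LA {DZ Z}

/-- The conjugates of the complex structure. -/
def DS (Z : Matrix (Fin g) (Fin g) ℂ) (σ : ℂ ≃+* ℂ) : Matrix (Fin g ⊕ Fin g) (Fin g ⊕ Fin g) ℂ :=
  (DZ Z).map σ

variable {Z : Matrix (Fin g) (Fin g) ℂ}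

theorem DS_mem (σ : ℂ ≃+* ℂ) : DS Z σ ∈ LZ Z := LA_gen (Set.mem_singleton _) (rlm (σ : ℂ →+* ℂ))

theorem DZ_mem : DZ Z ∈ LZ Z := LA_self (Set.mem_singleton _)

theorem map_mem (f : ℂ →ₗ[ℚ] ℂ) : (DZ Z).map f ∈ LZ Z := LA_gen (Set.mem_singleton _) f

theorem LZ_br {X Y : Matrix (Fin g ⊕ Fin g) (Fin g ⊕ Fin g) ℂ} (hX : X ∈ LZ Z) (hY : Y ∈ LZ Z) :
    X * Y - Y * X ∈ LZ Z := LA_br hX hY

theorem DS_sq (hY : IsUnit (imM Z).det) (σ : ℂ ≃+* ℂ) : DS Z σ * DS Z σ = 1 := by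
  unfold DS
  rw [← Matrix.map_mul, DZ_sq hY, Matrix.map_one _ (map_zero σ) (map_one σ)]

theorem gal_LZ : Gal (LZ Z) := fun σ _ hX => LA_aut (σ : ℂ →+* ℂ) hX

theorem DS_map (σ τ : ℂ ≃+* ℂ) : (DS Z σ).map τ = DS Z (σ.trans τ) := by
  unfold DS
  ext i j
  rfl

/-- Induction over the Lie algebra. -/
theorem LZ_le {L : Submodule ℂ (Matrix (Fin g ⊕ Fin g) (Fin g ⊕ Fin g) ℂ)}
    (h1 : ∀ σ : ℂ ≃+* ℂ, DS Z σ ∈ L) (h2 : ∀ A ∈ L, ∀ C ∈ L, A * C - C * A ∈ L) : LZ Z ≤ L := by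
  refine LA_le_of_conj (fun d hd σ => ?_) h2
  rw [Set.mem_singleton_iff.1 hd]
  exact h1 σ

theorem img_eq : ({DZ Z} : Set (Matrix (Fin g ⊕ Fin g) (Fin g ⊕ Fin g) ℂ)) = DZ '' {Z} :=
  Set.image_singleton.symm

/-- The assumptions on a period matrix. -/
structure PM (Z : Matrix (Fin g) (Fin g) ℂ) : Prop where
  symm : Zᵀ = Z
  pos : (imM Z).PosDef

namespace PM

variable (h : PM Z)
include h

theorem det : IsUnit (imM Z).det := h.pos.isUnit.map Matrix.detMonoidHom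

theorem isPer : IsPer {Z} := by
  intro Z' hZ'
  rw [Set.mem_singleton_iff.1 hZ']
  exact ⟨h.symm, h.pos⟩

theorem setup : Setup (GG (LZ Z)) (stE (Om g ℂ)) := by
  obtain ⟨S, Si, H⟩ := hermZ h.isPer (Set.mem_singleton Z)
  rw [← img_eq] at H
  exact H.setup

theorem genI : GenI (GG (LZ Z)) := h.setup.gen

theorem cred : CRed (LZ Z) := cred_of_setup h.setup

theorem sp {X : Matrix (Fin g ⊕ Fin g) (Fin g ⊕ Fin g) ℂ} (hX : X ∈ LZ Z) :
    Xᵀ * Om g ℂ + Om g ℂ * X = 0 := by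
  refine sp_LA h.isPer ?_
  rw [← img_eq]
  exact hX

end PM

/-- The symplectic form. -/
def om (g : ℕ) : (Fin g ⊕ Fin g → ℂ) →ₗ[ℂ] (Fin g ⊕ Fin g → ℂ) →ₗ[ℂ] ℂ := wwL (Om g ℂ)

theorem om_apply (u v : Fin g ⊕ Fin g → ℂ) : om g u v = u ⬝ᵥ (Om g ℂ *ᵥ v) := rfl

theorem om_self (u : Fin g ⊕ Fin g → ℂ) : om g u u = 0 := ww_self (Om_transpose ℂ) u

theorem om_nd (u : Fin g ⊕ Fin g → ℂ) (hu : ∀ v, om g u v = 0) : u = 0 := by
  have h1 : ∀ w : Fin g ⊕ Fin g → ℂ, u ⬝ᵥ w = 0 := by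
    intro w
    have h2 := hu (-(Om g ℂ *ᵥ w))
    rwa [om_apply, mulVec_neg, mulVec_mulVec, Om_sq, neg_mulVec, neg_neg, one_mulVec] at h2
  exact dotProduct_eq_zero_iff.1 h1

theorem om_anti (u v : Fin g ⊕ Fin g → ℂ) : om g u v = -om g v u := by
  have h1 := om_self (u + v)
  simp only [map_add, LinearMap.add_apply, om_self, zero_add, add_zero] at h1
  linear_combination h1

theorem PM.om_sp (h : PM Z) {X : Matrix (Fin g ⊕ Fin g) (Fin g ⊕ Fin g) ℂ} (hX : X ∈ LZ Z)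
    (u v : Fin g ⊕ Fin g → ℂ) : om g (X *ᵥ u) v + om g u (X *ᵥ v) = 0 := by
  have h1 := h.sp hX
  rw [om_apply, om_apply, mulVec_mulVec, ← vecMul_transpose, ← dotProduct_mulVec,
    mulVec_mulVec, ← dotProduct_add, ← add_mulVec, h1, zero_mulVec, dotProduct_zero]

theorem om_conj (σ : ℂ ≃+* ℂ) (u v : Fin g ⊕ Fin g → ℂ) :
    σ (om g u v) = om g (fun i => σ (u i)) (fun i => σ (v i)) := by
  rw [om_apply, om_apply]
  have h1 : (Om g ℂ).map σ = Om g ℂ := Om_aut (σ : ℂ →+* ℂ)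
  have h2 := map_mulVec_aut σ (Om g ℂ) v
  rw [h1] at h2
  rw [← h2]
  simp [dotProduct]

/-- Complex conjugation. -/
def cc : ℂ ≃+* ℂ := starRingAut

theorem cc_apply (z : ℂ) : cc z = starRingEnd ℂ z := rfl

theorem cc_symm : cc.symm = cc := rfl

theorem DZ_conj : (DZ Z).map cc = -DZ Z := by
  ext i j
  change starRingEnd ℂ (-Complex.I * ((JR Z i j : ℝ) : ℂ)) = -(-Complex.I * ((JR Z i j : ℝ) : ℂ))
  simp

/-- The eigenspaces of the complex structure. -/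
def eig (Z : Matrix (Fin g) (Fin g) ℂ) (c : ℂ) : Submodule ℂ (Fin g ⊕ Fin g → ℂ) where
  carrier := {v | DZ Z *ᵥ v = c • v}
  add_mem' := by
    intro a b ha hb
    change DZ Z *ᵥ (a + b) = c • (a + b)
    rw [mulVec_add, ha, hb, smul_add]
  zero_mem' := by
    change DZ Z *ᵥ 0 = c • 0
    rw [mulVec_zero, smul_zero]
  smul_mem' := by
    intro a v hv
    change DZ Z *ᵥ (a • v) = c • a • v
    rw [mulVec_smul, hv, smul_comm]

theorem mem_eig {c : ℂ} {v : Fin g ⊕ Fin g → ℂ} : v ∈ eig Z c ↔ DZ Z *ᵥ v = c • v := Iff.rfl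

theorem cjS_eig : cjS cc (eig Z 1) = eig Z (-1) := by
  have key : ∀ (c : ℂ) (v : Fin g ⊕ Fin g → ℂ), cc c = c → DZ Z *ᵥ v = c • v →
      DZ Z *ᵥ (fun i => cc (v i)) = (-c) • fun i => cc (v i) := by
    intro c v hc hv
    have h1 := map_mulVec_aut cc (DZ Z) v
    rw [DZ_conj, neg_mulVec] at h1
    have h2 : DZ Z *ᵥ (fun i => cc (v i)) = -fun i => cc ((DZ Z *ᵥ v) i) := by rw [h1, neg_neg]
    rw [h2, hv]
    funext i
    simp only [Pi.neg_apply, Pi.smul_apply, smul_eq_mul, map_mul, hc]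
    ring
  ext v
  rw [mem_cjS, mem_eig, mem_eig, cc_symm]
  constructor
  · intro h
    have h1 := key 1 _ (map_one cc) h
    have h2 : (fun i => cc (cc (v i))) = v := by
      funext i
      exact Complex.conj_conj _
    rwa [h2] at h1
  · intro h
    have h1 := key (-1) _ (by rw [map_neg, map_one]) h
    rwa [neg_neg] at h1

theorem eig_inf (c d : ℂ) (hcd : c ≠ d) : eig Z c ⊓ eig Z d = ⊥ := by
  rw [eq_bot_iff]
  rintro v ⟨h1, h2⟩
  have h3 : c • v = d • v := by rw [← mem_eig.1 h1, ← mem_eig.1 h2]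
  rw [← sub_eq_zero, ← sub_smul, smul_eq_zero, sub_eq_zero] at h3
  exact h3.resolve_left hcd

theorem eig_sup (h : PM Z) : eig Z 1 ⊔ eig Z (-1) = ⊤ := by
  rw [eq_top_iff]
  intro v _
  have h2 : DZ Z *ᵥ (DZ Z *ᵥ v) = v := by rw [mulVec_mulVec, DZ_sq h.det, one_mulVec]
  have h1 : v = (1 / 2 : ℂ) • (v + DZ Z *ᵥ v) + (1 / 2 : ℂ) • (v - DZ Z *ᵥ v) := by module
  rw [h1]
  refine Submodule.add_mem_sup ?_ ?_
  · rw [mem_eig, mulVec_smul, mulVec_add, h2]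
    module
  · rw [mem_eig, mulVec_smul, mulVec_sub, h2]
    module

theorem finrank_eig (h : PM Z) : finrank ℂ (eig Z 1) = g ∧ finrank ℂ (eig Z (-1)) = g := by
  have h1 := Submodule.finrank_sup_add_finrank_inf_eq (eig Z 1) (eig Z (-1))
  have h3 : (1 : ℂ) ≠ -1 := by norm_num
  rw [eig_sup h, eig_inf 1 (-1) h3, finrank_bot, finrank_top, Module.finrank_fintype_fun_eq_card,
    Fintype.card_sum, Fintype.card_fin] at h1
  have h2 := finrank_cjS cc (eig Z 1)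
  rw [cjS_eig] at h2
  omega

/-- The eigenspaces are isotropic. -/
theorem eig_iso (h : PM Z) {c : ℂ} (hc : c ≠ 0) {u v : Fin g ⊕ Fin g → ℂ} (hu : u ∈ eig Z c)
    (hv : v ∈ eig Z c) : om g u v = 0 := by
  have h1 := h.om_sp DZ_mem u v
  rw [mem_eig.1 hu, mem_eig.1 hv, map_smul, map_smul, LinearMap.smul_apply, smul_eq_mul] at h1
  have h2 : (2 * c) * om g u v = 0 := by linear_combination h1
  exact (mul_eq_zero.1 h2).resolve_left (mul_ne_zero two_ne_zero hc)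

section simple

/-- The conjugates of a stable subspace span the space if the variety is simple. -/
theorem conj_span (h : PM Z) (hs : IsSimpleAV Z) {U : Submodule ℂ (Fin g ⊕ Fin g → ℂ)}
    (hU : Stab (LZ Z) U) (h0 : U ≠ ⊥) : ⨆ σ : ℂ ≃+* ℂ, cjS σ U = ⊤ := by
  refine stable_eq_top h.det hs _ (fun σ v hv => ?_) (fun v hv => ?_) ?_
  · induction hv using Submodule.iSup_induction' with
    | mem τ x hx =>
      refine Submodule.mem_iSup_of_mem (τ.trans σ) ?_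
      rw [← cjS_trans]
      exact cj_mem_cjS hx
    | zero =>
      have h1 : (fun i => σ ((0 : Fin g ⊕ Fin g → ℂ) i)) = 0 := by
        funext i
        exact map_zero σ
      rw [h1]
      exact Submodule.zero_mem _
    | add x y _ _ hx hy =>
      have h1 : (fun i => σ ((x + y) i)) = (fun i => σ (x i)) + fun i => σ (y i) := by
        funext i
        exact map_add σ _ _
      rw [h1]
      exact Submodule.add_mem _ hx hy
  · induction hv using Submodule.iSup_induction' with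
    | mem τ x hx => exact Submodule.mem_iSup_of_mem τ (hU.cj gal_LZ τ _ DZ_mem x hx)
    | zero =>
      rw [mulVec_zero]
      exact Submodule.zero_mem _
    | add x y _ _ hx hy =>
      rw [mulVec_add]
      exact Submodule.add_mem _ hx hy
  · intro h1
    apply h0
    have h2 : cjS (RingEquiv.refl ℂ) U ≤ ⨆ σ : ℂ ≃+* ℂ, cjS σ U :=
      le_iSup (fun σ : ℂ ≃+* ℂ => cjS σ U) (RingEquiv.refl ℂ)
    rw [h1] at h2
    have h3 : cjS (RingEquiv.refl ℂ) U = U := by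
      ext v
      rfl
    rwa [h3, le_bot_iff] at h2

/-- All irreducible submodules have the same dimension if the variety is simple. -/
theorem finrank_irS (h : PM Z) (hs : IsSimpleAV Z) {U U' : Submodule ℂ (Fin g ⊕ Fin g → ℂ)}
    (hU : IrS (LZ Z) U) (hU' : IrS (LZ Z) U') : finrank ℂ U = finrank ℂ U' := by
  obtain ⟨π, h1, h2, h3⟩ := h.cred U' hU'.2.1
  obtain ⟨σ, u, hu, hu'⟩ : ∃ σ : ℂ ≃+* ℂ, ∃ u ∈ cjS σ U, π u ≠ 0 := by
    by_contra hcon
    push Not at hcon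
    have h4 : ⨆ σ : ℂ ≃+* ℂ, cjS σ U ≤ LinearMap.ker π := iSup_le fun σ u hu => hcon σ u hu
    rw [conj_span h hs hU.2.1 hU.1, top_le_iff] at h4
    apply hU'.1
    rw [eq_bot_iff]
    intro x hx
    have h5 : x ∈ LinearMap.ker π := by rw [h4]; trivial
    rw [Submodule.mem_bot, ← h3 x hx]
    exact h5
  have hc := hU.cj gal_LZ σ
  have hT : ∀ X ∈ LZ Z, ∀ u ∈ cjS σ U, π (X *ᵥ u) = X *ᵥ π u := fun X hX u _ => h1 X hX u
  rw [← finrank_cjS σ U, ← finrank_map_of_inj (hc.inj hT ⟨u, hu, hu'⟩),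
    hc.map_eq hU' hT ⟨u, hu, hu'⟩ (fun u _ => h2 u)]

/-- The dimension of the irreducible submodules divides twice the dimension. -/
theorem finrank_dvd (h : PM Z) (hs : IsSimpleAV Z) {U : Submodule ℂ (Fin g ⊕ Fin g → ℂ)}
    (hU : IrS (LZ Z) U) : finrank ℂ U ∣ 2 * g := by
  refine h.cred.dvd (fun U' hU' => finrank_irS h hs hU' hU) (2 * g) ⊤ ?_ stab_top
  rw [finrank_top, Module.finrank_fintype_fun_eq_card, Fintype.card_sum, Fintype.card_fin]
  ring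

end simple

end

end Pool.Agent.Y90
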