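import Mathlib
import Pool.Agent.Y90.Ppav

/-!
# Irreducible submodules for simple abelian varieties of small dimension
-/

set_option linter.unusedSectionVars false

namespace Pool.Agent.Y90

open Matrix Module Pool.Agent.W437.HC Pool.Agent.W437.HD Pool.Agent.W548.Odd

noncomputable section

section comm

variable {B : Type*} [Fintype B] [DecidableEq B] {L : Submodule ℂ (Matrix B B ℂ)}
  {U : Submodule ℂ (B → ℂ)}

/-- Irreducible submodules of a commutative algebra are lines. -/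
theorem finrank_one_of_comm (hL : ∀ X ∈ L, ∀ Y ∈ L, X * Y = Y * X) (hU : IrS L U) :
    finrank ℂ U = 1 := by
  have hsc : ∀ X ∈ L, ∃ c : ℂ, ∀ u ∈ U, X *ᵥ u = c • u := by
    intro X hX
    let f : End ℂ U := (mulVecLin X).restrict (hU.2.1 X hX)
    have hnt : Nontrivial U := Submodule.nontrivial_iff_ne_bot.2 hU.1
    obtain ⟨c, hc⟩ := Module.End.exists_eigenvalue f
    obtain ⟨v, hv⟩ := hc.exists_hasEigenvector
    let W : Submodule ℂ (B → ℂ) := U ⊓ LinearMap.ker (mulVecLin X - c • LinearMap.id)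
    have hW : Stab L W := by
      rintro Y hY u ⟨hu, hu'⟩
      refine ⟨hU.2.1 Y hY u hu, ?_⟩
      have h1 : X *ᵥ u - c • u = 0 := hu'
      change X *ᵥ (Y *ᵥ u) - c • (Y *ᵥ u) = 0
      rw [mulVec_mulVec, hL X hX Y hY, ← mulVec_mulVec, ← mulVec_smul, ← mulVec_sub, h1,
        mulVec_zero]
    rcases hU.2.2 W inf_le_left hW with h | h
    · exfalso
      have h1 : (v : B → ℂ) ∈ W := by
        refine ⟨v.2, ?_⟩
        change X *ᵥ (v : B → ℂ) - c • (v : B → ℂ) = 0
        have h2 := congrArg Subtype.val hv.apply_eq_smul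
        have h3 : X *ᵥ (v : B → ℂ) = c • (v : B → ℂ) := h2
        rw [h3, sub_self]
      rw [h, Submodule.mem_bot] at h1
      exact hv.2 (Subtype.ext h1)
    · refine ⟨c, fun u hu => ?_⟩
      rw [← h] at hu
      exact sub_eq_zero.1 hu.2
  obtain ⟨v, hv, hv0⟩ := Submodule.exists_mem_ne_zero_of_ne_bot hU.1
  have hs : Stab L (Submodule.span ℂ {v}) := by
    intro X hX u hu
    obtain ⟨c, hc⟩ := hsc X hX
    have h1 : Submodule.span ℂ {v} ≤ U := by
      rw [Submodule.span_singleton_le_iff_mem]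
      exact hv
    rw [hc u (h1 hu)]
    exact Submodule.smul_mem _ _ hu
  rcases hU.2.2 _ (by rw [Submodule.span_singleton_le_iff_mem]; exact hv) hs with h | h
  · rw [Submodule.span_singleton_eq_bot] at h
    exact absurd h hv0
  · rw [← h]
    exact finrank_span_singleton hv0

end comm

variable {g : ℕ} {Z : Matrix (Fin g) (Fin g) ℂ}

/-- If the complex structure commutes with the Lie algebra then it is commutative. -/
theorem comm_of_D (h : ∀ X ∈ LZ Z, X * DZ Z = DZ Z * X) : ∀ X ∈ LZ Z, ∀ Y ∈ LZ Z,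
    X * Y = Y * X := by
  have h1 : ∀ X ∈ LZ Z, ∀ σ : ℂ ≃+* ℂ, X * DS Z σ = DS Z σ * X := by
    intro X hX σ
    have h2 := h _ (gal_LZ σ.symm X hX)
    have h3 := congrArg (fun M : Matrix (Fin g ⊕ Fin g) (Fin g ⊕ Fin g) ℂ => M.map σ) h2
    simp only [Matrix.map_mul] at h3
    have h4 : (X.map σ.symm).map σ = X := by
      ext i j
      simp
    rwa [h4] at h3
  intro X hX
  let C : Submodule ℂ (Matrix (Fin g ⊕ Fin g) (Fin g ⊕ Fin g) ℂ) :=
    { carrier := {Y | ∀ X ∈ LZ Z, X * Y = Y * X}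
      add_mem' := fun {a b} ha hb X hX => by rw [mul_add, add_mul, ha X hX, hb X hX]
      zero_mem' := fun X _ => by rw [mul_zero, zero_mul]
      smul_mem' := fun c a ha X hX => by rw [mul_smul_comm, smul_mul_assoc, ha X hX] }
  have h5 : LZ Z ≤ C := by
    refine LZ_le (fun σ X hX => h1 X hX σ) (fun A hA A' hA' X hX => ?_)
    rw [mul_sub, sub_mul, ← mul_assoc, ← mul_assoc, hA X hX, hA' X hX, mul_assoc, mul_assoc,
      hA' X hX, hA X hX, mul_assoc, mul_assoc]
  exact fun Y hY => h5 hY X hX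

theorem mem_LZ_decomp (h : PM Z) (v : Fin g ⊕ Fin g → ℂ) :
    ∃ a ∈ eig Z 1, ∃ b ∈ eig Z (-1), v = a + b := by
  have h1 : v ∈ eig Z 1 ⊔ eig Z (-1) := by
    rw [eig_sup h]
    trivial
  obtain ⟨a, ha, b, hb, hab⟩ := Submodule.mem_sup.1 h1
  exact ⟨a, ha, b, hb, hab.symm⟩

theorem cjS_cc {B : Type*} [Fintype B] [DecidableEq B] (U : Submodule ℂ (B → ℂ)) :
    cjS cc (cjS cc U) = U := cjS_symm cc U

theorem cjS_eig' : cjS cc (eig Z (-1)) = eig Z 1 := by
  rw [← cjS_eig, cjS_cc]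

/-- If an eigenspace of the complex structure is stable then the Lie algebra is commutative. -/
theorem comm_of_stab (h : PM Z) {c : ℂ} (hc : c = 1 ∨ c = -1) (hs : Stab (LZ Z) (eig Z c)) :
    ∀ X ∈ LZ Z, ∀ Y ∈ LZ Z, X * Y = Y * X := by
  have hboth : Stab (LZ Z) (eig Z 1) ∧ Stab (LZ Z) (eig Z (-1)) := by
    have h1 : cjS cc (eig Z (-1)) = eig Z 1 := cjS_eig'
    rcases hc with rfl | rfl
    · refine ⟨hs, ?_⟩
      rw [← cjS_eig]
      exact hs.cj gal_LZ cc
    · refine ⟨?_, hs⟩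
      rw [← h1]
      exact hs.cj gal_LZ cc
  refine comm_of_D fun X hX => ?_
  apply Matrix.toLin'.injective
  refine LinearMap.ext fun v => ?_
  rw [toLin'_apply, toLin'_apply, ← mulVec_mulVec, ← mulVec_mulVec]
  obtain ⟨a, ha, b, hb, rfl⟩ := mem_LZ_decomp h v
  have h2 := hboth.1 X hX a ha
  have h3 := hboth.2 X hX b hb
  rw [mem_eig] at ha hb h2 h3
  rw [mulVec_add, mulVec_add, mulVec_add, mulVec_add, ha, hb, h2, h3, mulVec_smul, mulVec_smul]

theorem om_nd' {U W : Submodule ℂ (Fin g ⊕ Fin g → ℂ)} (htop : U ⊔ W = ⊤)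
    {u : Fin g ⊕ Fin g → ℂ} (h1 : ∀ v ∈ U, om g u v = 0) (h2 : ∀ v ∈ W, om g u v = 0) : u = 0 := by
  refine om_nd u fun v => ?_
  have h3 : v ∈ U ⊔ W := by
    rw [htop]
    trivial
  obtain ⟨a, ha, b, hb, rfl⟩ := Submodule.mem_sup.1 h3
  rw [map_add, h1 a ha, h2 b hb, add_zero]

/-- A nonzero invariant pairing transports scalars. -/
theorem scalar_of_pair (h : PM Z) {U W : Submodule ℂ (Fin g ⊕ Fin g → ℂ)} (hU : IrS (LZ Z) U)
    (hW : Stab (LZ Z) W) {c : ℂ} (hc : ∀ w ∈ W, DZ Z *ᵥ w = c • w)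
    (h0 : ∃ u ∈ U, ∃ w ∈ W, om g u w ≠ 0) : ∀ u ∈ U, DZ Z *ᵥ u = (-c) • u := by
  have hs : Stab (LZ Z) (U ⊓ { carrier := {u | ∀ w ∈ W, om g u w = 0}
                               add_mem' := fun ha hb w hw => by
                                 rw [map_add, LinearMap.add_apply, ha w hw, hb w hw, add_zero]
                               zero_mem' := fun w _ => by rw [map_zero, LinearMap.zero_apply]
                               smul_mem' := fun c a ha w hw => by
                                 rw [map_smul, LinearMap.smul_apply, ha w hw, smul_zero] }) := by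
    rintro X hX u ⟨hu, hu'⟩
    refine ⟨hU.2.1 X hX u hu, fun w hw => ?_⟩
    have h1 := h.om_sp hX u w
    rw [hu' _ (hW X hX w hw), add_zero] at h1
    exact h1
  rcases hU.2.2 _ inf_le_left hs with h1 | h1
  · intro u hu
    have h2 : DZ Z *ᵥ u + c • u ∈ (⊥ : Submodule ℂ (Fin g ⊕ Fin g → ℂ)) := by
      rw [← h1]
      refine ⟨U.add_mem (hU.2.1 _ DZ_mem u hu) (U.smul_mem c hu), fun w hw => ?_⟩
      have h3 := h.om_sp DZ_mem u w
      rw [hc w hw, map_smul] at h3
      rw [map_add, LinearMap.add_apply, map_smul, LinearMap.smul_apply]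
      exact h3
    rw [Submodule.mem_bot] at h2
    rw [neg_smul]
    exact eq_neg_of_add_eq_zero_left h2
  · obtain ⟨u, hu, w, hw, huw⟩ := h0
    rw [← h1] at hu
    exact absurd (hu.2 w hw) huw

/-- The complex structure and its conjugates do not act by scalars on irreducible submodules of
dimension at least two. -/
theorem nonscalar (h : PM Z) (hs : IsSimpleAV Z) (hg : g ≤ 3)
    {U : Submodule ℂ (Fin g ⊕ Fin g → ℂ)} (hU : IrS (LZ Z) U) (hn : 2 ≤ finrank ℂ U)
    (σ : ℂ ≃+* ℂ) (c : ℂ) : ∃ u ∈ U, DS Z σ *ᵥ u ≠ c • u := by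
  by_contra hcon
  push Not at hcon
  -- a conjugate on which the complex structure is scalar
  obtain ⟨F, hF, hFn, ε, hε⟩ : ∃ F : Submodule ℂ (Fin g ⊕ Fin g → ℂ), IrS (LZ Z) F ∧
      finrank ℂ F = finrank ℂ U ∧ ∃ ε : ℂ, ∀ u ∈ F, DZ Z *ᵥ u = ε • u := by
    refine ⟨cjS σ.symm U, hU.cj gal_LZ _, finrank_cjS _ _, σ.symm c, fun u hu => ?_⟩
    rw [mem_cjS] at hu
    have h1 := hcon _ hu
    have h2 : (fun i => σ.symm ((DS Z σ *ᵥ fun i => σ.symm.symm (u i)) i)) =
        fun i => σ.symm ((c • fun i => σ.symm.symm (u i)) i) := by rw [h1]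
    rw [map_mulVec_aut σ.symm] at h2
    have h3 : (DS Z σ).map σ.symm = DZ Z := by
      ext i j
      simp [DS]
    rw [h3] at h2
    have h4 : (fun i => σ.symm (σ.symm.symm (u i))) = u := by
      funext i
      simp
    rw [h4] at h2
    rw [h2]
    funext i
    simp
  have hε1 : ε = 1 ∨ ε = -1 := by
    obtain ⟨v, hv, hv0⟩ := Submodule.exists_mem_ne_zero_of_ne_bot hF.1
    have h2 : DZ Z *ᵥ (DZ Z *ᵥ v) = v := by rw [mulVec_mulVec, DZ_sq h.det, one_mulVec]
    rw [hε v hv, mulVec_smul, hε v hv, smul_smul] at h2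
    have h3 : (ε * ε - 1) • v = 0 := by rw [sub_smul, h2, one_smul, sub_self]
    have h4 := (smul_eq_zero.1 h3).resolve_right hv0
    have h5 : (ε - 1) * (ε + 1) = 0 := by linear_combination h4
    rcases mul_eq_zero.1 h5 with h6 | h6
    · exact Or.inl (sub_eq_zero.1 h6)
    · exact Or.inr (eq_neg_of_add_eq_zero_left h6)
  have hFe : F ≤ eig Z ε := fun u hu => hε u hu
  have heg : finrank ℂ (eig Z ε) = g := by
    rcases hε1 with rfl | rfl
    · exact (finrank_eig h).1
    · exact (finrank_eig h).2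
  have hle := Submodule.finrank_mono hFe
  rw [heg] at hle
  have hdvd := finrank_dvd h hs hF
  rw [← hFn] at hn
  by_cases hng : finrank ℂ F = g
  · have h1 : F = eig Z ε := Submodule.eq_of_le_of_finrank_eq hFe (by rw [hng, heg])
    have h2 := finrank_one_of_comm (comm_of_stab h hε1 (by rw [← h1]; exact hF.2.1)) hF
    omega
  · -- the case of dimension three
    have hg3 : g = 3 := by omega
    subst hg3
    have hF2 : finrank ℂ F = 2 := by omega
    set F' := cjS cc F with hF'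
    have hF'i : IrS (LZ Z) F' := hF.cj gal_LZ cc
    have hF'e : ∀ u ∈ F', DZ Z *ᵥ u = (-ε) • u := by
      intro u hu
      have hu1 : (fun i => cc (u i)) ∈ eig Z ε := hFe hu
      have hcj : cjS cc (eig Z ε) = eig Z (-ε) := by
        rcases hε1 with rfl | rfl
        · exact cjS_eig
        · rw [neg_neg]
          exact cjS_eig'
      have h1 : u ∈ cjS cc (eig Z ε) := hu1
      rw [hcj] at h1
      exact h1
    have hε0 : ε ≠ 0 := by
      rcases hε1 with rfl | rfl
      · exact one_ne_zero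
      · exact neg_ne_zero.2 one_ne_zero
    have hdis : F ⊓ F' = ⊥ := by
      rw [eq_bot_iff]
      rintro x ⟨hx, hx'⟩
      have h1 : ε • x = (-ε) • x := by rw [← hε x hx, hF'e x hx']
      have h2 : (2 * ε) • x = 0 := by
        have h3 : (2 * ε) • x = ε • x - (-ε) • x := by module
        rw [h3, h1, sub_self]
      rw [Submodule.mem_bot]
      exact (smul_eq_zero.1 h2).resolve_left (mul_ne_zero two_ne_zero hε0)
    have hdim : finrank ℂ (F ⊔ F' : Submodule ℂ (Fin 3 ⊕ Fin 3 → ℂ)) = 4 := by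
      have h1 := Submodule.finrank_sup_add_finrank_inf_eq F F'
      rw [hdis, finrank_bot, finrank_cjS, hF2] at h1
      omega
    have hV : finrank ℂ (⊤ : Submodule ℂ (Fin 3 ⊕ Fin 3 → ℂ)) = 6 := by
      rw [finrank_top, Module.finrank_fintype_fun_eq_card]
      rfl
    obtain ⟨τ, hτ⟩ : ∃ τ : ℂ ≃+* ℂ, ¬cjS τ F ≤ F ⊔ F' := by
      by_contra hcon2
      push Not at hcon2
      have h1 := iSup_le hcon2
      rw [conj_span h hs hF.2.1 hF.1, top_le_iff] at h1
      rw [h1, hV] at hdim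
      omega
    set F1 := cjS τ F with hF1
    have hF1i : IrS (LZ Z) F1 := hF.cj gal_LZ τ
    have hdis1 : F1 ⊓ (F ⊔ F') = ⊥ := hF1i.disjoint (hF.2.1.sup hF'i.2.1) hτ
    have htop : F1 ⊔ (F ⊔ F') = ⊤ := by
      apply Submodule.eq_top_of_finrank_eq
      have h1 := Submodule.finrank_sup_add_finrank_inf_eq F1 (F ⊔ F')
      rw [hdis1, finrank_bot, finrank_cjS, hF2, hdim] at h1
      rw [Module.finrank_fintype_fun_eq_card]
      change _ = 6
      omega
    -- the form vanishes on `F1`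
    have hiso : ∀ u ∈ F1, ∀ v ∈ F1, om 3 u v = 0 := by
      intro u hu v hv
      have h1 : om 3 (fun i => τ.symm (u i)) (fun i => τ.symm (v i)) = 0 :=
        eig_iso h hε0 (hFe hu) (hFe hv)
      rw [← om_conj τ.symm] at h1
      exact (map_eq_zero_iff τ.symm τ.symm.injective).1 h1
    obtain ⟨f, hf, hf0⟩ := Submodule.exists_mem_ne_zero_of_ne_bot hF1i.1
    have hpair : ∃ F'' : Submodule ℂ (Fin 3 ⊕ Fin 3 → ℂ), (F'' = F ∨ F'' = F') ∧
        ∃ w ∈ F'', om 3 f w ≠ 0 := by
      by_contra hcon2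
      push Not at hcon2
      apply hf0
      refine om_nd' htop (fun v hv => hiso f hf v hv) (fun v hv => ?_)
      obtain ⟨a, ha, b, hb, rfl⟩ := Submodule.mem_sup.1 hv
      rw [map_add, hcon2 F (Or.inl rfl) a ha, hcon2 F' (Or.inr rfl) b hb, add_zero]
    -- then the complex structure is scalar on `F1`
    have hsc : ∃ c : ℂ, (c = ε ∨ c = -ε) ∧ ∀ u ∈ F1, DZ Z *ᵥ u = c • u := by
      obtain ⟨F'', h1 | h1, w, hw, hfw⟩ := hpair
      · refine ⟨-ε, Or.inr rfl, ?_⟩
        rw [h1] at hw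
        exact scalar_of_pair h hF1i hF.2.1 hε ⟨f, hf, w, hw, hfw⟩
      · refine ⟨ε, Or.inl rfl, ?_⟩
        rw [h1] at hw
        have h2 := scalar_of_pair h hF1i hF'i.2.1 hF'e ⟨f, hf, w, hw, hfw⟩
        rwa [neg_neg] at h2
    obtain ⟨c, hc, hcF⟩ := hsc
    have h5 : ∃ F2 : Submodule ℂ (Fin 3 ⊕ Fin 3 → ℂ), finrank ℂ F2 = 2 ∧ F2 ≤ F ⊔ F' ∧
        ∀ u ∈ F2, DZ Z *ᵥ u = c • u := by
      rcases hc with rfl | rfl
      · exact ⟨F, hF2, le_sup_left, hε⟩
      · exact ⟨F', by rw [hF', finrank_cjS, hF2], le_sup_right, hF'e⟩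
    obtain ⟨F2, h6, h7, h8⟩ := h5
    have h9 : F1 ⊔ F2 ≤ eig Z c := sup_le hcF h8
    have h10 : F1 ⊓ F2 = ⊥ := by
      rw [eq_bot_iff, ← hdis1]
      exact inf_le_inf_left _ h7
    have h11 := Submodule.finrank_sup_add_finrank_inf_eq F1 F2
    rw [h10, finrank_bot, finrank_cjS, hF2, h6] at h11
    have h12 := Submodule.finrank_mono h9
    have h13 : finrank ℂ (eig Z c) = 3 := by
      rcases hc with rfl | rfl
      · exact heg
      · rcases hε1 with rfl | rfl
        · exact (finrank_eig h).2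
        · rw [neg_neg]
          exact (finrank_eig h).1
    omega

end

end Pool.Agent.Y90
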