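import Mathlib
import Pool.Agent.Y90.Pie1
import Pool.Agent.W437.HQ.Mod

/-!
# Elements of rank one
-/

set_option linter.unusedSectionVars false

namespace Pool.Agent.Y90

open Matrix Module Pool.Agent.W437.HC Pool.Agent.W437.HD Pool.Agent.W548.Odd Pool.Agent.W437.HP
  Pool.Agent.W437.HQ

noncomputable section

variable {g : ℕ} {Z : Matrix (Fin g) (Fin g) ℂ}

/-- An element of degree one for an involution, with rank one on the subspace. -/
def Rk1 (Z : Matrix (Fin g) (Fin g) ℂ) (U : Submodule ℂ (Fin g ⊕ Fin g → ℂ)) : Prop :=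
  ∃ D, (D = DZ Z ∨ D = -DZ Z) ∧ ∃ N ∈ LZ Z, D * N = N ∧ N * D = -N ∧
    finrank ℂ (U.map (mulVecLin N)) = 1

theorem up_mem (h : PM Z) {y : Matrix (Fin g ⊕ Fin g) (Fin g ⊕ Fin g) ℂ} (hy : y ∈ LZ Z) :
    (1 / 4 : ℂ) • ((1 + DZ Z) * y * (1 - DZ Z)) ∈ LZ Z := by
  have h1 := h.setup.idl.up (D := ph _ (DZ Z)) (mem_GG.2 DZ_mem) (by
    rw [← map_mul, DZ_sq h.det, map_one]) (mem_GG.2 hy)
  refine Submodule.smul_mem _ _ ?_
  rw [← map_one (ph (Fin g ⊕ Fin g)), ← map_add, ← map_sub, ← map_mul, ← map_mul, mem_GG] at h1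
  exact h1

theorem dn_mem (h : PM Z) {y : Matrix (Fin g ⊕ Fin g) (Fin g ⊕ Fin g) ℂ} (hy : y ∈ LZ Z) :
    (1 / 4 : ℂ) • ((1 - DZ Z) * y * (1 + DZ Z)) ∈ LZ Z := by
  have h1 := h.setup.idl.dn (D := ph _ (DZ Z)) (mem_GG.2 DZ_mem) (by
    rw [← map_mul, DZ_sq h.det, map_one]) (mem_GG.2 hy)
  refine Submodule.smul_mem _ _ ?_
  rw [← map_one (ph (Fin g ⊕ Fin g)), ← map_add, ← map_sub, ← map_mul, ← map_mul, mem_GG] at h1
  exact h1

theorem up_l (h : PM Z) (y : Matrix (Fin g ⊕ Fin g) (Fin g ⊕ Fin g) ℂ) :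
    DZ Z * ((1 / 4 : ℂ) • ((1 + DZ Z) * y * (1 - DZ Z))) =
      (1 / 4 : ℂ) • ((1 + DZ Z) * y * (1 - DZ Z)) := by
  rw [mul_smul_comm, ← mul_assoc, ← mul_assoc, mul_add, mul_one, DZ_sq h.det, add_comm (DZ Z)]

theorem up_r (h : PM Z) (y : Matrix (Fin g ⊕ Fin g) (Fin g ⊕ Fin g) ℂ) :
    ((1 / 4 : ℂ) • ((1 + DZ Z) * y * (1 - DZ Z))) * DZ Z =
      -((1 / 4 : ℂ) • ((1 + DZ Z) * y * (1 - DZ Z))) := by
  rw [smul_mul_assoc, mul_assoc _ (1 - DZ Z), sub_mul, one_mul, DZ_sq h.det,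
    ← neg_sub 1 (DZ Z), mul_neg, smul_neg]

theorem dn_l (h : PM Z) (y : Matrix (Fin g ⊕ Fin g) (Fin g ⊕ Fin g) ℂ) :
    DZ Z * ((1 / 4 : ℂ) • ((1 - DZ Z) * y * (1 + DZ Z))) =
      -((1 / 4 : ℂ) • ((1 - DZ Z) * y * (1 + DZ Z))) := by
  rw [mul_smul_comm, ← mul_assoc, ← mul_assoc, mul_sub, mul_one, DZ_sq h.det,
    ← neg_sub 1 (DZ Z), neg_mul, neg_mul, smul_neg]

theorem dn_r (h : PM Z) (y : Matrix (Fin g ⊕ Fin g) (Fin g ⊕ Fin g) ℂ) :
    ((1 / 4 : ℂ) • ((1 - DZ Z) * y * (1 + DZ Z))) * DZ Z =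
      (1 / 4 : ℂ) • ((1 - DZ Z) * y * (1 + DZ Z)) := by
  rw [smul_mul_assoc, mul_assoc _ (1 + DZ Z), add_mul, one_mul, DZ_sq h.det, add_comm (DZ Z)]

/-- There is an element of degree one which does not vanish on an irreducible submodule. -/
theorem exists_up (h : PM Z) (hs : IsSimpleAV Z) (hg : g ≤ 3)
    {U : Submodule ℂ (Fin g ⊕ Fin g → ℂ)} (hU : IrS (LZ Z) U) (hn : 2 ≤ finrank ℂ U) :
    ∃ N ∈ LZ Z, DZ Z * N = N ∧ N * DZ Z = -N ∧ ∃ u ∈ U, N *ᵥ u ≠ 0 := by
  by_contra hcon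
  push Not at hcon
  have hDr : DS Z (RingEquiv.refl ℂ) = DZ Z := by
    ext i j
    rfl
  have hst : Stab (LZ Z) (U ⊓ eig Z (-1)) := by
    rintro y hy u ⟨hu, hu'⟩
    refine ⟨hU.2.1 y hy u hu, ?_⟩
    have h1 := hcon _ (up_mem h hy) (up_l h y) (up_r h y) u hu
    have hu2 : DZ Z *ᵥ u = (-1 : ℂ) • u := hu'
    have h2 : (1 - DZ Z) *ᵥ u = (2 : ℂ) • u := by
      rw [sub_mulVec, one_mulVec, hu2]
      module
    rw [smul_mulVec, ← mulVec_mulVec, ← mulVec_mulVec, h2, mulVec_smul, mulVec_smul, smul_smul,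
      add_mulVec, one_mulVec] at h1
    have h3 := (smul_eq_zero.1 h1).resolve_left (by norm_num)
    rw [SetLike.mem_coe, mem_eig, neg_one_smul]
    exact eq_neg_of_add_eq_zero_right h3
  rcases hU.2.2 _ inf_le_left hst with h1 | h1
  · obtain ⟨u, hu, hu'⟩ := nonscalar h hs hg hU hn (RingEquiv.refl ℂ) 1
    apply hu'
    rw [hDr, one_smul]
    have h2 : DZ Z *ᵥ (DZ Z *ᵥ u) = u := by rw [mulVec_mulVec, DZ_sq h.det, one_mulVec]
    have h3 : DZ Z *ᵥ u - u ∈ U ⊓ eig Z (-1) := by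
      refine ⟨U.sub_mem (hU.2.1 _ DZ_mem u hu) hu, ?_⟩
      rw [SetLike.mem_coe, mem_eig, mulVec_sub, h2]
      module
    rw [h1, Submodule.mem_bot] at h3
    exact sub_eq_zero.1 h3
  · obtain ⟨u, hu, hu'⟩ := nonscalar h hs hg hU hn (RingEquiv.refl ℂ) (-1)
    apply hu'
    rw [hDr]
    rw [← h1] at hu
    exact hu.2

/-- The rank on the submodule. -/
theorem two_rank_le (h : PM Z) {U : Submodule ℂ (Fin g ⊕ Fin g → ℂ)} (hU : Stab (LZ Z) U)
    {N : Matrix (Fin g ⊕ Fin g) (Fin g ⊕ Fin g) ℂ} (hN : N ∈ LZ Z) (h1 : DZ Z * N = N)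
    (h2 : N * DZ Z = -N) : 2 * finrank ℂ (U.map (mulVecLin N)) ≤ finrank ℂ U := by
  have hNN : ∀ u, N *ᵥ (N *ᵥ u) = 0 := by
    intro u
    have h3 : N * N = -(N * N) := by
      calc N * N = N * (DZ Z * N) := by rw [h1]
        _ = -(N * N) := by rw [← mul_assoc, h2, neg_mul]
    have h4 : (2 : ℂ) • (N * N) = 0 := by
      rw [two_smul]
      nth_rewrite 1 [h3]
      rw [neg_add_cancel]
    rw [mulVec_mulVec, (smul_eq_zero.1 h4).resolve_left two_ne_zero, zero_mulVec]
  let f : U →ₗ[ℂ] (Fin g ⊕ Fin g → ℂ) := (mulVecLin N).domRestrict U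
  have h5 := LinearMap.finrank_range_add_finrank_ker f
  have h6 : LinearMap.range f = U.map (mulVecLin N) := by
    rw [LinearMap.range_domRestrict]
  have h7 : finrank ℂ (U.map (mulVecLin N)) ≤ finrank ℂ (LinearMap.ker f) := by
    have h8 : U.map (mulVecLin N) ≤ (LinearMap.ker f).map U.subtype := by
      rintro _ ⟨u, hu, rfl⟩
      refine ⟨⟨N *ᵥ u, hU N hN u hu⟩, ?_, rfl⟩
      exact hNN u
    refine (Submodule.finrank_mono h8).trans ?_
    exact Submodule.finrank_map_le _ _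
  rw [h6] at h5
  omega

section frame

variable (h : PM Z)
include h

theorem isSp {X : End ℂ (Fin g ⊕ Fin g → ℂ)} (hX : X ∈ GG (LZ Z)) : IsSp (om g) X := by
  intro x y
  obtain ⟨A, hA, rfl⟩ := exists_GG hX
  exact eq_neg_of_add_eq_zero_left (h.om_sp hA x y)

/-- An element of rank two is a product of two vectors. -/
theorem exists_EE {y : End ℂ (Fin g ⊕ Fin g → ℂ)} (hy : y ∈ GG (LZ Z)) (hr : rk y = 2) :
    ∃ a b, y = EE (om g) a b := by
  obtain ⟨A, hA, rfl⟩ := exists_GG hy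
  have hsp := h.sp hA
  have h1 : Om g ℂ * Aᵀ = -(A * Om g ℂ) := by
    have h2 : Aᵀ * Om g ℂ = -(Om g ℂ * A) := eq_neg_of_add_eq_zero_left hsp
    have h3 : Om g ℂ * (Aᵀ * Om g ℂ) * Om g ℂ = Om g ℂ * (-(Om g ℂ * A)) * Om g ℂ := by rw [h2]
    have h4 : Om g ℂ * (Aᵀ * Om g ℂ) * Om g ℂ = Om g ℂ * Aᵀ * (Om g ℂ * Om g ℂ) := by
      noncomm_ring
    have h5 : Om g ℂ * (-(Om g ℂ * A)) * Om g ℂ = -((Om g ℂ * Om g ℂ) * A * Om g ℂ) := by
      noncomm_ring
    rw [h4, h5, Om_sq] at h3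
    have h6 : -(Om g ℂ * Aᵀ) = A * Om g ℂ := by simpa using h3
    rw [← h6, neg_neg]
  have hsym : (A * Om g ℂ)ᵀ = A * Om g ℂ := by
    rw [transpose_mul, Om_transpose, neg_mul, h1, neg_neg]
  have hu : IsUnit (Om g ℂ).det := by
    rw [← Matrix.isUnit_iff_isUnit_det]
    refine IsUnit.of_mul_eq_one (-Om g ℂ) ?_
    rw [mul_neg, Om_sq, neg_neg]
  have hrank : (A * Om g ℂ).rank = 2 := by
    rw [Matrix.rank_mul_eq_left_of_isUnit_det _ _ hu]
    exact hr
  obtain ⟨v, w, hvw⟩ := exists_prod hsym hrank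
  refine ⟨-v, w, LinearMap.ext fun x => ?_⟩
  rw [EE_apply, ph_apply]
  have h6 : A *ᵥ x = -((A * Om g ℂ) *ᵥ (Om g ℂ *ᵥ x)) := by
    rw [mulVec_mulVec, mul_assoc, Om_sq, mul_neg, mul_one, neg_mulVec, neg_neg]
  rw [h6, hvw, add_mulVec, vecMulVec_mulVec, vecMulVec_mulVec, map_neg, LinearMap.neg_apply,
    om_apply, om_apply]
  rw [op_smul_eq_smul, op_smul_eq_smul]
  module

theorem range_EE {a b : Fin g ⊕ Fin g → ℂ} (hr : rk (EE (om g) a b) = 2) :
    (∀ α β : ℂ, α • a + β • b = 0 → α = 0 ∧ β = 0) ∧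
      a ∈ LinearMap.range (EE (om g) a b) ∧ b ∈ LinearMap.range (EE (om g) a b) := by
  have h1 : LinearMap.range (EE (om g) a b) ≤ Submodule.span ℂ (Set.range ![a, b]) := by
    rintro _ ⟨x, rfl⟩
    rw [EE_apply]
    refine Submodule.add_mem _ (Submodule.smul_mem _ _ (Submodule.subset_span ⟨0, rfl⟩))
      (Submodule.smul_mem _ _ (Submodule.subset_span ⟨1, rfl⟩))
  have h2 : finrank ℂ (Submodule.span ℂ (Set.range ![a, b])) ≤ 2 := by
    have h0 := finrank_range_le_card (R := ℂ) ![a, b]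
    rw [Fintype.card_fin] at h0
    exact h0
  have h3 := Submodule.finrank_mono h1
  have hr' : finrank ℂ (LinearMap.range (EE (om g) a b)) = 2 := hr
  have h4 : LinearMap.range (EE (om g) a b) = Submodule.span ℂ (Set.range ![a, b]) :=
    Submodule.eq_of_le_of_finrank_eq h1 (by omega)
  have h5 : LinearIndependent ℂ ![a, b] := by
    rw [linearIndependent_iff_card_eq_finrank_span, Set.finrank, ← h4, hr']
    rfl
  refine ⟨fun α β hab => ?_, ?_, ?_⟩
  · exact LinearIndependent.pair_iff.1 h5 α β hab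
  · rw [h4]
    exact Submodule.subset_span ⟨0, rfl⟩
  · rw [h4]
    exact Submodule.subset_span ⟨1, rfl⟩

/-- If there are no elements of rank one but an element of rank two then the representation is
reducible. -/
theorem no_rank_two (hirr : IrS (LZ Z) (⊤ : Submodule ℂ (Fin g ⊕ Fin g → ℂ)))
    (hone : ∀ e ∈ LZ Z, e.rank ≠ 1)
    {N : Matrix (Fin g ⊕ Fin g) (Fin g ⊕ Fin g) ℂ} (hN : N ∈ LZ Z) (h1 : DZ Z * N = N)
    (h2 : N * DZ Z = -N) (hr : N.rank = 2) : False := by
  have hS := h.setup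
  set m := GG (LZ Z) with hm
  have hLieS : LieS (om g) m :=
    { alt := om_self
      brk := hS.br
      sp := fun X hX => isSp h hX
      one := by
        intro x hx
        by_contra hx0
        obtain ⟨A, hA, hAx⟩ := exists_GG hx
        apply hone A hA
        rw [← rk_ph, ← hAx]
        unfold rk
        have h3 : LinearMap.range (EE (om g) x x) = Submodule.span ℂ {x} := by
          apply le_antisymm
          · rintro _ ⟨y, rfl⟩
            rw [EE_apply, ← add_smul]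
            exact Submodule.smul_mem _ _ (Submodule.mem_span_singleton_self x)
          · rw [Submodule.span_singleton_le_iff_mem]
            obtain ⟨y, hy⟩ : ∃ y, om g x y ≠ 0 := by
              by_contra hcon
              push Not at hcon
              exact hx0 (om_nd x hcon)
            refine ⟨(2 * om g x y)⁻¹ • y, ?_⟩
            rw [EE_apply, map_smul, smul_eq_mul, ← add_smul]
            have h4 : (2 * om g x y)⁻¹ * om g x y + (2 * om g x y)⁻¹ * om g x y = 1 := by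
              field_simp
              norm_num
            rw [h4, one_smul]
        rw [h3]
        exact finrank_span_singleton hx0 }
  set D : End ℂ (Fin g ⊕ Fin g → ℂ) := ph _ (DZ Z) with hD
  have hDm : D ∈ m := mem_GG.2 DZ_mem
  have hD2 : D * D = 1 := by rw [hD, ← map_mul, DZ_sq h.det, map_one]
  set e : End ℂ (Fin g ⊕ Fin g → ℂ) := ph _ N with he
  have hem : e ∈ m := mem_GG.2 hN
  have hDe : D * e = e := by rw [hD, he, ← map_mul, h1]
  have heD : e * D = -e := by rw [hD, he, ← map_mul, h2, map_neg]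
  have hre : rk e = 2 := hr
  obtain ⟨f, hf, hDf, hfD, hefe, hfef⟩ := hS.partner hDm hD2 hem hDe heD
  have hrf : rk f = 2 := by
    apply le_antisymm
    · rw [← hre, ← hfef]
      exact (rk_mul_le_left _ _).trans (rk_mul_le_right _ _)
    · rw [← hre, ← hefe]
      exact (rk_mul_le_left _ _).trans (rk_mul_le_right _ _)
  obtain ⟨v, w, hvw⟩ := exists_EE h hem hre
  obtain ⟨p, q, hpq⟩ := exists_EE h hf hrf
  rw [hvw] at hre
  rw [hpq] at hrf
  obtain ⟨hli, ⟨xv, hxv⟩, ⟨xw, hxw⟩⟩ := range_EE h hre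
  obtain ⟨hli', ⟨xp, hxp⟩, ⟨xq, hxq⟩⟩ := range_EE h hrf
  rw [← hvw] at hxv hxw
  rw [← hpq] at hxp hxq
  have hapD : ∀ x, D x = DZ Z *ᵥ x := fun x => rfl
  have hv1 : v ∈ eig Z 1 := by
    rw [mem_eig, one_smul, ← hapD, ← hxv, ← Module.End.mul_apply, hDe]
  have hw1 : w ∈ eig Z 1 := by
    rw [mem_eig, one_smul, ← hapD, ← hxw, ← Module.End.mul_apply, hDe]
  have hp1 : p ∈ eig Z (-1) := by
    rw [mem_eig, neg_one_smul, ← hapD, ← hxp, ← Module.End.mul_apply, hDf]
    rfl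
  have hq1 : q ∈ eig Z (-1) := by
    rw [mem_eig, neg_one_smul, ← hapD, ← hxq, ← Module.End.mul_apply, hDf]
    rfl
  have hVW : om g v w = 0 := eig_iso h one_ne_zero hv1 hw1
  have hPQ : om g p q = 0 := eig_iso h (neg_ne_zero.2 one_ne_zero) hp1 hq1
  have hefv : e (f v) = v := by
    conv_lhs => rw [← hxv]
    have h3 := congrArg (fun F : End ℂ (Fin g ⊕ Fin g → ℂ) => F xv) hefe
    simp only [Module.End.mul_apply] at h3
    rw [h3, hxv]
  have hfv : f v = (-om g v q) • p + (-om g v p) • q := by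
    rw [hpq, EE_apply, om_anti q v, om_anti p v]
  have hep : e p = om g w p • v + om g v p • w := by rw [hvw, EE_apply]
  have heq : e q = om g w q • v + om g v q • w := by rw [hvw, EE_apply]
  have hrel := hefv
  rw [hfv, map_add, map_smul, map_smul, hep, heq] at hrel
  set a := om g v p with ha
  set b := om g v q with hb
  set c := om g w p with hc
  set d := om g w q with hd
  have h3 : (-(b * c + a * d) - 1) • v + (-(2 * (a * b))) • w = 0 := by
    have h4 : (-(b * c + a * d) - 1) • v + (-(2 * (a * b))) • w =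
        (-b) • (c • v + a • w) + (-a) • (d • v + b • w) - v := by module
    rw [h4, hrel, sub_self]
  obtain ⟨h4, h5⟩ := hli _ _ h3
  have hab : a * b = 0 := by linear_combination (-1 / 2 : ℂ) * h5
  have hefw : e (f w) = w := by
    conv_lhs => rw [← hxw]
    have h3 := congrArg (fun F : End ℂ (Fin g ⊕ Fin g → ℂ) => F xw) hefe
    simp only [Module.End.mul_apply] at h3
    rw [h3, hxw]
  have hfw : f w = (-d) • p + (-c) • q := by
    rw [hpq, EE_apply, om_anti q w, om_anti p w]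
  have hrel2 := hefw
  rw [hfw, map_add, map_smul, map_smul, hep, heq] at hrel2
  have h6 : (-(2 * (c * d))) • v + (-(b * c + a * d) - 1) • w = 0 := by
    have h7 : (-(2 * (c * d))) • v + (-(b * c + a * d) - 1) • w =
        (-d) • (c • v + a • w) + (-c) • (d • v + b • w) - w := by module
    rw [h7, hrel2, sub_self]
  have hcd : c * d = 0 := by linear_combination (-1 / 2 : ℂ) * (hli _ _ h6).1
  have hXm : EE (om g) v w ∈ m := by rw [← hvw]; exact hem
  -- the frame
  obtain ⟨v', w', hF⟩ : ∃ v' w', Frame (om g) m v w v' w' := by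
    by_cases ha0 : a = 0
    · have hbc : b * c = -1 := by
        rw [ha0] at h4
        linear_combination -h4
      have hb0 : b ≠ 0 := by
        intro h8
        rw [h8, zero_mul] at hbc
        norm_num at hbc
      have hc0 : c ≠ 0 := by
        intro h8
        rw [h8, mul_zero] at hbc
        norm_num at hbc
      have hd0 : d = 0 := (mul_eq_zero.1 hcd).resolve_left hc0
      refine ⟨b⁻¹ • q, c⁻¹ • p, hVW, ?_, ?_, ?_, ?_, ?_, hXm, ?_⟩
      · rw [map_smul, map_smul, LinearMap.smul_apply, om_anti q p, hPQ, neg_zero, smul_zero,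
          smul_zero]
      · rw [map_smul, ← hb, smul_eq_mul, inv_mul_cancel₀ hb0]
      · rw [map_smul, ← hc, smul_eq_mul, inv_mul_cancel₀ hc0]
      · rw [map_smul, ← ha, ha0, smul_zero]
      · rw [map_smul, ← hd, hd0, smul_zero]
      · have h9 : EE (om g) (b⁻¹ • q) (c⁻¹ • p) = (b⁻¹ * c⁻¹) • EE (om g) p q := by
          refine LinearMap.ext fun x => ?_
          rw [LinearMap.smul_apply, EE_apply, EE_apply, map_smul, map_smul, LinearMap.smul_apply,
            LinearMap.smul_apply, smul_eq_mul, smul_eq_mul]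
          module
        rw [h9, ← hpq]
        exact Submodule.smul_mem _ _ hf
    · have hb0 : b = 0 := (mul_eq_zero.1 hab).resolve_left ha0
      have had : a * d = -1 := by
        rw [hb0] at h4
        linear_combination -h4
      have hd0 : d ≠ 0 := by
        intro h8
        rw [h8, mul_zero] at had
        norm_num at had
      have hc0 : c = 0 := (mul_eq_zero.1 hcd).resolve_right hd0
      refine ⟨a⁻¹ • p, d⁻¹ • q, hVW, ?_, ?_, ?_, ?_, ?_, hXm, ?_⟩
      · rw [map_smul, map_smul, LinearMap.smul_apply, hPQ, smul_zero, smul_zero]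
      · rw [map_smul, ← ha, smul_eq_mul, inv_mul_cancel₀ ha0]
      · rw [map_smul, ← hd, smul_eq_mul, inv_mul_cancel₀ hd0]
      · rw [map_smul, ← hb, hb0, smul_zero]
      · rw [map_smul, ← hc, hc0, smul_zero]
      · have h9 : EE (om g) (a⁻¹ • p) (d⁻¹ • q) = (a⁻¹ * d⁻¹) • EE (om g) p q := by
          refine LinearMap.ext fun x => ?_
          rw [LinearMap.smul_apply, EE_apply, EE_apply, map_smul, map_smul, LinearMap.smul_apply,
            LinearMap.smul_apply, smul_eq_mul, smul_eq_mul]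
          module
        rw [h9, ← hpq]
        exact Submodule.smul_mem _ _ hf
  have hst : Stab (LZ Z) (NN (om g) m v w v' w') := by
    rw [← stab_GG]
    intro y hy u hu
    exact hF.NN_stable hLieS hy hu
  have hv0 : v ≠ 0 := by
    rintro h8
    have h9 := hF.vv'
    rw [h8, map_zero, LinearMap.zero_apply] at h9
    exact zero_ne_one h9
  rcases hirr.2.2 _ le_top hst with h8 | h8
  · have h9 : v ∈ NN (om g) m v w v' w' := v_mem_NN
    rw [h8, Submodule.mem_bot] at h9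
    exact hv0 h9
  · have h9 : v' ∈ NN (om g) m v w v' w' := by rw [h8]; trivial
    have h10 := hF.NN_iso hLieS (v_mem_NN) h9
    rw [hF.vv'] at h10
    exact one_ne_zero h10

end frame

end

end Pool.Agent.Y90
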