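import Mathlib
import Pool.Agent.Y90.Pie2

/-!
# Elements of rank one and self-duality
-/

set_option linter.unusedSectionVars false

namespace Pool.Agent.Y90

open Matrix Module Pool.Agent.W437.HC Pool.Agent.W437.HD Pool.Agent.W548.Odd Pool.Agent.W437.HP
  Pool.Agent.W437.HQ

noncomputable section

variable {g : ℕ} {Z : Matrix (Fin g) (Fin g) ℂ}

theorem finrank_V : finrank ℂ (Fin g ⊕ Fin g → ℂ) = 2 * g := by
  rw [Module.finrank_fintype_fun_eq_card, Fintype.card_sum, Fintype.card_fin]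
  ring

theorem map_top_rank (N : Matrix (Fin g ⊕ Fin g) (Fin g ⊕ Fin g) ℂ) :
    finrank ℂ ((⊤ : Submodule ℂ (Fin g ⊕ Fin g → ℂ)).map (mulVecLin N)) = N.rank := by
  rw [Submodule.map_top]
  rfl

theorem map_rank_ne {U : Submodule ℂ (Fin g ⊕ Fin g → ℂ)}
    {N : Matrix (Fin g ⊕ Fin g) (Fin g ⊕ Fin g) ℂ} (h : ∃ u ∈ U, N *ᵥ u ≠ 0) :
    finrank ℂ (U.map (mulVecLin N)) ≠ 0 := by
  obtain ⟨u, hu, hu'⟩ := h
  intro h0
  have h1 := Submodule.finrank_eq_zero.1 h0
  have h2 : N *ᵥ u ∈ U.map (mulVecLin N) := ⟨u, hu, rfl⟩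
  rw [h1, Submodule.mem_bot] at h2
  exact hu' h2

theorem rank_zero_iff {N : Matrix (Fin g ⊕ Fin g) (Fin g ⊕ Fin g) ℂ} (h : N.rank = 0) : N = 0 := by
  rw [← map_top_rank] at h
  by_contra hN
  refine map_rank_ne ?_ h
  by_contra hcon
  push Not at hcon
  apply hN
  apply Matrix.toLin'.injective
  refine LinearMap.ext fun v => ?_
  rw [toLin'_apply, hcon v trivial, map_zero, LinearMap.zero_apply]

/-- Irreducible submodules of dimension at least two admit elements of rank one. -/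
theorem exists_rk1 (h : PM Z) (hs : IsSimpleAV Z) (hg : g ≤ 3)
    {U : Submodule ℂ (Fin g ⊕ Fin g → ℂ)} (hU : IrS (LZ Z) U) (hn : 2 ≤ finrank ℂ U) :
    Rk1 Z U := by
  by_cases h3 : finrank ℂ U ≤ 3
  · obtain ⟨N, hN, h1, h2, hu⟩ := exists_up h hs hg hU hn
    refine ⟨DZ Z, Or.inl rfl, N, hN, h1, h2, ?_⟩
    have h4 := two_rank_le h hU.2.1 hN h1 h2
    have h5 := map_rank_ne hu
    omega
  · have hdvd := finrank_dvd h hs hU
    have hle : finrank ℂ U ≤ 2 * g := by
      rw [← finrank_V]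
      exact Submodule.finrank_le U
    have hn2 : finrank ℂ U = 2 * g := by
      obtain ⟨k, hk⟩ := hdvd
      have hk1 : k < 2 := by
        by_contra hk2
        push Not at hk2
        have : finrank ℂ U * 2 ≤ finrank ℂ U * k := Nat.mul_le_mul_left _ hk2
        omega
      have hk0 : k ≠ 0 := by
        rintro rfl
        omega
      have hk2 : k = 1 := by omega
      rw [hk2] at hk
      omega
    have hUt : U = ⊤ := Submodule.eq_top_of_finrank_eq (by rw [hn2, finrank_V])
    subst hUt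
    by_cases hone : ∃ e ∈ LZ Z, e.rank = 1
    · obtain ⟨e, he, he1⟩ := hone
      by_cases hp : (1 / 4 : ℂ) • ((1 + DZ Z) * e * (1 - DZ Z)) = 0
      · by_cases hq : (1 / 4 : ℂ) • ((1 - DZ Z) * e * (1 + DZ Z)) = 0
        · exfalso
          have h5 := (smul_eq_zero.1 hp).resolve_left (by norm_num)
          have h6 := (smul_eq_zero.1 hq).resolve_left (by norm_num)
          have h7 : DZ Z * e = e * DZ Z := by
            have h8 : (2 : ℂ) • (DZ Z * e - e * DZ Z) = (1 + DZ Z) * e * (1 - DZ Z) -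
                (1 - DZ Z) * e * (1 + DZ Z) := by
              rw [two_smul]
              noncomm_ring
            rw [h5, h6, sub_zero] at h8
            exact sub_eq_zero.1 ((smul_eq_zero.1 h8).resolve_left two_ne_zero)
          have h9 := h.setup.even_of_commute (ε := 1) (D := ph _ (DZ Z)) (N := ph _ e)
            ⟨fun y _ => by rw [one_mul, mul_one], by rw [one_mul], by
              have e1 : (1 : End ℂ (Fin g ⊕ Fin g → ℂ)) = ph _ 1 := (map_one _).symm
              rw [e1, stE_ph, transpose_one, mul_one, Om_sq, neg_neg]⟩ (mem_GG.2 DZ_mem) (by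
              rw [← map_mul, DZ_sq h.det, map_one]) (mem_GG.2 he) (by
              rw [← map_mul, ← map_mul, h7])
          rw [one_mul, rk_ph, he1] at h9
          exact absurd h9 (by decide)
        · refine ⟨-DZ Z, Or.inr rfl, _, dn_mem h he, ?_, ?_, ?_⟩
          · rw [neg_mul, dn_l h, neg_neg]
          · rw [mul_neg, dn_r h]
          · rw [map_top_rank]
            apply le_antisymm
            · rw [← he1, ← rk_ph, map_smul, rk_smul (by norm_num : (1 / 4 : ℂ) ≠ 0), rk_ph]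
              exact (Matrix.rank_mul_le_left _ _).trans (Matrix.rank_mul_le_right _ _)
            · rw [Nat.one_le_iff_ne_zero]
              exact fun h0 => hq (rank_zero_iff h0)
      · refine ⟨DZ Z, Or.inl rfl, _, up_mem h he, up_l h e, up_r h e, ?_⟩
        rw [map_top_rank]
        apply le_antisymm
        · rw [← he1, ← rk_ph, map_smul, rk_smul (by norm_num : (1 / 4 : ℂ) ≠ 0), rk_ph]
          exact (Matrix.rank_mul_le_left _ _).trans (Matrix.rank_mul_le_right _ _)
        · rw [Nat.one_le_iff_ne_zero]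
          exact fun h0 => hp (rank_zero_iff h0)
    · exfalso
      push Not at hone
      obtain ⟨N, hN, h1, h2, hu⟩ := exists_up h hs hg hU hn
      have h4 := two_rank_le h hU.2.1 hN h1 h2
      have h5 := map_rank_ne hu
      rw [map_top_rank] at h4 h5
      rw [finrank_top, finrank_V] at h4
      have h6 := hone N hN
      have hNN : N * N = 0 := by
        have h3 : N * N = -(N * N) := by
          calc N * N = N * (DZ Z * N) := by rw [h1]
            _ = -(N * N) := by rw [← mul_assoc, h2, neg_mul]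
        have h4 : (2 : ℂ) • (N * N) = 0 := by
          rw [two_smul]
          nth_rewrite 1 [h3]
          rw [neg_add_cancel]
        exact (smul_eq_zero.1 h4).resolve_left two_ne_zero
      rcases (show N.rank = 2 ∨ N.rank = 3 by omega) with h7 | h7
      · exact no_rank_two h hU hone hN h1 h2 h7
      · obtain ⟨e, he, he1⟩ := exists_rank_one (ε := 1) (N := N) h.isPer (Set.mem_singleton Z) hs
          (fun X _ => by rw [one_mul, mul_one]) (by rw [one_mul])
          (by rw [transpose_one, one_mul, mul_one]) (fun c _ => by rw [one_mul, mul_one])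
          (by rw [← img_eq]; exact hN) hNN (by rw [one_mul, h7]; decide)
        rw [← img_eq] at he
        exact hone e he he1

/-- There is a nonzero invariant bilinear form on the submodule. -/
def SDu (Z : Matrix (Fin g) (Fin g) ℂ) (U : Submodule ℂ (Fin g ⊕ Fin g → ℂ)) : Prop :=
  ∃ b : (Fin g ⊕ Fin g → ℂ) →ₗ[ℂ] (Fin g ⊕ Fin g → ℂ) →ₗ[ℂ] ℂ,
    (∃ u ∈ U, ∃ v ∈ U, b u v ≠ 0) ∧
    ∀ X ∈ LZ Z, ∀ u ∈ U, ∀ v ∈ U, b (X *ᵥ u) v + b u (X *ᵥ v) = 0

theorem sdu_top (h : PM Z) (hg : 0 < g) : SDu Z (⊤ : Submodule ℂ (Fin g ⊕ Fin g → ℂ)) := by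
  refine ⟨om g, ?_, fun X hX u _ v _ => h.om_sp hX u v⟩
  by_contra hcon
  push Not at hcon
  have h1 : ∀ u : Fin g ⊕ Fin g → ℂ, u = 0 := fun u => om_nd u fun v => hcon u trivial v trivial
  have h2 := h1 (Pi.single (Sum.inl ⟨0, hg⟩) 1)
  have h3 := congrFun h2 (Sum.inl ⟨0, hg⟩)
  simp at h3

/-- Irreducible submodules of dimension two are self-dual. -/
theorem sdu_two (h : PM Z) (hs : IsSimpleAV Z) (hg : g ≤ 3)
    {U : Submodule ℂ (Fin g ⊕ Fin g → ℂ)} (hU : IrS (LZ Z) U) (hn : finrank ℂ U = 2) :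
    SDu Z U := by
  obtain ⟨p, hp⟩ := W522.U.exists_pr U
  let bas : Basis (Fin 2) ℂ U := finBasisOfFinrankEq ℂ U hn
  let x0 : (Fin g ⊕ Fin g → ℂ) →ₗ[ℂ] ℂ := (bas.coord 0).comp p
  let x1 : (Fin g ⊕ Fin g → ℂ) →ₗ[ℂ] ℂ := (bas.coord 1).comp p
  let b : (Fin g ⊕ Fin g → ℂ) →ₗ[ℂ] (Fin g ⊕ Fin g → ℂ) →ₗ[ℂ] ℂ :=
    x0.smulRight x1 - x1.smulRight x0
  have hb : ∀ u v, b u v = x0 u * x1 v - x1 u * x0 v := fun _ _ => rfl
  have halt : ∀ u, b u u = 0 := fun u => by rw [hb]; ring
  refine ⟨b, ⟨bas 0, (bas 0).2, bas 1, (bas 1).2, ?_⟩, ?_⟩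
  · rw [hb]
    simp [x0, x1, hp]
  · -- the conjugates of the complex structure
    have hD : ∀ σ : ℂ ≃+* ℂ, ∀ u ∈ U, ∀ v ∈ U, b (DS Z σ *ᵥ u) v + b u (DS Z σ *ᵥ v) = 0 := by
      intro σ
      have hDD : ∀ u, DS Z σ *ᵥ (DS Z σ *ᵥ u) = u := fun u => by
        rw [mulVec_mulVec, DS_sq h.det, one_mulVec]
      let Up : Submodule ℂ (Fin g ⊕ Fin g → ℂ) :=
        U ⊓ LinearMap.ker (mulVecLin (DS Z σ) - LinearMap.id)
      let Um : Submodule ℂ (Fin g ⊕ Fin g → ℂ) :=
        U ⊓ LinearMap.ker (mulVecLin (DS Z σ) + LinearMap.id)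
      have hUp : ∀ u, u ∈ Up ↔ u ∈ U ∧ DS Z σ *ᵥ u = u := by
        intro u
        change u ∈ U ∧ DS Z σ *ᵥ u - u = 0 ↔ _
        rw [sub_eq_zero]
      have hUm : ∀ u, u ∈ Um ↔ u ∈ U ∧ DS Z σ *ᵥ u = -u := by
        intro u
        change u ∈ U ∧ DS Z σ *ᵥ u + u = 0 ↔ _
        rw [add_eq_zero_iff_eq_neg]
      have hup : ∀ u ∈ U, (1 / 2 : ℂ) • (u + DS Z σ *ᵥ u) ∈ Up := by
        intro u hu
        rw [hUp]
        refine ⟨U.smul_mem _ (U.add_mem hu (hU.2.1 _ (DS_mem σ) u hu)), ?_⟩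
        rw [mulVec_smul, mulVec_add, hDD, add_comm u]
      have hum : ∀ u ∈ U, (1 / 2 : ℂ) • (u - DS Z σ *ᵥ u) ∈ Um := by
        intro u hu
        rw [hUm]
        refine ⟨U.smul_mem _ (U.sub_mem hu (hU.2.1 _ (DS_mem σ) u hu)), ?_⟩
        rw [mulVec_smul, mulVec_sub, hDD]
        module
      have hinf : Up ⊓ Um = ⊥ := by
        rw [eq_bot_iff]
        rintro x ⟨hx, hx'⟩
        have h1 := ((hUp x).1 hx).2
        have h2 := ((hUm x).1 hx').2
        rw [h1] at h2
        rw [Submodule.mem_bot]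
        have h3 : (2 : ℂ) • x = 0 := by
          rw [two_smul]
          nth_rewrite 1 [h2]
          rw [neg_add_cancel]
        exact (smul_eq_zero.1 h3).resolve_left two_ne_zero
      have hsup : Up ⊔ Um = U := by
        apply le_antisymm (sup_le inf_le_left inf_le_left)
        intro u hu
        have h1 : u = (1 / 2 : ℂ) • (u + DS Z σ *ᵥ u) + (1 / 2 : ℂ) • (u - DS Z σ *ᵥ u) := by
          module
        rw [h1]
        exact Submodule.add_mem_sup (hup u hu) (hum u hu)
      have hdim := finrank_split hinf hsup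
      rw [hn] at hdim
      have hUp0 : Up ≠ ⊥ := by
        intro h0
        obtain ⟨u, hu, hu'⟩ := nonscalar h hs hg hU (by omega) σ (-1)
        apply hu'
        have h1 := hup u hu
        rw [h0, Submodule.mem_bot] at h1
        have h2 := (smul_eq_zero.1 h1).resolve_left (by norm_num)
        rw [neg_one_smul]
        exact eq_neg_of_add_eq_zero_right h2
      have hUm0 : Um ≠ ⊥ := by
        intro h0
        obtain ⟨u, hu, hu'⟩ := nonscalar h hs hg hU (by omega) σ 1
        apply hu'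
        have h1 := hum u hu
        rw [h0, Submodule.mem_bot] at h1
        have h2 := (smul_eq_zero.1 h1).resolve_left (by norm_num)
        rw [one_smul]
        exact (sub_eq_zero.1 h2).symm
      have hp1 : finrank ℂ Up ≠ 0 := fun h0 => hUp0 (Submodule.finrank_eq_zero.1 h0)
      have hm1 : finrank ℂ Um ≠ 0 := fun h0 => hUm0 (Submodule.finrank_eq_zero.1 h0)
      have key : ∀ W : Submodule ℂ (Fin g ⊕ Fin g → ℂ), finrank ℂ W = 1 →
          ∀ u ∈ W, ∀ v ∈ W, b u v = 0 := by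
        intro W hW u hu v hv
        obtain ⟨w, hw0, hw⟩ := finrank_eq_one_iff'.1 hW
        obtain ⟨c, hc⟩ := hw ⟨u, hu⟩
        obtain ⟨d, hd⟩ := hw ⟨v, hv⟩
        have h1 : c • (w : Fin g ⊕ Fin g → ℂ) = u := congrArg Subtype.val hc
        have h2 : d • (w : Fin g ⊕ Fin g → ℂ) = v := congrArg Subtype.val hd
        rw [← h1, ← h2, map_smul, map_smul, LinearMap.smul_apply, halt, smul_zero, smul_zero]
      intro u hu v hv
      have eu : u = (1 / 2 : ℂ) • (u + DS Z σ *ᵥ u) + (1 / 2 : ℂ) • (u - DS Z σ *ᵥ u) := by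
        module
      have ev : v = (1 / 2 : ℂ) • (v + DS Z σ *ᵥ v) + (1 / 2 : ℂ) • (v - DS Z σ *ᵥ v) := by
        module
      obtain ⟨u1, hu1, u2, hu2, rfl⟩ : ∃ u1 ∈ Up, ∃ u2 ∈ Um, u = u1 + u2 :=
        ⟨_, hup u hu, _, hum u hu, eu⟩
      obtain ⟨v1, hv1, v2, hv2, rfl⟩ : ∃ v1 ∈ Up, ∃ v2 ∈ Um, v = v1 + v2 :=
        ⟨_, hup v hv, _, hum v hv, ev⟩
      have e1 := key Up (by omega) u1 hu1 v1 hv1
      have e2 := key Um (by omega) u2 hu2 v2 hv2
      rw [mulVec_add, mulVec_add, ((hUp _).1 hu1).2, ((hUm _).1 hu2).2, ((hUp _).1 hv1).2,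
        ((hUm _).1 hv2).2]
      simp only [map_add, map_neg, LinearMap.add_apply, LinearMap.neg_apply]
      linear_combination 2 * e1 - 2 * e2
    let C : Submodule ℂ (Matrix (Fin g ⊕ Fin g) (Fin g ⊕ Fin g) ℂ) :=
      { carrier := {y | (∀ u ∈ U, y *ᵥ u ∈ U) ∧
          ∀ u ∈ U, ∀ v ∈ U, b (y *ᵥ u) v + b u (y *ᵥ v) = 0}
        add_mem' := fun {x y} hx hy => ⟨fun u hu => by
            rw [add_mulVec]
            exact U.add_mem (hx.1 u hu) (hy.1 u hu), fun u hu v hv => by
          have h1 := hx.2 u hu v hv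
          have h2 := hy.2 u hu v hv
          rw [add_mulVec, add_mulVec, map_add, map_add, LinearMap.add_apply]
          linear_combination h1 + h2⟩
        zero_mem' := ⟨fun u _ => by rw [zero_mulVec]; exact U.zero_mem, fun u _ v _ => by
          rw [zero_mulVec, zero_mulVec, map_zero, map_zero, LinearMap.zero_apply, add_zero]⟩
        smul_mem' := fun c y hy => ⟨fun u hu => by
            rw [smul_mulVec]
            exact U.smul_mem c (hy.1 u hu), fun u hu v hv => by
          have h1 := hy.2 u hu v hv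
          rw [smul_mulVec, smul_mulVec, map_smul, map_smul, LinearMap.smul_apply, ← smul_add, h1,
            smul_zero]⟩ }
    have hC : LZ Z ≤ C := by
      refine LZ_le (fun σ => ⟨hU.2.1 _ (DS_mem σ), hD σ⟩) (fun y hy z hz => ⟨fun u hu => ?_,
        fun u hu v hv => ?_⟩)
      · rw [sub_mulVec, ← mulVec_mulVec, ← mulVec_mulVec]
        exact U.sub_mem (hy.1 _ (hz.1 u hu)) (hz.1 _ (hy.1 u hu))
      · have e1 := hy.2 _ (hz.1 u hu) v hv
        have e2 := hz.2 _ (hy.1 u hu) v hv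
        have e3 := hy.2 u hu _ (hz.1 v hv)
        have e4 := hz.2 u hu _ (hy.1 v hv)
        rw [sub_mulVec, sub_mulVec, map_sub, map_sub, LinearMap.sub_apply, ← mulVec_mulVec,
          ← mulVec_mulVec, ← mulVec_mulVec, ← mulVec_mulVec]
        linear_combination e1 - e2 + e3 - e4
    exact fun X hX => (hC hX).2

end

end Pool.Agent.Y90
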