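import Mathlib
import Pool.Agent.Y90.Pie3

/-!
# Submodules attached to imaginary quadratic fields
-/

set_option linter.unusedSectionVars false

namespace Pool.Agent.Y90

open Matrix Module Pool.Agent.W437.HC Pool.Agent.W437.HD Pool.Agent.W548.Odd

noncomputable section

variable {g : ℕ} {Z : Matrix (Fin g) (Fin g) ℂ}

/-- The dimensions of the eigenspaces of the complex structure. -/
def pd (Z : Matrix (Fin g) (Fin g) ℂ) (U : Submodule ℂ (Fin g ⊕ Fin g → ℂ)) : ℕ :=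
  finrank ℂ (U ⊓ eig Z 1 : Submodule ℂ (Fin g ⊕ Fin g → ℂ))

/-- The dimensions of the eigenspaces of the complex structure. -/
def qd (Z : Matrix (Fin g) (Fin g) ℂ) (U : Submodule ℂ (Fin g ⊕ Fin g → ℂ)) : ℕ :=
  finrank ℂ (U ⊓ eig Z (-1) : Submodule ℂ (Fin g ⊕ Fin g → ℂ))

theorem pd_add_qd (h : PM Z) {U : Submodule ℂ (Fin g ⊕ Fin g → ℂ)} (hU : Stab (LZ Z) U) :
    pd Z U + qd Z U = finrank ℂ U := by
  unfold pd qd
  refine finrank_split ?_ ?_
  · rw [eq_bot_iff, ← eig_inf (Z := Z) 1 (-1) (by norm_num)]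
    exact inf_le_inf inf_le_right inf_le_right
  · apply le_antisymm (sup_le inf_le_left inf_le_left)
    intro v hv
    have h2 : DZ Z *ᵥ (DZ Z *ᵥ v) = v := by rw [mulVec_mulVec, DZ_sq h.det, one_mulVec]
    have h3 := hU _ DZ_mem v hv
    have h1 : v = (1 / 2 : ℂ) • (v + DZ Z *ᵥ v) + (1 / 2 : ℂ) • (v - DZ Z *ᵥ v) := by module
    rw [h1]
    refine Submodule.add_mem_sup ⟨U.smul_mem _ (U.add_mem hv h3), ?_⟩
      ⟨U.smul_mem _ (U.sub_mem hv h3), ?_⟩
    · rw [SetLike.mem_coe, mem_eig, mulVec_smul, mulVec_add, h2]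
      module
    · rw [SetLike.mem_coe, mem_eig, mulVec_smul, mulVec_sub, h2]
      module

theorem pd_cc (U : Submodule ℂ (Fin g ⊕ Fin g → ℂ)) : pd Z (cjS cc U) = qd Z U := by
  unfold pd qd
  rw [← finrank_cjS cc (U ⊓ eig Z (-1))]
  have h1 : cjS cc (U ⊓ eig Z (-1)) = cjS cc U ⊓ eig Z 1 := by
    rw [← cjS_eig' (Z := Z)]
    ext v
    rfl
  rw [h1]

theorem qd_cc (U : Submodule ℂ (Fin g ⊕ Fin g → ℂ)) : qd Z (cjS cc U) = pd Z U := by
  rw [← pd_cc, cjS_cc]

theorem pd_iso {U U' : Submodule ℂ (Fin g ⊕ Fin g → ℂ)}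
    {T : (Fin g ⊕ Fin g → ℂ) →ₗ[ℂ] (Fin g ⊕ Fin g → ℂ)}
    (hT : ∀ X ∈ LZ Z, ∀ u ∈ U, T (X *ᵥ u) = X *ᵥ T u) (hi : ∀ u ∈ U, T u = 0 → u = 0)
    (hU : Stab (LZ Z) U) (hmap : U.map T = U') : pd Z U' = pd Z U := by
  unfold pd
  rw [← finrank_map_of_inj (U := U ⊓ eig Z 1) (T := T) (fun u hu => hi u hu.1)]
  suffices h9 : U' ⊓ eig Z 1 = (U ⊓ eig Z 1).map T by rw [h9]
  ext v
  constructor
  · rintro ⟨hv, hv'⟩
    rw [← hmap] at hv
    obtain ⟨u, hu, rfl⟩ := hv
    refine ⟨u, ⟨hu, ?_⟩, rfl⟩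
    rw [SetLike.mem_coe, mem_eig, one_smul] at hv' ⊢
    rw [← sub_eq_zero]
    refine hi _ (U.sub_mem (hU _ DZ_mem u hu) hu) ?_
    rw [map_sub, hT _ DZ_mem u hu, hv', sub_self]
  · rintro ⟨u, ⟨hu, hu'⟩, rfl⟩
    refine ⟨by rw [← hmap]; exact ⟨u, hu, rfl⟩, ?_⟩
    rw [SetLike.mem_coe, mem_eig, one_smul] at hu' ⊢
    rw [← hT _ DZ_mem u hu, hu']

/-- A submodule attached to an imaginary quadratic field. -/
structure KT (Z : Matrix (Fin g) (Fin g) ℂ) (U : Submodule ℂ (Fin g ⊕ Fin g → ℂ))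
    (φ : Matrix (Fin g ⊕ Fin g) (Fin g ⊕ Fin g) ℚ) (α : ℂ) (d : ℚ) : Prop where
  irr : IrS (LZ Z) U
  dim : finrank ℂ U = g
  comm : ∀ X ∈ LZ Z, X * qm φ = qm φ * X
  pos : 0 < d
  sq : φ * φ = -(d • (1 : Matrix (Fin g ⊕ Fin g) (Fin g ⊕ Fin g) ℚ))
  al : α * α = -(d : ℂ)
  mem : ∀ v, v ∈ U ↔ qm φ *ᵥ v = α • v
  sgn : pd Z U = qd Z U + 1 ∨ qd Z U = pd Z U + 1

theorem exists_rat {z : ℂ} (hz : ∀ σ : ℂ ≃+* ℂ, σ z = z) : ∃ q : ℚ, z = q := by
  by_contra hcon
  push Not at hcon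
  obtain ⟨σ, hσ⟩ := exists_move hcon
  exact hσ (hz σ)

/-- Irreducible submodules of odd dimension `g` are attached to imaginary quadratic fields. -/
theorem exists_KT (h : PM Z) (hs : IsSimpleAV Z) (hg : g = 1 ∨ g = 3)
    {U : Submodule ℂ (Fin g ⊕ Fin g → ℂ)} (hU : IrS (LZ Z) U) (hn : finrank ℂ U = g) :
    ∃ φ α d, KT Z U φ α d := by
  have hpq := pd_add_qd h hU.2.1
  have hUb : IrS (LZ Z) (cjS cc U) := hU.cj gal_LZ cc
  set Ub := cjS cc U with hUbd
  have hpb : pd Z Ub = qd Z U := pd_cc U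
  have hodd : pd Z U ≠ qd Z U := by omega
  have hne : U ≠ Ub := by
    intro h1
    apply hodd
    rw [← hpb, ← h1]
  have hdis : ∀ W W' : Submodule ℂ (Fin g ⊕ Fin g → ℂ), IrS (LZ Z) W → IrS (LZ Z) W' → W ≠ W' →
      W ⊓ W' = ⊥ := by
    intro W W' hW hW' hWW
    refine hW.disjoint hW'.2.1 fun hle => ?_
    rcases hW'.2.2 W hle hW.2.1 with h1 | h1
    · exact hW.1 h1
    · exact hWW h1
  have hinf := hdis U Ub hU hUb hne
  have hsup : U ⊔ Ub = ⊤ := by
    apply Submodule.eq_top_of_finrank_eq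
    have h1 := Submodule.finrank_sup_add_finrank_inf_eq U Ub
    rw [hinf, finrank_bot, finrank_cjS, hn] at h1
    rw [finrank_V]
    omega
  have hc : IsCompl U Ub := ⟨disjoint_iff.2 hinf, codisjoint_iff.2 hsup⟩
  let P : End ℂ (Fin g ⊕ Fin g → ℂ) := U.projection Ub hc
  have hP1 : ∀ u ∈ U, P u = u := fun u hu => Submodule.projection_apply_of_mem_left hc hu
  have hP2 : ∀ u ∈ Ub, P u = 0 := fun u hu => Submodule.projection_apply_of_mem_right hc hu
  have hPmem : ∀ v, P v ∈ U := fun v => by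
    change U.projection Ub hc v ∈ U
    rw [Submodule.projection_apply]
    exact SetLike.coe_mem _
  have hdec : ∀ v : Fin g ⊕ Fin g → ℂ, ∃ a ∈ U, ∃ b ∈ Ub, v = a + b := by
    intro v
    have h1 : v ∈ U ⊔ Ub := by rw [hsup]; trivial
    obtain ⟨a, ha, b, hb, hab⟩ := Submodule.mem_sup.1 h1
    exact ⟨a, ha, b, hb, hab.symm⟩
  have hPc : ∀ X ∈ LZ Z, ∀ v, P (X *ᵥ v) = X *ᵥ P v := by
    intro X hX v
    obtain ⟨a, ha, b, hb, rfl⟩ := hdec v
    rw [mulVec_add, map_add, map_add, hP1 _ (hU.2.1 X hX a ha), hP2 _ (hUb.2.1 X hX b hb),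
      hP1 a ha, hP2 b hb, add_zero, add_zero]
  -- the conjugates
  have hcj : ∀ σ : ℂ ≃+* ℂ, cjS σ U = U ∨ cjS σ U = Ub := by
    intro σ
    by_contra hcon
    push Not at hcon
    have hW : IrS (LZ Z) (cjS σ U) := hU.cj gal_LZ σ
    have h1 : pd Z U = pd Z (cjS σ U) := by
      have h0 : ∃ u ∈ cjS σ U, P u ≠ 0 := by
        by_contra hc2
        push Not at hc2
        obtain ⟨v, hv, hv0⟩ := Submodule.exists_mem_ne_zero_of_ne_bot hW.1
        have hvb : v ∈ Ub := by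
          obtain ⟨a, ha, b, hb, hab⟩ := hdec v
          have h2 := hc2 v hv
          rw [hab, map_add, hP1 a ha, hP2 b hb, add_zero] at h2
          rw [hab, h2, zero_add]
          exact hb
        have h3 : v ∈ cjS σ U ⊓ Ub := ⟨hv, hvb⟩
        rw [hdis _ _ hW hUb hcon.2, Submodule.mem_bot] at h3
        exact hv0 h3
      have hT : ∀ X ∈ LZ Z, ∀ u ∈ cjS σ U, P (X *ᵥ u) = X *ᵥ P u := fun X hX u _ => hPc X hX u
      exact pd_iso hT (hW.inj hT h0) hW.2.1 (hW.map_eq hU hT h0 (fun u _ => hPmem u))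
    have h2 : pd Z Ub = pd Z (cjS σ U) := by
      have h0 : ∃ u ∈ cjS σ U, (LinearMap.id - P : End ℂ (Fin g ⊕ Fin g → ℂ)) u ≠ 0 := by
        by_contra hc2
        push Not at hc2
        obtain ⟨v, hv, hv0⟩ := Submodule.exists_mem_ne_zero_of_ne_bot hW.1
        have hvb : v ∈ U := by
          have h2 : v - P v = 0 := hc2 v hv
          rw [sub_eq_zero.1 h2]
          exact hPmem v
        have h3 : v ∈ cjS σ U ⊓ U := ⟨hv, hvb⟩
        rw [hdis _ _ hW hU hcon.1, Submodule.mem_bot] at h3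
        exact hv0 h3
      have hT : ∀ X ∈ LZ Z, ∀ u ∈ cjS σ U, (LinearMap.id - P : End ℂ (Fin g ⊕ Fin g → ℂ))
          (X *ᵥ u) = X *ᵥ (LinearMap.id - P : End ℂ (Fin g ⊕ Fin g → ℂ)) u := by
        intro X hX u _
        change X *ᵥ u - P (X *ᵥ u) = X *ᵥ (u - P u)
        rw [hPc X hX, mulVec_sub]
      refine pd_iso hT (hW.inj hT h0) hW.2.1 (hW.map_eq hUb hT h0 (fun u _ => ?_))
      change u - P u ∈ Ub
      obtain ⟨a, ha, b, hb, rfl⟩ := hdec u
      rw [map_add, hP1 a ha, hP2 b hb, add_zero, add_sub_cancel_left]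
      exact hb
    rw [hpb] at h2
    exact hodd (by rw [h1, h2])
  -- the sign operator
  let E : Matrix (Fin g ⊕ Fin g) (Fin g ⊕ Fin g) ℂ := LinearMap.toMatrix' ((2 : ℂ) • P - 1)
  have hEv : ∀ v, E *ᵥ v = (2 : ℂ) • P v - v := by
    intro v
    rw [← toLin'_apply, toLin'_toMatrix']
    rfl
  have hE1 : ∀ u ∈ U, E *ᵥ u = u := by
    intro u hu
    rw [hEv, hP1 u hu]
    module
  have hE2 : ∀ u ∈ Ub, E *ᵥ u = -u := by
    intro u hu
    rw [hEv, hP2 u hu]
    module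
  have hEuniq : ∀ M : Matrix (Fin g ⊕ Fin g) (Fin g ⊕ Fin g) ℂ, (∀ u ∈ U, M *ᵥ u = u) →
      (∀ u ∈ Ub, M *ᵥ u = -u) → M = E := by
    intro M h1 h2
    apply Matrix.toLin'.injective
    refine LinearMap.ext fun v => ?_
    rw [toLin'_apply, toLin'_apply]
    obtain ⟨a, ha, b, hb, rfl⟩ := hdec v
    rw [mulVec_add, mulVec_add, h1 a ha, h2 b hb, hE1 a ha, hE2 b hb]
  have hEmap : ∀ σ : ℂ ≃+* ℂ, ∀ v, E.map σ *ᵥ v = fun i => σ ((E *ᵥ fun j => σ.symm (v j)) i) := by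
    intro σ v
    rw [map_mulVec_aut σ]
    congr 1
    funext i
    simp
  have hEσ : ∀ σ : ℂ ≃+* ℂ, (cjS σ U = U ∧ E.map σ = E) ∨ (cjS σ U = Ub ∧ E.map σ = -E) := by
    intro σ
    have hm1 : ∀ v ∈ cjS σ U, E.map σ *ᵥ v = v := by
      intro v hv
      rw [hEmap, hE1 _ hv]
      funext i
      simp
    have hm2 : ∀ v ∈ cjS σ Ub, E.map σ *ᵥ v = -v := by
      intro v hv
      rw [hEmap, hE2 _ hv]
      funext i
      simp
    have hσb : cjS σ Ub = U ∨ cjS σ Ub = Ub := by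
      rw [hUbd, cjS_trans]
      exact hcj (cc.trans σ)
    rcases hcj σ with h1 | h1
    · left
      refine ⟨h1, ?_⟩
      have h2 : cjS σ Ub = Ub := by
        rcases hσb with h3 | h3
        · exfalso
          apply hne
          rw [← cjS_symm σ U, ← cjS_symm σ Ub, h1, h3]
        · exact h3
      rw [h1] at hm1
      rw [h2] at hm2
      exact hEuniq _ hm1 hm2
    · right
      refine ⟨h1, ?_⟩
      have h2 : cjS σ Ub = U := by
        rcases hσb with h3 | h3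
        · exact h3
        · exfalso
          apply hne
          rw [← cjS_symm σ U, ← cjS_symm σ Ub, h1, h3]
      rw [h1] at hm1
      rw [h2] at hm2
      have h3 : -(E.map σ) = E := by
        refine hEuniq _ (fun u hu => ?_) (fun u hu => ?_)
        · rw [neg_mulVec, hm2 u hu, neg_neg]
        · rw [neg_mulVec, hm1 u hu]
      exact neg_eq_iff_eq_neg.1 h3
  obtain ⟨u0, hu0, hu00⟩ := Submodule.exists_mem_ne_zero_of_ne_bot hU.1
  obtain ⟨i0, j0, hij⟩ : ∃ i j, E i j ≠ 0 := by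
    by_contra hcon
    push Not at hcon
    apply hu00
    rw [← hE1 u0 hu0]
    funext i
    simp [mulVec, dotProduct, hcon]
  set α : ℂ := (E i0 j0)⁻¹ with hα
  have hα0 : α ≠ 0 := inv_ne_zero hij
  have hrat : ∀ k l, ∃ q : ℚ, α * E k l = q := by
    intro k l
    apply exists_rat
    intro σ
    rw [map_mul, hα, map_inv₀]
    rcases hEσ σ with ⟨-, h1⟩ | ⟨-, h1⟩
    · have h2 : ∀ k l, σ (E k l) = E k l := fun k l => congrFun (congrFun h1 k) l
      rw [h2, h2]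
    · have h2 : ∀ k l, σ (E k l) = -E k l := fun k l => congrFun (congrFun h1 k) l
      rw [h2, h2, inv_neg, neg_mul_neg]
  choose q hq using hrat
  let φ : Matrix (Fin g ⊕ Fin g) (Fin g ⊕ Fin g) ℚ := Matrix.of q
  have hφ : qm φ = α • E := by
    ext k l
    change ((q k l : ℚ) : ℂ) = α * E k l
    rw [hq]
  have hEE : E * E = 1 := by
    apply Matrix.toLin'.injective
    refine LinearMap.ext fun v => ?_
    rw [toLin'_apply, toLin'_apply, ← mulVec_mulVec, one_mulVec]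
    obtain ⟨a, ha, b, hb, rfl⟩ := hdec v
    rw [mulVec_add, mulVec_add, hE1 a ha, hE2 b hb, hE1 a ha, mulVec_neg, hE2 b hb, neg_neg]
  have hφφ : qm (φ * φ) = (α * α) • 1 := by
    rw [qm_mul, hφ, smul_mul_smul_comm, hEE]
  -- the square
  have hαα : ((φ * φ) i0 i0 : ℂ) = α * α := by
    have h1 := congrFun (congrFun hφφ i0) i0
    rw [Matrix.smul_apply, Matrix.one_apply_eq, smul_eq_mul, mul_one] at h1
    exact h1
  have hccα : (starRingEnd ℂ) α = -α := by
    rcases hEσ cc with ⟨h1, -⟩ | ⟨-, h1⟩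
    · exact absurd h1.symm hne
    · have h2 : cc (E i0 j0) = -E i0 j0 := congrFun (congrFun h1 i0) j0
      have h3 : cc α = -α := by rw [hα, map_inv₀, h2, inv_neg]
      exact h3
  have hneg : (φ * φ) i0 i0 < 0 := by
    have h1 : α * (starRingEnd ℂ) α = (Complex.normSq α : ℂ) := Complex.mul_conj α
    rw [hccα] at h1
    have h2 : (((φ * φ) i0 i0 : ℚ) : ℂ) = -((Complex.normSq α : ℝ) : ℂ) := by
      rw [hαα, ← h1]
      ring
    have h3 : (((φ * φ) i0 i0 : ℚ) : ℝ) = -(Complex.normSq α : ℝ) := by exact_mod_cast h2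
    have h4 : 0 < Complex.normSq α := Complex.normSq_pos.2 hα0
    have h5 : (((φ * φ) i0 i0 : ℚ) : ℝ) < 0 := by rw [h3]; linarith
    exact_mod_cast h5
  refine ⟨φ, α, -((φ * φ) i0 i0), hU, hn, fun X hX => ?_, by linarith, ?_, ?_, fun v => ?_, ?_⟩
  · rw [hφ, mul_smul_comm, smul_mul_assoc]
    congr 1
    apply Matrix.toLin'.injective
    refine LinearMap.ext fun v => ?_
    rw [toLin'_apply, toLin'_apply, ← mulVec_mulVec, ← mulVec_mulVec]
    obtain ⟨a, ha, b, hb, rfl⟩ := hdec v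
    rw [mulVec_add, mulVec_add, mulVec_add, mulVec_add, hE1 a ha, hE2 b hb,
      hE1 _ (hU.2.1 X hX a ha), hE2 _ (hUb.2.1 X hX b hb), mulVec_neg]
  · have h1 : qm (φ * φ) = qm (-(-((φ * φ) i0 i0) •
        (1 : Matrix (Fin g ⊕ Fin g) (Fin g ⊕ Fin g) ℚ))) := by
      rw [hφφ, ← hαα]
      ext k l
      simp only [Matrix.smul_apply, Matrix.map_apply, Matrix.neg_apply, smul_eq_mul, neg_mul,
        neg_neg]
      by_cases hkl : k = l
      · subst hkl
        simp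
      · simp [hkl]
    ext k l
    have h2 := congrFun (congrFun h1 k) l
    simp only [Matrix.map_apply] at h2
    exact_mod_cast h2
  · rw [← hαα]
    push_cast
    ring
  · rw [hφ, smul_mulVec]
    constructor
    · intro hv
      rw [hE1 v hv]
    · intro hv
      have h1 : E *ᵥ v = v := smul_right_injective _ hα0 hv
      obtain ⟨a, ha, b, hb, rfl⟩ := hdec v
      rw [mulVec_add, hE1 a ha, hE2 b hb] at h1
      have h2 : (2 : ℂ) • b = 0 := by
        have h3 : (2 : ℂ) • b = (a + b) - (a + -b) := by module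
        rw [h3, h1, sub_self]
      rw [(smul_eq_zero.1 h2).resolve_left two_ne_zero, add_zero]
      exact ha
  · rcases hg with rfl | rfl
    · omega
    · have hDr : DS Z (RingEquiv.refl ℂ) = DZ Z := by
        ext i j
        rfl
      have hp3 : pd Z U ≠ 3 := by
        intro h3
        obtain ⟨u, hu, hu'⟩ := nonscalar h hs le_rfl hU (by omega) (RingEquiv.refl ℂ) 1
        apply hu'
        have h4 : U ⊓ eig Z 1 = U := Submodule.eq_of_le_of_finrank_eq inf_le_left (by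
          rw [hn]
          exact h3)
        rw [← h4] at hu
        rw [hDr]
        exact hu.2
      have hq3 : qd Z U ≠ 3 := by
        intro h3
        obtain ⟨u, hu, hu'⟩ := nonscalar h hs le_rfl hU (by omega) (RingEquiv.refl ℂ) (-1)
        apply hu'
        have h4 : U ⊓ eig Z (-1) = U := Submodule.eq_of_le_of_finrank_eq inf_le_left (by
          rw [hn]
          exact h3)
        rw [← h4] at hu
        rw [hDr]
        exact hu.2
      omega

end

end Pool.Agent.Y90
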