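import Mathlib

/-!
# Systems of spaces of forms closed under products
-/

set_option linter.unusedSectionVars false

namespace Pool.Agent.Y90

noncomputable section

variable {K : Type*} [Field K] {X : Type*} [AddCommGroup X] [Module K X]

/-- A system of spaces of forms, closed under products and renaming of the variables. -/
structure Clo (N : ∀ (κ : Type) [Finite κ], Submodule K (MultilinearMap K (fun _ : κ => X) K)) :
    Prop where
  unit : ∀ (κ : Type) [Finite κ] [IsEmpty κ] (φ : MultilinearMap K (fun _ : κ => X) K), φ ∈ N κ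
  mul : ∀ (κ κ' κ'' : Type) [Finite κ] [Finite κ'] [Finite κ''] (e : κ ⊕ κ' ≃ κ'')
    (φ : MultilinearMap K (fun _ : κ => X) K) (φ' : MultilinearMap K (fun _ : κ' => X) K)
    (ψ : MultilinearMap K (fun _ : κ'' => X) K), φ ∈ N κ → φ' ∈ N κ' →
    (∀ v, ψ v = φ (fun k => v (e (Sum.inl k))) * φ' (fun k => v (e (Sum.inr k)))) → ψ ∈ N κ''

/-- The product of two forms. -/
def prd {κ κ' : Type*} (φ : MultilinearMap K (fun _ : κ => X) K)
    (φ' : MultilinearMap K (fun _ : κ' => X) K) : MultilinearMap K (fun _ : κ ⊕ κ' => X) K :=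
  (LinearMap.mul' K K).compMultilinearMap (φ.domCoprod φ')

theorem prd_apply {κ κ' : Type*} (φ : MultilinearMap K (fun _ : κ => X) K)
    (φ' : MultilinearMap K (fun _ : κ' => X) K) (v : κ ⊕ κ' → X) :
    prd φ φ' v = φ (fun k => v (Sum.inl k)) * φ' (fun k => v (Sum.inr k)) := rfl

namespace Clo

variable {N : ∀ (κ : Type) [Finite κ], Submodule K (MultilinearMap K (fun _ : κ => X) K)}
  (hN : Clo N)
include hN

theorem reindex {κ κ' : Type} [Finite κ] [Finite κ'] (e : κ ≃ κ')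
    {φ : MultilinearMap K (fun _ : κ => X) K} (hφ : φ ∈ N κ)
    (ψ : MultilinearMap K (fun _ : κ' => X) K) (h : ∀ v, ψ v = φ (fun k => v (e k))) :
    ψ ∈ N κ' := by
  refine hN.mul κ Empty κ' ((Equiv.sumEmpty κ Empty).trans e) φ
    (MultilinearMap.constOfIsEmpty K (fun _ : Empty => X) 1) ψ hφ (hN.unit _ _) fun v => ?_
  rw [MultilinearMap.constOfIsEmpty_apply, Function.const_apply, mul_one, h]
  rfl

theorem prd_mem {κ κ' : Type} [Finite κ] [Finite κ'] {φ : MultilinearMap K (fun _ : κ => X) K}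
    {φ' : MultilinearMap K (fun _ : κ' => X) K} (h : φ ∈ N κ) (h' : φ' ∈ N κ') :
    prd φ φ' ∈ N (κ ⊕ κ') :=
  hN.mul κ κ' (κ ⊕ κ') (Equiv.refl _) φ φ' _ h h' fun _ => rfl

theorem fin_prod (n : ℕ) : ∀ (B : Fin n → Type) [∀ a, Finite (B a)]
    (ψ : ∀ a, MultilinearMap K (fun _ : B a => X) K), (∀ a, ψ a ∈ N (B a)) →
    ∃ Ψ ∈ N (Σ a, B a), ∀ v, Ψ v = ∏ a, ψ a (fun k => v ⟨a, k⟩) := by
  induction n with
  | zero =>
    intro B _ ψ _
    refine ⟨MultilinearMap.constOfIsEmpty K (fun _ : (Σ a, B a) => X) 1, hN.unit _ _, fun v => ?_⟩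
    rw [MultilinearMap.constOfIsEmpty_apply, Fin.prod_univ_zero, Function.const_apply]
  | succ n ih =>
    intro B _ ψ hψ
    obtain ⟨Ψ, hΨ, hΨ'⟩ := ih (fun a => B a.succ) (fun a => ψ a.succ) (fun a => hψ _)
    let e : B 0 ⊕ (Σ a : Fin n, B a.succ) ≃ Σ a, B a :=
      Equiv.ofBijective (Sum.elim (fun k => ⟨0, k⟩) (fun p => ⟨p.1.succ, p.2⟩)) (by
        constructor
        · rintro (k | ⟨a, k⟩) (k' | ⟨a', k'⟩) h
          · have h1 : (⟨0, k⟩ : Σ a, B a) = ⟨0, k'⟩ := h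
            rw [Sigma.mk.inj_iff] at h1
            rw [eq_of_heq h1.2]
          · have h1 : (⟨0, k⟩ : Σ a, B a) = ⟨a'.succ, k'⟩ := h
            rw [Sigma.mk.inj_iff] at h1
            exact absurd h1.1.symm (Fin.succ_ne_zero _)
          · have h1 : (⟨a.succ, k⟩ : Σ a, B a) = ⟨0, k'⟩ := h
            rw [Sigma.mk.inj_iff] at h1
            exact absurd h1.1 (Fin.succ_ne_zero _)
          · have h1 : (⟨a.succ, k⟩ : Σ a, B a) = ⟨a'.succ, k'⟩ := h
            rw [Sigma.mk.inj_iff] at h1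
            obtain ⟨h2, h3⟩ := h1
            have h4 := Fin.succ_injective _ h2
            subst h4
            rw [eq_of_heq h3]
        · rintro ⟨a, k⟩
          induction a using Fin.cases with
          | zero => exact ⟨Sum.inl k, rfl⟩
          | succ a => exact ⟨Sum.inr ⟨a, k⟩, rfl⟩)
    refine ⟨(prd (ψ 0) Ψ).domDomCongr e, hN.reindex e (hN.prd_mem (hψ 0) hΨ) _ fun v => rfl,
      fun v => ?_⟩
    rw [Fin.prod_univ_succ, MultilinearMap.domDomCongr_apply, prd_apply, hΨ']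
    rfl

/-- Products of finite families. -/
theorem fam_prod {A : Type} [Fintype A] (B : A → Type) [∀ a, Finite (B a)]
    (ψ : ∀ a, MultilinearMap K (fun _ : B a => X) K) (hψ : ∀ a, ψ a ∈ N (B a))
    {κ : Type} [Finite κ] (e : (Σ a, B a) ≃ κ) (Ψ : MultilinearMap K (fun _ : κ => X) K)
    (h : ∀ v, Ψ v = ∏ a, ψ a (fun k => v (e ⟨a, k⟩))) : Ψ ∈ N κ := by
  let f := Fintype.equivFin A
  obtain ⟨Ψ', hΨ, hΨ'⟩ := hN.fin_prod (Fintype.card A) (fun a => B (f.symm a))
    (fun a => ψ (f.symm a)) (fun a => hψ _)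
  let e' : (Σ a : Fin (Fintype.card A), B (f.symm a)) ≃ Σ a, B a := Equiv.sigmaCongrLeft f.symm
  refine hN.reindex (e'.trans e) hΨ Ψ fun v => ?_
  rw [h, hΨ', ← f.symm.prod_comp]
  rfl

/-- The existence of products of finite families. -/
theorem exists_fam {A : Type} [Fintype A] (B : A → Type) [∀ a, Finite (B a)]
    (ψ : ∀ a, MultilinearMap K (fun _ : B a => X) K) (hψ : ∀ a, ψ a ∈ N (B a))
    {κ : Type} [Finite κ] (e : (Σ a, B a) ≃ κ) :
    ∃ Ψ ∈ N κ, ∀ v, Ψ v = ∏ a, ψ a (fun k => v (e ⟨a, k⟩)) := by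
  let f := Fintype.equivFin A
  obtain ⟨Ψ', hΨ, hΨ'⟩ := hN.fin_prod (Fintype.card A) (fun a => B (f.symm a))
    (fun a => ψ (f.symm a)) (fun a => hψ _)
  let e' : (Σ a : Fin (Fintype.card A), B (f.symm a)) ≃ Σ a, B a := Equiv.sigmaCongrLeft f.symm
  refine ⟨Ψ'.domDomCongr (e'.trans e), hN.reindex (e'.trans e) hΨ _ fun v => rfl, fun v => ?_⟩
  rw [MultilinearMap.domDomCongr_apply, hΨ', ← f.symm.prod_comp]
  rfl

end Clo

end

end Pool.Agent.Y90
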