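import Mathlib
import Pool.Agent.H204R3.CM.Defs

/-!
# Complex abelian varieties, Weil classes, and the ring generated by divisors and Weil classes

Complex abelian varieties `X` are described up to isogeny by the rational vector space
`H = H_1(X, ℚ)`, the tangent space `T` at the origin and the period map `per : H → T`. The
cohomology group `H^κ(X, ℚ)` is the space of the alternating `ℚ`-multilinear forms on `H` in
variables indexed by the finite set `κ`, and the (rational) Hodge classes are singled out by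
`IsHodge` (from `Pool.Agent.H204R3.CM.Defs`): the extension of the form to a real multilinear form
on `T` is invariant under multiplication of all variables by complex numbers of absolute value one.
-/

namespace Pool.Agent.Y90

open Pool.Agent.H204R3.CM

/-- `E : H × H → ℚ` is the Riemann form of a polarization: the restriction of the imaginary part of
a positive definite Hermitian form (linear in the first variable) on the tangent space `T`. -/
def IsPolarization {H T : Type} [AddCommGroup H] [Module ℚ H] [AddCommGroup T] [Module ℂ T]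
    (per : H →+ T) (E : H → H → ℚ) : Prop :=
  ∃ Ψ : T → T → ℂ, (∀ u', IsLinearMap ℂ fun u => Ψ u u') ∧
    (∀ u u', Ψ u' u = starRingEnd ℂ (Ψ u u')) ∧ (∀ u, u ≠ 0 → 0 < (Ψ u u).re) ∧
    ∀ v w, (Ψ (per v) (per w)).im = E v w

/-- Complex abelian varieties (up to isogeny): `H = H_1(X, ℚ)`, the tangent space `T`, the period
map `per : H → T`, whose image spans `T` over `ℝ`, with `dim_ℚ H = 2 dim_ℂ T` (so that
`H ⊗ ℝ = T`), and a polarization. -/
structure AV where
  H : Type
  T : Type
  [addH : AddCommGroup H]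
  [modH : Module ℚ H]
  [finH : FiniteDimensional ℚ H]
  [addT : AddCommGroup T]
  [modT : Module ℂ T]
  [finT : FiniteDimensional ℂ T]
  per : H →+ T
  span : Submodule.span ℝ (Set.range per) = ⊤
  rank : Module.finrank ℚ H = 2 * Module.finrank ℂ T
  pol : ∃ E : H → H → ℚ, IsPolarization per E

attribute [instance] AV.addH AV.modH AV.finH AV.addT AV.modT AV.finT

/-- Homomorphisms `X → Y` (up to isogeny): rational linear maps `H_1(X, ℚ) → H_1(Y, ℚ)` which are
compatible with a complex linear map of the tangent spaces. -/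
def IsHom (X Y : AV) (h : X.H →ₗ[ℚ] Y.H) : Prop :=
  ∃ Ψ : X.T →ₗ[ℂ] Y.T, ∀ v, Ψ (X.per v) = Y.per (h v)

/-- Abelian subvarieties of `X` (up to isogeny): rational subspaces `U` of `H_1(X, ℚ)` whose real
span in the tangent space is a complex subspace. The dimension is `dim U / 2`. -/
def IsSub (X : AV) (U : Submodule ℚ X.H) : Prop :=
  ∀ x ∈ Submodule.span ℝ (X.per '' U), Complex.I • x ∈ Submodule.span ℝ (X.per '' U)

/-- Simple abelian subvarieties. -/
def IsSimpleSub (X : AV) (U : Submodule ℚ X.H) : Prop :=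
  IsSub X U ∧ U ≠ ⊥ ∧ ∀ U' ≤ U, IsSub X U' → U' = ⊥ ∨ U' = U

/-- The abelian subvariety `U` has complex multiplication: it has a commutative algebra of
endomorphisms of dimension `dim U = 2 dim` over `ℚ`. -/
def IsCMSub (X : AV) (U : Submodule ℚ X.H) : Prop :=
  ∃ A : Subalgebra ℚ (Module.End ℚ U), (∀ a ∈ A, ∀ b ∈ A, a * b = b * a) ∧
    Module.finrank ℚ A = Module.finrank ℚ U ∧
    ∀ a ∈ A, ∃ Ψ : X.T →ₗ[ℂ] X.T, ∀ u : U, Ψ (X.per u) = X.per (a u)

/-- All simple abelian subvarieties of `X` have dimension at most three, and those with complex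
multiplication are elliptic curves. -/
def SmallSimple (X : AV) : Prop :=
  ∀ U : Submodule ℚ X.H, IsSimpleSub X U →
    Module.finrank ℚ U ≤ 6 ∧ (IsCMSub X U → Module.finrank ℚ U = 2)

/-- The abelian sixfold `Y` with the endomorphism `h = √-d` has trivial discriminant: for some
polarization `E` with `E (h v) w = -E v (h w)` the determinant of the Hermitian form
`E v (h w) + √-d E v w` on the vector space `H_1(Y, ℚ)` over `K = ℚ(√-d)`, with respect to some
vectors `v 1, ..., v 6` (a basis over `K`), is `-1` times the norm of a nonzero element of `K`. Here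
`s = √-d` is one of the square roots of `-d` in `ℂ`; the determinant is a rational number and does
not depend on this choice. -/
def HasTrivialDisc (Y : AV) (d : ℚ) (h : Y.H →ₗ[ℚ] Y.H) : Prop :=
  ∃ (s : ℂ) (E : Y.H → Y.H → ℚ) (v : Fin 6 → Y.H) (x y : ℚ), s * s = -(d : ℂ) ∧
    IsPolarization Y.per E ∧ (∀ v w, E (h v) w = -E v (h w)) ∧ (x ≠ 0 ∨ y ≠ 0) ∧
    (Matrix.of fun i j => ((E (v i) (h (v j)) : ℚ) : ℂ) + s * ((E (v i) (v j) : ℚ) : ℂ)).det =
      -((x ^ 2 + d * y ^ 2 : ℚ) : ℂ)

/-- `f ∈ H^n(Y, ℚ)` is a Weil class of an imaginary quadratic field on the abelian variety `Y` of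
dimension `n`: `f` is a Hodge class, and there are a positive rational number `d` and an
endomorphism `h = √-d` of `Y` such that `h` may be moved in `f` from each variable to each other
variable (so `f` lies in the line `Λ^n_K H¹(Y, ℚ)` over the field `K = ℚ(√-d)`). If `n = 6` then
the discriminant of `Y` is moreover trivial. -/
def IsWeilClass (Y : AV) (n : ℕ) (f : Y.H [⋀^Fin n]→ₗ[ℚ] ℚ) : Prop :=
  Module.finrank ℚ Y.H = 2 * n ∧ IsHodge Y.per f ∧
    ∃ (d : ℚ) (h : Y.H →ₗ[ℚ] Y.H), 0 < d ∧ IsHom Y Y h ∧ (∀ w, h (h w) = -(d • w)) ∧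
      (∀ (v : Fin n → Y.H) (k l : Fin n),
        f (Function.update v k (h (v k))) = f (Function.update v l (h (v l)))) ∧
      (n = 6 → HasTrivialDisc Y d h)

/-- The ring generated by the classes of divisors and by Weil classes on abelian fourfolds and on
abelian sixfolds with trivial discriminant: the smallest system of cohomology classes
`f ∈ H^κ(X, ℚ)` of the abelian variety `X` which contains the classes of degree zero, the Hodge
classes of degree two and the pull-backs, along homomorphisms `X → Y`, of the Weil classes of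
imaginary quadratic fields on abelian varieties `Y` of dimension four or six (with trivial
discriminant in dimension six), and which is stable under linear combinations and cup products. -/
inductive WeilRing (X : AV) : (κ : Type) → (X.H [⋀^κ]→ₗ[ℚ] ℚ) → Prop
  /-- classes of degree zero -/
  | unit {κ : Type} [IsEmpty κ] (f : X.H [⋀^κ]→ₗ[ℚ] ℚ) : WeilRing X κ f
  /-- Hodge classes of degree two -/
  | divisor {κ : Type} (hκ : Nat.card κ = 2) (f : X.H [⋀^κ]→ₗ[ℚ] ℚ)
      (hf : IsHodge X.per f) : WeilRing X κ f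
  /-- pull-backs of Weil classes on abelian varieties of dimension four or six -/
  | weil {Y : AV} {n : ℕ} (hn : n = 4 ∨ n = 6) (f : Y.H [⋀^Fin n]→ₗ[ℚ] ℚ)
      (hf : IsWeilClass Y n f) (h : X.H →ₗ[ℚ] Y.H) (hh : IsHom X Y h) :
      WeilRing X (Fin n) (f.compLinearMap h)
  | zero (κ : Type) : WeilRing X κ 0
  | add {κ : Type} (f g : X.H [⋀^κ]→ₗ[ℚ] ℚ) (hf : WeilRing X κ f) (hg : WeilRing X κ g) :
      WeilRing X κ (f + g)
  | smul {κ : Type} (a : ℚ) (f : X.H [⋀^κ]→ₗ[ℚ] ℚ) (hf : WeilRing X κ f) :
      WeilRing X κ (a • f)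
  /-- renaming of the variables -/
  | reindex {κ κ' : Type} (e : κ ≃ κ') (f : X.H [⋀^κ]→ₗ[ℚ] ℚ) (hf : WeilRing X κ f) :
      WeilRing X κ' (f.domDomCongr e)
  /-- cup products (up to a factor) -/
  | cup {κ κ' : Type} [Fintype κ] [DecidableEq κ] [Fintype κ'] [DecidableEq κ']
      (f : X.H [⋀^κ]→ₗ[ℚ] ℚ) (g : X.H [⋀^κ']→ₗ[ℚ] ℚ) (hf : WeilRing X κ f) (hg : WeilRing X κ' g)
      (h : X.H [⋀^κ ⊕ κ']→ₗ[ℚ] ℚ)
      (hh : ∀ v : κ ⊕ κ' → X.H, h v = ∑ σ : Equiv.Perm (κ ⊕ κ'), ((Equiv.Perm.sign σ : ℤ) : ℚ) *
        (f (fun k => v (σ (Sum.inl k))) * g (fun k => v (σ (Sum.inr k))))) :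
      WeilRing X (κ ⊕ κ') h

end Pool.Agent.Y90
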