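import Mathlib
import Pool.Agent.H204R3.GP.FFT

/-!
# Determinants and the elementary operators
-/

set_option linter.unusedSectionVars false

namespace Pool.Agent.Y90

open Equiv Matrix Pool.Agent.H204R3.SP Pool.Agent.H204R3.GP

noncomputable section

variable {R : Type*} [Fintype R] [DecidableEq R] {Ω : Type*} [Field Ω] {Q : Type*} [DecidableEq Q]
  {cls : R → Q} {inv : R → R} {jj : R → Ω}

variable (cls) in
/-- The basis elements of a class. -/
abbrev Mem (C : Q) : Type _ := {y : R // cls y = C}

variable (inv jj) in
/-- The action of an elementary operator. -/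
def elemX {κ : Type*} [Fintype κ] [DecidableEq κ] (b c : R) (F : (κ → R) → Ω) : (κ → R) → Ω :=
  fun I => ∑ k, (JJ inv jj b (I k) * F (Function.update I k c) +
    JJ inv jj c (I k) * F (Function.update I k b))

variable (Ω cls inv) in
/-- The dual determinant. -/
def detD (C : Q) (u : Mem cls C → R) : Ω :=
  Matrix.det (Matrix.of fun y y' : Mem cls C => if u y = inv y'.1 then (1 : Ω) else 0)

theorem detD_update (C : Q) (u : Mem cls C → R) (k : Mem cls C) (c : R) :
    detD Ω cls inv C (Function.update u k c) =
      Matrix.det (Matrix.updateRow (Matrix.of fun y y' : Mem cls C =>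
        if u y = inv y'.1 then (1 : Ω) else 0) k
        (fun y' => if c = inv y'.1 then (1 : Ω) else 0)) := by
  unfold detD
  congr 1
  ext y y'
  by_cases h : y = k
  · subst h
    rw [Matrix.of_apply, Function.update_self, Matrix.updateRow_self]
  · rw [Matrix.of_apply, Function.update_of_ne h, Matrix.updateRow_ne h, Matrix.of_apply]

variable (hinv : ∀ x, inv (inv x) = x) (hjj : ∀ x, jj (inv x) = -jj x)
  (hcls : ∀ x y, cls x = cls y → cls (inv x) = cls (inv y))

include hinv hcls in
/-- The first half of the action of an elementary operator on a dual determinant. -/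
theorem detD_half (C : Q) (u : Mem cls C → R) {b c : R} (hbc : cls (inv b) = cls c) :
    ∑ k, JJ inv jj b (u k) * detD Ω cls inv C (Function.update u k c) =
      (if cls b = C ∧ c = inv b then jj b else 0) * detD Ω cls inv C u := by
  have hb : cls b = cls (inv c) := by
    have h := hcls _ _ hbc
    rwa [hinv] at h
  simp only [detD_update]
  set M : Matrix (Mem cls C) (Mem cls C) Ω :=
    Matrix.of fun y y' => if u y = inv y'.1 then (1 : Ω) else 0 with hM
  by_cases hC : cls b = C
  · have hc : cls (inv c) = C := by rw [← hb, hC]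
    have h1 : (fun y' : Mem cls C => if c = inv y'.1 then (1 : Ω) else 0) =
        Pi.single (⟨inv c, hc⟩ : Mem cls C) 1 := by
      funext y'
      rw [Pi.single_apply]
      by_cases h : c = inv y'.1
      · rw [if_pos h, if_pos]
        exact Subtype.ext (show y'.1 = inv c by rw [h, hinv])
      · rw [if_neg h, if_neg]
        rintro rfl
        exact h (hinv c).symm
    rw [h1]
    have h2 : ∀ k, JJ inv jj b (u k) * (M.updateRow k (Pi.single ⟨inv c, hc⟩ 1)).det =
        jj b * (M.adjugate ⟨inv c, hc⟩ k * M k ⟨b, hC⟩) := by
      intro k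
      rw [Matrix.adjugate_apply, hM, Matrix.of_apply]
      unfold JJ
      simp only
      by_cases h : u k = inv b
      · rw [if_pos h, if_pos h, mul_one]
      · rw [if_neg h, if_neg h, mul_zero, mul_zero, zero_mul]
    rw [Finset.sum_congr rfl (fun k _ => h2 k), ← Finset.mul_sum, ← Matrix.mul_apply,
      Matrix.adjugate_mul, Matrix.smul_apply, Matrix.one_apply, smul_eq_mul]
    have h3 : detD Ω cls inv C u = M.det := rfl
    rw [h3]
    by_cases h : c = inv b
    · rw [if_pos (Subtype.ext (show inv c = b by rw [h, hinv])), if_pos ⟨hC, h⟩, mul_one]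
    · rw [if_neg, if_neg (fun h' => h h'.2)]
      · rw [mul_zero, mul_zero, zero_mul]
      · intro h'
        apply h
        have h4 : inv c = b := congrArg Subtype.val h'
        rw [← h4, hinv]
  · rw [if_neg (fun h => hC h.1), zero_mul]
    refine Finset.sum_eq_zero fun k _ => ?_
    have h1 : (fun y' : Mem cls C => if c = inv y'.1 then (1 : Ω) else 0) = 0 := by
      funext y'
      rw [if_neg]
      · rfl
      · intro h
        apply hC
        rw [hb, h, hinv]
        exact y'.2
    rw [h1, Matrix.det_eq_zero_of_row_eq_zero k, mul_zero]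
    intro j
    rw [Matrix.updateRow_self]
    rfl

variable (inv jj) in
/-- The eigenvalue of an elementary operator on a dual determinant. -/
def mu (C : Q) (b c : R) : Ω :=
  (if cls b = C ∧ c = inv b then jj b else 0) + (if cls c = C ∧ b = inv c then jj c else 0)

include hinv hcls in
theorem elemX_detD (C : Q) (u : Mem cls C → R) {b c : R} (hbc : cls (inv b) = cls c) :
    elemX inv jj b c (detD Ω cls inv C) u = mu (cls := cls) inv jj C b c * detD Ω cls inv C u := by
  unfold elemX mu
  rw [Finset.sum_add_distrib, add_mul, detD_half hinv hcls C u hbc, detD_half hinv hcls C u]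
  have h := hcls _ _ hbc
  rw [hinv] at h
  exact h.symm

section prod

variable {κ : Type*} [Fintype κ] [DecidableEq κ] {S : Type*} [Fintype S] [DecidableEq S]
  (C : S → Q)

variable (cls) in
/-- The positions of the determinants. -/
abbrev Pos (C : S → Q) : Type _ := Σ q : S, Mem cls (C q)

variable (Ω cls inv) in
/-- The product of a function and of dual determinants. -/
def withDet (F : (κ → R) → Ω) : (κ ⊕ Pos cls C → R) → Ω :=
  fun J => F (fun k => J (Sum.inl k)) * ∏ q, detD Ω cls inv (C q) (fun y => J (Sum.inr ⟨q, y⟩))

theorem update_inl (J : κ ⊕ Pos cls C → R) (k : κ) (c : R) :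
    (fun l => Function.update J (Sum.inl k) c (Sum.inl l)) =
      Function.update (fun l => J (Sum.inl l)) k c := by
  funext l
  by_cases h : l = k
  · subst h
    rw [Function.update_self, Function.update_self]
  · rw [Function.update_of_ne h, Function.update_of_ne]
    intro h'
    exact h (Sum.inl_injective h')

include hinv hcls in
theorem elemX_withDet (F : (κ → R) → Ω) {b c : R} (hbc : cls (inv b) = cls c)
    (J : κ ⊕ Pos cls C → R) :
    elemX inv jj b c (withDet Ω cls inv C F) J =
      (elemX inv jj b c F (fun k => J (Sum.inl k)) +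
        (∑ q, mu (cls := cls) inv jj (C q) b c) * F (fun k => J (Sum.inl k))) *
        ∏ q, detD Ω cls inv (C q) (fun y => J (Sum.inr ⟨q, y⟩)) := by
  set P := ∏ q, detD Ω cls inv (C q) (fun y => J (Sum.inr ⟨q, y⟩)) with hP
  unfold elemX
  rw [Fintype.sum_sum_type, add_mul]
  congr 1
  · rw [Finset.sum_mul]
    refine Finset.sum_congr rfl fun k _ => ?_
    unfold withDet
    rw [update_inl, update_inl]
    have h1 : ∀ z : R, (∏ q, detD Ω cls inv (C q)
        (fun y => Function.update J (Sum.inl k) z (Sum.inr ⟨q, y⟩))) = P := by
      intro z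
      rw [hP]
      refine Finset.prod_congr rfl fun q _ => ?_
      congr 1
    rw [h1, h1]
    ring
  · rw [Fintype.sum_sigma, Finset.sum_mul, Finset.sum_mul]
    refine Finset.sum_congr rfl fun q _ => ?_
    have h1 : ∀ (y : Mem cls (C q)) (z : R), withDet Ω cls inv C F
        (Function.update J (Sum.inr ⟨q, y⟩) z) = F (fun k => J (Sum.inl k)) *
        (detD Ω cls inv (C q) (Function.update (fun y => J (Sum.inr ⟨q, y⟩)) y z) *
        ∏ q' ∈ Finset.univ.erase q, detD Ω cls inv (C q') (fun y => J (Sum.inr ⟨q', y⟩))) := by
      intro y z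
      unfold withDet
      rw [← Finset.mul_prod_erase _ _ (Finset.mem_univ q)]
      congr 2
      · congr 1
        funext y'
        by_cases h : y' = y
        · subst h
          rw [Function.update_self, Function.update_self]
        · rw [Function.update_of_ne h, Function.update_of_ne]
          intro h'
          apply h
          have h2 := Sum.inr_injective h'
          rw [Sigma.mk.inj_iff] at h2
          exact eq_of_heq h2.2
      · refine Finset.prod_congr rfl fun q' hq' => ?_
        congr 1
        funext y'
        rw [Function.update_of_ne]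
        intro h'
        have h2 := Sum.inr_injective h'
        rw [Sigma.mk.inj_iff] at h2
        exact (Finset.ne_of_mem_erase hq') h2.1
    have h2 := elemX_detD (jj := jj) hinv hcls (C q) (fun y => J (Sum.inr ⟨q, y⟩)) hbc
    unfold elemX at h2
    rw [hP, ← Finset.mul_prod_erase _ _ (Finset.mem_univ q)]
    have h3 : mu (cls := cls) inv jj (C q) b c * F (fun k => J (Sum.inl k)) *
        (detD Ω cls inv (C q) (fun y => J (Sum.inr ⟨q, y⟩)) *
        ∏ q' ∈ Finset.univ.erase q, detD Ω cls inv (C q') (fun y => J (Sum.inr ⟨q', y⟩))) =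
        (mu (cls := cls) inv jj (C q) b c *
        detD Ω cls inv (C q) (fun y => J (Sum.inr ⟨q, y⟩))) * (F (fun k => J (Sum.inl k)) *
        ∏ q' ∈ Finset.univ.erase q, detD Ω cls inv (C q') (fun y => J (Sum.inr ⟨q', y⟩))) := by
      ring
    rw [h3, ← h2, Finset.sum_mul]
    refine Finset.sum_congr rfl fun y _ => ?_
    rw [h1, h1]
    ring

include hinv hcls in
/-- The product with the dual determinants is killed by the elementary operators. -/
theorem withDet_mem {t : κ → Q} {F : (κ → R) → Ω} (ht : ∀ I, F I ≠ 0 → ∀ k, cls (I k) = t k)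
    (Cs : S → Q) (hCs : ∀ q (y : Mem cls (C q)), cls (inv y.1) = Cs q)
    (hF : ∀ b c, cls (inv b) = cls c → ∀ I, elemX inv jj b c F I =
      -((∑ q, mu (cls := cls) inv jj (C q) b c) * F I)) :
    withDet Ω cls inv C F ∈ InvG cls inv jj (κ ⊕ Pos cls C) (Sum.elim t fun p => Cs p.1) := by
  refine ⟨fun b c hbc J => ?_, fun J hJ k => ?_⟩
  · have h1 := elemX_withDet (jj := jj) hinv hcls C F hbc J
    rw [hF b c hbc, neg_add_cancel, zero_mul] at h1
    exact h1
  · rcases k with k | ⟨q, y⟩
    · exact ht _ (left_ne_zero_of_mul hJ) k
    · rw [Sum.elim_inr]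
      have h1 := Finset.prod_ne_zero_iff.1 (right_ne_zero_of_mul hJ) q (Finset.mem_univ _)
      by_contra hne
      apply h1
      refine Matrix.det_eq_zero_of_row_eq_zero y fun y' => ?_
      rw [Matrix.of_apply, if_neg]
      intro h2
      apply hne
      simp only at h2
      rw [h2]
      exact hCs q y'

end prod

end

end Pool.Agent.Y90
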