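import Mathlib
import Pool.Agent.Y90.SL1

/-!
# The first fundamental theorem with determinants, in coordinates
-/

set_option linter.unusedSectionVars false

namespace Pool.Agent.Y90

open Equiv Matrix Pool.Agent.H204R3.SP Pool.Agent.H204R3.GP

noncomputable section

variable {R : Type*} [Fintype R] [DecidableEq R] {Ω : Type*} [Field Ω] [CharZero Ω] {Q : Type*}
  [DecidableEq Q] {cls : R → Q} {inv : R → R} {jj : R → Ω}
  (hinv : ∀ x, inv (inv x) = x) (hjj : ∀ x, jj (inv x) = -jj x) (hj0 : ∀ x, jj x ≠ 0)
  (hcls : ∀ x y, cls x = cls y → cls (inv x) = cls (inv y))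

include hinv hjj hj0 in
/-- The number of variables of a nonzero invariant function is even. -/
theorem even_of_invG {κ : Type*} [Fintype κ] [DecidableEq κ] {t : κ → Q} {H : (κ → R) → Ω}
    (hH : H ∈ InvG cls inv jj κ t) (J : κ → R) (hJ : H J ≠ 0) : Even (Fintype.card κ) := by
  classical
  have h1 : ∀ b : R, ((Finset.univ.filter (fun k => J k = b)).card : Ω) =
      ((Finset.univ.filter (fun k => J k = inv b)).card : Ω) := by
    intro b
    have h2 := hH.1 b (inv b) rfl J
    have h3 : ∀ k, JJ inv jj b (J k) * H (Function.update J k (inv b)) +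
        JJ inv jj (inv b) (J k) * H (Function.update J k b) =
        (jj b * H J) * ((if J k = inv b then 1 else 0) - (if J k = b then 1 else 0)) := by
      intro k
      unfold JJ
      rw [hinv]
      have h4 : (if J k = inv b then jj b else 0) * H (Function.update J k (inv b)) =
          (jj b * H J) * (if J k = inv b then 1 else 0) := by
        by_cases h : J k = inv b
        · rw [if_pos h, if_pos h, ← h, Function.update_eq_self, mul_one]
        · rw [if_neg h, if_neg h, zero_mul, mul_zero]
      have h5 : (if J k = b then jj (inv b) else 0) * H (Function.update J k b) =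
          -((jj b * H J) * (if J k = b then 1 else 0)) := by
        by_cases h : J k = b
        · rw [if_pos h, if_pos h, hjj]
          conv_lhs => rw [← h, Function.update_eq_self, h]
          ring
        · rw [if_neg h, if_neg h, zero_mul, mul_zero, neg_zero]
      rw [h4, h5]
      ring
    rw [Finset.sum_congr rfl (fun k _ => h3 k), ← Finset.mul_sum, Finset.sum_sub_distrib,
      Finset.sum_boole, Finset.sum_boole] at h2
    have h6 := (mul_eq_zero.1 h2).resolve_left (mul_ne_zero (hj0 b) hJ)
    exact (sub_eq_zero.1 h6).symm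
  have h2 : ∀ b : R, (Finset.univ.filter (fun k => J k = b)).card =
      (Finset.univ.filter (fun k => J k = inv b)).card := fun b => by exact_mod_cast h1 b
  have h3 : Fintype.card κ = ∑ b : R, (Finset.univ.filter (fun k => J k = b)).card := by
    rw [← Finset.card_univ]
    exact Finset.card_eq_sum_card_fiberwise (fun _ _ => Finset.mem_univ _)
  rw [← ZMod.natCast_eq_zero_iff_even, h3, Nat.cast_sum]
  refine Finset.sum_involution (fun b _ => inv b) (fun b _ => ?_) (fun b _ _ => ?_)
    (fun b _ => Finset.mem_univ _) (fun b _ => hinv b)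
  · rw [← h2 b, ← two_mul]
    have h4 : (2 : ZMod 2) = 0 := by decide
    rw [h4, zero_mul]
  · intro h
    have h4 := hjj b
    rw [h] at h4
    have h5 : 2 * jj b = 0 := by linear_combination h4
    exact hj0 b ((mul_eq_zero.1 h5).resolve_left two_ne_zero)

section prod

variable {κ : Type} [Fintype κ] [DecidableEq κ] {S : Type} [Fintype S] [DecidableEq S]
  (C : S → Q)

include hinv in
theorem detD_perm (D : Q) (π : Perm (Mem cls D)) :
    detD Ω cls inv D (fun y => inv (π y).1) = ((Perm.sign π : ℤ) : Ω) := by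
  unfold detD
  have h1 : (Matrix.of fun y y' : Mem cls D => if inv (π y).1 = inv y'.1 then (1 : Ω) else 0) =
      (1 : Matrix (Mem cls D) (Mem cls D) Ω).submatrix π id := by
    ext y y'
    rw [Matrix.of_apply, Matrix.submatrix_apply, Matrix.one_apply, id]
    by_cases h : π y = y'
    · rw [if_pos h, if_pos (by rw [h])]
    · rw [if_neg h, if_neg]
      intro h'
      apply h
      have h2 := congrArg inv h'
      rw [hinv, hinv] at h2
      exact Subtype.ext h2
  rw [h1, Matrix.det_permute, Matrix.det_one, mul_one]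

variable (κ) in
/-- The functions which are products of pairings and of determinants. -/
def PD (cls : R → Q) (inv : R → R) (jj : R → Ω) (C : S → Q) : Set ((κ → R) → Ω) :=
  {H | ∃ (m : ℕ) (S0 : Finset (Fin m)) (e2 : (S0 × Fin 2) ⊕ Pos cls C ≃ κ) (c : S0 → Q),
    H = fun I => (∏ s, (if cls (I (e2 (Sum.inl (s, 0)))) = c s then
        JJ inv jj (I (e2 (Sum.inl (s, 0)))) (I (e2 (Sum.inl (s, 1)))) else 0)) *
      ∏ q, Matrix.det (Matrix.of fun y y' : Mem cls (C q) =>
        if I (e2 (Sum.inr ⟨q, y⟩)) = y'.1 then (1 : Ω) else 0)}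

/-- The position of the partner. -/
def ptn {m : ℕ} (e : Fin m × Fin 2 ≃ κ ⊕ Pos cls C) (p : κ ⊕ Pos cls C) : κ ⊕ Pos cls C :=
  e ((e.symm p).1, (e.symm p).2.rev)

theorem ptn_ptn {m : ℕ} (e : Fin m × Fin 2 ≃ κ ⊕ Pos cls C) (p : κ ⊕ Pos cls C) :
    ptn C e (ptn C e p) = p := by
  unfold ptn
  rw [Equiv.symm_apply_apply]
  simp only [Fin.rev_rev, Prod.mk.eta, Equiv.apply_symm_apply]

variable (cls inv Ω) in
/-- Antisymmetrization over the determinant positions. -/
def LamO : ((κ ⊕ Pos cls C → R) → Ω) →ₗ[Ω] ((κ → R) → Ω) where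
  toFun H := fun I => ∑ π : ∀ q, Perm (Mem cls (C q)), (∏ q, ((Perm.sign (π q) : ℤ) : Ω)) *
    H (Sum.elim I (fun p => inv (π p.1 p.2).1))
  map_add' H H' := by
    funext I
    rw [Pi.add_apply, ← Finset.sum_add_distrib]
    refine Finset.sum_congr rfl fun π _ => ?_
    rw [Pi.add_apply, mul_add]
  map_smul' a H := by
    funext I
    rw [Pi.smul_apply, smul_eq_mul, Finset.mul_sum]
    refine Finset.sum_congr rfl fun π _ => ?_
    rw [Pi.smul_apply, smul_eq_mul, RingHom.id_apply]
    ring

theorem LamO_apply (H : (κ ⊕ Pos cls C → R) → Ω) (I : κ → R) :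
    LamO Ω cls inv C H I = ∑ π : ∀ q, Perm (Mem cls (C q)),
      (∏ q, ((Perm.sign (π q) : ℤ) : Ω)) * H (Sum.elim I (fun p => inv (π p.1 p.2).1)) := rfl

include hinv in
theorem LamO_withDet (F : (κ → R) → Ω) :
    LamO Ω cls inv C (withDet Ω cls inv C F) =
      (Fintype.card (∀ q, Perm (Mem cls (C q))) : Ω) • F := by
  funext I
  rw [LamO_apply, Pi.smul_apply, smul_eq_mul]
  have h1 : ∀ π : ∀ q, Perm (Mem cls (C q)), (∏ q, ((Perm.sign (π q) : ℤ) : Ω)) *
      withDet Ω cls inv C F (Sum.elim I (fun p => inv (π p.1 p.2).1)) = F I := by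
    intro π
    unfold withDet
    simp only [Sum.elim_inl, Sum.elim_inr]
    rw [mul_left_comm, ← Finset.prod_mul_distrib]
    have h2 : ∀ q, ((Perm.sign (π q) : ℤ) : Ω) * detD Ω cls inv (C q)
        (fun y => inv (π q y).1) = 1 := by
      intro q
      rw [detD_perm hinv, ← Int.cast_mul, ← Units.val_mul, Int.units_mul_self]
      simp
    rw [Finset.prod_congr rfl (fun q _ => h2 q), Finset.prod_const_one, mul_one]
  rw [Finset.sum_congr rfl (fun π _ => h1 π), Finset.sum_const, Finset.card_univ, nsmul_eq_mul]

theorem two_cases : ∀ j j' : Fin 2, j' = j ∨ j' = j.rev := by decide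

variable (Cs : S → Q) (hCs : ∀ q (y : Mem cls (C q)), cls (inv y.1) = Cs q)
  (hne : ∀ q q', Cs q ≠ C q')

include hinv hCs hne in
/-- Pairs of determinant positions do not contribute. -/
theorem matG_zero {m : ℕ} (e : Fin m × Fin 2 ≃ κ ⊕ Pos cls C) (c : Fin m → Q)
    {p p' : Pos cls C} (hp : ptn C e (Sum.inr p) = Sum.inr p') (I : κ → R)
    (π : ∀ q, Perm (Mem cls (C q))) :
    matG cls inv jj e c (Sum.elim I (fun p => inv (π p.1 p.2).1)) = 0 := by
  unfold matG
  refine Finset.prod_eq_zero (Finset.mem_univ (e.symm (Sum.inr p)).1) ?_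
  have key : ∀ a b : Pos cls C, JJ inv jj (inv (π a.1 a.2).1) (inv (π b.1 b.2).1) = 0 := by
    intro a b
    unfold JJ
    rw [if_neg]
    rw [hinv]
    intro h
    have h1 := hCs b.1 (π b.1 b.2)
    rw [h, (π a.1 a.2).2] at h1
    exact hne _ _ h1.symm
  have h0 : e ((e.symm (Sum.inr p)).1, (e.symm (Sum.inr p)).2) = Sum.inr p := by
    rw [Prod.mk.eta, Equiv.apply_symm_apply]
  have h1 : e ((e.symm (Sum.inr p)).1, (e.symm (Sum.inr p)).2.rev) = Sum.inr p' := hp
  generalize (e.symm (Sum.inr p)).1 = s at *
  generalize (e.symm (Sum.inr p)).2 = j at *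
  fin_cases j
  · have h2 : e (s, 0) = Sum.inr p := h0
    have h3 : e (s, 1) = Sum.inr p' := h1
    rw [h2, h3, Sum.elim_inr, Sum.elim_inr, key, ite_self]
  · have h2 : e (s, 1) = Sum.inr p := h0
    have h3 : e (s, 0) = Sum.inr p' := h1
    rw [h2, h3, Sum.elim_inr, Sum.elim_inr, key, ite_self]

include hinv hjj hCs hne in
/-- The antisymmetrization of a product of pairings. -/
theorem LamO_matG {m : ℕ} (e : Fin m × Fin 2 ≃ κ ⊕ Pos cls C) (c : Fin m → Q) :
    LamO Ω cls inv C (matG cls inv jj e c) ∈ Submodule.span Ω (PD κ cls inv jj C) := by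
  classical
  by_cases hpp : ∃ p p' : Pos cls C, ptn C e (Sum.inr p) = Sum.inr p'
  · obtain ⟨p, p', hp⟩ := hpp
    have h1 : LamO Ω cls inv C (matG cls inv jj e c) = 0 := by
      funext I
      rw [LamO_apply]
      refine Finset.sum_eq_zero fun π _ => ?_
      rw [matG_zero hinv C Cs hCs hne e c hp, mul_zero]
    rw [h1]
    exact Submodule.zero_mem _
  · push Not at hpp
    have hβ' : ∀ p : Pos cls C, ∃ k : κ, ptn C e (Sum.inr p) = Sum.inl k := by
      intro p
      rcases h : ptn C e (Sum.inr p) with k | p'
      · exact ⟨k, rfl⟩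
      · exact absurd h (hpp p p')
    choose β hβ using hβ'
    let S0 : Finset (Fin m) := Finset.univ.filter (fun s => ∀ j, (e (s, j)).isLeft = true)
    have hS0 : ∀ s, s ∈ S0 ↔ ∀ j, (e (s, j)).isLeft = true := fun s => by simp [S0]
    let kk : S0 × Fin 2 → κ := fun x => (e (x.1.1, x.2)).getLeft ((hS0 _).1 x.1.2 x.2)
    have hkk : ∀ x : S0 × Fin 2, Sum.inl (kk x) = e (x.1.1, x.2) := fun x =>
      Sum.inl_getLeft _ _
    have h0 : ∀ p : Pos cls C, e ((e.symm (Sum.inr p)).1, (e.symm (Sum.inr p)).2) = Sum.inr p := by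
      intro p
      rw [Prod.mk.eta, Equiv.apply_symm_apply]
    have hbij : Function.Bijective (Sum.elim kk β : (S0 × Fin 2) ⊕ Pos cls C → κ) := by
      constructor
      · have hx : ∀ x p, kk x ≠ β p := by
          intro x p h
          have h1 : e (x.1.1, x.2) = ptn C e (Sum.inr p) := by rw [← hkk, h, hβ]
          have h2 := e.injective h1
          have h3 : x.1.1 = (e.symm (Sum.inr p)).1 := congrArg Prod.fst h2
          have h4 := (hS0 _).1 x.1.2 (e.symm (Sum.inr p)).2
          rw [h3, h0 p] at h4
          simp at h4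
        rintro (x | p) (x' | p') h
        · have h1 : kk x = kk x' := h
          have h2 : e (x.1.1, x.2) = e (x'.1.1, x'.2) := by rw [← hkk, ← hkk, h1]
          have h3 := e.injective h2
          rw [Prod.mk.injEq] at h3
          exact congrArg Sum.inl (Prod.ext (Subtype.ext h3.1) h3.2)
        · exact absurd h (hx x p')
        · exact absurd h.symm (hx x' p)
        · have h1 : β p = β p' := h
          have h2 : ptn C e (Sum.inr p) = ptn C e (Sum.inr p') := by rw [hβ, hβ, h1]
          have h3 := congrArg (ptn C e) h2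
          rw [ptn_ptn, ptn_ptn] at h3
          exact congrArg Sum.inr (Sum.inr_injective h3)
      · intro k
        rcases h : ptn C e (Sum.inl k) with k' | p
        · have h1 : e ((e.symm (Sum.inl k)).1, (e.symm (Sum.inl k)).2) = Sum.inl k := by
            rw [Prod.mk.eta, Equiv.apply_symm_apply]
          have h2 : (e.symm (Sum.inl k)).1 ∈ S0 := by
            rw [hS0]
            intro j
            rcases two_cases (e.symm (Sum.inl k)).2 j with hj | hj
            · rw [hj, h1]
              rfl
            · rw [hj]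
              change (ptn C e (Sum.inl k)).isLeft = true
              rw [h]
              rfl
          refine ⟨Sum.inl (⟨_, h2⟩, (e.symm (Sum.inl k)).2), ?_⟩
          apply Sum.inl_injective (β := Pos cls C)
          change Sum.inl (kk _) = _
          rw [hkk]
          exact h1
        · refine ⟨Sum.inr p, ?_⟩
          apply Sum.inl_injective (β := Pos cls C)
          change Sum.inl (β p) = _
          rw [← hβ, ← h, ptn_ptn]
    let e2 : (S0 × Fin 2) ⊕ Pos cls C ≃ κ := Equiv.ofBijective _ hbij
    let w : Pos cls C → Ω := fun p =>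
      if (e.symm (Sum.inr p)).2 = 0 then (if Cs p.1 = c (e.symm (Sum.inr p)).1 then -1 else 0)
      else (if C p.1 = c (e.symm (Sum.inr p)).1 then 1 else 0)
    -- the factors
    have hfac : ∀ (I : κ → R) (π : ∀ q, Perm (Mem cls (C q))) (p : Pos cls C),
        (if cls ((Sum.elim I (fun p => inv (π p.1 p.2).1) : κ ⊕ Pos cls C → R)
          (e ((e.symm (Sum.inr p)).1, 0))) = c (e.symm (Sum.inr p)).1 then
          JJ inv jj ((Sum.elim I (fun p => inv (π p.1 p.2).1) : κ ⊕ Pos cls C → R)
            (e ((e.symm (Sum.inr p)).1, 0)))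
          ((Sum.elim I (fun p => inv (π p.1 p.2).1) : κ ⊕ Pos cls C → R)
            (e ((e.symm (Sum.inr p)).1, 1))) else 0) =
        w p * (jj (π p.1 p.2).1 * (if I (β p) = (π p.1 p.2).1 then 1 else 0)) := by
      intro I π p
      have h1 : e ((e.symm (Sum.inr p)).1, (e.symm (Sum.inr p)).2.rev) = Sum.inl (β p) := hβ p
      have h2 := h0 p
      have hw : w p = if (e.symm (Sum.inr p)).2 = 0 then
        (if Cs p.1 = c (e.symm (Sum.inr p)).1 then -1 else 0)
        else (if C p.1 = c (e.symm (Sum.inr p)).1 then 1 else 0) := rfl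
      rw [hw]
      generalize (e.symm (Sum.inr p)).1 = s at *
      generalize (e.symm (Sum.inr p)).2 = j at *
      fin_cases j
      · have h3 : e (s, 0) = Sum.inr p := h2
        have h4 : e (s, 1) = Sum.inl (β p) := h1
        rw [h3, h4, Sum.elim_inl, Sum.elim_inr, hCs p.1 (π p.1 p.2)]
        unfold JJ
        rw [hinv, hjj]
        simp only [Fin.zero_eta, Fin.isValue, if_true]
        split_ifs <;> simp
      · have h3 : e (s, 1) = Sum.inr p := h2
        have h4 : e (s, 0) = Sum.inl (β p) := h1
        rw [h3, h4, Sum.elim_inl, Sum.elim_inr]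
        unfold JJ
        simp only [Fin.mk_one, Fin.isValue, one_ne_zero, if_false]
        by_cases h5 : I (β p) = (π p.1 p.2).1
        · rw [h5, if_pos rfl, if_pos rfl, (π p.1 p.2).2]
          split_ifs <;> simp
        · have h6 : ¬ inv (π p.1 p.2).1 = inv (I (β p)) := by
            intro h7
            have h8 := congrArg inv h7
            rw [hinv, hinv] at h8
            exact h5 h8.symm
          rw [if_neg h6, if_neg h5, mul_zero, mul_zero, ite_self]
    have hmain : LamO Ω cls inv C (matG cls inv jj e c) = ((∏ p, w p) *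
        ∏ q, ∏ y : Mem cls (C q), jj y.1) • (fun I => (∏ s : S0,
        (if cls (I (e2 (Sum.inl (s, 0)))) = c s.1 then
        JJ inv jj (I (e2 (Sum.inl (s, 0)))) (I (e2 (Sum.inl (s, 1)))) else 0)) *
      ∏ q, Matrix.det (Matrix.of fun y y' : Mem cls (C q) =>
        if I (e2 (Sum.inr ⟨q, y⟩)) = y'.1 then (1 : Ω) else 0)) := by
      funext I
      rw [LamO_apply, Pi.smul_apply, smul_eq_mul]
      have h3 : ∀ π : ∀ q, Perm (Mem cls (C q)),
          matG cls inv jj e c (Sum.elim I (fun p => inv (π p.1 p.2).1)) =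
          (∏ s : S0, (if cls (I (e2 (Sum.inl (s, 0)))) = c s.1 then
            JJ inv jj (I (e2 (Sum.inl (s, 0)))) (I (e2 (Sum.inl (s, 1)))) else 0)) *
          ((∏ p, w p) * ((∏ q, ∏ y : Mem cls (C q), jj y.1) *
            ∏ q, ∏ y, (if I (β ⟨q, y⟩) = (π q y).1 then (1 : Ω) else 0))) := by
        intro π
        unfold matG
        rw [← Finset.prod_mul_prod_compl S0]
        congr 1
        · rw [← Finset.prod_coe_sort]
          refine Finset.prod_congr rfl fun s _ => ?_
          rw [← hkk (s, 0), ← hkk (s, 1)]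
          rfl
        · rw [← Finset.prod_bij (s := (Finset.univ : Finset (Pos cls C))) (f := fun p =>
            w p * (jj (π p.1 p.2).1 * (if I (β p) = (π p.1 p.2).1 then 1 else 0)))
            (fun p _ => (e.symm (Sum.inr p)).1)]
          · rw [Finset.prod_mul_distrib, Finset.prod_mul_distrib, Fintype.prod_sigma
              (fun p : Pos cls C => jj (π p.1 p.2).1),
              Fintype.prod_sigma (fun p : Pos cls C => if I (β p) = (π p.1 p.2).1 then (1 : Ω)
                else 0)]
            congr 2
            refine Finset.prod_congr rfl fun q _ => ?_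
            exact Equiv.prod_comp (π q) (fun y : Mem cls (C q) => jj y.1)
          · intro p _
            rw [Finset.mem_compl, hS0]
            intro h
            have h4 := h (e.symm (Sum.inr p)).2
            rw [h0] at h4
            simp at h4
          · intro p _ p' _ h
            have h4 : (e.symm (Sum.inr p)).1 = (e.symm (Sum.inr p')).1 := h
            rcases two_cases (e.symm (Sum.inr p)).2 (e.symm (Sum.inr p')).2 with h5 | h5
            · have h6 := h0 p
              rw [h4, ← h5, h0] at h6
              exact (Sum.inr_injective h6).symm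
            · exfalso
              have h6 := h0 p'
              rw [← h4, h5] at h6
              have h7 := hβ p
              unfold ptn at h7
              rw [h6] at h7
              simp at h7
          · intro s hs
            rw [Finset.mem_compl, hS0] at hs
            push Not at hs
            obtain ⟨j, hj⟩ := hs
            rcases h4 : e (s, j) with k | p
            · rw [h4] at hj
              simp at hj
            · refine ⟨p, Finset.mem_univ _, ?_⟩
              rw [← h4, Equiv.symm_apply_apply]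
          · intro p _
            exact (hfac I π p).symm
      rw [Finset.sum_congr rfl (fun π _ => by rw [h3 π])]
      have h5 : ∀ q, Matrix.det (Matrix.of fun y y' : Mem cls (C q) =>
          if I (e2 (Sum.inr ⟨q, y⟩)) = y'.1 then (1 : Ω) else 0) =
          ∑ π : Perm (Mem cls (C q)), ((Perm.sign π : ℤ) : Ω) *
            ∏ y, (if I (β ⟨q, y⟩) = (π y).1 then (1 : Ω) else 0) := by
        intro q
        rw [← Matrix.det_transpose, Matrix.det_apply']
        rfl
      rw [Finset.prod_congr rfl (fun q _ => h5 q), Finset.prod_univ_sum, Fintype.piFinset_univ,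
        Finset.mul_sum, Finset.mul_sum]
      refine Finset.sum_congr rfl fun π _ => ?_
      rw [Finset.prod_mul_distrib]
      ring
    rw [hmain]
    refine Submodule.smul_mem _ _ (Submodule.subset_span ⟨m, S0, e2, fun s => c s.1, rfl⟩)

include hinv hjj hj0 hcls hCs hne in
/-- **First fundamental theorem** with determinants. -/
theorem sl_fft {t : κ → Q} {F : (κ → R) → Ω} (ht : ∀ I, F I ≠ 0 → ∀ k, cls (I k) = t k)
    (hF : ∀ b c, cls (inv b) = cls c → ∀ I, elemX inv jj b c F I =
      -((∑ q, mu (cls := cls) inv jj (C q) b c) * F I)) :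
    F ∈ Submodule.span Ω (PD κ cls inv jj C) := by
  classical
  have h1 := withDet_mem (jj := jj) hinv hcls C ht Cs hCs hF
  have h2 := LamO_withDet (Ω := Ω) (cls := cls) hinv C F
  by_cases hF0 : withDet Ω cls inv C F = 0
  · rw [hF0, map_zero] at h2
    have h3 : (Fintype.card (∀ q, Perm (Mem cls (C q))) : Ω) ≠ 0 :=
      Nat.cast_ne_zero.2 Fintype.card_ne_zero
    have h4 : F = 0 := by
      have h5 := h2.symm
      rw [smul_eq_zero] at h5
      exact h5.resolve_left h3
    rw [h4]
    exact Submodule.zero_mem _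
  · obtain ⟨J, hJ⟩ : ∃ J, withDet Ω cls inv C F J ≠ 0 := by
      by_contra h
      push Not at h
      exact hF0 (funext h)
    obtain ⟨m, hm⟩ := even_of_invG hinv hjj hj0 h1 J hJ
    have h3 := fftG hinv hjj hj0 hcls m (κ ⊕ Pos cls C) (by rw [hm]; ring) _ h1
    have h4 : (MatG cls inv jj (κ ⊕ Pos cls C) m).map (LamO Ω cls inv C) ≤
        Submodule.span Ω (PD κ cls inv jj C) := by
      unfold MatG
      rw [Submodule.map_span, Submodule.span_le]
      rintro _ ⟨_, ⟨e, c, rfl⟩, rfl⟩
      exact LamO_matG hinv hjj C Cs hCs hne e c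
    have h5 := h4 (Submodule.mem_map_of_mem h3)
    rw [h2] at h5
    have h6 : (Fintype.card (∀ q, Perm (Mem cls (C q))) : Ω) ≠ 0 :=
      Nat.cast_ne_zero.2 Fintype.card_ne_zero
    have h7 := Submodule.smul_mem _ (Fintype.card (∀ q, Perm (Mem cls (C q))) : Ω)⁻¹ h5
    rwa [smul_smul, inv_mul_cancel₀ h6, one_smul] at h7

end prod

end

end Pool.Agent.Y90
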