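import Mathlib
import Pool.Agent.W522.U.B6
import Pool.Agent.Y90.SL2
import Pool.Agent.Y90.Clo

/-!
# Invariant forms on a multiplicity free sum, with determinants
-/

set_option linter.unusedSectionVars false

namespace Pool.Agent.Y90

open Module Pool.Agent.H204R3.SP Pool.Agent.H204R3.GP Pool.Agent.W522.U

noncomputable section

variable {K : Type*} [Field K] [CharZero K]
  {I : Type} [Fintype I] [DecidableEq I] {E : I → Type*} [∀ i, AddCommGroup (E i)]
  [∀ i, Module K (E i)] [∀ i, FiniteDimensional K (E i)] {G : Type*} [Group G]
  {r : ∀ i, Representation K G (E i)} {χ : G →* K}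
  (ω : (∀ i, E i) →ₗ[K] (∀ i, E i) →ₗ[K] K) (halt : ∀ u, ω u u = 0)
  (hnd : ∀ u, (∀ w, ω u w = 0) → u = 0)
  (hωρ : ∀ g u v, ω (piRep r g u) (piRep r g v) = χ g * ω u v)
  (st : I → I) (hst : ∀ i, st (st i) = i)
  (hor : ∀ i j, j ≠ st i → ∀ (u : E i) (v : E j), ω (Pi.single i u) (Pi.single j v) = 0)
  (htw : ∀ i j, i ≠ j → 2 ≤ finrank K (E i) → 2 ≤ finrank K (E j) →
    ∀ (T : E i →ₗ[K] E j) (ψ : G → K), (∀ g u, T (r i g u) = ψ g • r j g (T u)) → T = 0)
  (hirr : ∀ i, 2 ≤ finrank K (E i) → Irr (r i))
  (hnil : ∀ i, 2 ≤ finrank K (E i) → ∃ N ∈ lieT (piRep r) χ, N * N = 0 ∧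
    ∃ (u : E i) (φ : Dual K (E i)), u ≠ 0 ∧ φ ≠ 0 ∧ ∀ x, N (Pi.single i x) i = φ x • u)
  {n : ℕ} (e : Basis (Fin n ⊕ Fin n) K (∀ i, E i)) (lab : Fin n ⊕ Fin n → I)
  (hlab : ∀ x, e x = Pi.single (lab x) (e x (lab x)))
  (hlab' : ∀ x, lab x.swap = st (lab x))
  (he0 : ∀ x y, y ≠ x.swap → ω (e x) (e y) = 0) (he1 : ∀ x, ω (e x) (e x.swap) ≠ 0)

include halt hnd hωρ hst hor htw hirr hnil hlab hlab' he0 he1 in
/-- The elementary operators of one component. -/
theorem SS_mem {b c : Fin n ⊕ Fin n} (hbc : lab b.swap = lab c) (hne : c ≠ b.swap) :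
    SS ω (e b) (e c) ∈ lieT (piRep r) χ := by
  have hi2 := two_le e lab hlab hbc rfl hne.symm
  have hlb : lab b = st (lab c) := by rw [← hbc, hlab', hst]
  by_cases hi : st (lab c) = lab c
  · -- the symplectic case
    have hsq : ∀ v : E (lab c), SS ω (Pi.single (lab c) v) (Pi.single (lab c) v) ∈
        lieT (piRep r) χ := by
      intro v
      obtain ⟨X, hX, hXi, hXj⟩ := exists_elem (r := r) (χ := χ) ω halt hnd hωρ st hst hor htw hirr
        hnil (lab c) hi2 v (par ω (lab c) (lab c) v) ⟨halt _, fun _ => ⟨1, (one_smul _ _).symm⟩⟩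
      have h1 : SS ω (Pi.single (lab c) v) (Pi.single (lab c) v) = (2 : K) • blk X := by
        refine e.ext fun z => ?_
        rw [SS_apply, LinearMap.smul_apply, two_smul]
        by_cases hz : lab z = lab c
        · have h2 : blk X (e z) = ω (Pi.single (lab c) v) (e z) • Pi.single (lab c) v := by
            rw [e_single e lab hlab hz, blk_single, hXi, LinearMap.smulRight_apply, par_apply,
              Pi.single_smul]
          rw [h2]
        · have h2 : blk X (e z) = 0 := by
            rw [hlab z, blk_single, hXj _ hz (by rw [hi]; exact hz), LinearMap.zero_apply,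
              Pi.single_zero]
          have h3 : ω (Pi.single (lab c) v) (e z) = 0 := by
            rw [hlab z]
            exact hor _ _ (by rw [hi]; exact hz) _ _
          rw [h2, h3, zero_smul]
      rw [h1]
      exact Submodule.smul_mem _ _ hX
    rw [hi] at hlb
    have h1 := hsq (e b (lab c) + e c (lab c))
    have h2 := hsq (e b (lab c))
    have h3 := hsq (e c (lab c))
    rw [Pi.single_add] at h1
    rw [← e_single e lab hlab hlb] at h1 h2
    rw [← e_single e lab hlab rfl] at h1 h3
    have h4 : SS ω (e b) (e c) = (2 : K)⁻¹ • (SS ω (e b + e c) (e b + e c) - SS ω (e b) (e b) -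
        SS ω (e c) (e c)) := by
      refine LinearMap.ext fun v => ?_
      simp only [LinearMap.smul_apply, LinearMap.sub_apply, SS_apply, map_add, LinearMap.add_apply]
      match_scalars <;> ring
    rw [h4]
    exact Submodule.smul_mem _ _ (Submodule.sub_mem _ (Submodule.sub_mem _ h1 h2) h3)
  · obtain ⟨X, hX, hXi, hXj⟩ := exists_elem (r := r) (χ := χ) ω halt hnd hωρ st hst hor htw hirr
      hnil (lab c) hi2 (e c (lab c)) ((ω (e b)).comp (LinearMap.single K E (lab c)))
      ⟨by
        change ω (e b) (Pi.single (lab c) (e c (lab c))) = 0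
        rw [← hlab]
        exact he0 _ _ hne, fun h => absurd h hi⟩
    have hcc : ∀ z, lab z = lab c → ω (e c) (e z) = 0 := by
      intro z hz
      refine he0 _ _ fun h => hi ?_
      rw [← hlab', ← h, hz]
    have hbb : ∀ z, lab z ≠ lab c → ω (e b) (e z) = 0 := by
      intro z hz
      refine he0 _ _ fun h => hz ?_
      rw [h, hbc]
    have hA : blk X - SS ω (e b) (e c) = 0 := by
      have hAi : ∀ z, lab z = lab c → (blk X - SS ω (e b) (e c)) (e z) = 0 := by
        intro z hz
        rw [LinearMap.sub_apply, SS_apply, hcc z hz, zero_smul, add_zero]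
        conv_lhs => rw [e_single e lab hlab hz, blk_single, hXi, LinearMap.smulRight_apply,
          Pi.single_smul, ← hlab c]
        change ω (e b) (Pi.single (lab c) (e z (lab c))) • e c - _ = 0
        rw [sub_self]
      refine e.ext fun z => ?_
      rw [LinearMap.zero_apply]
      by_cases hz : lab z = lab c
      · exact hAi z hz
      by_cases hz2 : lab z = st (lab c)
      · apply hnd
        have h0 : ω ((blk X - SS ω (e b) (e c)) (e z)) = 0 := by
          refine e.ext fun w => ?_
          rw [LinearMap.zero_apply]
          have h1 := lieT_sp (piRep r) χ ω hωρ hX (e z) (e w)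
          have h2 : ω (SS ω (e b) (e c) (e z)) (e w) + ω (e z) (SS ω (e b) (e c) (e w)) = 0 := by
            have hsk := om_skew ω halt
            simp only [SS_apply, map_add, map_smul, LinearMap.add_apply, LinearMap.smul_apply,
              smul_eq_mul]
            rw [hsk (e z) (e c), hsk (e z) (e b)]
            ring
          have h3 : ω ((blk X - SS ω (e b) (e c)) (e z)) (e w) =
              -ω (e z) ((blk X - SS ω (e b) (e c)) (e w)) := by
            rw [LinearMap.sub_apply, LinearMap.sub_apply, map_sub, map_sub, LinearMap.sub_apply]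
            linear_combination h1 - h2
          rw [h3]
          by_cases hw : lab w = lab c
          · rw [hAi w hw, map_zero, neg_zero]
          · rw [LinearMap.sub_apply, SS_apply, hbb w hw, zero_smul, zero_add, map_sub, map_smul]
            have h4 : ω (e z) (blk X (e w)) = 0 := by
              rw [hlab w, blk_single, e_single e lab hlab hz2]
              exact hor _ _ (fun h => hw (by rw [h, hst])) _ _
            have h5 : ω (e z) (e b) = 0 := by
              rw [e_single e lab hlab hz2, e_single e lab hlab hlb]
              exact hor _ _ (fun h => hi (by rw [h, hst])) _ _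
            rw [h4, h5, smul_zero, sub_zero, neg_zero]
        intro w
        exact congrArg (fun f : (∀ i, E i) →ₗ[K] K => f w) h0
      · rw [LinearMap.sub_apply, SS_apply, hbb z hz, zero_smul, zero_add]
        have h4 : blk X (e z) = 0 := by
          rw [hlab z, blk_single, hXj _ hz hz2, LinearMap.zero_apply, Pi.single_zero]
        have h5 : ω (e c) (e z) = 0 := by
          refine he0 _ _ fun h => hz2 ?_
          rw [h, hlab']
        rw [h4, h5, zero_smul, sub_zero]
    rw [← sub_eq_zero.1 hA]
    exact hX

/-- The coordinate function of a component of a form. -/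
def Fc {κ : Type*} [Fintype κ] (φ : MultilinearMap K (fun _ : κ => ∀ i, E i) K) (t : κ → I) :
    (κ → Fin n ⊕ Fin n) → K :=
  fun J => if ∀ k, lab (J k) = t k then φ (fun k => e (J k)) else 0

include he0 in
theorem JJ_eq (x y : Fin n ⊕ Fin n) :
    JJ Sum.swap (fun x => ω (e x) (e x.swap)) x y = ω (e x) (e y) := by
  unfold JJ
  split_ifs with h
  · rw [h]
  · exact (he0 x y h).symm

include halt hnd hωρ hst hor htw hirr hnil hlab hlab' he0 he1 in
/-- The action of the elementary operators on a component of a Tate form. -/
theorem elemX_F {m : ℕ} (φ : MultilinearMap K (fun _ : Fin m × Fin 2 => ∀ i, E i) K)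
    (hφ : IsTate (piRep r) χ m φ) (t : Fin m × Fin 2 → I) (a : I → ℤ)
    (ha : ∀ i, (finrank K (E i) : ℤ) * a i = (cnt t i : ℤ) - cnt t (st i))
    (ha' : ∀ i, a (st i) = -a i)
    (b c : Fin n ⊕ Fin n) (hbc : lab b.swap = lab c) (J : Fin m × Fin 2 → Fin n ⊕ Fin n) :
    elemX Sum.swap (fun x => ω (e x) (e x.swap)) b c (Fc e lab φ t) J =
      -((∑ q : (Σ i, Fin (a i).toNat), mu (cls := lab) Sum.swap (fun x => ω (e x) (e x.swap))
        q.1 b c) * Fc e lab φ t J) := by
  classical
  have hlb : lab b = st (lab c) := by rw [← hbc, hlab', hst]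
  by_cases hJ : ∀ k, lab (J k) = t k
  · have hFJ : Fc e lab φ t J = φ (fun k => e (J k)) := if_pos hJ
    have h1 : ∀ x y : Fin n ⊕ Fin n, lab x.swap = lab y → ∀ k,
        JJ Sum.swap (fun x => ω (e x) (e x.swap)) x (J k) *
          Fc e lab φ t (Function.update J k y) =
        ω (e x) (e (J k)) * φ (Function.update (fun k => e (J k)) k (e y)) := by
      intro x y hxy k
      rw [JJ_eq ω e he0]
      by_cases hk : J k = x.swap
      · congr 1
        unfold Fc
        rw [if_pos]
        · congr 1
          funext l
          by_cases hl : l = k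
          · subst hl
            rw [Function.update_self, Function.update_self]
          · rw [Function.update_of_ne hl, Function.update_of_ne hl]
        · intro l
          by_cases hl : l = k
          · subst hl
            rw [Function.update_self, ← hxy, ← hk, hJ]
          · rw [Function.update_of_ne hl, hJ]
      · rw [he0 _ _ hk, zero_mul, zero_mul]
    have hcb : lab c.swap = lab b := by rw [hlab', hlb]
    have h2 : elemX Sum.swap (fun x => ω (e x) (e x.swap)) b c (Fc e lab φ t) J =
        ∑ k, φ (Function.update (fun k => e (J k)) k (SS ω (e b) (e c) (e (J k)))) := by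
      unfold elemX
      refine Finset.sum_congr rfl fun k _ => ?_
      rw [h1 b c hbc k, h1 c b hcb k, SS_apply, MultilinearMap.map_update_add,
        MultilinearMap.map_update_smul, MultilinearMap.map_update_smul, smul_eq_mul, smul_eq_mul]
    rw [h2, hFJ]
    by_cases hne : c = b.swap
    · subst hne
      have hSS : ∀ z, SS ω (e b) (e b.swap) (e z) =
          (-(ω (e b) (e b.swap)) * (dd Sum.swap b z : K)) • e z := by
        intro z
        rw [SS_apply, dd_sub]
        by_cases h3 : z = b
        · have h4 : z ≠ b.swap := by
            intro h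
            have h5 := he1 b
            rw [← h, h3, halt] at h5
            exact h5 rfl
          rw [if_pos h3, if_neg h4, h3, halt, zero_smul, zero_add, om_skew ω halt]
          congr 1
          ring
        · have h5 : ω (e b.swap) (e z) = 0 := he0 _ _ (by rw [Sum.swap_swap]; exact h3)
          rw [if_neg h3, h5, zero_smul, add_zero]
          by_cases h6 : z = b.swap
          · rw [if_pos h6, h6]
            congr 1
            ring
          · rw [if_neg h6, he0 _ _ h6, zero_smul, sub_zero, mul_zero, zero_smul]
      have hL : ∀ k, φ (Function.update (fun k => e (J k)) k (SS ω (e b) (e b.swap) (e (J k)))) =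
          (-(ω (e b) (e b.swap)) * φ (fun k => e (J k))) * (dd Sum.swap b (J k) : K) := by
        intro k
        rw [hSS, MultilinearMap.map_update_smul, Function.update_eq_self, smul_eq_mul]
        ring
      have hdd : ∑ k, (dd Sum.swap b (J k) : K) = ((cnt J b : ℤ) - (cnt J b.swap : ℤ) : ℤ) := by
        unfold cnt
        push_cast
        rw [← Finset.sum_sub_distrib]
        exact Finset.sum_congr rfl fun k _ => dd_sub _ _
      rw [Finset.sum_congr rfl (fun k _ => hL k), ← Finset.mul_sum, hdd]
      by_cases h0 : φ (fun k => e (J k)) = 0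
      · rw [h0]
        ring
      have hw : (cnt J b : ℤ) - (cnt J b.swap : ℤ) = a (lab b) := by
        have h3 := weight_one ω halt hnd hωρ st hst hor htw hirr hnil e lab hlab hlab' he0 he1 φ hφ
          J h0 b
        have h4 : (fun k => lab (J k)) = t := funext hJ
        rw [h4, ← ha (lab b)] at h3
        have h5 := finrank_pos_lab e lab hlab b
        exact mul_left_cancel₀ (by exact_mod_cast h5.ne') h3
      rw [hw]
      have hmu : ∑ q : (Σ i, Fin (a i).toNat), mu (cls := lab) Sum.swap
          (fun x => ω (e x) (e x.swap)) q.1 b b.swap = ω (e b) (e b.swap) * (a (lab b) : K) := by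
        have h3 : ∀ q : (Σ i, Fin (a i).toNat), mu (cls := lab) Sum.swap
            (fun x => ω (e x) (e x.swap)) q.1 b b.swap = ω (e b) (e b.swap) *
              ((if lab b = q.1 then 1 else 0) - (if lab b.swap = q.1 then 1 else 0)) := by
          intro q
          unfold mu
          simp only [Sum.swap_swap, and_true, om_skew ω halt (e b.swap) (e b)]
          split_ifs <;> ring
        rw [Finset.sum_congr rfl (fun q _ => h3 q), ← Finset.mul_sum]
        congr 1
        have hcount : ∀ i0, ∑ q : (Σ i, Fin (a i).toNat), (if i0 = q.1 then (1 : K) else 0) =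
            ((a i0).toNat : K) := by
          intro i0
          rw [Fintype.sum_sigma]
          have h6 : ∀ i, ∑ _x : Fin (a i).toNat, (if i0 = i then (1 : K) else 0) =
              if i0 = i then ((a i).toNat : K) else 0 := by
            intro i
            rw [Finset.sum_const, Finset.card_univ, Fintype.card_fin, nsmul_eq_mul]
            split_ifs <;> simp
          rw [Finset.sum_congr rfl (fun i _ => h6 i), Finset.sum_ite_eq, if_pos (Finset.mem_univ _)]
        rw [Finset.sum_sub_distrib, hcount, hcount, hlab', ha' (lab b)]
        have h4 : ((a (lab b)).toNat : ℤ) - ((-a (lab b)).toNat : ℤ) = a (lab b) := by omega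
        have h5 := congrArg (fun x : ℤ => (x : K)) h4
        push_cast at h5
        exact h5
      rw [hmu]
      ring
    · have h3 := SS_mem ω halt hnd hωρ st hst hor htw hirr hnil e lab hlab hlab' he0 he1 hbc hne
      rw [h3 m φ hφ]
      symm
      rw [neg_eq_zero, mul_eq_zero]
      left
      refine Finset.sum_eq_zero fun q _ => ?_
      unfold mu
      rw [if_neg (fun h => hne h.2), if_neg, add_zero]
      intro h
      apply hne
      rw [h.2, Sum.swap_swap]
  · have hFJ : Fc e lab φ t J = 0 := if_neg hJ
    rw [hFJ, mul_zero, neg_zero]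
    have h1 : ∀ x y : Fin n ⊕ Fin n, lab x.swap = lab y → ∀ k,
        JJ Sum.swap (fun x => ω (e x) (e x.swap)) x (J k) *
          Fc e lab φ t (Function.update J k y) = 0 := by
      intro x y hxy k
      unfold JJ
      by_cases hk : J k = x.swap
      · have h2 : Fc e lab φ t (Function.update J k y) = 0 := by
          refine if_neg fun h => hJ fun l => ?_
          by_cases hl : l = k
          · subst hl
            have h3 := h l
            rw [Function.update_self] at h3
            rw [hk, hxy, h3]
          · have h3 := h l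
            rwa [Function.update_of_ne hl] at h3
        rw [h2, mul_zero]
      · rw [if_neg hk, zero_mul]
    have hcb : lab c.swap = lab b := by rw [hlab', hlb]
    unfold elemX
    refine Finset.sum_eq_zero fun k _ => ?_
    rw [h1 b c hbc k, h1 c b hcb k, add_zero]

end

end Pool.Agent.Y90
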