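import Mathlib
import Pool.Agent.W522.U.C7
import Pool.Agent.Y90.Pi1

/-!
# Invariant forms on a multiplicity free sum, with determinants: the theorem
-/

set_option linter.unusedSectionVars false

namespace Pool.Agent.Y90

open Module Pool.Agent.H204R3.SP Pool.Agent.H204R3.GP Pool.Agent.W522.U

noncomputable section

variable {K : Type*} [Field K] [CharZero K]
  {I : Type} [Fintype I] [DecidableEq I] {E : I → Type*} [∀ i, AddCommGroup (E i)]
  [∀ i, Module K (E i)] [∀ i, FiniteDimensional K (E i)] {G : Type*} [Group G]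
  {r : ∀ i, Representation K G (E i)} {χ : G →* K}
  (ω : (∀ i, E i) →ₗ[K] (∀ i, E i) →ₗ[K] K) (halt : ∀ u, ω u u = 0)
  (hnd : ∀ u, (∀ w, ω u w = 0) → u = 0)
  (hωρ : ∀ g u v, ω (piRep r g u) (piRep r g v) = χ g * ω u v)
  (st : I → I) (hst : ∀ i, st (st i) = i)
  (hor : ∀ i j, j ≠ st i → ∀ (u : E i) (v : E j), ω (Pi.single i u) (Pi.single j v) = 0)
  (htw : ∀ i j, i ≠ j → 2 ≤ finrank K (E i) → 2 ≤ finrank K (E j) →
    ∀ (T : E i →ₗ[K] E j) (ψ : G → K), (∀ g u, T (r i g u) = ψ g • r j g (T u)) → T = 0)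
  (hirr : ∀ i, 2 ≤ finrank K (E i) → Irr (r i))
  (hnil : ∀ i, 2 ≤ finrank K (E i) → ∃ N ∈ lieT (piRep r) χ, N * N = 0 ∧
    ∃ (u : E i) (φ : Dual K (E i)), u ≠ 0 ∧ φ ≠ 0 ∧ ∀ x, N (Pi.single i x) i = φ x • u)
  {n : ℕ} (e : Basis (Fin n ⊕ Fin n) K (∀ i, E i)) (lab : Fin n ⊕ Fin n → I)
  (hlab : ∀ x, e x = Pi.single (lab x) (e x (lab x)))
  (hlab' : ∀ x, lab x.swap = st (lab x))
  (he0 : ∀ x y, y ≠ x.swap → ω (e x) (e y) = 0) (he1 : ∀ x, ω (e x) (e x.swap) ≠ 0)

/-- The determinant form of a component. -/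
def dF (C : I) : MultilinearMap K (fun _ : Mem lab C => ∀ i, E i) K :=
  (Matrix.detRowAlternating (n := Mem lab C) (R := K)).toMultilinearMap.compLinearMap
    fun _ => LinearMap.pi fun y' : Mem lab C => e.coord y'.1

theorem dF_apply (C : I) (v : Mem lab C → ∀ i, E i) :
    dF e lab C v = Matrix.det (Matrix.of fun y y' : Mem lab C => e.coord y'.1 (v y)) := rfl

theorem dF_basis (C : I) (J : Mem lab C → Fin n ⊕ Fin n) :
    dF e lab C (fun y => e (J y)) = Matrix.det (Matrix.of fun y y' : Mem lab C =>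
      if J y = y'.1 then (1 : K) else 0) := by
  rw [dF_apply]
  congr 1
  ext y y'
  rw [Matrix.of_apply, Matrix.of_apply, Basis.coord_apply, Basis.repr_self,
    Finsupp.single_apply]

/-- The evaluation of forms on the basis vectors. -/
def evB {κ : Type*} [Fintype κ] :
    MultilinearMap K (fun _ : κ => ∀ i, E i) K →ₗ[K] ((κ → Fin n ⊕ Fin n) → K) where
  toFun φ := fun J => φ (fun k => e (J k))
  map_add' _ _ := rfl
  map_smul' _ _ := rfl

theorem evB_inj {κ : Type*} [Fintype κ] : Function.Injective (evB (κ := κ) e) := by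
  intro φ ψ h
  exact Basis.ext_multilinear (fun _ => e) fun J => congrFun h J

/-- The projection to a component. -/
def pc (C : I) : (∀ i, E i) →ₗ[K] (∀ i, E i) :=
  (LinearMap.single K E C).comp (LinearMap.proj C)

include hlab in
theorem pc_e (C : I) (x : Fin n ⊕ Fin n) : pc (K := K) C (e x) = if lab x = C then e x else 0 := by
  change (Pi.single C (e x C) : ∀ i, E i) = _
  split_ifs with h
  · exact (e_single e lab hlab h).symm
  · rw [e_zero e lab hlab h, Pi.single_zero]

/-- The matched positions. -/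
def matchE {S A : Type} (C : S → I) (mt : A ⊕ A ≃ S) :
    (Σ x : A, (Mem lab (C (mt (Sum.inl x))) ⊕ Mem lab (C (mt (Sum.inr x))))) ≃
      Σ q, Mem lab (C q) :=
  (Equiv.sigmaSumDistrib (fun x : A => Mem lab (C (mt (Sum.inl x))))
    (fun x : A => Mem lab (C (mt (Sum.inr x))))).trans
    ((Equiv.sumSigmaDistrib (fun z : A ⊕ A => Mem lab (C (mt z)))).symm.trans
      (Equiv.sigmaCongrLeft (β := fun q => Mem lab (C q)) mt))

theorem matchE_inl {S A : Type} (C : S → I) (mt : A ⊕ A ≃ S) (x : A)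
    (y : Mem lab (C (mt (Sum.inl x)))) :
    matchE lab C mt ⟨x, Sum.inl y⟩ = ⟨mt (Sum.inl x), y⟩ := rfl

theorem matchE_inr {S A : Type} (C : S → I) (mt : A ⊕ A ≃ S) (x : A)
    (y : Mem lab (C (mt (Sum.inr x)))) :
    matchE lab C mt ⟨x, Sum.inr y⟩ = ⟨mt (Sum.inr x), y⟩ := rfl

variable (N : ∀ (κ : Type) [Finite κ], Submodule K (MultilinearMap K (fun _ : κ => ∀ i, E i) K))
  (hN : Clo N)
  (hpair : ∀ b : (∀ i, E i) →ₗ[K] (∀ i, E i) →ₗ[K] K,
    (∀ g u v, b (piRep r g u) (piRep r g v) = χ g * b u v) → bil2 b ∈ N (Fin 2))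
  (Pr : I → I → Prop)
  (hdet : ∀ i i', Pr i i' → prd (dF e lab i) (dF e lab i') ∈ N (Mem lab i ⊕ Mem lab i'))

include hN hpair hdet hlab he0 hωρ in
/-- The products of pairings and determinants belong to the system. -/
theorem PD_mem {κ : Type} [Fintype κ] [DecidableEq κ] {S : Type} [Fintype S] (C : S → I)
    {A : Type} [Fintype A] (mt : A ⊕ A ≃ S)
    (hmt : ∀ x, Pr (C (mt (Sum.inl x))) (C (mt (Sum.inr x)))) :
    PD κ lab Sum.swap (fun x => ω (e x) (e x.swap)) C ⊆ (N κ).map (evB e) := by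
  classical
  rintro _ ⟨m, S0, e2, c, rfl⟩
  let B : (S0 ⊕ A) → Type := Sum.elim (fun _ => Fin 2)
    (fun x => Mem lab (C (mt (Sum.inl x))) ⊕ Mem lab (C (mt (Sum.inr x))))
  have hBf : ∀ a, Finite (B a) := by
    rintro (s | x)
    · exact inferInstanceAs (Finite (Fin 2))
    · exact inferInstanceAs (Finite (Mem lab (C (mt (Sum.inl x))) ⊕
        Mem lab (C (mt (Sum.inr x)))))
  let ψ : ∀ a, MultilinearMap K (fun _ : B a => ∀ i, E i) K := fun a =>
    match a with
    | Sum.inl s => bil2 (ω.comp (pc (c s)))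
    | Sum.inr x => prd (dF e lab (C (mt (Sum.inl x)))) (dF e lab (C (mt (Sum.inr x))))
  have hψ : ∀ a, ψ a ∈ N (B a) := by
    rintro (s | x)
    · refine hpair _ fun g u v => ?_
      change ω (Pi.single (c s) (r (c s) g (u (c s)))) (piRep r g v) =
        χ g * ω (Pi.single (c s) (u (c s))) v
      rw [← piRep_single, hωρ]
    · exact hdet _ _ (hmt x)
  let eB : (Σ a, B a) ≃ κ :=
    (Equiv.sumSigmaDistrib B).trans ((Equiv.sumCongr (Equiv.sigmaEquivProd S0 (Fin 2))
      (matchE lab C mt)).trans e2)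
  obtain ⟨Ψ, hΨ, hΨ'⟩ := hN.exists_fam B ψ hψ eB
  refine ⟨Ψ, hΨ, ?_⟩
  funext J
  change Ψ (fun k => e (J k)) = _
  rw [hΨ', Fintype.prod_sum_type]
  congr 1
  · refine Finset.prod_congr rfl fun s _ => ?_
    change ω (pc (c s) (e (J (e2 (Sum.inl (s, 0)))))) (e (J (e2 (Sum.inl (s, 1))))) = _
    rw [pc_e e lab hlab]
    split_ifs with h
    · exact (JJ_eq ω e he0 _ _).symm
    · rw [map_zero, LinearMap.zero_apply]
  · rw [← mt.prod_comp, Fintype.prod_sum_type, ← Finset.prod_mul_distrib]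
    refine Finset.prod_congr rfl fun x _ => ?_
    change dF e lab (C (mt (Sum.inl x))) (fun y => e (J (e2 (Sum.inr ⟨mt (Sum.inl x), y⟩)))) *
      dF e lab (C (mt (Sum.inr x))) (fun y => e (J (e2 (Sum.inr ⟨mt (Sum.inr x), y⟩)))) = _
    rw [dF_basis, dF_basis]

variable (hbal : ∀ a : I → ℤ, (∀ i, a (st i) = -a i) →
  (∀ g : G, ∃ M : ℕ, M ≠ 0 ∧ (∏ i, LinearMap.det (r i g) ^ a i) ^ M = 1) →
  ∃ (A : Type) (_ : Fintype A) (mt : A ⊕ A ≃ Σ i, Fin (a i).toNat),
    ∀ x, Pr (mt (Sum.inl x)).1 (mt (Sum.inr x)).1)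

include halt hnd hωρ hst hor htw hirr hnil hlab hlab' he0 he1 hN hpair hdet hbal in
/-- The components of a Tate form belong to the system. -/
theorem comp_mem [IsAlgClosed K] {m : ℕ}
    (φ : MultilinearMap K (fun _ : Fin m × Fin 2 => ∀ i, E i) K)
    (hφ : IsTate (piRep r) χ m φ) (t : Fin m × Fin 2 → I) :
    φ.compLinearMap (fun k => pc (t k)) ∈ N (Fin m × Fin 2) := by
  classical
  have hskew := om_skew ω halt
  have hev : evB e (φ.compLinearMap (fun k => pc (t k))) = Fc e lab φ t := by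
    funext J
    change φ (fun k => pc (t k) (e (J k))) = _
    unfold Fc
    split_ifs with h
    · congr 1
      funext k
      rw [pc_e e lab hlab, if_pos (h k)]
    · push Not at h
      obtain ⟨k, hk⟩ := h
      refine φ.map_coord_zero k ?_
      rw [pc_e e lab hlab, if_neg hk]
  by_cases h0 : φ.compLinearMap (fun k => pc (t k)) = 0
  · rw [h0]
    exact Submodule.zero_mem _
  obtain ⟨J, hJt, hJ⟩ : ∃ J : Fin m × Fin 2 → Fin n ⊕ Fin n, (∀ k, lab (J k) = t k) ∧
      φ (fun k => e (J k)) ≠ 0 := by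
    by_contra hcon
    push Not at hcon
    apply h0
    apply evB_inj e
    rw [hev, map_zero]
    funext J
    unfold Fc
    split_ifs with h
    · exact hcon J h
    · rfl
  have htJ : (fun k => lab (J k)) = t := funext hJt
  -- the integers
  have hz : ∀ i, ∃ z : ℤ, (finrank K (E i) : ℤ) * z = (cnt t i : ℤ) - cnt t (st i) ∧
      (finrank K (E i) = 0 → z = 0) := by
    intro i
    by_cases h : ∃ y, lab y = i
    · obtain ⟨y, rfl⟩ := h
      refine ⟨(cnt J y : ℤ) - cnt J y.swap, ?_, fun h1 => absurd h1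
        (finrank_pos_lab e lab hlab y).ne'⟩
      rw [weight_one ω halt hnd hωρ st hst hor htw hirr hnil e lab hlab hlab' he0 he1 φ hφ J hJ y,
        htJ]
    · push Not at h
      have h1 : ∀ j, (∀ y, lab y ≠ j) → cnt t j = 0 := by
        intro j hj
        unfold cnt
        refine Finset.sum_eq_zero fun k _ => if_neg ?_
        rw [← hJt k]
        exact hj _
      refine ⟨0, ?_, fun _ => rfl⟩
      rw [h1 i h, h1 (st i) (fun y hy => h y.swap (by rw [hlab', hy, hst]))]
      simp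
  choose a ha ha0 using hz
  have ha' : ∀ i, a (st i) = -a i := by
    intro i
    have hfr := finrank_st ω hnd st hst hor i
    by_cases h : finrank K (E i) = 0
    · rw [ha0 i h, ha0 (st i) (by rw [hfr, h]), neg_zero]
    · have h1 := ha i
      have h2 := ha (st i)
      rw [hfr, hst] at h2
      have h3 : (finrank K (E i) : ℤ) * a (st i) = (finrank K (E i) : ℤ) * (-a i) := by
        rw [h2, mul_neg, h1]
        ring
      exact mul_left_cancel₀ (by exact_mod_cast h) h3
  -- the balance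
  obtain ⟨A, hA, mt, hmt⟩ := hbal a ha' (fun g => by
    obtain ⟨Δ, hΔ, hφΔ⟩ := hφ
    obtain ⟨M, hM0, hM⟩ := exists_pow_mem Δ hΔ g
    refine ⟨M, hM0, det_rel ω halt hnd hωρ st hst hor htw hirr hnil g φ Δ hΔ hφΔ M hM t
      (fun k => e (J k) (t k)) ?_ a ha⟩
    have h1 : (fun k => (Pi.single (t k) (e (J k) (t k)) : ∀ i, E i)) = fun k => e (J k) := by
      funext k
      exact (e_single e lab hlab (hJt k)).symm
    rw [h1]
    exact hJ)
  have hF : Fc e lab φ t ∈ Submodule.span K (PD (Fin m × Fin 2) lab Sum.swap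
      (fun x => ω (e x) (e x.swap)) (fun q : (Σ i, Fin (a i).toNat) => q.1)) := by
    refine sl_fft (Cs := fun q => st q.1) (fun x => Sum.swap_swap x) (fun x => ?_) he1
      (fun x y h => ?_) (fun q : (Σ i, Fin (a i).toNat) => q.1) (fun q y => ?_)
      (fun q q' h => ?_) (t := t) (fun L hL k => ?_) (fun b c hbc L => ?_)
    · rw [Sum.swap_swap, hskew]
    · rw [hlab', hlab', h]
    · rw [hlab', y.2]
    · have h1 := q.2.2
      have h2 := q'.2.2
      have h3 := ha' q.1
      rw [h] at h3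
      omega
    · unfold Fc at hL
      by_contra hcon
      exact hL (if_neg fun h => hcon (h k))
    · exact elemX_F ω halt hnd hωρ st hst hor htw hirr hnil e lab hlab hlab' he0 he1 φ hφ t a ha
        ha' b c hbc L
  have h2 := Submodule.span_le.2 (PD_mem ω hωρ e lab hlab he0 N hN hpair Pr hdet
    (κ := Fin m × Fin 2) (fun q : (Σ i, Fin (a i).toNat) => q.1) mt hmt) hF
  obtain ⟨ψ, hψ, hψF⟩ := h2
  rw [← hev] at hψF
  rw [← evB_inj e hψF]
  exact hψ

include halt hnd hωρ hst hor htw hirr hnil hlab hlab' he0 he1 hN hpair hdet hbal in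
/-- Tate forms belong to the system. -/
theorem tate_mem [IsAlgClosed K] {m : ℕ}
    (φ : MultilinearMap K (fun _ : Fin m × Fin 2 => ∀ i, E i) K)
    (hφ : IsTate (piRep r) χ m φ) : φ ∈ N (Fin m × Fin 2) := by
  classical
  have h1 : φ = ∑ t : Fin m × Fin 2 → I, φ.compLinearMap (fun k => pc (t k)) := by
    refine MultilinearMap.ext fun v => ?_
    rw [_root_.sum_apply]
    have h2 : v = fun k => ∑ i, pc (K := K) i (v k) := by
      funext k
      exact (Finset.univ_sum_single (v k)).symm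
    conv_lhs => rw [h2]
    rw [MultilinearMap.map_sum]
    rfl
  rw [h1]
  exact Submodule.sum_mem _ fun t _ => comp_mem ω halt hnd hωρ st hst hor htw hirr hnil e lab
    hlab hlab' he0 he1 N hN hpair Pr hdet hbal φ hφ t

end

end Pool.Agent.Y90
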