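import Mathlib
import Pool.Agent.Y90.E1
import Pool.Agent.Y90.Pi2

/-!
# Invariant forms on a semisimple representation, with determinants
-/

set_option linter.unusedSectionVars false

namespace Pool.Agent.Y90

open Module Pool.Agent.H204R3.SP Pool.Agent.H204R3.GP Pool.Agent.W522.U

noncomputable section

section det

variable {K : Type*} [Field K] [CharZero K] {I : Type} [Fintype I] [DecidableEq I]
  {E : I → Type*} [∀ i, AddCommGroup (E i)] [∀ i, Module K (E i)] [∀ i, FiniteDimensional K (E i)]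
  {n : ℕ} (e : Basis (Fin n ⊕ Fin n) K (∀ i, E i)) (lab : Fin n ⊕ Fin n → I)

theorem dF_eq (i : I) (f : Basis (Mem lab i) K (E i)) (hf : ∀ y, f y = e y.1 i)
    (hlab : ∀ x, e x = Pi.single (lab x) (e x (lab x))) (v : Mem lab i → ∀ i, E i) :
    dF e lab i v = f.det (fun y => v y i) := by
  rw [dF_apply, Basis.det_apply, ← Matrix.det_transpose]
  congr 1
  ext y' y
  rw [Matrix.transpose_apply, Matrix.of_apply, Basis.toMatrix_apply]
  have h1 : e.coord y'.1 = (f.coord y').comp (LinearMap.proj i) := by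
    refine e.ext fun x => ?_
    rw [Basis.coord_apply, Basis.repr_self, LinearMap.comp_apply, LinearMap.proj_apply,
      Basis.coord_apply]
    by_cases hx : lab x = i
    · rw [show e x i = f ⟨x, hx⟩ from (hf ⟨x, hx⟩).symm, Basis.repr_self, Finsupp.single_apply,
        Finsupp.single_apply]
      by_cases h : x = y'.1
      · rw [if_pos h, if_pos (Subtype.ext h)]
      · rw [if_neg h, if_neg (fun h' => h (congrArg Subtype.val h'))]
    · rw [hlab x, Pi.single_eq_of_ne (fun h => hx h.symm), map_zero, Finsupp.single_apply,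
        Finsupp.zero_apply, if_neg]
      rintro h
      exact hx (by rw [h]; exact y'.2)
  exact congrArg (fun g : (∀ i, E i) →ₗ[K] K => g (v y)) h1

end det

variable {K : Type*} [Field K] [CharZero K] {X : Type*} [AddCommGroup X] [Module K X]
  [FiniteDimensional K X]
  {Γ : Type*} [Group Γ]

variable {R : Representation K Γ X} {χ : Γ →* K}
  (hfi : ∀ Δ : Subgroup Γ, Δ.FiniteIndex → Δ = ⊤)
  (ω : X →ₗ[K] X →ₗ[K] K) (hnd : ∀ u, (∀ v, ω u v = 0) → u = 0)
  (hωR : ∀ g u v, ω (R g u) (R g v) = χ g * ω u v)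
  (hR1 : ∀ U, SI R U → 2 ≤ finrank K U → ∃ γ : Γ, (R γ - 1) * (R γ - 1) = 0 ∧
    finrank K (U.map (R γ - 1)) = 1)
  (hR2 : ∀ U, SI R U → finrank K U = 1 → ¬Du R χ U U)
  (hH : ∀ U U', SI R U → SI R U' → 2 ≤ finrank K U → ¬Du R χ U U → ∀ ψ : Γ → K, Tw R ψ U U' →
    Tw R (fun _ => 1) U U')
  (hss : HasProj R)

include hfi hnd hωR hR1 hR2 hH hss in
/-- The invariant forms belong to each system of forms which contains the invariant bilinear forms
and certain products of determinants. -/
theorem forms_mem [IsAlgClosed K] {s : ℕ} (W : Fin s → Submodule K X) (hW : ∀ i, SI R (W i))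
    (hWW : ∀ i j, Tw R (fun _ => 1) (W i) (W j) → i = j)
    (hall : ∀ U, SI R U → ∃ i, Tw R (fun _ => 1) U (W i))
    (st : Fin s → Fin s) (hst : ∀ i, st (st i) = i) (hDu : ∀ i, Du R χ (W i) (W (st i)))
    (hDu' : ∀ i j, Du R χ (W i) (W j) → j = st i)
    (N : ∀ (κ : Type) [Finite κ], Submodule K (MultilinearMap K (fun _ : κ => X) K))
    (hN : Clo N)
    (hpair : ∀ b : X →ₗ[K] X →ₗ[K] K, (∀ g u v, b (R g u) (R g v) = χ g * b u v) →
      bil2 b ∈ N (Fin 2))
    (Pr : Fin s → Fin s → Prop)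
    (hdet : ∀ i i', Pr i i' → ∀ (ι ι' : Type) [Fintype ι] [Fintype ι'] [DecidableEq ι]
      [DecidableEq ι'] (f : Basis ι K (W i)) (f' : Basis ι' K (W i')) (q : ι → X →ₗ[K] W i)
      (q' : ι' → X →ₗ[K] W i'), (∀ y g x, (q y (R g x) : X) = R g (q y x)) →
      (∀ y g x, (q' y (R g x) : X) = R g (q' y x)) →
      ∀ ψ : MultilinearMap K (fun _ : ι ⊕ ι' => X) K, (∀ v, ψ v =
        f.det (fun y => q y (v (Sum.inl y))) * f'.det (fun y => q' y (v (Sum.inr y)))) →
      ψ ∈ N (ι ⊕ ι'))
    (hbal : ∀ a : Fin s → ℤ, (∀ i, a (st i) = -a i) →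
      (∀ (g : Γ) (h : ∀ i, ∀ u ∈ W i, R g u ∈ W i), ∃ M : ℕ, M ≠ 0 ∧
        (∏ i, LinearMap.det ((R g).restrict (h i)) ^ a i) ^ M = 1) →
      ∃ (A : Type) (_ : Fintype A) (mt : A ⊕ A ≃ Σ i, Fin (a i).toNat),
        ∀ x, Pr (mt (Sum.inl x)).1 (mt (Sum.inr x)).1)
    {m : ℕ} (φ : MultilinearMap K (fun _ : Fin m × Fin 2 => X) K) (hφ : IsTate R χ m φ) :
    φ ∈ N (Fin m × Fin 2) := by
  classical
  obtain ⟨B, Δ, hΔ, hWΔ, halt, hnd', hsim, hor, htw, hirr, hnil⟩ :=
    main_data ω hnd hωR hR1 hR2 hH W hW hWW st hst hDu hDu'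
  obtain rfl := hfi Δ hΔ
  obtain ⟨n, e, lab, -, hlab, hlab', he0, he1, -, -⟩ :=
    exists_graded (pf W st B) halt hnd' hsim st hst hor 1
  let r := fun i => resR R ⊤ (W i) (hWΔ i)
  -- the system on the sum of the representatives
  let Eq : (X →ₗ[K] ∀ i, W i) → Prop := fun q =>
    ∀ (g : Γ) (x : X), q (R g x) = piRep r ⟨g, Subgroup.mem_top g⟩ (q x)
  let N' : ∀ (κ : Type) [Finite κ], Submodule K (MultilinearMap K (fun _ : κ => ∀ i, W i) K) :=
    fun κ _ =>
      { carrier := {F | ∀ q : κ → (X →ₗ[K] ∀ i, W i), (∀ k, Eq (q k)) → F.compLinearMap q ∈ N κ}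
        add_mem' := fun {F F'} hF hF' q hq => by
          have h1 := Submodule.add_mem _ (hF q hq) (hF' q hq)
          exact h1
        zero_mem' := fun q hq => by
          have h1 : (0 : MultilinearMap K (fun _ : κ => ∀ i, W i) K).compLinearMap q = 0 := rfl
          rw [h1]
          exact Submodule.zero_mem _
        smul_mem' := fun c F hF q hq => by
          have h1 := Submodule.smul_mem _ c (hF q hq)
          exact h1 }
  have hN' : Clo N' := by
    constructor
    · intro κ _ _ F q _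
      exact hN.unit κ _
    · intro κ κ' κ'' _ _ _ e F F' ψ hF hF' hψ q hq
      refine hN.mul κ κ' κ'' e _ _ _ (hF (fun k => q (e (Sum.inl k))) (fun k => hq _))
        (hF' (fun k => q (e (Sum.inr k))) (fun k => hq _)) fun v => ?_
      rw [MultilinearMap.compLinearMap_apply, hψ]
      rfl
  have hmain : ∀ F : MultilinearMap K (fun _ : Fin m × Fin 2 => ∀ i, W i) K,
      IsTate (piRep r) (χ.comp (⊤ : Subgroup Γ).subtype) m F → F ∈ N' (Fin m × Fin 2) := by
    intro F hF
    refine tate_mem (pf W st B) halt hnd' hsim st hst hor htw (fun i _ => hirr i) hnil e lab hlab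
      hlab' he0 he1 N' hN' ?_ Pr ?_ ?_ F hF
    · intro b hb q hq
      have h1 := hpair (b.compl₁₂ (q 0) (q 1)) (fun g u v => by
        rw [LinearMap.compl₁₂_apply, LinearMap.compl₁₂_apply, hq, hq, hb]
        rfl)
      refine hN.reindex (Equiv.refl _) h1 _ fun v => rfl
    · intro i i' hPr q hq
      obtain ⟨f, hf⟩ := exists_fb e lab hlab i
      obtain ⟨f', hf'⟩ := exists_fb e lab hlab i'
      refine hdet i i' hPr _ _ f f' (fun y => (LinearMap.proj i).comp (q (Sum.inl y)))
        (fun y => (LinearMap.proj i').comp (q (Sum.inr y))) (fun y g x => ?_) (fun y g x => ?_) _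
        fun v => ?_
      · rw [LinearMap.comp_apply, hq]
        rfl
      · rw [LinearMap.comp_apply, hq]
        rfl
      · rw [MultilinearMap.compLinearMap_apply, prd_apply, dF_eq e lab i f hf hlab,
          dF_eq e lab i' f' hf' hlab]
        rfl
    · intro a ha hag
      refine hbal a ha fun g h => ?_
      exact hag ⟨g, Subgroup.mem_top g⟩
  -- expansion
  obtain ⟨n', f, T, hfT⟩ := Submodule.mem_span_set'.1 (decomp hss W hW hall)
  choose i p ι D hD hp hι hT using fun l => (T l).2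
  have hDt : ∀ l, D l = ⊤ := fun l => hfi _ (hD l)
  have hexp : φ = ∑ L : Fin m × Fin 2 → Fin n', (∏ k, f (L k)) •
      φ.compLinearMap (fun k => (T (L k)).1) := by
    ext v
    rw [sum_apply]
    have h1 : v = fun k => ∑ l, f l • (T l).1 (v k) := by
      funext k
      have h2 := congrArg (fun F : Module.End K X => F (v k)) hfT
      simp only [LinearMap.sum_apply, LinearMap.smul_apply, Module.End.one_apply] at h2
      exact h2.symm
    conv_lhs => rw [h1]
    rw [MultilinearMap.map_sum]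
    refine Finset.sum_congr rfl fun L _ => ?_
    rw [MultilinearMap.map_smul_univ]
    rfl
  obtain ⟨Δφ, hΔφ, hφ'⟩ := hφ
  obtain rfl := hfi Δφ hΔφ
  rw [hexp]
  refine Submodule.sum_mem _ fun L _ => Submodule.smul_mem _ _ ?_
  let φL : MultilinearMap K (fun _ : Fin m × Fin 2 => ∀ i, W i) K :=
    φ.compLinearMap (fun k => (ι (L k)).comp (LinearMap.proj (i (L k))))
  have hφL : IsTate (piRep r) (χ.comp (⊤ : Subgroup Γ).subtype) m φL := by
    refine ⟨⊤, inferInstance, fun g _ w => ?_⟩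
    change φ (fun k => ι (L k) (piRep r g (w k) (i (L k)))) = χ g.1 ^ m * φ (fun k => _)
    rw [← hφ' g.1 (Subgroup.mem_top _)]
    congr 1
    funext k
    exact hι (L k) g.1 (by rw [hDt]; exact Subgroup.mem_top _) _ _ rfl
  let q : Fin m × Fin 2 → (X →ₗ[K] ∀ i, W i) := fun k =>
    (LinearMap.single K (fun i => W i) (i (L k))).comp (p (L k))
  have hq : ∀ k, Eq (q k) := by
    intro k g x
    change (Pi.single (i (L k)) (p (L k) (R g x)) : ∀ i, W i) =
      piRep r ⟨g, _⟩ (Pi.single (i (L k)) (p (L k) x))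
    rw [piRep_single]
    congr 1
    exact Subtype.ext (hp (L k) g (by rw [hDt]; exact Subgroup.mem_top _) x)
  have h1 : φ.compLinearMap (fun k => (T (L k)).1) = φL.compLinearMap q := by
    ext v
    change φ (fun k => (T (L k)).1 (v k)) = φ (fun k => ι (L k)
      ((Pi.single (i (L k)) (p (L k) (v k)) : ∀ i, W i) (i (L k))))
    congr 1
    funext k
    rw [hT, Pi.single_eq_same]
    rfl
  rw [h1]
  exact hmain φL hφL q hq

end

end Pool.Agent.Y90
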