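import Mathlib
import Pool.Agent.Y90.Pie4

/-!
# Complex multiplication
-/

set_option linter.unusedSectionVars false

namespace Pool.Agent.Y90

open Matrix Module Pool.Agent.W437.HC Pool.Agent.W437.HD Pool.Agent.W548.Odd

noncomputable section

variable {g : ℕ} {Z : Matrix (Fin g) (Fin g) ℂ}

/-- If the irreducible submodules are lines then the Lie algebra is commutative. -/
theorem comm_of_one (h : PM Z) (hs : IsSimpleAV Z) {U : Submodule ℂ (Fin g ⊕ Fin g → ℂ)}
    (hU : IrS (LZ Z) U) (hn : finrank ℂ U = 1) : ∀ X ∈ LZ Z, ∀ Y ∈ LZ Z, X * Y = Y * X := by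
  intro X hX Y hY
  have hker : LinearMap.ker (mulVecLin (X * Y - Y * X)) = ⊤ := by
    rw [← top_le_iff, ← h.cred.span]
    refine sSup_le fun W hW => ?_
    have hW1 : finrank ℂ W = 1 := by rw [finrank_irS h hs hW hU, hn]
    obtain ⟨w, hw0, hw⟩ := finrank_eq_one_iff'.1 hW1
    obtain ⟨x, hx⟩ := hw ⟨X *ᵥ w, hW.2.1 X hX w w.2⟩
    obtain ⟨y, hy⟩ := hw ⟨Y *ᵥ w, hW.2.1 Y hY w w.2⟩
    have hx' : X *ᵥ (w : Fin g ⊕ Fin g → ℂ) = x • (w : Fin g ⊕ Fin g → ℂ) :=
      (congrArg Subtype.val hx).symm
    have hy' : Y *ᵥ (w : Fin g ⊕ Fin g → ℂ) = y • (w : Fin g ⊕ Fin g → ℂ) :=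
      (congrArg Subtype.val hy).symm
    intro v hv
    obtain ⟨c, hc⟩ := hw ⟨v, hv⟩
    have hc' : c • (w : Fin g ⊕ Fin g → ℂ) = v := congrArg Subtype.val hc
    rw [LinearMap.mem_ker, mulVecLin_apply, ← hc', mulVec_smul, sub_mulVec, ← mulVec_mulVec,
      ← mulVec_mulVec, hx', hy', mulVec_smul, mulVec_smul, hx', hy', smul_comm x y, sub_self,
      smul_zero]
  have h1 : X * Y - Y * X = 0 := by
    apply Matrix.toLin'.injective
    refine LinearMap.ext fun v => ?_
    have h2 : v ∈ LinearMap.ker (mulVecLin (X * Y - Y * X)) := by rw [hker]; trivial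
    rw [toLin'_apply, map_zero, LinearMap.zero_apply]
    exact h2
  exact sub_eq_zero.1 h1

theorem qm_mulVec (u : Matrix (Fin g ⊕ Fin g) (Fin g ⊕ Fin g) ℚ) (v : Fin g ⊕ Fin g → ℚ) :
    qm u *ᵥ (fun i => ((v i : ℚ) : ℂ)) = fun i => (((u *ᵥ v) i : ℚ) : ℂ) := by
  funext i
  simp [mulVec, dotProduct, qm]

/-- Complex multiplication. -/
theorem cm_of_one (h : PM Z) (hs : IsSimpleAV Z) (hg : 0 < g)
    {U : Submodule ℂ (Fin g ⊕ Fin g → ℂ)} (hU : IrS (LZ Z) U) (hn : finrank ℂ U = 1) :
    ∃ A : Subalgebra ℚ (Matrix (Fin g ⊕ Fin g) (Fin g ⊕ Fin g) ℚ),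
      (∀ a ∈ A, ∀ b ∈ A, a * b = b * a) ∧ finrank ℚ A = 2 * g ∧
      ∀ a ∈ A, qm a * DZ Z = DZ Z * qm a := by
  have hcomm := comm_of_one h hs hU hn
  let S : Set (Matrix (Fin g ⊕ Fin g) (Fin g ⊕ Fin g) ℚ) := {u | qm u ∈ LZ Z}
  let A := Algebra.adjoin ℚ S
  have hAC : ∀ a ∈ A, ∀ X ∈ LZ Z, qm a * X = X * qm a := by
    intro a ha
    induction ha using Algebra.adjoin_induction with
    | mem x hx => exact fun X hX => hcomm _ hx X hX
    | algebraMap r =>
      intro X _
      have h1 : qm (algebraMap ℚ (Matrix (Fin g ⊕ Fin g) (Fin g ⊕ Fin g) ℚ) r) =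
          (r : ℂ) • 1 := by
        ext i j
        change ((algebraMap ℚ (Matrix (Fin g ⊕ Fin g) (Fin g ⊕ Fin g) ℚ) r i j : ℚ) : ℂ) = _
        rw [Matrix.algebraMap_matrix_apply, Matrix.smul_apply, Matrix.one_apply]
        split_ifs <;> simp
      rw [h1, smul_mul_assoc, one_mul, mul_smul_comm, mul_one]
    | add x y _ _ hx hy =>
      intro X hX
      have h1 : qm (x + y) = qm x + qm y := by
        ext i j
        simp [qm]
      rw [h1, add_mul, mul_add, hx X hX, hy X hX]
    | mul x y _ _ hx hy =>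
      intro X hX
      rw [qm_mul, mul_assoc, hy X hX, ← mul_assoc, hx X hX, mul_assoc]
  have hqinj : ∀ a b : Matrix (Fin g ⊕ Fin g) (Fin g ⊕ Fin g) ℚ, qm a = qm b → a = b := by
    intro a b hab
    ext i j
    have h1 := congrFun (congrFun hab i) j
    simp only [Matrix.map_apply] at h1
    exact_mod_cast h1
  have hAA : ∀ a ∈ A, ∀ b ∈ A, a * b = b * a := by
    intro a ha b hb
    induction hb using Algebra.adjoin_induction with
    | mem x hx =>
      apply hqinj
      rw [qm_mul, qm_mul, hAC a ha _ hx]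
    | algebraMap r => exact (Algebra.commutes r a).symm
    | add x y _ _ hx hy => rw [mul_add, add_mul, hx, hy]
    | mul x y _ _ hx hy => rw [← mul_assoc, hx, mul_assoc, hy, mul_assoc]
  refine ⟨A, hAA, ?_, fun a ha => hAC a ha _ DZ_mem⟩
  -- the evaluation at a vector
  let v0 : Fin g ⊕ Fin g → ℚ := Pi.single (Sum.inl ⟨0, hg⟩) 1
  have hv0 : v0 ≠ 0 := by
    intro h0
    have h1 := congrFun h0 (Sum.inl ⟨0, hg⟩)
    simp [v0] at h1
  let ev : A →ₗ[ℚ] (Fin g ⊕ Fin g → ℚ) :=
    { toFun := fun a => (a : Matrix (Fin g ⊕ Fin g) (Fin g ⊕ Fin g) ℚ) *ᵥ v0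
      map_add' := fun a b => add_mulVec _ _ _
      map_smul' := fun c a => smul_mulVec _ _ _ }
  have hinj : Function.Injective ev := by
    rw [injective_iff_map_eq_zero]
    intro a ha
    have ha' : (a : Matrix (Fin g ⊕ Fin g) (Fin g ⊕ Fin g) ℚ) *ᵥ v0 = 0 := ha
    rcases hdivZ h.isPer (Set.mem_singleton Z) hs a.1 (by
      intro X hX
      rw [← img_eq] at hX
      exact hAC a.1 a.2 X hX) with h1 | h1
    · exact Subtype.ext h1
    · exfalso
      have h2 := qm_mulVec a.1 v0
      rw [ha'] at h2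
      have h3 : (fun i => (((0 : Fin g ⊕ Fin g → ℚ) i : ℚ) : ℂ)) = qm a.1 *ᵥ 0 := by
        rw [mulVec_zero]
        funext i
        simp
      rw [h3] at h2
      have h4 := (Matrix.mulVec_injective_iff_isUnit.2 h1) h2
      apply hv0
      funext i
      have h5 : ((v0 i : ℚ) : ℂ) = 0 := congrFun h4 i
      rw [Pi.zero_apply]
      exact_mod_cast h5
  have hle : finrank ℚ A ≤ 2 * g := by
    have h1 := LinearMap.finrank_le_finrank_of_injective hinj
    rw [Module.finrank_fintype_fun_eq_card, Fintype.card_sum, Fintype.card_fin] at h1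
    omega
  -- the complex span of the values
  let cst : (Fin g ⊕ Fin g → ℚ) → (Fin g ⊕ Fin g → ℂ) := fun v i => ((v i : ℚ) : ℂ)
  let W : Submodule ℂ (Fin g ⊕ Fin g → ℂ) :=
    Submodule.span ℂ (Set.range fun a : A => cst (ev a))
  have hWtop : W = ⊤ := by
    refine stable_eq_top h.det hs W (fun σ v hv => ?_) ?_ ?_
    · induction hv using Submodule.span_induction with
      | mem x hx =>
        obtain ⟨a, rfl⟩ := hx
        refine Submodule.subset_span ⟨a, ?_⟩
        funext i
        simp [cst]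
      | zero =>
        have h1 : (fun i => σ ((0 : Fin g ⊕ Fin g → ℂ) i)) = 0 := by
          funext i
          exact map_zero σ
        rw [h1]
        exact Submodule.zero_mem _
      | add x y _ _ hx hy =>
        have h1 : (fun i => σ ((x + y) i)) = (fun i => σ (x i)) + fun i => σ (y i) := by
          funext i
          exact map_add σ _ _
        rw [h1]
        exact Submodule.add_mem _ hx hy
      | smul c x _ hx =>
        have h1 : (fun i => σ ((c • x) i)) = σ c • fun i => σ (x i) := by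
          funext i
          exact map_mul σ _ _
        rw [h1]
        exact Submodule.smul_mem _ _ hx
    · refine rational_induction (LZ Z) gal_LZ (p := fun X => ∀ v ∈ W, X *ᵥ v ∈ W) ?_ ?_ ?_ ?_ _
        DZ_mem
      · intro u hu v hv
        induction hv using Submodule.span_induction with
        | mem x hx =>
          obtain ⟨a, rfl⟩ := hx
          refine Submodule.subset_span ⟨⟨u, Algebra.subset_adjoin hu⟩ * a, ?_⟩
          change cst ((u * a.1) *ᵥ v0) = qm u *ᵥ cst (a.1 *ᵥ v0)
          rw [← mulVec_mulVec]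
          exact (qm_mulVec u _).symm
        | zero =>
          rw [mulVec_zero]
          exact Submodule.zero_mem _
        | add x y _ _ hx hy =>
          rw [mulVec_add]
          exact Submodule.add_mem _ hx hy
        | smul c x _ hx =>
          rw [mulVec_smul]
          exact Submodule.smul_mem _ _ hx
      · intro v _
        rw [zero_mulVec]
        exact Submodule.zero_mem _
      · intro X Y hX hY v hv
        rw [add_mulVec]
        exact Submodule.add_mem _ (hX v hv) (hY v hv)
      · intro c X hX v hv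
        rw [smul_mulVec]
        exact Submodule.smul_mem _ _ (hX v hv)
    · intro h0
      have h1 : cst (ev 1) ∈ W := Submodule.subset_span ⟨1, rfl⟩
      rw [h0, Submodule.mem_bot] at h1
      apply hv0
      funext i
      have h2 := congrFun h1 i
      have h3 : ev 1 = v0 := one_mulVec v0
      rw [h3] at h2
      have h4 : ((v0 i : ℚ) : ℂ) = 0 := h2
      rw [Pi.zero_apply]
      exact_mod_cast h4
  have hge : 2 * g ≤ finrank ℚ A := by
    let bA := finBasis ℚ A
    have h1 : W ≤ Submodule.span ℂ (Set.range fun k => cst (ev (bA k))) := by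
      refine Submodule.span_le.2 ?_
      rintro _ ⟨a, rfl⟩
      have h2 : cst (ev a) = ∑ k, ((bA.repr a k : ℚ) : ℂ) • cst (ev (bA k)) := by
        conv_lhs => rw [← bA.sum_repr a, map_sum]
        funext i
        simp only [cst, Finset.sum_apply, map_smul, Pi.smul_apply, smul_eq_mul, Rat.cast_sum,
          Rat.cast_mul]
      change cst (ev a) ∈ _
      rw [h2]
      exact Submodule.sum_mem _ fun k _ => Submodule.smul_mem _ _ (Submodule.subset_span ⟨k, rfl⟩)
    rw [hWtop, top_le_iff] at h1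
    have h2 := finrank_range_le_card (R := ℂ) fun k => cst (ev (bA k))
    rw [Set.finrank, h1, finrank_top, finrank_V, Fintype.card_fin] at h2
    exact h2
  exact le_antisymm hle hge

end

end Pool.Agent.Y90
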