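import Mathlib
import Pool.Agent.Y90.Pie5

/-!
# The irreducible submodules for simple abelian varieties of dimension at most three
-/

set_option linter.unusedSectionVars false

namespace Pool.Agent.Y90

open Matrix Module Pool.Agent.W437.HC Pool.Agent.W437.HD Pool.Agent.W548.Odd

noncomputable section

variable {g : ℕ} {Z : Matrix (Fin g) (Fin g) ℂ}

/-- Complex multiplication. -/
def HasCM (Z : Matrix (Fin g) (Fin g) ℂ) : Prop :=
  ∃ A : Subalgebra ℚ (Matrix (Fin g ⊕ Fin g) (Fin g ⊕ Fin g) ℚ),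
    (∀ a ∈ A, ∀ b ∈ A, a * b = b * a) ∧ finrank ℚ A = 2 * g ∧ ∀ a ∈ A, qm a * DZ Z = DZ Z * qm a

theorem classify (h : PM Z) (hs : IsSimpleAV Z) (hg : 0 < g) (hg3 : g ≤ 3)
    (hcm : HasCM Z → g = 1) {U : Submodule ℂ (Fin g ⊕ Fin g → ℂ)} (hU : IrS (LZ Z) U) :
    (2 ≤ finrank ℂ U → Rk1 Z U) ∧
      ((SDu Z U ∧ 2 ≤ finrank ℂ U) ∨ ∃ φ α d, KT Z U φ α d) := by
  refine ⟨fun h2 => exists_rk1 h hs hg3 hU h2, ?_⟩
  have hpos : 0 < finrank ℂ U := by
    rw [Nat.pos_iff_ne_zero, ne_eq, Submodule.finrank_eq_zero]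
    exact hU.1
  have hd := finrank_dvd h hs hU
  have hle := Nat.le_of_dvd (by omega) hd
  obtain h1 | h1 | h1 | h1 : finrank ℂ U = 1 ∨ finrank ℂ U = 2 ∨ finrank ℂ U = 3 ∨
      4 ≤ finrank ℂ U := by omega
  · right
    have h2 : g = 1 := hcm (cm_of_one h hs hg hU h1)
    exact exists_KT h hs (Or.inl h2) hU (by rw [h1, h2])
  · left
    exact ⟨sdu_two h hs hg3 hU h1, h1.ge⟩
  · right
    have h2 : g = 3 := by
      rw [h1] at hd
      obtain ⟨k, hk⟩ := hd
      omega
    exact exists_KT h hs (Or.inr h2) hU (by rw [h1, h2])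
  · left
    have h2 : finrank ℂ U = 2 * g := by
      obtain ⟨k, hk⟩ := hd
      have hk1 : k = 1 := by
        rcases Nat.lt_or_ge k 2 with h3 | h3
        · interval_cases k
          · omega
          · rfl
        · exfalso
          nlinarith
      rw [hk1, mul_one] at hk
      exact hk.symm
    have h3 : U = ⊤ := Submodule.eq_top_of_finrank_eq (by rw [h2, finrank_V])
    refine ⟨?_, by omega⟩
    rw [h3]
    exact sdu_top h hg

end

end Pool.Agent.Y90
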