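import Mathlib
import Pool.Agent.Y90.Pie6
import Pool.Agent.TH504.CB.Red3

/-!
# Factors of a period matrix
-/

set_option linter.unusedSectionVars false

namespace Pool.Agent.Y90

open Matrix Module Pool.Agent.W437.HC Pool.Agent.W437.HD Pool.Agent.W548.Odd
open Pool.Agent.W437.HP (cK cK_mul cK_one)

noncomputable section

variable {G a : ℕ} {Z : Matrix (Fin G) (Fin G) ℂ} {Z' : Matrix (Fin a) (Fin a) ℂ}
  {E : Matrix (Fin G ⊕ Fin G) (Fin a ⊕ Fin a) ℚ} {F : Matrix (Fin a ⊕ Fin a) (Fin G ⊕ Fin G) ℚ}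

/-- The period matrix `Z'` is a factor of `Z`. -/
structure Fac (Z : Matrix (Fin G) (Fin G) ℂ) (Z' : Matrix (Fin a) (Fin a) ℂ)
    (E : Matrix (Fin G ⊕ Fin G) (Fin a ⊕ Fin a) ℚ)
    (F : Matrix (Fin a ⊕ Fin a) (Fin G ⊕ Fin G) ℚ) : Prop where
  fe : F * E = 1
  de : DZ Z * cK ℂ E = cK ℂ E * DZ Z'
  fd : cK ℂ F * DZ Z = DZ Z' * cK ℂ F

theorem cK_aut {m n : Type*} (σ : ℂ ≃+* ℂ) (M : Matrix m n ℚ) : (cK ℂ M).map σ = cK ℂ M := by
  ext i j
  simp [cK]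

/-- The linear map of a rational matrix. -/
def ml {m n : Type*} [Fintype n] (M : Matrix m n ℚ) : (n → ℂ) →ₗ[ℂ] (m → ℂ) :=
  mulVecLin (cK ℂ M)

theorem ml_apply {m n : Type*} [Fintype n] (M : Matrix m n ℚ) (v : n → ℂ) :
    ml M v = cK ℂ M *ᵥ v := rfl

namespace Fac

variable (h : Fac Z Z' E F)
include h

theorem fe' : cK ℂ F * cK ℂ E = 1 := by rw [← cK_mul, h.fe, cK_one]

theorem des (σ : ℂ ≃+* ℂ) : DS Z σ * cK ℂ E = cK ℂ E * DS Z' σ := by
  have h1 := congrArg (fun M => M.map σ) h.de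
  simp only [Matrix.map_mul, cK_aut] at h1
  exact h1

theorem fds (σ : ℂ ≃+* ℂ) : cK ℂ F * DS Z σ = DS Z' σ * cK ℂ F := by
  have h1 := congrArg (fun M => M.map σ) h.fd
  simp only [Matrix.map_mul, cK_aut] at h1
  exact h1

/-- The compression of the Lie algebra. -/
theorem comp {X : Matrix (Fin G ⊕ Fin G) (Fin G ⊕ Fin G) ℂ} (hX : X ∈ LZ Z) :
    cK ℂ F * X * cK ℂ E ∈ LZ Z' ∧ X * cK ℂ E = cK ℂ E * (cK ℂ F * X * cK ℂ E) ∧
      cK ℂ F * X = cK ℂ F * X * cK ℂ E * cK ℂ F := by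
  let L : Submodule ℂ (Matrix (Fin G ⊕ Fin G) (Fin G ⊕ Fin G) ℂ) :=
    { carrier := {X | cK ℂ F * X * cK ℂ E ∈ LZ Z' ∧
        X * cK ℂ E = cK ℂ E * (cK ℂ F * X * cK ℂ E) ∧
        cK ℂ F * X = cK ℂ F * X * cK ℂ E * cK ℂ F}
      add_mem' := by
        rintro X Y ⟨x1, x2, x3⟩ ⟨y1, y2, y3⟩
        refine ⟨?_, ?_, ?_⟩
        · rw [Matrix.mul_add, Matrix.add_mul]
          exact Submodule.add_mem _ x1 y1
        · rw [Matrix.mul_add, Matrix.add_mul (cK ℂ F * X), Matrix.mul_add, ← x2, ← y2,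
            Matrix.add_mul]
        · rw [Matrix.mul_add, Matrix.add_mul, Matrix.add_mul, ← x3, ← y3]
      zero_mem' := by
        refine ⟨?_, ?_, ?_⟩
        · rw [Matrix.mul_zero, Matrix.zero_mul]
          exact Submodule.zero_mem _
        · rw [Matrix.mul_zero, Matrix.zero_mul, Matrix.zero_mul, Matrix.mul_zero]
        · rw [Matrix.mul_zero, Matrix.zero_mul, Matrix.zero_mul]
      smul_mem' := by
        rintro c X ⟨x1, x2, x3⟩
        refine ⟨?_, ?_, ?_⟩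
        · rw [Matrix.mul_smul, Matrix.smul_mul]
          exact Submodule.smul_mem _ c x1
        · rw [Matrix.smul_mul, x2, Matrix.mul_smul, Matrix.smul_mul, Matrix.mul_smul, ← x2]
        · rw [Matrix.mul_smul, Matrix.smul_mul, Matrix.smul_mul, ← x3] }
  have hL : LZ Z ≤ L := by
    refine LZ_le (fun σ => ⟨?_, ?_, ?_⟩) (fun A hA C hC => ?_)
    · rw [h.fds, Matrix.mul_assoc, h.fe', Matrix.mul_one]
      exact DS_mem σ
    · rw [h.fds, Matrix.mul_assoc (DS Z' σ), h.fe', Matrix.mul_one, h.des]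
    · rw [h.fds, Matrix.mul_assoc (DS Z' σ), h.fe', Matrix.mul_one]
    · obtain ⟨a1, a2, a3⟩ := hA
      obtain ⟨c1, c2, c3⟩ := hC
      have e1 : cK ℂ F * (A * C) * cK ℂ E =
          (cK ℂ F * A * cK ℂ E) * (cK ℂ F * C * cK ℂ E) := by
        calc cK ℂ F * (A * C) * cK ℂ E = (cK ℂ F * A) * (C * cK ℂ E) := by
              simp only [Matrix.mul_assoc]
          _ = (cK ℂ F * A) * (cK ℂ E * (cK ℂ F * C * cK ℂ E)) := by rw [← c2]
          _ = _ := by simp only [Matrix.mul_assoc]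
      have e2 : cK ℂ F * (C * A) * cK ℂ E =
          (cK ℂ F * C * cK ℂ E) * (cK ℂ F * A * cK ℂ E) := by
        calc cK ℂ F * (C * A) * cK ℂ E = (cK ℂ F * C) * (A * cK ℂ E) := by
              simp only [Matrix.mul_assoc]
          _ = (cK ℂ F * C) * (cK ℂ E * (cK ℂ F * A * cK ℂ E)) := by rw [← a2]
          _ = _ := by simp only [Matrix.mul_assoc]
      have e3 : cK ℂ F * (A * C - C * A) * cK ℂ E =
          (cK ℂ F * A * cK ℂ E) * (cK ℂ F * C * cK ℂ E) -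
          (cK ℂ F * C * cK ℂ E) * (cK ℂ F * A * cK ℂ E) := by
        rw [Matrix.mul_sub, Matrix.sub_mul, e1, e2]
      refine ⟨?_, ?_, ?_⟩
      · rw [e3]
        exact LZ_br a1 c1
      · rw [e3, Matrix.sub_mul, Matrix.mul_sub, Matrix.mul_assoc A, c2, ← Matrix.mul_assoc A, a2,
          Matrix.mul_assoc C, a2, ← Matrix.mul_assoc C, c2]
        simp only [Matrix.mul_assoc]
      · have e4 : (cK ℂ F * A * cK ℂ E) * (cK ℂ F * C * cK ℂ E) * cK ℂ F =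
            cK ℂ F * A * cK ℂ E * (cK ℂ F * C) := by
          rw [Matrix.mul_assoc, ← c3]
        have e5 : (cK ℂ F * C * cK ℂ E) * (cK ℂ F * A * cK ℂ E) * cK ℂ F =
            cK ℂ F * C * cK ℂ E * (cK ℂ F * A) := by
          rw [Matrix.mul_assoc, ← a3]
        have e6 : cK ℂ F * A * cK ℂ E * (cK ℂ F * C) = cK ℂ F * (A * C) := by
          rw [← Matrix.mul_assoc, ← a3, Matrix.mul_assoc]
        have e7 : cK ℂ F * C * cK ℂ E * (cK ℂ F * A) = cK ℂ F * (C * A) := by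
          rw [← Matrix.mul_assoc, ← c3, Matrix.mul_assoc]
        rw [e3, Matrix.sub_mul, e4, e5, e6, e7, Matrix.mul_sub]
  exact hL hX

/-- Each element of the Lie algebra of the factor is a compression. -/
theorem lift {Y : Matrix (Fin a ⊕ Fin a) (Fin a ⊕ Fin a) ℂ} (hY : Y ∈ LZ Z') :
    ∃ X ∈ LZ Z, cK ℂ F * X * cK ℂ E = Y := by
  let M : Matrix (Fin G ⊕ Fin G) (Fin G ⊕ Fin G) ℂ →ₗ[ℂ]
      Matrix (Fin a ⊕ Fin a) (Fin a ⊕ Fin a) ℂ :=
    { toFun := fun X => cK ℂ F * X * cK ℂ E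
      map_add' := fun X Y => by rw [Matrix.mul_add, Matrix.add_mul]
      map_smul' := fun c X => by rw [Matrix.mul_smul, Matrix.smul_mul, RingHom.id_apply] }
  have hL : LZ Z' ≤ (LZ Z).map M := by
    refine LZ_le (fun σ => ⟨DS Z σ, DS_mem σ, ?_⟩) ?_
    · change cK ℂ F * DS Z σ * cK ℂ E = DS Z' σ
      rw [h.fds, Matrix.mul_assoc, h.fe', Matrix.mul_one]
    · rintro _ ⟨A, hA, rfl⟩ _ ⟨C, hC, rfl⟩
      refine ⟨A * C - C * A, LZ_br hA hC, ?_⟩
      change cK ℂ F * (A * C - C * A) * cK ℂ E =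
        (cK ℂ F * A * cK ℂ E) * (cK ℂ F * C * cK ℂ E) -
          (cK ℂ F * C * cK ℂ E) * (cK ℂ F * A * cK ℂ E)
      obtain ⟨-, a2, -⟩ := h.comp hA
      obtain ⟨-, c2, -⟩ := h.comp hC
      have e1 : cK ℂ F * (A * C) * cK ℂ E =
          (cK ℂ F * A * cK ℂ E) * (cK ℂ F * C * cK ℂ E) := by
        calc cK ℂ F * (A * C) * cK ℂ E = (cK ℂ F * A) * (C * cK ℂ E) := by
              simp only [Matrix.mul_assoc]
          _ = (cK ℂ F * A) * (cK ℂ E * (cK ℂ F * C * cK ℂ E)) := by rw [← c2]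
          _ = _ := by simp only [Matrix.mul_assoc]
      have e2 : cK ℂ F * (C * A) * cK ℂ E =
          (cK ℂ F * C * cK ℂ E) * (cK ℂ F * A * cK ℂ E) := by
        calc cK ℂ F * (C * A) * cK ℂ E = (cK ℂ F * C) * (A * cK ℂ E) := by
              simp only [Matrix.mul_assoc]
          _ = (cK ℂ F * C) * (cK ℂ E * (cK ℂ F * A * cK ℂ E)) := by rw [← a2]
          _ = _ := by simp only [Matrix.mul_assoc]
      rw [Matrix.mul_sub, Matrix.sub_mul, e1, e2]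
  obtain ⟨X, hX, hXY⟩ := hL hY
  exact ⟨X, hX, hXY⟩

theorem act {X : Matrix (Fin G ⊕ Fin G) (Fin G ⊕ Fin G) ℂ} (hX : X ∈ LZ Z)
    (v : Fin G ⊕ Fin G → ℂ) : ml F (X *ᵥ v) = (cK ℂ F * X * cK ℂ E) *ᵥ ml F v := by
  rw [ml_apply, ml_apply, mulVec_mulVec, mulVec_mulVec, ← (h.comp hX).2.2]

/-- The image of an irreducible submodule. -/
theorem inj {U : Submodule ℂ (Fin G ⊕ Fin G → ℂ)} (hU : IrS (LZ Z) U)
    (h0 : ∃ u ∈ U, ml F u ≠ 0) : ∀ u ∈ U, ml F u = 0 → u = 0 := by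
  have hs : Stab (LZ Z) (U ⊓ LinearMap.ker (ml F)) := by
    rintro X hX u ⟨hu, hu'⟩
    refine ⟨hU.2.1 X hX u hu, ?_⟩
    change ml F (X *ᵥ u) = 0
    rw [h.act hX, LinearMap.mem_ker.1 hu', mulVec_zero]
  rcases hU.2.2 _ inf_le_left hs with h1 | h1
  · intro u hu hu'
    have h2 : u ∈ U ⊓ LinearMap.ker (ml F) := ⟨hu, hu'⟩
    rwa [h1, Submodule.mem_bot] at h2
  · obtain ⟨u, hu, hu'⟩ := h0
    exfalso
    apply hu'
    have h2 : u ∈ U ⊓ LinearMap.ker (ml F) := by rw [h1]; exact hu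
    exact h2.2

theorem irr {U : Submodule ℂ (Fin G ⊕ Fin G → ℂ)} (hU : IrS (LZ Z) U)
    (h0 : ∃ u ∈ U, ml F u ≠ 0) : IrS (LZ Z') (U.map (ml F)) := by
  have hinj := h.inj hU h0
  refine ⟨?_, ?_, ?_⟩
  · intro h1
    obtain ⟨u, hu, hu'⟩ := h0
    have h2 : ml F u ∈ U.map (ml F) := ⟨u, hu, rfl⟩
    rw [h1, Submodule.mem_bot] at h2
    exact hu' h2
  · rintro Y hY _ ⟨u, hu, rfl⟩
    obtain ⟨X, hX, rfl⟩ := h.lift hY
    rw [← h.act hX]
    exact ⟨_, hU.2.1 X hX u hu, rfl⟩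
  · intro W hW hs
    have h1 : Stab (LZ Z) (U ⊓ W.comap (ml F)) := by
      rintro X hX u ⟨hu, hu'⟩
      refine ⟨hU.2.1 X hX u hu, ?_⟩
      change ml F (X *ᵥ u) ∈ W
      rw [h.act hX]
      exact hs _ (h.comp hX).1 _ hu'
    rcases hU.2.2 _ inf_le_left h1 with h2 | h2
    · left
      rw [eq_bot_iff]
      intro w hw
      obtain ⟨u, hu, rfl⟩ := hW hw
      have h3 : u ∈ U ⊓ W.comap (ml F) := ⟨hu, hw⟩
      rw [h2, Submodule.mem_bot] at h3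
      rw [h3, map_zero]
      exact Submodule.zero_mem _
    · right
      apply le_antisymm hW
      rintro _ ⟨u, hu, rfl⟩
      have h3 : u ∈ U ⊓ W.comap (ml F) := by rw [h2]; exact hu
      exact h3.2

end Fac

theorem finrank_ml {U : Submodule ℂ (Fin G ⊕ Fin G → ℂ)}
    (hi : ∀ u ∈ U, ml F u = 0 → u = 0) : finrank ℂ (U.map (ml F)) = finrank ℂ U := by
  have h1 := LinearMap.finrank_range_of_inj (f := (ml F).domRestrict U) (by
    rw [injective_iff_map_eq_zero]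
    intro u hu
    exact Subtype.ext (hi u u.2 hu))
  rw [← h1]
  have h2 : LinearMap.range ((ml F).domRestrict U) = U.map (ml F) := by
    rw [LinearMap.range_domRestrict]
  rw [h2]

namespace Fac

variable (h : Fac Z Z' E F) (hZ : PM Z) (hZ' : PM Z')
include h hZ hZ'

theorem lift_rk (ε : ℂ) (hε : ε = 1 ∨ ε = -1) {N' : Matrix (Fin a ⊕ Fin a) (Fin a ⊕ Fin a) ℂ}
    (hN : N' ∈ LZ Z') (h1 : (ε • DZ Z') * N' = N') (h2 : N' * (ε • DZ Z') = -N') :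
    ∃ N ∈ LZ Z, (ε • DZ Z) * N = N ∧ N * (ε • DZ Z) = -N ∧ cK ℂ F * N * cK ℂ E = N' := by
  obtain ⟨y, hy, rfl⟩ := h.lift hN
  have key : ∀ A C : Matrix (Fin G ⊕ Fin G) (Fin G ⊕ Fin G) ℂ,
      ∀ A' C' : Matrix (Fin a ⊕ Fin a) (Fin a ⊕ Fin a) ℂ, cK ℂ F * A = A' * cK ℂ F →
      C * cK ℂ E = cK ℂ E * C' → cK ℂ F * (A * y * C) * cK ℂ E =
        A' * (cK ℂ F * y * cK ℂ E) * C' := by
    intro A C A' C' e1 e2
    calc cK ℂ F * (A * y * C) * cK ℂ E = (cK ℂ F * A) * y * (C * cK ℂ E) := by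
          simp only [Matrix.mul_assoc]
      _ = _ := by
          rw [e1, e2]
          simp only [Matrix.mul_assoc]
  rcases hε with rfl | rfl
  · simp only [one_smul] at h1 h2 ⊢
    refine ⟨(1 / 4 : ℂ) • ((1 + DZ Z) * y * (1 - DZ Z)), up_mem hZ hy, up_l hZ y, up_r hZ y, ?_⟩
    rw [Matrix.mul_smul, Matrix.smul_mul, key (1 + DZ Z) (1 - DZ Z) (1 + DZ Z') (1 - DZ Z')
      (by rw [Matrix.mul_add, Matrix.add_mul, h.fd, Matrix.mul_one, Matrix.one_mul])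
      (by rw [Matrix.mul_sub, Matrix.sub_mul, h.de, Matrix.mul_one, Matrix.one_mul])]
    rw [Matrix.add_mul, Matrix.one_mul, h1, Matrix.mul_sub, Matrix.mul_one, Matrix.add_mul, h2]
    module
  · have h1' : DZ Z' * (cK ℂ F * y * cK ℂ E) = -(cK ℂ F * y * cK ℂ E) := by
      rw [neg_one_smul, Matrix.neg_mul] at h1
      rw [← h1, neg_neg, h1]
    have h2' : (cK ℂ F * y * cK ℂ E) * DZ Z' = cK ℂ F * y * cK ℂ E := by
      rw [neg_one_smul, Matrix.mul_neg, neg_inj] at h2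
      exact h2
    refine ⟨(1 / 4 : ℂ) • ((1 - DZ Z) * y * (1 + DZ Z)), dn_mem hZ hy, ?_, ?_, ?_⟩
    · rw [neg_one_smul, Matrix.neg_mul, dn_l hZ y, neg_neg]
    · rw [neg_one_smul, Matrix.mul_neg, dn_r hZ y]
    · rw [Matrix.mul_smul, Matrix.smul_mul, key (1 - DZ Z) (1 + DZ Z) (1 - DZ Z') (1 + DZ Z')
        (by rw [Matrix.mul_sub, Matrix.sub_mul, h.fd, Matrix.mul_one, Matrix.one_mul])
        (by rw [Matrix.mul_add, Matrix.add_mul, h.de, Matrix.mul_one, Matrix.one_mul])]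
      rw [Matrix.sub_mul, Matrix.one_mul, h1', Matrix.mul_add, Matrix.mul_one, Matrix.sub_mul,
        Matrix.neg_mul, h2']
      module

end Fac

end

end Pool.Agent.Y90
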