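import Mathlib
import Pool.Agent.Y90.Fac

/-!
# The irreducible submodules if the simple factors are small
-/

set_option linter.unusedSectionVars false

namespace Pool.Agent.Y90

open Matrix Module Pool.Agent.W437.HC Pool.Agent.W437.HD Pool.Agent.W548.Odd Pool.Agent.TH504.CB
open Pool.Agent.W437.HP (cK cK_mul cK_one cK_sum)

noncomputable section

variable {G a : ℕ} {Z : Matrix (Fin G) (Fin G) ℂ} {Z' : Matrix (Fin a) (Fin a) ℂ}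
  {E : Matrix (Fin G ⊕ Fin G) (Fin a ⊕ Fin a) ℚ} {F : Matrix (Fin a ⊕ Fin a) (Fin G ⊕ Fin G) ℚ}

theorem cK_R {m n : Type*} (M : Matrix m n ℚ) :
    (cK ℝ M).map (fun x : ℝ => (x : ℂ)) = cK ℂ M := by
  ext i j
  simp [cK]

theorem de_of_JR (h : JR Z * cK ℝ E = cK ℝ E * JR Z') : DZ Z * cK ℂ E = cK ℂ E * DZ Z' := by
  have h3 := congrArg (fun M => M.map (fun x : ℝ => (x : ℂ))) h
  have h4 : (JR Z * cK ℝ E).map (fun x : ℝ => (x : ℂ)) =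
      (JR Z).map (fun x : ℝ => (x : ℂ)) * (cK ℝ E).map (fun x : ℝ => (x : ℂ)) :=
    Matrix.map_mul (f := Complex.ofRealHom)
  have h5 : (cK ℝ E * JR Z').map (fun x : ℝ => (x : ℂ)) =
      (cK ℝ E).map (fun x : ℝ => (x : ℂ)) * (JR Z').map (fun x : ℝ => (x : ℂ)) :=
    Matrix.map_mul (f := Complex.ofRealHom)
  have h6 : (JR Z).map (fun x : ℝ => (x : ℂ)) * cK ℂ E =
      cK ℂ E * (JR Z').map (fun x : ℝ => (x : ℂ)) := by
    rw [← cK_R E, ← h4, ← h5]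
    exact h3
  unfold DZ
  rw [Matrix.mul_smul, Matrix.smul_mul, h6]

theorem fd_of_JR (h : cK ℝ F * JR Z = JR Z' * cK ℝ F) : cK ℂ F * DZ Z = DZ Z' * cK ℂ F := by
  have h3 := congrArg (fun M => M.map (fun x : ℝ => (x : ℂ))) h
  have h4 : (cK ℝ F * JR Z).map (fun x : ℝ => (x : ℂ)) =
      (cK ℝ F).map (fun x : ℝ => (x : ℂ)) * (JR Z).map (fun x : ℝ => (x : ℂ)) :=
    Matrix.map_mul (f := Complex.ofRealHom)
  have h5 : (JR Z' * cK ℝ F).map (fun x : ℝ => (x : ℂ)) =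
      (JR Z').map (fun x : ℝ => (x : ℂ)) * (cK ℝ F).map (fun x : ℝ => (x : ℂ)) :=
    Matrix.map_mul (f := Complex.ofRealHom)
  have h6 : cK ℂ F * (JR Z).map (fun x : ℝ => (x : ℂ)) =
      (JR Z').map (fun x : ℝ => (x : ℂ)) * cK ℂ F := by
    rw [← cK_R F, ← h4, ← h5]
    exact h3
  unfold DZ
  rw [Matrix.mul_smul, Matrix.smul_mul, h6]

/-- A nonzero subspace has a nonzero image in some simple factor. -/
theorem exists_fac (h : PM Z) {U : Submodule ℂ (Fin G ⊕ Fin G → ℂ)} (hU : U ≠ ⊥) :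
    ∃ (a : ℕ) (Z' : Matrix (Fin a) (Fin a) ℂ) (E : Matrix (Fin G ⊕ Fin G) (Fin a ⊕ Fin a) ℚ)
      (F : Matrix (Fin a ⊕ Fin a) (Fin G ⊕ Fin G) ℚ), Fac Z Z' E F ∧ PM Z' ∧ IsSimpleAV Z' ∧
      0 < a ∧ ∃ u ∈ U, ml F u ≠ 0 := by
  obtain ⟨ι, _, _, g, Z', E, F, h1, h2, h3, h4, h5, h6, h7, h8⟩ :=
    decomposes G G Z le_rfl h.symm h.pos
  obtain ⟨u, hu, hu0⟩ := Submodule.exists_mem_ne_zero_of_ne_bot hU
  have h9 : ∃ i, ml (F i) u ≠ 0 := by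
    by_contra hcon
    push Not at hcon
    apply hu0
    have h10 : u = cK ℂ (∑ i, E i * F i) *ᵥ u := by rw [h6, cK_one, one_mulVec]
    rw [h10, cK_sum, sum_mulVec]
    refine Finset.sum_eq_zero fun i _ => ?_
    have h11 := hcon i
    rw [ml_apply] at h11
    rw [cK_mul, ← mulVec_mulVec, h11, mulVec_zero]
  obtain ⟨i, hi⟩ := h9
  refine ⟨g i, Z' i, E i, F i, ⟨h4 i, de_of_JR (h7 i), fd_of_JR ?_⟩, ⟨h1 i, h2 i⟩, h3 i, h8 i, u,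
    hu, hi⟩
  have h12 : JR Z = ∑ j, JR Z * cK ℝ (E j) * cK ℝ (F j) := by
    have h13 : JR Z = JR Z * cK ℝ (∑ i, E i * F i) := by rw [h6, cK_one, Matrix.mul_one]
    conv_lhs => rw [h13, cK_sum, Matrix.mul_sum]
    refine Finset.sum_congr rfl fun j _ => ?_
    rw [cK_mul, Matrix.mul_assoc]
  rw [h12, Matrix.mul_sum, Finset.sum_eq_single i]
  · rw [h7 i, ← Matrix.mul_assoc, ← Matrix.mul_assoc, ← cK_mul, h4 i, cK_one, Matrix.one_mul]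
  · intro j _ hj
    rw [h7 j, ← Matrix.mul_assoc, ← Matrix.mul_assoc, ← cK_mul, h5 i j hj.symm,
      Pool.Agent.W437.HP.cK_zero, Matrix.zero_mul, Matrix.zero_mul]
  · intro hi'
    exact absurd (Finset.mem_univ i) hi'

/-- All simple factors have dimension at most three, and complex multiplication only if they are
elliptic curves. -/
def SmallF (Z : Matrix (Fin G) (Fin G) ℂ) : Prop :=
  ∀ (a : ℕ) (Z' : Matrix (Fin a) (Fin a) ℂ) (E : Matrix (Fin G ⊕ Fin G) (Fin a ⊕ Fin a) ℚ)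
    (F : Matrix (Fin a ⊕ Fin a) (Fin G ⊕ Fin G) ℚ), Fac Z Z' E F → PM Z' → IsSimpleAV Z' →
    0 < a → a ≤ 3 ∧ (HasCM Z' → a = 1)

/-- A submodule attached to an imaginary quadratic field. -/
structure KD (Z : Matrix (Fin G) (Fin G) ℂ) (U : Submodule ℂ (Fin G ⊕ Fin G → ℂ)) (a : ℕ)
    (Z' : Matrix (Fin a) (Fin a) ℂ) (E : Matrix (Fin G ⊕ Fin G) (Fin a ⊕ Fin a) ℚ)
    (F : Matrix (Fin a ⊕ Fin a) (Fin G ⊕ Fin G) ℚ)
    (φ : Matrix (Fin a ⊕ Fin a) (Fin a ⊕ Fin a) ℚ) (α : ℂ) (d : ℚ) : Prop where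
  fac : Fac Z Z' E F
  pm : PM Z'
  inj : ∀ u ∈ U, ml F u = 0 → u = 0
  kt : KT Z' (U.map (ml F)) φ α d
  odd : a = 1 ∨ a = 3

theorem act_mem (h : Fac Z Z' E F) {U : Submodule ℂ (Fin G ⊕ Fin G → ℂ)}
    {X : Matrix (Fin G ⊕ Fin G) (Fin G ⊕ Fin G) ℂ} (hX : X ∈ LZ Z) (hi : ∀ u ∈ U, ml F u = 0 → u = 0)
    (hU : ∀ u ∈ U, X *ᵥ u ∈ U) : finrank ℂ (U.map (mulVecLin X)) =
      finrank ℂ ((U.map (ml F)).map (mulVecLin (cK ℂ F * X * cK ℂ E))) := by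
  have h1 : U.map (mulVecLin X) ≤ U := by
    rintro _ ⟨u, hu, rfl⟩
    exact hU u hu
  have h2 : (ml F).comp (mulVecLin X) = (mulVecLin (cK ℂ F * X * cK ℂ E)).comp (ml F) := by
    refine LinearMap.ext fun v => ?_
    exact h.act hX v
  rw [← finrank_ml (F := F) (U := U.map (mulVecLin X)) (fun u hu => hi u (h1 hu)),
    ← Submodule.map_comp, ← Submodule.map_comp, h2]

/-- The classification of the irreducible submodules. -/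
theorem loc (h : PM Z) (hs : SmallF Z) {U : Submodule ℂ (Fin G ⊕ Fin G → ℂ)}
    (hU : IrS (LZ Z) U) :
    (2 ≤ finrank ℂ U → Rk1 Z U ∧ ∀ (σ : ℂ ≃+* ℂ) (c : ℂ), ∃ u ∈ U, DS Z σ *ᵥ u ≠ c • u) ∧
      ((SDu Z U ∧ 2 ≤ finrank ℂ U) ∨ ∃ a Z' E F φ α d, KD Z U a Z' E F φ α d) := by
  obtain ⟨a, Z', E, F, hf, h', hs', ha, h0⟩ := exists_fac h hU.1
  have hinj := hf.inj hU h0
  have hU' := hf.irr hU h0
  obtain ⟨ha3, hcm⟩ := hs a Z' E F hf h' hs' ha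
  obtain ⟨h1, h2⟩ := classify h' hs' ha ha3 hcm hU'
  rw [finrank_ml hinj] at h1 h2
  refine ⟨fun hn => ⟨?_, fun σ c => ?_⟩, ?_⟩
  · obtain ⟨D, hD, N', hN', h3, h4, h5⟩ := h1 hn
    obtain ⟨ε, hε, rfl⟩ : ∃ ε : ℂ, (ε = 1 ∨ ε = -1) ∧ D = ε • DZ Z' := by
      rcases hD with rfl | rfl
      · exact ⟨1, Or.inl rfl, (one_smul _ _).symm⟩
      · exact ⟨-1, Or.inr rfl, (neg_one_smul _ _).symm⟩
    obtain ⟨N, hN, h6, h7, rfl⟩ := hf.lift_rk h h' ε hε hN' h3 h4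
    refine ⟨ε • DZ Z, ?_, N, hN, h6, h7, ?_⟩
    · rcases hε with rfl | rfl
      · exact Or.inl (one_smul _ _)
      · exact Or.inr (neg_one_smul _ _)
    · rw [act_mem hf hN hinj (hU.2.1 N hN)]
      exact h5
  · obtain ⟨u', ⟨u, hu, rfl⟩, hu'⟩ := nonscalar h' hs' ha3 hU' (by rw [finrank_ml hinj]; exact hn)
      σ c
    refine ⟨u, hu, fun h3 => hu' ?_⟩
    have h4 := hf.act (DS_mem σ) u
    rw [h3, hf.fds, Matrix.mul_assoc, hf.fe', Matrix.mul_one] at h4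
    rw [← h4, map_smul]
  · rcases h2 with ⟨⟨b, ⟨u', ⟨u, hu, rfl⟩, v', ⟨v, hv, rfl⟩, huv⟩, hb⟩, hn⟩ | ⟨φ, α, d, hk⟩
    · refine Or.inl ⟨⟨b.compl₁₂ (ml F) (ml F), ⟨u, hu, v, hv, huv⟩, fun X hX u hu v hv => ?_⟩, hn⟩
      rw [LinearMap.compl₁₂_apply, LinearMap.compl₁₂_apply, hf.act hX, hf.act hX]
      exact hb _ (hf.comp hX).1 _ ⟨u, hu, rfl⟩ _ ⟨v, hv, rfl⟩
    · refine Or.inr ⟨a, Z', E, F, φ, α, d, hf, h', hinj, hk, ?_⟩
      have h3 := pd_add_qd h' hU'.2.1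
      rw [hk.dim] at h3
      rcases hk.sgn with h4 | h4 <;> omega

end

end Pool.Agent.Y90
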