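import Mathlib
import Pool.Agent.Y90.Loc
import Pool.Agent.Y90.E2

/-!
# The group attached to a period matrix
-/

set_option linter.unusedSectionVars false

namespace Pool.Agent.Y90

open Matrix Module Pool.Agent.W437.HC Pool.Agent.W437.HD Pool.Agent.W548.Odd Pool.Agent.W522.U
open Pool.Agent.H204R3.SP Pool.Agent.H204R3.GP

noncomputable section

variable {G : ℕ} {Z : Matrix (Fin G) (Fin G) ℂ}

/-- The representation attached to a period matrix. -/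
abbrev RZ (Z : Matrix (Fin G) (Fin G) ℂ) : Representation ℂ (Gam (GG (LZ Z))) (Fin G ⊕ Fin G → ℂ) :=
  RG (GG (LZ Z))

theorem phDS_sq (h : PM Z) (σ : ℂ ≃+* ℂ) :
    ph (Fin G ⊕ Fin G) (DS Z σ) * ph (Fin G ⊕ Fin G) (DS Z σ) = 1 := by
  rw [← map_mul, DS_sq h.det, map_one]

theorem phDS_mem (σ : ℂ ≃+* ℂ) : ph (Fin G ⊕ Fin G) (DS Z σ) ∈ GG (LZ Z) := mem_GG.2 (DS_mem σ)

/-- The element of the group attached to an automorphism. -/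
def gs (h : PM Z) (σ : ℂ ≃+* ℂ) : Gam (GG (LZ Z)) := gt (phDS_sq h σ) (phDS_mem σ) two

theorem RZ_gs (h : PM Z) (σ : ℂ ≃+* ℂ) : RZ Z (gs h σ) = torE (ph _ (DS Z σ)) two := rfl

theorem ph_apply' (X : Matrix (Fin G ⊕ Fin G) (Fin G ⊕ Fin G) ℂ) (v : Fin G ⊕ Fin G → ℂ) :
    ph (Fin G ⊕ Fin G) X v = X *ᵥ v := rfl

theorem rz_stable (h : PM Z) {U : Submodule ℂ (Fin G ⊕ Fin G → ℂ)} (hU : Stab (LZ Z) U)
    (g : Gam (GG (LZ Z))) : ∀ u ∈ U, RZ Z g u ∈ U :=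
  (stable_iff h.genI U).2 (stab_GG.2 hU) g

theorem rz_equiv (h : PM Z) {U : Submodule ℂ (Fin G ⊕ Fin G → ℂ)} (hU : Stab (LZ Z) U)
    (T : (Fin G ⊕ Fin G → ℂ) →ₗ[ℂ] (Fin G ⊕ Fin G → ℂ)) :
    (∀ g : Gam (GG (LZ Z)), ∀ u ∈ U, T (RZ Z g u) = RZ Z g (T u)) ↔
      ∀ X ∈ LZ Z, ∀ u ∈ U, T (X *ᵥ u) = X *ᵥ T u := by
  rw [equiv_iff (V' := Fin G ⊕ Fin G → ℂ) h.genI U (stab_GG.2 hU) T]
  exact comm_GG (V' := Fin G ⊕ Fin G → ℂ) T

theorem rz_bil (h : PM Z) {U U' : Submodule ℂ (Fin G ⊕ Fin G → ℂ)} (hU : Stab (LZ Z) U)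
    (hU' : Stab (LZ Z) U') (b : (Fin G ⊕ Fin G → ℂ) →ₗ[ℂ] (Fin G ⊕ Fin G → ℂ) →ₗ[ℂ] ℂ) :
    (∀ g : Gam (GG (LZ Z)), ∀ u ∈ U, ∀ v ∈ U', b (RZ Z g u) (RZ Z g v) = b u v) ↔
      ∀ X ∈ LZ Z, ∀ u ∈ U, ∀ v ∈ U', b (X *ᵥ u) v + b u (X *ᵥ v) = 0 := by
  rw [bil_iff h.genI U U' (stab_GG.2 hU) (stab_GG.2 hU') b]
  constructor
  · intro h1 X hX u hu v hv
    exact h1 (ph _ X) (mem_GG.2 hX) u hu v hv
  · intro h1 y hy u hu v hv
    obtain ⟨A, hA, rfl⟩ := exists_GG hy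
    exact h1 A hA u hu v hv

theorem rz_du (h : PM Z) {U U' : Submodule ℂ (Fin G ⊕ Fin G → ℂ)} (hU : Stab (LZ Z) U)
    (hU' : Stab (LZ Z) U') : Du (RZ Z) 1 U U' ↔
      ∃ b : (Fin G ⊕ Fin G → ℂ) →ₗ[ℂ] (Fin G ⊕ Fin G → ℂ) →ₗ[ℂ] ℂ,
        (∃ u ∈ U, ∃ v ∈ U', b u v ≠ 0) ∧
          ∀ X ∈ LZ Z, ∀ u ∈ U, ∀ v ∈ U', b (X *ᵥ u) v + b u (X *ᵥ v) = 0 := by
  constructor
  · rintro ⟨Δ, hΔ, b, h0, hb⟩
    obtain rfl := fi_top Δ hΔ
    refine ⟨b, h0, (rz_bil h hU hU' b).1 fun g u hu v hv => ?_⟩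
    rw [hb g (Subgroup.mem_top g) u hu v hv, MonoidHom.one_apply, one_mul]
  · rintro ⟨b, h0, hb⟩
    refine ⟨⊤, inferInstance, b, h0, fun g _ u hu v hv => ?_⟩
    rw [(rz_bil h hU hU' b).2 hb g u hu v hv, MonoidHom.one_apply, one_mul]

theorem rz_om (h : PM Z) (g : Gam (GG (LZ Z))) (u v : Fin G ⊕ Fin G → ℂ) :
    om G (RZ Z g u) (RZ Z g v) = (1 : Gam (GG (LZ Z)) →* ℂ) g * om G u v := by
  rw [MonoidHom.one_apply, one_mul]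
  exact (rz_bil h stab_top stab_top (om G)).2 (fun X hX u _ v _ => h.om_sp hX u v) g u trivial v
    trivial

theorem rz_proj (h : PM Z) : HasProj (RZ Z) := by
  intro Δ hΔ U hU
  obtain rfl := fi_top Δ hΔ
  have hs : Stab (LZ Z) U := stab_GG.1 ((stable_iff h.genI U).1 fun g u hu =>
    hU g (Subgroup.mem_top g) u hu)
  obtain ⟨π, h1, h2, h3⟩ := h.cred U hs
  refine ⟨π, h2, h3, fun g _ v => ?_⟩
  exact (rz_equiv h stab_top π).2 (fun X hX u _ => h1 X hX u) g v trivial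

theorem rz_unip (h : PM Z) {U : Submodule ℂ (Fin G ⊕ Fin G → ℂ)} (hU : Rk1 Z U) :
    ∃ γ : Gam (GG (LZ Z)), (RZ Z γ - 1) * (RZ Z γ - 1) = 0 ∧
      finrank ℂ (U.map (RZ Z γ - 1)) = 1 := by
  obtain ⟨D, hD, N, hN, h1, h2, h3⟩ := hU
  have hDD : D * D = 1 := by
    rcases hD with rfl | rfl
    · exact DZ_sq h.det
    · rw [neg_mul_neg]
      exact DZ_sq h.det
  have hDm : D ∈ LZ Z := by
    rcases hD with rfl | rfl
    · exact DZ_mem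
    · exact Submodule.neg_mem _ DZ_mem
  obtain ⟨γ, hγ⟩ := unip_mem (G := GG (LZ Z)) (D := ph _ D) (N := ph _ N)
    (by rw [← map_mul, hDD, map_one]) (mem_GG.2 hDm) (mem_GG.2 hN)
    (by rw [← map_mul, h1]) (by rw [← map_mul, h2, map_neg])
  have h4 : RZ Z γ - 1 = ph _ N := by
    change RG (GG (LZ Z)) γ - 1 = _
    rw [hγ, add_sub_cancel_left]
  refine ⟨γ, ?_, ?_⟩
  · rw [h4, ← map_mul]
    have h5 : N * N = 0 := by
      have h6 : N * N = -(N * N) := by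
        calc N * N = N * (D * N) := by rw [h1]
          _ = (N * D) * N := by rw [Matrix.mul_assoc]
          _ = -(N * N) := by rw [h2, Matrix.neg_mul]
      have h7 : (2 : ℂ) • (N * N) = 0 := by
        rw [two_smul]
        nth_rewrite 1 [h6]
        rw [neg_add_cancel]
      exact (smul_eq_zero.1 h7).resolve_left two_ne_zero
    rw [h5, map_zero]
  · rw [h4]
    exact h3

/-- There are no self-dual lines. -/
theorem rz_line (h : PM Z) {U : Submodule ℂ (Fin G ⊕ Fin G → ℂ)} (hU : IrS (LZ Z) U)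
    (hn : finrank ℂ U = 1) : ¬Du (RZ Z) 1 U U := by
  rw [rz_du h hU.2.1 hU.2.1]
  rintro ⟨b, ⟨u, hu, v, hv, huv⟩, hb⟩
  obtain ⟨w, hw0, hw⟩ := finrank_eq_one_iff'.1 hn
  obtain ⟨x, hx⟩ := hw ⟨DZ Z *ᵥ w, hU.2.1 _ DZ_mem w w.2⟩
  obtain ⟨c, hc⟩ := hw ⟨u, hu⟩
  obtain ⟨d, hd⟩ := hw ⟨v, hv⟩
  have hx' : DZ Z *ᵥ (w : Fin G ⊕ Fin G → ℂ) = x • (w : Fin G ⊕ Fin G → ℂ) :=
    (congrArg Subtype.val hx).symm
  have hc' : c • (w : Fin G ⊕ Fin G → ℂ) = u := congrArg Subtype.val hc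
  have hd' : d • (w : Fin G ⊕ Fin G → ℂ) = v := congrArg Subtype.val hd
  have h1 := hb _ DZ_mem w w.2 w w.2
  rw [hx', map_smul, map_smul, LinearMap.smul_apply, smul_eq_mul] at h1
  have h2 : (2 * x) * b w w = 0 := by linear_combination h1
  have hx0 : x ≠ 0 := by
    rintro rfl
    rw [zero_smul] at hx'
    have h3 : DZ Z *ᵥ (DZ Z *ᵥ (w : Fin G ⊕ Fin G → ℂ)) = w := by
      rw [mulVec_mulVec, DZ_sq h.det, one_mulVec]
    rw [hx', mulVec_zero] at h3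
    exact hw0 (Subtype.ext h3.symm)
  have h3 : b w w = 0 := (mul_eq_zero.1 h2).resolve_left (mul_ne_zero two_ne_zero hx0)
  apply huv
  rw [← hc', ← hd', map_smul, map_smul, LinearMap.smul_apply, h3, smul_zero, smul_zero]

/-- There are no twists. -/
theorem rz_twist (h : PM Z) {U U' : Submodule ℂ (Fin G ⊕ Fin G → ℂ)} (hU : IrS (LZ Z) U)
    (hU' : IrS (LZ Z) U')
    (hns : ∀ (σ : ℂ ≃+* ℂ) (c : ℂ), ∃ u ∈ U, DS Z σ *ᵥ u ≠ c • u) (ψ : Gam (GG (LZ Z)) → ℂ)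
    (hT : Tw (RZ Z) ψ U U') : Tw (RZ Z) (fun _ => 1) U U' := by
  obtain ⟨Δ, hΔ, T, hT1, hT0, hT2⟩ := hT
  obtain rfl := fi_top Δ hΔ
  have hSI := (si_iff h.genI).2 hU
  have hinj := tw_inj hSI hΔ hT0 hT2
  have hD : ∀ σ : ℂ ≃+* ℂ, ∀ u ∈ U, T (DS Z σ *ᵥ u) = DS Z σ *ᵥ T u := by
    intro σ
    have h1 : ∀ u ∈ U, T (torE (ph _ (DS Z σ)) two u) =
        ψ (gs h σ) • torE (ph _ (DS Z σ)) two (T u) := fun u hu =>
      hT2 (gs h σ) (Subgroup.mem_top _) u hu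
    have h2 : ψ (gs h σ) ≠ 0 := tw_ne hSI hΔ hT0 hT2 (Subgroup.mem_top _)
      (rz_stable h hU.2.1 (gs h σ))
    exact twist_free hinj (phDS_sq h σ) (hU.2.1 _ (DS_mem σ)) (fun c => hns σ c) _ h1 h2
  let C : Submodule ℂ (Matrix (Fin G ⊕ Fin G) (Fin G ⊕ Fin G) ℂ) :=
    { carrier := {X | ∀ u ∈ U, X *ᵥ u ∈ U ∧ T (X *ᵥ u) = X *ᵥ T u}
      add_mem' := by
        intro X Y hX hY u hu
        obtain ⟨x1, x2⟩ := hX u hu
        obtain ⟨y1, y2⟩ := hY u hu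
        rw [add_mulVec, add_mulVec, map_add, x2, y2]
        exact ⟨U.add_mem x1 y1, rfl⟩
      zero_mem' := by
        intro u hu
        rw [zero_mulVec, zero_mulVec, map_zero]
        exact ⟨U.zero_mem, rfl⟩
      smul_mem' := by
        intro c X hX u hu
        obtain ⟨x1, x2⟩ := hX u hu
        rw [smul_mulVec, smul_mulVec, map_smul, x2]
        exact ⟨U.smul_mem c x1, rfl⟩ }
  have hC : LZ Z ≤ C := by
    refine LZ_le (fun σ u hu => ⟨hU.2.1 _ (DS_mem σ) u hu, hD σ u hu⟩) (fun A hA B hB u hu => ?_)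
    obtain ⟨a1, a2⟩ := hA u hu
    obtain ⟨b1, b2⟩ := hB u hu
    obtain ⟨c1, c2⟩ := hA _ b1
    obtain ⟨d1, d2⟩ := hB _ a1
    rw [sub_mulVec, sub_mulVec, ← mulVec_mulVec, ← mulVec_mulVec, ← mulVec_mulVec,
      ← mulVec_mulVec, map_sub, c2, d2, a2, b2]
    exact ⟨U.sub_mem c1 d1, rfl⟩
  refine ⟨⊤, inferInstance, T, hT1, hT0, fun g _ u hu => ?_⟩
  rw [one_smul]
  exact (rz_equiv h hU.2.1 T).2 (fun X hX u hu => (hC hX u hu).2) g u hu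

end

end Pool.Agent.Y90
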