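import Mathlib
import Pool.Agent.Y90.Cond

/-!
# Traces of the complex structures
-/

set_option linter.unusedSectionVars false

namespace Pool.Agent.Y90

open Matrix Module Pool.Agent.W437.HC Pool.Agent.W437.HD Pool.Agent.W548.Odd
open Pool.Agent.W437.HP (cK cK_mul cK_one)

noncomputable section

/-- The determinant of an operator with two eigenspaces. -/
theorem det_eig {V : Type*} [AddCommGroup V] [Module ℂ V] [FiniteDimensional ℂ V]
    {U P Q : Submodule ℂ V} (h1 : P ⊓ Q = ⊥) (h2 : P ⊔ Q = U) (f : End ℂ V)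
    (hf : ∀ u ∈ U, f u ∈ U) (x y : ℂ) (hx : ∀ u ∈ P, f u = x • u) (hy : ∀ u ∈ Q, f u = y • u) :
    LinearMap.det (f.restrict hf) = x ^ finrank ℂ P * y ^ finrank ℂ Q := by
  have hP : P ≤ U := h2 ▸ le_sup_left
  have hQ : Q ≤ U := h2 ▸ le_sup_right
  let e0 : (P × Q) →ₗ[ℂ] U := (Submodule.inclusion hP).coprod (Submodule.inclusion hQ)
  have he : Function.Bijective e0 := by
    constructor
    · rw [injective_iff_map_eq_zero]
      rintro ⟨p, q⟩ hpq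
      have h3 : (p : V) + q = 0 := congrArg Subtype.val hpq
      have h4 : (p : V) = -q := eq_neg_of_add_eq_zero_left h3
      have h5 : (p : V) ∈ P ⊓ Q := ⟨p.2, by rw [SetLike.mem_coe, h4]; exact Q.neg_mem q.2⟩
      rw [h1, Submodule.mem_bot] at h5
      rw [h5, eq_comm, neg_eq_zero] at h4
      exact Prod.ext (Subtype.ext h5) (Subtype.ext h4)
    · rintro ⟨u, hu⟩
      rw [← h2] at hu
      obtain ⟨p, hp, q, hq, rfl⟩ := Submodule.mem_sup.1 hu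
      exact ⟨(⟨p, hp⟩, ⟨q, hq⟩), rfl⟩
  let e := LinearEquiv.ofBijective e0 he
  let g : End ℂ P := x • LinearMap.id
  let g' : End ℂ Q := y • LinearMap.id
  have h3 : f.restrict hf = (e : (P × Q) →ₗ[ℂ] U) ∘ₗ (LinearMap.prodMap g g') ∘ₗ
      (e.symm : U →ₗ[ℂ] (P × Q)) := by
    refine LinearMap.ext fun u => ?_
    obtain ⟨⟨p, q⟩, rfl⟩ := e.surjective u
    apply Subtype.ext
    simp only [LinearMap.comp_apply, LinearEquiv.coe_coe, LinearEquiv.symm_apply_apply]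
    change f ((p : V) + q) = x • (p : V) + y • (q : V)
    rw [map_add, hx p p.2, hy q q.2]
  rw [h3, LinearMap.det_conj, LinearMap.det_prodMap]
  rw [LinearMap.det_smul, LinearMap.det_smul, LinearMap.det_id, LinearMap.det_id, mul_one, mul_one]

variable {G a : ℕ} {Z : Matrix (Fin G) (Fin G) ℂ} {Z' : Matrix (Fin a) (Fin a) ℂ}
  {E : Matrix (Fin G ⊕ Fin G) (Fin a ⊕ Fin a) ℚ} {F : Matrix (Fin a ⊕ Fin a) (Fin G ⊕ Fin G) ℚ}
  {U U' : Submodule ℂ (Fin G ⊕ Fin G → ℂ)}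

/-- The trace of the complex structure. -/
def tr (Z : Matrix (Fin G) (Fin G) ℂ) (U : Submodule ℂ (Fin G ⊕ Fin G → ℂ)) : ℤ :=
  (pd Z U : ℤ) - qd Z U

theorem split_eig (h : PM Z) (hU : Stab (LZ Z) U) :
    (U ⊓ eig Z 1) ⊓ (U ⊓ eig Z (-1)) = ⊥ ∧ (U ⊓ eig Z 1) ⊔ (U ⊓ eig Z (-1)) = U := by
  refine ⟨?_, ?_⟩
  · rw [eq_bot_iff, ← eig_inf (Z := Z) 1 (-1) (by norm_num)]
    exact inf_le_inf inf_le_right inf_le_right
  · apply le_antisymm (sup_le inf_le_left inf_le_left)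
    intro v hv
    have h2 : DZ Z *ᵥ (DZ Z *ᵥ v) = v := by rw [mulVec_mulVec, DZ_sq h.det, one_mulVec]
    have h3 := hU _ DZ_mem v hv
    have h1 : v = (1 / 2 : ℂ) • (v + DZ Z *ᵥ v) + (1 / 2 : ℂ) • (v - DZ Z *ᵥ v) := by module
    rw [h1]
    refine Submodule.add_mem_sup ⟨U.smul_mem _ (U.add_mem hv h3), ?_⟩
      ⟨U.smul_mem _ (U.sub_mem hv h3), ?_⟩
    · rw [SetLike.mem_coe, mem_eig, mulVec_smul, mulVec_add, h2]
      module
    · rw [SetLike.mem_coe, mem_eig, mulVec_smul, mulVec_sub, h2]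
      module

theorem cjS_inf {B : Type*} [Fintype B] [DecidableEq B] (σ : ℂ ≃+* ℂ)
    (U W : Submodule ℂ (B → ℂ)) : cjS σ (U ⊓ W) = cjS σ U ⊓ cjS σ W := by
  ext v
  rfl

theorem cjS_sup {B : Type*} [Fintype B] [DecidableEq B] (σ : ℂ ≃+* ℂ)
    (U W : Submodule ℂ (B → ℂ)) : cjS σ (U ⊔ W) = cjS σ U ⊔ cjS σ W := by
  apply le_antisymm
  · intro v hv
    rw [mem_cjS, Submodule.mem_sup] at hv
    obtain ⟨x, hx, y, hy, hxy⟩ := hv
    have h1 : v = (fun i => σ (x i)) + fun i => σ (y i) := by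
      funext i
      have h2 := congrFun hxy i
      simp only [Pi.add_apply] at h2 ⊢
      rw [← map_add, h2, RingEquiv.apply_symm_apply]
    rw [h1]
    exact Submodule.add_mem_sup (cj_mem_cjS hx) (cj_mem_cjS hy)
  · exact sup_le (cjS_mono le_sup_left) (cjS_mono le_sup_right)

theorem mem_cj_eig {σ : ℂ ≃+* ℂ} {c : ℂ} (hc : σ c = c) {v : Fin G ⊕ Fin G → ℂ}
    (hv : v ∈ cjS σ (eig Z c)) : DS Z σ *ᵥ v = c • v := by
  rw [mem_cjS, mem_eig] at hv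
  have h1 := map_mulVec_aut σ (DZ Z) (fun i => σ.symm (v i))
  rw [hv] at h1
  have h2 : (fun i => σ (σ.symm (v i))) = v := by
    funext i
    simp
  rw [h2] at h1
  change (DZ Z).map σ *ᵥ v = _
  rw [← h1]
  funext i
  simp [hc]

/-- The determinant of the element of the group attached to an automorphism. -/
theorem det_gs (h : PM Z) (hU : Stab (LZ Z) U) (σ : ℂ ≃+* ℂ)
    (hst : ∀ u ∈ U, RZ Z (gs h σ) u ∈ U) :
    LinearMap.det ((RZ Z (gs h σ)).restrict hst) = (2 : ℂ) ^ tr Z (cjS σ.symm U) := by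
  have hU' : Stab (LZ Z) (cjS σ.symm U) := hU.cj gal_LZ σ.symm
  obtain ⟨h1, h2⟩ := split_eig h hU'
  have h3 := congrArg (cjS σ) h1
  have h4 := congrArg (cjS σ) h2
  rw [cjS_inf, cjS_bot] at h3
  rw [cjS_sup, cjS_symm'] at h4
  have h5 := det_eig h3 h4 (RZ Z (gs h σ)) hst 2 (2⁻¹) (fun u hu => ?_) (fun u hu => ?_)
  · rw [h5, finrank_cjS, finrank_cjS]
    change (2 : ℂ) ^ pd Z (cjS σ.symm U) * (2 : ℂ)⁻¹ ^ qd Z (cjS σ.symm U) = _
    rw [tr, zpow_sub₀ two_ne_zero, zpow_natCast, zpow_natCast, inv_pow, div_eq_mul_inv]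
  · rw [cjS_inf] at hu
    have h6 := mem_cj_eig (map_one σ) hu.2
    change torE (ph _ (DS Z σ)) two u = _
    rw [torE_two, ph_apply', h6]
    module
  · rw [cjS_inf] at hu
    have h6 := mem_cj_eig (by rw [map_neg, map_one]) hu.2
    change torE (ph _ (DS Z σ)) two u = _
    rw [torE_two, ph_apply', h6]
    module

theorem cjS_ml (σ : ℂ ≃+* ℂ) : cjS σ (U.map (ml F)) = (cjS σ U).map (ml F) := by
  have key : ∀ (τ : ℂ ≃+* ℂ) (u : Fin G ⊕ Fin G → ℂ),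
      (fun i => τ (ml F u i)) = ml F fun i => τ (u i) := by
    intro τ u
    rw [ml_apply, map_mulVec_aut τ, cK_aut]
    rfl
  ext v
  constructor
  · rintro ⟨u, hu, huv⟩
    refine ⟨fun i => σ (u i), cj_mem_cjS hu, ?_⟩
    rw [← key, huv]
    funext i
    simp
  · rintro ⟨u, hu, rfl⟩
    rw [mem_cjS, key]
    exact ⟨_, hu, rfl⟩

theorem inj_cj (hi : ∀ u ∈ U, ml F u = 0 → u = 0) (σ : ℂ ≃+* ℂ) :
    ∀ u ∈ cjS σ U, ml F u = 0 → u = 0 := by
  intro u hu h0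
  have h1 := hi _ hu (by
    rw [ml_apply] at h0 ⊢
    have h2 := map_mulVec_aut σ.symm (cK ℂ F) u
    rw [h0, cK_aut] at h2
    rw [← h2]
    funext i
    simp)
  funext i
  have h2 := congrFun h1 i
  simpa using h2

theorem Fac.eig_map (h : Fac Z Z' E F) (hi : ∀ u ∈ U, ml F u = 0 → u = 0) (hU : Stab (LZ Z) U)
    (c : ℂ) : (U ⊓ eig Z c).map (ml F) = U.map (ml F) ⊓ eig Z' c := by
  have key : ∀ u, ml F (DZ Z *ᵥ u) = DZ Z' *ᵥ ml F u := by
    intro u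
    rw [ml_apply, ml_apply, mulVec_mulVec, mulVec_mulVec, h.fd]
  ext v
  constructor
  · rintro ⟨u, ⟨hu, hu'⟩, rfl⟩
    refine ⟨⟨u, hu, rfl⟩, ?_⟩
    rw [SetLike.mem_coe, mem_eig] at hu' ⊢
    rw [← key, hu', map_smul]
  · rintro ⟨⟨u, hu, rfl⟩, hv⟩
    refine ⟨u, ⟨hu, ?_⟩, rfl⟩
    rw [SetLike.mem_coe, mem_eig] at hv ⊢
    rw [← sub_eq_zero]
    refine hi _ (U.sub_mem (hU _ DZ_mem u hu) (U.smul_mem c hu)) ?_
    rw [map_sub, key, hv, map_smul, sub_self]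

theorem Fac.tr_map (h : Fac Z Z' E F) (hi : ∀ u ∈ U, ml F u = 0 → u = 0)
    (hU : Stab (LZ Z) U) : tr Z' (U.map (ml F)) = tr Z U := by
  have key : ∀ c : ℂ, finrank ℂ ((U ⊓ eig Z c).map (ml F)) =
      finrank ℂ (U ⊓ eig Z c : Submodule ℂ (Fin G ⊕ Fin G → ℂ)) := fun c =>
    finrank_ml (U := U ⊓ eig Z c) fun u hu => hi u hu.1
  unfold tr pd qd
  rw [← h.eig_map hi hU, ← h.eig_map hi hU, key, key]

section dual

variable {b : (Fin G ⊕ Fin G → ℂ) →ₗ[ℂ] (Fin G ⊕ Fin G → ℂ) →ₗ[ℂ] ℂ}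

theorem nd_left (hU : IrS (LZ Z) U) (hU' : Stab (LZ Z) U') (h0 : ∃ u ∈ U, ∃ v ∈ U', b u v ≠ 0)
    (hb : ∀ X ∈ LZ Z, ∀ u ∈ U, ∀ v ∈ U', b (X *ᵥ u) v + b u (X *ᵥ v) = 0) :
    ∀ u ∈ U, (∀ v ∈ U', b u v = 0) → u = 0 := by
  let K : Submodule ℂ (Fin G ⊕ Fin G → ℂ) :=
    { carrier := {u | u ∈ U ∧ ∀ v ∈ U', b u v = 0}
      add_mem' := fun {x y} hx hy => ⟨U.add_mem hx.1 hy.1, fun v hv => by
        rw [map_add, LinearMap.add_apply, hx.2 v hv, hy.2 v hv, add_zero]⟩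
      zero_mem' := ⟨U.zero_mem, fun v _ => by rw [map_zero, LinearMap.zero_apply]⟩
      smul_mem' := fun c x hx => ⟨U.smul_mem c hx.1, fun v hv => by
        rw [map_smul, LinearMap.smul_apply, hx.2 v hv, smul_zero]⟩ }
  have hK : Stab (LZ Z) K := by
    rintro X hX u ⟨hu, hu'⟩
    refine ⟨hU.2.1 X hX u hu, fun v hv => ?_⟩
    have h1 := hb X hX u hu v hv
    rwa [hu' _ (hU' X hX v hv), add_zero] at h1
  rcases hU.2.2 K (fun u hu => hu.1) hK with h1 | h1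
  · intro u hu hu'
    have h2 : u ∈ K := ⟨hu, hu'⟩
    rwa [h1, Submodule.mem_bot] at h2
  · obtain ⟨u, hu, v, hv, huv⟩ := h0
    rw [← h1] at hu
    exact absurd (hu.2 v hv) huv

theorem dual_le (h : PM Z) (hU : IrS (LZ Z) U) (hU' : Stab (LZ Z) U')
    (h0 : ∃ u ∈ U, ∃ v ∈ U', b u v ≠ 0)
    (hb : ∀ X ∈ LZ Z, ∀ u ∈ U, ∀ v ∈ U', b (X *ᵥ u) v + b u (X *ᵥ v) = 0) {c : ℂ}
    (hc : c = 1 ∨ c = -1) : finrank ℂ (U ⊓ eig Z c : Submodule ℂ (Fin G ⊕ Fin G → ℂ)) ≤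
      finrank ℂ (U' ⊓ eig Z (-c) : Submodule ℂ (Fin G ⊕ Fin G → ℂ)) := by
  let P := U ⊓ eig Z c
  let Q := U' ⊓ eig Z (-c)
  let f : P →ₗ[ℂ] Dual ℂ Q := (b.domRestrict P).compr₂ LinearMap.id |>.compl₂ Q.subtype
  have hf : ∀ (p : P) (q : Q), f p q = b p q := fun _ _ => rfl
  have hinj : Function.Injective f := by
    rw [injective_iff_map_eq_zero]
    intro p hp
    apply Subtype.ext
    refine nd_left hU hU' h0 hb p p.2.1 fun v hv => ?_
    have h1 : ∀ q ∈ Q, b p q = 0 := fun q hq => by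
      have h2 := congrArg (fun F : Dual ℂ Q => F ⟨q, hq⟩) hp
      exact h2
    have h2 : ∀ q ∈ U' ⊓ eig Z c, b p q = 0 := by
      rintro q ⟨hq, hq'⟩
      have h3 := hb _ DZ_mem p p.2.1 q hq
      rw [mem_eig.1 p.2.2, mem_eig.1 hq', map_smul, map_smul, LinearMap.smul_apply,
        smul_eq_mul] at h3
      have h4 : (2 * c) * b p q = 0 := by linear_combination h3
      refine (mul_eq_zero.1 h4).resolve_left (mul_ne_zero two_ne_zero ?_)
      rcases hc with rfl | rfl <;> norm_num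
    have h3 : v ∈ (U' ⊓ eig Z 1) ⊔ (U' ⊓ eig Z (-1)) := by rw [(split_eig h hU').2]; exact hv
    obtain ⟨x, hx, y, hy, rfl⟩ := Submodule.mem_sup.1 h3
    rw [map_add]
    rcases hc with rfl | rfl
    · rw [h2 x hx, h1 y hy, add_zero]
    · rw [h1 x (by change x ∈ U' ⊓ eig Z (- -1); rw [neg_neg]; exact hx), h2 y hy, add_zero]
  have h1 := LinearMap.finrank_le_finrank_of_injective hinj
  rwa [Subspace.dual_finrank_eq] at h1

/-- The traces on dual submodules. -/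
theorem tr_dual (h : PM Z) (hU : IrS (LZ Z) U) (hU' : IrS (LZ Z) U')
    (h0 : ∃ u ∈ U, ∃ v ∈ U', b u v ≠ 0)
    (hb : ∀ X ∈ LZ Z, ∀ u ∈ U, ∀ v ∈ U', b (X *ᵥ u) v + b u (X *ᵥ v) = 0) :
    tr Z U' = -tr Z U := by
  have h0' : ∃ u ∈ U', ∃ v ∈ U, b.flip u v ≠ 0 := by
    obtain ⟨u, hu, v, hv, huv⟩ := h0
    exact ⟨v, hv, u, hu, huv⟩
  have hb' : ∀ X ∈ LZ Z, ∀ u ∈ U', ∀ v ∈ U, b.flip (X *ᵥ u) v + b.flip u (X *ᵥ v) = 0 := by
    intro X hX u hu v hv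
    rw [LinearMap.flip_apply, LinearMap.flip_apply, add_comm]
    exact hb X hX v hv u hu
  have e1 := dual_le h hU hU'.2.1 h0 hb (Or.inl rfl)
  have e2 := dual_le h hU hU'.2.1 h0 hb (Or.inr rfl)
  have e3 := dual_le h hU' hU.2.1 h0' hb' (Or.inl rfl)
  have e4 := dual_le h hU' hU.2.1 h0' hb' (Or.inr rfl)
  rw [neg_neg] at e2 e4
  unfold tr pd qd
  omega

end dual

end

end Pool.Agent.Y90
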