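import Mathlib
import Pool.Agent.Y90.Bal1

/-!
# The balance of the determinants
-/

set_option linter.unusedSectionVars false

namespace Pool.Agent.Y90

open Matrix Module Pool.Agent.W437.HC Pool.Agent.W437.HD Pool.Agent.W548.Odd Pool.Agent.W522.U
open Pool.Agent.W437.HP (cK cK_mul cK_one)

noncomputable section

theorem aut_pm {α : ℂ} {d : ℚ} (hα : α * α = -(d : ℂ)) (σ : ℂ ≃+* ℂ) : σ α = α ∨ σ α = -α := by
  have h1 : σ α * σ α = α * α := by
    rw [← map_mul, hα, map_neg, map_ratCast]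
  exact mul_self_eq_mul_self_iff.1 h1

/-- The quadratic character. -/
def chi (α : ℂ) (hα : ∃ d : ℚ, d ≠ 0 ∧ α * α = -(d : ℂ)) : (ℂ ≃+* ℂ) →* ℂ where
  toFun σ := σ α / α
  map_one' := by
    obtain ⟨d, hd, h⟩ := hα
    have h0 : α ≠ 0 := by
      rintro rfl
      rw [mul_zero, eq_comm, neg_eq_zero] at h
      exact hd (by exact_mod_cast h)
    change α / α = 1
    exact div_self h0
  map_mul' := by
    intro σ τ
    obtain ⟨d, hd, h⟩ := hα
    have h0 : α ≠ 0 := by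
      rintro rfl
      rw [mul_zero, eq_comm, neg_eq_zero] at h
      exact hd (by exact_mod_cast h)
    change σ (τ α) / α = σ α / α * (τ α / α)
    rcases aut_pm h τ with h1 | h1
    · rw [h1, div_self h0, mul_one]
    · rw [h1, map_neg, neg_div, neg_div, div_self h0]
      ring

variable {G a : ℕ} {Z : Matrix (Fin G) (Fin G) ℂ} {Z' : Matrix (Fin a) (Fin a) ℂ}
  {U U' : Submodule ℂ (Fin G ⊕ Fin G → ℂ)}

theorem KT.cj {φ : Matrix (Fin G ⊕ Fin G) (Fin G ⊕ Fin G) ℚ} {α : ℂ} {d : ℚ}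
    (h : KT Z U φ α d) (τ : ℂ ≃+* ℂ) (v : Fin G ⊕ Fin G → ℂ) :
    v ∈ cjS τ U ↔ qm φ *ᵥ v = τ α • v := by
  rw [mem_cjS, h.mem]
  have hq : (qm φ).map τ = qm φ := cK_aut τ φ
  have hq' : (qm φ).map τ.symm = qm φ := cK_aut τ.symm φ
  constructor
  · intro h1
    have h2 := map_mulVec_aut τ (qm φ) (fun i => τ.symm (v i))
    rw [h1, hq] at h2
    have h3 : (fun i => τ (τ.symm (v i))) = v := by
      funext i
      simp
    rw [h3] at h2
    rw [← h2]
    funext i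
    simp
  · intro h1
    have h2 := map_mulVec_aut τ.symm (qm φ) v
    rw [h1, hq'] at h2
    rw [← h2]
    funext i
    simp

theorem KT.cc_al {φ : Matrix (Fin G ⊕ Fin G) (Fin G ⊕ Fin G) ℚ} {α : ℂ} {d : ℚ}
    (h : KT Z U φ α d) : cc α = -α := by
  rcases aut_pm h.al cc with h1 | h1
  · exfalso
    have h2 : α * (starRingEnd ℂ) α = (Complex.normSq α : ℂ) := Complex.mul_conj α
    have h3 : (starRingEnd ℂ) α = α := h1
    rw [h3, h.al] at h2
    have h4 : (-(d : ℝ)) = Complex.normSq α := by exact_mod_cast h2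
    have h5 : (0 : ℝ) < d := by exact_mod_cast h.pos
    have h6 := Complex.normSq_nonneg α
    linarith
  · exact h1

theorem KT.tr_cj {φ : Matrix (Fin G ⊕ Fin G) (Fin G ⊕ Fin G) ℚ} {α : ℂ} {d : ℚ}
    (h : KT Z U φ α d) (τ : ℂ ≃+* ℂ) :
    (τ α = α ∧ tr Z (cjS τ U) = tr Z U) ∨ (τ α = -α ∧ tr Z (cjS τ U) = -tr Z U) := by
  rcases aut_pm h.al τ with h1 | h1
  · left
    refine ⟨h1, ?_⟩
    have h2 : cjS τ U = U := by
      ext v
      rw [h.cj, h1, h.mem]
    rw [h2]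
  · right
    refine ⟨h1, ?_⟩
    have h2 : cjS τ U = cjS cc U := by
      ext v
      rw [h.cj, h.cj, h1, h.cc_al]
    rw [h2]
    unfold tr
    rw [pd_cc, qd_cc]
    ring

theorem KT.al_ne {φ : Matrix (Fin G ⊕ Fin G) (Fin G ⊕ Fin G) ℚ} {α : ℂ} {d : ℚ}
    (h : KT Z U φ α d) : α ≠ 0 := by
  rintro rfl
  have h1 := h.al
  rw [mul_zero, eq_comm, neg_eq_zero] at h1
  have h2 : d = 0 := by exact_mod_cast h1
  exact h.pos.ne' h2

/-- The sign and the character of a submodule attached to an imaginary quadratic field. -/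
def CH (Z : Matrix (Fin G) (Fin G) ℂ) (U : Submodule ℂ (Fin G ⊕ Fin G → ℂ)) (s : ℤ)
    (χ : (ℂ ≃+* ℂ) →* ℂ) : Prop :=
  ∃ (a : ℕ) (Z' : Matrix (Fin a) (Fin a) ℂ) (E : Matrix (Fin G ⊕ Fin G) (Fin a ⊕ Fin a) ℚ)
    (F : Matrix (Fin a ⊕ Fin a) (Fin G ⊕ Fin G) ℚ) (φ : Matrix (Fin a ⊕ Fin a) (Fin a ⊕ Fin a) ℚ)
    (α : ℂ) (d : ℚ), KD Z U a Z' E F φ α d ∧ tr Z' (U.map (ml F)) = s ∧ ∀ τ, τ α = χ τ * α

theorem KD.exists_CH {E : Matrix (Fin G ⊕ Fin G) (Fin a ⊕ Fin a) ℚ}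
    {F : Matrix (Fin a ⊕ Fin a) (Fin G ⊕ Fin G) ℚ} {φ : Matrix (Fin a ⊕ Fin a) (Fin a ⊕ Fin a) ℚ}
    {α : ℂ} {d : ℚ} (h : KD Z U a Z' E F φ α d) : ∃ s χ, CH Z U s χ := by
  refine ⟨_, chi α ⟨d, h.kt.pos.ne', h.kt.al⟩, a, Z', E, F, φ, α, d, h, rfl, fun τ => ?_⟩
  change τ α = τ α / α * α
  rw [div_mul_cancel₀ _ h.kt.al_ne]

theorem CH.pm {s : ℤ} {χ : (ℂ ≃+* ℂ) →* ℂ} (h : CH Z U s χ) : s = 1 ∨ s = -1 := by
  obtain ⟨a, Z', E, F, φ, α, d, h1, rfl, -⟩ := h
  unfold tr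
  rcases h1.kt.sgn with h2 | h2 <;> omega

theorem CH.tr_cj {s : ℤ} {χ : (ℂ ≃+* ℂ) →* ℂ} (h : CH Z U s χ) (hU : Stab (LZ Z) U)
    (τ : ℂ ≃+* ℂ) : (tr Z (cjS τ U) : ℂ) = s * χ τ := by
  obtain ⟨a, Z', E, F, φ, α, d, h1, rfl, h3⟩ := h
  have h4 := h1.fac.tr_map (inj_cj h1.inj τ) (hU.cj gal_LZ τ)
  rw [← h4, ← cjS_ml]
  have h5 := h3 τ
  rcases h1.kt.tr_cj τ with ⟨h6, h7⟩ | ⟨h6, h7⟩
  · have h8 : χ τ = 1 := by
      rw [h6] at h5
      exact mul_right_cancel₀ h1.kt.al_ne (by rw [← h5, one_mul])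
    rw [h7, h8, mul_one]
  · have h8 : χ τ = -1 := by
      rw [h6] at h5
      exact mul_right_cancel₀ h1.kt.al_ne (by rw [← h5, neg_one_mul])
    rw [h7, h8]
    push_cast
    ring

/-- The conjugate of a pairing. -/
def cjB (τ : ℂ ≃+* ℂ) (b : (Fin G ⊕ Fin G → ℂ) →ₗ[ℂ] (Fin G ⊕ Fin G → ℂ) →ₗ[ℂ] ℂ) :
    (Fin G ⊕ Fin G → ℂ) →ₗ[ℂ] (Fin G ⊕ Fin G → ℂ) →ₗ[ℂ] ℂ :=
  LinearMap.mk₂ ℂ (fun u v => τ (b (fun i => τ.symm (u i)) (fun i => τ.symm (v i))))
    (fun u u' v => by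
      have h1 : (fun i => τ.symm ((u + u') i)) = (fun i => τ.symm (u i)) + fun i => τ.symm (u' i) := by
        funext i
        exact map_add τ.symm _ _
      rw [h1, map_add, LinearMap.add_apply, map_add])
    (fun c u v => by
      have h1 : (fun i => τ.symm ((c • u) i)) = τ.symm c • fun i => τ.symm (u i) := by
        funext i
        exact map_mul τ.symm _ _
      rw [h1, map_smul, LinearMap.smul_apply, smul_eq_mul, map_mul, RingEquiv.apply_symm_apply,
        smul_eq_mul])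
    (fun u v v' => by
      have h1 : (fun i => τ.symm ((v + v') i)) = (fun i => τ.symm (v i)) + fun i => τ.symm (v' i) := by
        funext i
        exact map_add τ.symm _ _
      rw [h1, map_add, map_add])
    (fun c u v => by
      have h1 : (fun i => τ.symm ((c • v) i)) = τ.symm c • fun i => τ.symm (v i) := by
        funext i
        exact map_mul τ.symm _ _
      rw [h1, map_smul, smul_eq_mul, map_mul, RingEquiv.apply_symm_apply, smul_eq_mul])

theorem cjB_apply (τ : ℂ ≃+* ℂ) (b : (Fin G ⊕ Fin G → ℂ) →ₗ[ℂ] (Fin G ⊕ Fin G → ℂ) →ₗ[ℂ] ℂ)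
    (u v : Fin G ⊕ Fin G → ℂ) :
    cjB τ b u v = τ (b (fun i => τ.symm (u i)) (fun i => τ.symm (v i))) := rfl

/-- The traces on dual submodules. -/
theorem tr_st (h : PM Z) (hU : IrS (LZ Z) U) (hU' : IrS (LZ Z) U')
    (hd : Du (RZ Z) 1 U U') (τ : ℂ ≃+* ℂ) : tr Z (cjS τ U') = -tr Z (cjS τ U) := by
  obtain ⟨b, ⟨u, hu, v, hv, huv⟩, hb⟩ := (rz_du h hU.2.1 hU'.2.1).1 hd
  refine tr_dual (b := cjB τ b) h (hU.cj gal_LZ τ) (hU'.cj gal_LZ τ)
    ⟨_, cj_mem_cjS hu, _, cj_mem_cjS hv, ?_⟩ ?_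
  · rw [cjB_apply]
    simp only [RingEquiv.symm_apply_apply]
    rw [ne_eq, map_eq_zero_iff τ τ.injective]
    exact huv
  · intro X hX u hu v hv
    rw [cjB_apply, cjB_apply, map_mulVec_aut τ.symm, map_mulVec_aut τ.symm, ← map_add,
      hb _ (gal_LZ τ.symm X hX) _ hu _ hv, map_zero]

/-- Two submodules whose determinants cancel. -/
def PrU (Z : Matrix (Fin G) (Fin G) ℂ) (U U' : Submodule ℂ (Fin G ⊕ Fin G → ℂ)) : Prop :=
  ∃ χ, CH Z U 1 χ ∧ CH Z U' (-1) χ

theorem card_sig {s : ℕ} (n : Fin s → ℕ) (p : Fin s → Prop) [DecidablePred p] :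
    (Finset.univ.filter fun x : (Σ i, Fin (n i)) => p x.1).card = ∑ i, if p i then n i else 0 := by
  rw [Finset.card_filter, Fintype.sum_sigma]
  refine Finset.sum_congr rfl fun i _ => ?_
  by_cases h : p i
  · simp [h]
  · simp [h]

/-- The balance of the determinants. -/
theorem bal (h : PM Z) (hs : SmallF Z) {s : ℕ} (W : Fin s → Submodule ℂ (Fin G ⊕ Fin G → ℂ))
    (hW : ∀ i, IrS (LZ Z) (W i)) (st : Fin s → Fin s) (hst : ∀ i, st (st i) = i)
    (hDu : ∀ i, Du (RZ Z) 1 (W i) (W (st i)))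
    (hDu' : ∀ i j, Du (RZ Z) 1 (W i) (W j) → j = st i) (a : Fin s → ℤ)
    (ha : ∀ i, a (st i) = -a i)
    (hdet : ∀ (g : Gam (GG (LZ Z))) (hg : ∀ i, ∀ u ∈ W i, RZ Z g u ∈ W i), ∃ M : ℕ, M ≠ 0 ∧
      (∏ i, LinearMap.det ((RZ Z g).restrict (hg i)) ^ a i) ^ M = 1) :
    ∃ (A : Type) (_ : Fintype A) (mt : A ⊕ A ≃ Σ i, Fin (a i).toNat),
      ∀ x, PrU Z (W (mt (Sum.inl x)).1) (W (mt (Sum.inr x)).1) := by
  classical
  have hch : ∀ i, ∃ (e : ℤ) (χ : (ℂ ≃+* ℂ) →* ℂ), a i ≠ 0 → CH Z (W i) e χ := by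
    intro i
    by_cases h0 : a i = 0
    · exact ⟨0, 1, fun h1 => absurd h0 h1⟩
    · rcases (loc h hs (hW i)).2 with ⟨h1, -⟩ | ⟨b, Z', E, F, φ, α, d, hk⟩
      · exfalso
        have h2 := hDu' i i ((rz_du h (hW i).2.1 (hW i).2.1).2 h1)
        have h3 := ha i
        rw [← h2] at h3
        omega
      · obtain ⟨e, χ, h1⟩ := hk.exists_CH
        exact ⟨e, χ, fun _ => h1⟩
  choose e χ hch using hch
  -- the traces
  have htr : ∀ τ : ℂ ≃+* ℂ, ∑ i, a i * tr Z (cjS τ (W i)) = 0 := by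
    intro τ
    have hg : ∀ i, ∀ u ∈ W i, RZ Z (gs h τ.symm) u ∈ W i := fun i =>
      rz_stable h (hW i).2.1 (gs h τ.symm)
    obtain ⟨M, hM, hM'⟩ := hdet (gs h τ.symm) hg
    have h1 : ∀ i, LinearMap.det ((RZ Z (gs h τ.symm)).restrict (hg i)) ^ a i =
        (2 : ℂ) ^ (a i * tr Z (cjS τ (W i))) := by
      intro i
      rw [det_gs h (hW i).2.1 τ.symm (hg i), ← _root_.zpow_mul, mul_comm]
      rfl
    have h2 : ∀ (t : Finset (Fin s)), ∏ i ∈ t, (2 : ℂ) ^ (a i * tr Z (cjS τ (W i))) =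
        (2 : ℂ) ^ ∑ i ∈ t, a i * tr Z (cjS τ (W i)) := by
      intro t
      induction t using Finset.induction_on with
      | empty => simp
      | insert i t hi ih => rw [Finset.prod_insert hi, Finset.sum_insert hi, ih,
          zpow_add₀ two_ne_zero]
    rw [Finset.prod_congr rfl fun i _ => h1 i, h2, ← zpow_natCast, ← _root_.zpow_mul] at hM'
    have h3 : ((2 : ℝ) ^ ((∑ i, a i * tr Z (cjS τ (W i))) * (M : ℤ)) : ℝ) = (2 : ℝ) ^ (0 : ℤ) := by
      rw [zpow_zero]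
      have h9 := congrArg (fun z : ℂ => ‖z‖) hM'
      simp only [norm_zpow, norm_one, Complex.norm_ofNat] at h9
      exact h9
    have h4 := zpow_right_injective₀ (by norm_num : (0 : ℝ) < 2) (by norm_num) h3
    exact (mul_eq_zero.1 h4).resolve_right (by exact_mod_cast hM)
  have hex : ∀ τ : ℂ ≃+* ℂ, ∑ i, ((a i * e i : ℤ) : ℂ) * χ i τ = 0 := by
    intro τ
    have h1 := congrArg (fun n : ℤ => (n : ℂ)) (htr τ)
    simp only [Int.cast_sum, Int.cast_mul, Int.cast_zero] at h1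
    rw [← h1]
    refine Finset.sum_congr rfl fun i _ => ?_
    by_cases h0 : a i = 0
    · simp [h0]
    · rw [(hch i h0).tr_cj (hW i).2.1 τ, Int.cast_mul, mul_assoc]
  -- linear independence
  have hli : ∀ c : (ℂ ≃+* ℂ) →* ℂ, ∑ i with χ i = c, a i * e i = 0 := by
    intro c
    have h1 := linearIndependent_iff'.1 (linearIndependent_monoidHom (ℂ ≃+* ℂ) ℂ)
      (Finset.univ.image χ) (fun c => ((∑ i with χ i = c, a i * e i : ℤ) : ℂ)) (by
        funext τ
        rw [Finset.sum_apply, Pi.zero_apply, ← hex τ,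
          ← Finset.sum_fiberwise_of_maps_to (s := Finset.univ) (t := Finset.univ.image χ) (g := χ)
            (fun i _ => Finset.mem_image_of_mem χ (Finset.mem_univ i))]
        refine Finset.sum_congr rfl fun c _ => ?_
        rw [Pi.smul_apply, smul_eq_mul, Int.cast_sum, Finset.sum_mul]
        refine Finset.sum_congr rfl fun i hi => ?_
        rw [(Finset.mem_filter.1 hi).2])
    by_cases hc : c ∈ Finset.univ.image χ
    · exact_mod_cast h1 c hc
    · refine Finset.sum_eq_zero fun i hi => absurd ?_ hc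
      rw [← (Finset.mem_filter.1 hi).2]
      exact Finset.mem_image_of_mem χ (Finset.mem_univ i)
  -- the involution
  have hstc : ∀ i, a i ≠ 0 → e (st i) = -e i ∧ χ (st i) = χ i := by
    intro i h0
    have h0' : a (st i) ≠ 0 := by
      rw [ha]
      exact neg_ne_zero.2 h0
    have h1 : ∀ τ, (e (st i) : ℂ) * χ (st i) τ = -((e i : ℂ) * χ i τ) := by
      intro τ
      rw [← (hch i h0).tr_cj (hW i).2.1 τ, ← (hch _ h0').tr_cj (hW _).2.1 τ,
        tr_st h (hW i) (hW (st i)) (hDu i) τ, Int.cast_neg]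
    have h2 : e (st i) = -e i := by
      have h3 := h1 1
      rw [map_one, map_one, mul_one, mul_one] at h3
      exact_mod_cast h3
    refine ⟨h2, MonoidHom.ext fun τ => ?_⟩
    have h3 := h1 τ
    rw [h2, Int.cast_neg, neg_mul, neg_inj] at h3
    refine mul_left_cancel₀ ?_ h3
    rcases (hch i h0).pm with h4 | h4 <;> rw [h4] <;> norm_num
  have hpos : ∀ c : (ℂ ≃+* ℂ) →* ℂ,
      ∑ i, (if χ i = c ∧ e i = 1 then (a i).toNat else 0) =
        ∑ i, (if χ i = c ∧ ¬e i = 1 then (a i).toNat else 0) := by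
    intro c
    have h1 : ∑ i with χ i = c, a i * e i =
        ∑ i, (if χ i = c then ((a i).toNat : ℤ) * e i else 0) -
          ∑ i, (if χ i = c then ((-a i).toNat : ℤ) * e i else 0) := by
      rw [← Finset.sum_sub_distrib, Finset.sum_filter]
      refine Finset.sum_congr rfl fun i _ => ?_
      by_cases hc : χ i = c
      · rw [if_pos hc, if_pos hc, if_pos hc, ← sub_mul]
        congr 1
        omega
      · rw [if_neg hc, if_neg hc, if_neg hc, sub_zero]
    have h2 : ∑ i, (if χ i = c then ((-a i).toNat : ℤ) * e i else 0) =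
        -∑ i, (if χ i = c then ((a i).toNat : ℤ) * e i else 0) := by
      let stE : Equiv.Perm (Fin s) := ⟨st, st, hst, hst⟩
      rw [← Equiv.sum_comp stE, ← Finset.sum_neg_distrib]
      refine Finset.sum_congr rfl fun i _ => ?_
      change (if χ (st i) = c then ((-a (st i)).toNat : ℤ) * e (st i) else 0) = _
      rw [ha, neg_neg]
      by_cases h0 : a i = 0
      · rw [h0]
        simp
      · rw [(hstc i h0).1, (hstc i h0).2]
        by_cases hc : χ i = c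
        · rw [if_pos hc, if_pos hc]
          ring
        · rw [if_neg hc, if_neg hc, neg_zero]
    rw [hli c, h2] at h1
    have h3 : ∑ i, (if χ i = c then ((a i).toNat : ℤ) * e i else 0) = 0 := by linarith
    have h4 : ∑ i, (if χ i = c then ((a i).toNat : ℤ) * e i else 0) =
        ((∑ i, (if χ i = c ∧ e i = 1 then (a i).toNat else 0) : ℕ) : ℤ) -
          ((∑ i, (if χ i = c ∧ ¬e i = 1 then (a i).toNat else 0) : ℕ) : ℤ) := by
      rw [Nat.cast_sum, Nat.cast_sum, ← Finset.sum_sub_distrib]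
      refine Finset.sum_congr rfl fun i _ => ?_
      by_cases hc : χ i = c
      · by_cases h0 : a i = 0
        · rw [h0]
          simp
        · rcases (hch i h0).pm with h5 | h5
          · simp [hc, h5]
          · have h6 : ¬e i = 1 := by rw [h5]; decide
            rw [if_pos hc, if_neg (fun h7 => h6 h7.2), if_pos ⟨hc, h6⟩, h5]
            push_cast
            ring
      · rw [if_neg hc, if_neg (fun h7 => hc h7.1), if_neg (fun h7 => hc h7.1)]
        simp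
    rw [h3] at h4
    omega
  -- the matching
  let X := Σ i, Fin (a i).toNat
  let P := {x : X // e x.1 = 1}
  let Q := {x : X // ¬e x.1 = 1}
  have hcard : ∀ c : (ℂ ≃+* ℂ) →* ℂ, Nonempty ({x : P // χ x.1.1 = c} ≃ {x : Q // χ x.1.1 = c}) := by
    intro c
    rw [← Fintype.card_eq]
    have e1 : Fintype.card {x : P // χ x.1.1 = c} =
        ∑ i, (if χ i = c ∧ e i = 1 then (a i).toNat else 0) := by
      rw [← card_sig (fun i => (a i).toNat) (fun i => χ i = c ∧ e i = 1), ← Fintype.card_subtype]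
      exact Fintype.card_congr
        { toFun := fun x => ⟨x.1.1, x.2, x.1.2⟩
          invFun := fun x => ⟨⟨x.1, x.2.2⟩, x.2.1⟩
          left_inv := fun x => rfl
          right_inv := fun x => rfl }
    have e2 : Fintype.card {x : Q // χ x.1.1 = c} =
        ∑ i, (if χ i = c ∧ ¬e i = 1 then (a i).toNat else 0) := by
      rw [← card_sig (fun i => (a i).toNat) (fun i => χ i = c ∧ ¬e i = 1), ← Fintype.card_subtype]
      exact Fintype.card_congr
        { toFun := fun x => ⟨x.1.1, x.2, x.1.2⟩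
          invFun := fun x => ⟨⟨x.1, x.2.2⟩, x.2.1⟩
          left_inv := fun x => rfl
          right_inv := fun x => rfl }
    rw [e1, e2, hpos c]
  let ψ : P ≃ Q := Equiv.ofFiberEquiv (f := fun x : P => χ x.1.1) (g := fun x : Q => χ x.1.1)
    fun c => (hcard c).some
  have hψ : ∀ x, χ (ψ x).1.1 = χ x.1.1 := fun x =>
    Equiv.ofFiberEquiv_map (f := fun x : P => χ x.1.1) (g := fun x : Q => χ x.1.1)
      (fun c => (hcard c).some) x
  refine ⟨P, inferInstance, ((Equiv.refl P).sumCongr ψ).trans (Equiv.sumCompl fun x : X => e x.1 = 1),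
    fun x => ?_⟩
  have hne : ∀ y : X, a y.1 ≠ 0 := by
    intro y h0
    have h1 := y.2.2
    have h2 : (a y.1).toNat = 0 := by rw [h0]; rfl
    exact absurd (lt_of_lt_of_eq h1 h2) (Nat.not_lt_zero _)
  have h1 := hch _ (hne x.1)
  have h2 := hch _ (hne (ψ x).1)
  rw [x.2] at h1
  have h3 : e (ψ x).1.1 = -1 := h2.pm.resolve_left (ψ x).2
  rw [h3, hψ x] at h2
  exact ⟨χ x.1.1, h1, h2⟩

end

end Pool.Agent.Y90
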