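import Mathlib
import Pool.Agent.TH504.CB.Fr
import Pool.Agent.Y90.Bal2

/-!
# Descent of invariant forms to Hodge classes
-/

set_option linter.unusedSectionVars false

namespace Pool.Agent.Y90

open Matrix Module Pool.Agent.W437.HC Pool.Agent.W437.HD Pool.Agent.W548.Odd Pool.Agent.TH504.CB
open Pool.Agent.H204R3.CM (IsHodge)
open Pool.Agent.H204R3.SP (Kills)

noncomputable section

variable {B : Type*} [Fintype B] [DecidableEq B] {κ : Type*} [Fintype κ] [DecidableEq κ]

/-- Extension of scalars for rational vectors. -/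
def cv (v : B → ℚ) : B → ℂ := fun i => ((v i : ℚ) : ℂ)

/-- The matrix `J` is the complex structure on the real vector space with the periods `per`. -/
structure Cht {T : Type*} [AddCommGroup T] [Module ℂ T] (per : (B → ℚ) →+ T)
    (J : Matrix B B ℝ) : Prop where
  sq : J * J = -1
  ex : ∃ (P : (B → ℝ) →ₗ[ℝ] T) (I : T →ₗ[ℝ] (B → ℝ)),
    (∀ w : B → ℚ, P (fun i => ((w i : ℚ) : ℝ)) = per w) ∧
    (∀ x, P (J *ᵥ x) = Complex.I • P x) ∧ (∀ x, I (P x) = x) ∧ ∀ t, P (I t) = t

/-- The complex structure with eigenvalues `± 1`. -/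
def DJ (J : Matrix B B ℝ) : Matrix B B ℂ := (-Complex.I) • J.map (fun x : ℝ => (x : ℂ))

/-- The coefficients of a form. -/
def CF {K : Type*} [Field K] (F : MultilinearMap K (fun _ : κ => B → K) K) : (κ → B) → K :=
  fun I => F (fun k => Pi.single (I k) 1)

theorem CF_eval {K : Type*} [Field K] (F : MultilinearMap K (fun _ : κ => B → K) K)
    (x : κ → B → K) : F x = evalF (CF F) x := multi_eq F x

theorem single_castR (i : B) :
    (fun j => (((Pi.single i 1 : B → ℚ) j : ℚ) : ℝ)) = (Pi.single i 1 : B → ℝ) := by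
  funext j
  by_cases h : j = i
  · subst h
    rw [Pi.single_eq_same, Pi.single_eq_same, Rat.cast_one]
  · rw [Pi.single_eq_of_ne h, Pi.single_eq_of_ne h, Rat.cast_zero]

theorem single_cv (i : B) : cv (Pi.single i 1 : B → ℚ) = (Pi.single i 1 : B → ℂ) := by
  funext j
  unfold cv
  by_cases h : j = i
  · subst h
    rw [Pi.single_eq_same, Pi.single_eq_same, Rat.cast_one]
  · rw [Pi.single_eq_of_ne h, Pi.single_eq_of_ne h, Rat.cast_zero]

theorem smul_rot {T : Type*} [AddCommGroup T] [Module ℂ T] (a b : ℝ) (t : T) :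
    a • t + b • (Complex.I • t) = ((a : ℂ) + (b : ℂ) * Complex.I) • t := by
  rw [add_smul, mul_smul]
  rfl

namespace Cht

variable {T : Type*} [AddCommGroup T] [Module ℂ T] {per : (B → ℚ) →+ T} {J : Matrix B B ℝ}
  (h : Cht per J)
include h

/-- Hodge classes are killed by the complex structure. -/
theorem isH {f : (B → ℚ) [⋀^κ]→ₗ[ℚ] ℚ} (hf : IsHodge per f) :
    IsH (DJ J) (CF f.toMultilinearMap) := by
  obtain ⟨P, I, hP1, hP2, -, -⟩ := h.ex
  obtain ⟨ψ, hψ1, hψ2⟩ := hf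
  rw [act_real (J := J) (D := DJ J) rfl]
  have h1 : ∀ x : κ → B → ℝ, ψ (fun k => P (x k)) = evalF (cst ℝ (CF f.toMultilinearMap)) x := by
    intro x
    rw [show ψ (fun k => P (x k)) = ψ.compLinearMap (fun _ => P) x from rfl, multi_eq]
    congr 1
    funext I
    change ψ (fun k => P (Pi.single (I k) 1)) = ((f (fun k => Pi.single (I k) 1) : ℚ) : ℝ)
    rw [← hψ1]
    congr 1
    funext k
    rw [← hP1, single_castR]
  apply act_of_rotate
  intro θ x
  rw [← h1, ← h1]
  refine Eq.trans ?_ (hψ2 (Complex.cos θ + Complex.sin θ * Complex.I) (by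
    rw [← Complex.exp_mul_I, Complex.norm_exp_ofReal_mul_I]) _)
  congr 1
  funext k
  rw [map_add, map_smul, map_smul, hP2, smul_rot, Complex.ofReal_cos, Complex.ofReal_sin]

/-- The alternation of a form killed by the complex structure is a Hodge class. -/
theorem hodge_alt {c : (κ → B) → ℚ} (hc : IsH (DJ J) c) :
    IsHodge per (MultilinearMap.alternatization (evalM c)) := by
  obtain ⟨P, I, hP1, hP2, hI1, hI2⟩ := h.ex
  refine isHodge_alt ((evalM (cst ℝ c)).compLinearMap (fun _ => I))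
    (fun v => ?_) (fun z hz u => ?_)
  · rw [MultilinearMap.compLinearMap_apply, evalM_apply, evalM_apply, evalF_castK]
    congr 1
    funext k
    rw [← hP1, hI1]
  · rw [MultilinearMap.compLinearMap_apply, MultilinearMap.compLinearMap_apply, evalM_apply,
      evalM_apply]
    have h1 : z.re = Real.cos z.arg ∧ z.im = Real.sin z.arg := by
      have h2 := Complex.norm_mul_cos_arg z
      have h3 := Complex.norm_mul_sin_arg z
      rw [hz, one_mul] at h2 h3
      exact ⟨h2.symm, h3.symm⟩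
    have h2 : (fun k => I (z • u k)) = fun k => Real.cos z.arg • I (u k) +
        Real.sin z.arg • (J *ᵥ I (u k)) := by
      funext k
      rw [← hI1 (Real.cos z.arg • I (u k) + Real.sin z.arg • (J *ᵥ I (u k))), map_add P,
        map_smul P, map_smul P, hP2, hI2, smul_rot, ← h1.1, ← h1.2, Complex.re_add_im]
    rw [h2]
    exact rot_of_act h.sq ((act_real (J := J) (D := DJ J) rfl).1 hc) z.arg _

end Cht

section lam

theorem act_lam (u : Matrix B B ℚ) (C : (κ → B) → ℂ) (l : ℂ →ₗ[ℚ] ℚ) :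
    act u (fun I => l (C I)) = fun I => l (act (qm u) C I) := by
  funext I
  simp only [act, map_sum]
  refine Finset.sum_congr rfl fun k _ => Finset.sum_congr rfl fun j _ => ?_
  change u j (I k) * l (C (Function.update I k j)) =
    l (((u j (I k) : ℚ) : ℂ) * C (Function.update I k j))
  rw [← Rat.smul_def, map_smul, smul_eq_mul]

/-- Rational parts of forms killed by a Galois stable space of matrices. -/
theorem kill_lam {L : Submodule ℂ (Matrix B B ℂ)} (hL : Gal L) {C : (κ → B) → ℂ}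
    (hC : ∀ X ∈ L, act X C = 0) (l : ℂ →ₗ[ℚ] ℚ) :
    ∀ X ∈ L, act X (cst ℂ (fun I => l (C I))) = 0 := by
  refine rational_induction L hL (p := fun X => act X (cst ℂ (fun I => l (C I))) = 0) ?_ ?_ ?_ ?_
  · intro u hu
    rw [act_cst, act_lam]
    have h1 := hC _ hu
    funext I
    rw [cst_apply]
    have h2 := congrFun h1 I
    change ((l (act (qm u) C I) : ℚ) : ℂ) = _
    rw [show act (qm u) C I = 0 from h2, map_zero]
    simp
  · exact act_zero_left _
  · intro X Y hX hY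
    rw [act_add_left, hX, hY, add_zero]
  · intro c X hX
    rw [act_smul_left, hX, smul_zero]

theorem exists_coord (W : Submodule ℚ ℂ) [FiniteDimensional ℚ W] :
    ∃ (m : ℕ) (c : Fin m → ℂ) (l : Fin m → (ℂ →ₗ[ℚ] ℚ)),
      ∀ z ∈ W, z = ∑ j, c j * ((l j z : ℚ) : ℂ) := by
  let b := finBasis ℚ W
  have h1 : ∀ j, ∃ l : ℂ →ₗ[ℚ] ℚ, l.comp W.subtype = b.coord j := fun j =>
    LinearMap.exists_extend _
  choose l hl using h1
  refine ⟨finrank ℚ W, fun j => b j, l, fun z hz => ?_⟩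
  have h2 := congrArg Subtype.val (b.sum_repr ⟨z, hz⟩)
  have h3 : z = ∑ j, ((b.repr ⟨z, hz⟩ j : ℚ) • (b j : ℂ)) := by
    conv_lhs => rw [show z = ((⟨z, hz⟩ : W) : ℂ) from rfl, ← h2]
    rw [AddSubmonoidClass.coe_finsetSum]
    rfl
  conv_lhs => rw [h3]
  refine Finset.sum_congr rfl fun j _ => ?_
  have h4 : b.repr ⟨z, hz⟩ j = l j z := by
    have h5 := congrArg (fun f : W →ₗ[ℚ] ℚ => f ⟨z, hz⟩) (hl j)
    exact h5.symm
  rw [h4, Rat.smul_def, mul_comm]

theorem lam_eval (F : MultilinearMap ℂ (fun _ : κ => B → ℂ) ℂ) (l : ℂ →ₗ[ℚ] ℚ)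
    (v : κ → B → ℚ) : l (F (fun k => cv (v k))) = evalF (fun I => l (CF F I)) v := by
  rw [CF_eval]
  unfold evalF
  rw [map_sum]
  refine Finset.sum_congr rfl fun I _ => ?_
  have h1 : CF F I * ∏ k, cv (v k) (I k) = (∏ k, v k (I k)) • CF F I := by
    rw [Rat.smul_def, mul_comm, Rat.cast_prod]
    rfl
  rw [h1, map_smul, smul_eq_mul, mul_comm]

theorem rat_expand (F : MultilinearMap ℂ (fun _ : κ => B → ℂ) ℂ) :
    ∃ (m : ℕ) (c : Fin m → ℂ) (l : Fin m → (ℂ →ₗ[ℚ] ℚ)), ∀ v : κ → B → ℚ,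
      F (fun k => cv (v k)) = ∑ j, c j * ((l j (F (fun k => cv (v k))) : ℚ) : ℂ) := by
  let W : Submodule ℚ ℂ := Submodule.span ℚ (Set.range (CF F))
  have : FiniteDimensional ℚ W := FiniteDimensional.span_of_finite ℚ (Set.finite_range _)
  obtain ⟨m, c, l, hl⟩ := exists_coord W
  refine ⟨m, c, l, fun v => hl _ ?_⟩
  rw [CF_eval]
  unfold evalF
  refine Submodule.sum_mem _ fun I _ => ?_
  have h1 : CF F I * ∏ k, cv (v k) (I k) = (∏ k, v k (I k)) • CF F I := by
    rw [Rat.smul_def, mul_comm, Rat.cast_prod]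
    rfl
  rw [h1]
  exact Submodule.smul_mem _ _ (Submodule.subset_span ⟨I, rfl⟩)

/-- The alternation on rational vectors. -/
def altQ (F : MultilinearMap ℂ (fun _ : κ => B → ℂ) ℂ) (v : κ → B → ℚ) : ℂ :=
  ∑ σ : Equiv.Perm κ, ((Equiv.Perm.sign σ : ℤ) : ℂ) * F (fun k => cv (v (σ k)))

/-- The rational parts of the alternation. -/
def ratA (F : MultilinearMap ℂ (fun _ : κ => B → ℂ) ℂ) (l : ℂ →ₗ[ℚ] ℚ) :
    (B → ℚ) [⋀^κ]→ₗ[ℚ] ℚ :=
  MultilinearMap.alternatization (evalM (fun I => l (CF F I)))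

theorem ratA_apply (F : MultilinearMap ℂ (fun _ : κ => B → ℂ) ℂ) (l : ℂ →ₗ[ℚ] ℚ)
    (v : κ → B → ℚ) : ratA F l v =
      ∑ σ : Equiv.Perm κ, ((Equiv.Perm.sign σ : ℤ) : ℚ) * l (F (fun k => cv (v (σ k)))) := by
  unfold ratA
  rw [MultilinearMap.alternatization_apply]
  refine Finset.sum_congr rfl fun σ _ => ?_
  rw [MultilinearMap.domDomCongr_apply, evalM_apply, Units.smul_def, zsmul_eq_mul]
  have h1 := lam_eval F l (fun k => v (σ k))
  rw [← h1]

theorem altQ_expand (F : MultilinearMap ℂ (fun _ : κ => B → ℂ) ℂ) :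
    ∃ (m : ℕ) (c : Fin m → ℂ) (l : Fin m → (ℂ →ₗ[ℚ] ℚ)), ∀ v : κ → B → ℚ,
      altQ F v = ∑ j, c j * ((ratA F (l j) v : ℚ) : ℂ) := by
  obtain ⟨m, c, l, h⟩ := rat_expand F
  refine ⟨m, c, l, fun v => ?_⟩
  unfold altQ
  have h1 : ∀ j, c j * ((ratA F (l j) v : ℚ) : ℂ) = ∑ σ : Equiv.Perm κ,
      ((Equiv.Perm.sign σ : ℤ) : ℂ) * (c j * ((l j (F (fun k => cv (v (σ k)))) : ℚ) : ℂ)) := by
    intro j
    rw [ratA_apply, Rat.cast_sum, Finset.mul_sum]
    refine Finset.sum_congr rfl fun σ _ => ?_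
    rw [Rat.cast_mul, Rat.cast_intCast]
    ring
  rw [Finset.sum_congr rfl fun j _ => h1 j, Finset.sum_comm]
  refine Finset.sum_congr rfl fun σ _ => ?_
  rw [← Finset.mul_sum, ← h]

/-- Killed forms have killed coefficients. -/
theorem act_of_kills {X : Matrix B B ℂ} {F : MultilinearMap ℂ (fun _ : κ => B → ℂ) ℂ}
    (h : Kills (ph B X) F) : act X (CF F) = 0 := by
  apply eq_zero_of_evalF
  intro x
  rw [evalF_act]
  have h1 := h x
  rw [← h1]
  refine Finset.sum_congr rfl fun k _ => ?_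
  rw [← CF_eval]
  rfl

theorem kills_of_act {X : Matrix B B ℂ} {F : MultilinearMap ℂ (fun _ : κ => B → ℂ) ℂ}
    (h : act X (CF F) = 0) : Kills (ph B X) F := by
  intro x
  have h1 := evalF_act X (CF F) x
  rw [h, evalF_zero] at h1
  rw [h1]
  refine Finset.sum_congr rfl fun k _ => ?_
  rw [← CF_eval]
  rfl

/-- The rational parts of the alternation of an invariant form are Hodge classes. -/
theorem Cht.hodge_rat {T : Type*} [AddCommGroup T] [Module ℂ T] {per : (B → ℚ) →+ T}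
    {J : Matrix B B ℝ} (h : Cht per J) {L : Submodule ℂ (Matrix B B ℂ)} (hL : Gal L)
    (hJ : DJ J ∈ L) {F : MultilinearMap ℂ (fun _ : κ => B → ℂ) ℂ}
    (hF : ∀ X ∈ L, act X (CF F) = 0) (l : ℂ →ₗ[ℚ] ℚ) : IsHodge per (ratA F l) :=
  h.hodge_alt (kill_lam hL hF l _ hJ)

end lam

end

end Pool.Agent.Y90
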