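import Mathlib
import Pool.Agent.Y90.Desc
import Pool.Agent.Y90.Defs

/-!
# Abelian varieties from complex structures on real vector spaces
-/

set_option linter.unusedSectionVars false

namespace Pool.Agent.Y90

open Matrix Module Pool.Agent.W437.HC Pool.Agent.W437.HD Pool.Agent.W548.Odd Pool.Agent.TH504.CB
open Pool.Agent.H204R3.CM (IsHodge)
open Pool.Agent.W437.HP (cK cK_mul cK_one)

noncomputable section

section cht

variable {B : Type} [Fintype B] [DecidableEq B] {T : Type} [AddCommGroup T] [Module ℂ T]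
  {per : (B → ℚ) →+ T} {J : Matrix B B ℝ}

theorem real_smul_eq (c : ℂ) (t : T) : c • t = c.re • t + c.im • (Complex.I • t) := by
  rw [smul_rot, Complex.re_add_im]

theorem Cht.polar (h : Cht per J) (M : Matrix B B ℚ) (hM : Mᵀ = -M)
    (hJ : Jᵀ * cK ℝ M + cK ℝ M * J = 0) (hpos : ∀ x, x ≠ 0 → 0 < (J *ᵥ x) ⬝ᵥ (cK ℝ M *ᵥ x)) :
    IsPolarization per (fun v w => v ⬝ᵥ (M *ᵥ w)) := by
  obtain ⟨P, I, hP1, hP2, hI1, hI2⟩ := h.ex
  have hIs : ∀ (c : ℂ) (u : T), I (c • u) = c.re • I u + c.im • (J *ᵥ I u) := by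
    intro c u
    rw [← hI1 (c.re • I u + c.im • (J *ᵥ I u)), map_add P, map_smul P, map_smul P, hP2, hI2,
      ← real_smul_eq]
  have hMr : (cK ℝ M)ᵀ = -cK ℝ M := by
    have h1 := congrArg (cK ℝ) hM
    ext i j
    have h2 := congrFun (congrFun h1 i) j
    simp only [cK, Matrix.map_apply, Matrix.transpose_apply, Matrix.neg_apply, Rat.cast_neg] at h2 ⊢
    exact h2
  have hJ' : Jᵀ * cK ℝ M = -(cK ℝ M * J) := eq_neg_of_add_eq_zero_left hJ
  have hsk : ∀ x y : B → ℝ, y ⬝ᵥ (cK ℝ M *ᵥ x) = -(x ⬝ᵥ (cK ℝ M *ᵥ y)) := by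
    intro x y
    rw [dotProduct_mulVec, ← mulVec_transpose, hMr, neg_mulVec, neg_dotProduct, dotProduct_comm]
  have hJsk : ∀ x y : B → ℝ, (J *ᵥ x) ⬝ᵥ (cK ℝ M *ᵥ y) = -(x ⬝ᵥ (cK ℝ M *ᵥ (J *ᵥ y))) := by
    intro x y
    have h1 : (J *ᵥ x) ⬝ᵥ (cK ℝ M *ᵥ y) = x ⬝ᵥ ((Jᵀ * cK ℝ M) *ᵥ y) := by
      rw [← mulVec_mulVec, dotProduct_mulVec x, vecMul_transpose]
    rw [h1, hJ', neg_mulVec, dotProduct_neg, mulVec_mulVec]
  refine ⟨fun u u' => (((J *ᵥ I u) ⬝ᵥ (cK ℝ M *ᵥ I u') : ℝ) : ℂ) +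
    Complex.I * ((I u ⬝ᵥ (cK ℝ M *ᵥ I u') : ℝ) : ℂ), fun u' => ⟨fun u v => ?_, fun c u => ?_⟩,
    fun u u' => ?_, fun u hu => ?_, fun v w => ?_⟩
  · beta_reduce
    rw [map_add, mulVec_add, add_dotProduct, add_dotProduct]
    push_cast
    ring
  · beta_reduce
    rw [hIs, mulVec_add, mulVec_smul, mulVec_smul, mulVec_mulVec, h.sq, neg_mulVec, one_mulVec,
      add_dotProduct, add_dotProduct, smul_dotProduct, smul_dotProduct, smul_dotProduct,
      smul_dotProduct, neg_dotProduct, smul_eq_mul, smul_eq_mul, smul_eq_mul, smul_eq_mul,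
      smul_eq_mul]
    conv_rhs => rw [← Complex.re_add_im c]
    push_cast
    linear_combination (-(c.im : ℂ) * ((I u ⬝ᵥ (cK ℝ M *ᵥ I u') : ℝ) : ℂ)) * Complex.I_mul_I
  · have e1 : (J *ᵥ I u') ⬝ᵥ (cK ℝ M *ᵥ I u) = (J *ᵥ I u) ⬝ᵥ (cK ℝ M *ᵥ I u') := by
      rw [hJsk, hsk, neg_neg]
    have e2 : I u' ⬝ᵥ (cK ℝ M *ᵥ I u) = -(I u ⬝ᵥ (cK ℝ M *ᵥ I u')) := hsk _ _
    beta_reduce
    rw [e1, e2, map_add, map_mul, Complex.conj_ofReal, Complex.conj_ofReal, Complex.conj_I]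
    push_cast
    ring
  · have h1 : I u ≠ 0 := by
      intro h0
      apply hu
      rw [← hI2 u, h0, map_zero]
    have h2 := hpos _ h1
    simpa using h2
  · have h1 : ∀ v : B → ℚ, I (per v) = fun i => ((v i : ℚ) : ℝ) := by
      intro v
      rw [← hP1, hI1]
    beta_reduce
    rw [h1, h1]
    have h2 : (cK ℝ M *ᵥ fun i => ((w i : ℚ) : ℝ)) = fun i => (((M *ᵥ w) i : ℚ) : ℝ) := by
      funext i
      simp [mulVec, dotProduct, cK]
    rw [h2]
    simp [dotProduct]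

/-- The abelian variety of a complex structure. -/
abbrev Cht.av [FiniteDimensional ℂ T] (h : Cht per J) (hp : ∃ E : (B → ℚ) → (B → ℚ) → ℚ,
    IsPolarization per E) : AV where
  H := B → ℚ
  T := T
  per := per
  span := by
    obtain ⟨P, I, hP1, hP2, hI1, hI2⟩ := h.ex
    rw [eq_top_iff]
    intro t _
    rw [← hI2 t]
    have h1 : I t = ∑ i, (I t i) • (Pi.single i 1 : B → ℝ) := by
      funext j
      simp [Finset.sum_apply, Pi.single_apply]
    rw [h1, map_sum]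
    refine Submodule.sum_mem _ fun i _ => ?_
    rw [map_smul, ← single_castR, hP1]
    exact Submodule.smul_mem _ _ (Submodule.subset_span ⟨_, rfl⟩)
  rank := by
    obtain ⟨P, I, hP1, hP2, hI1, hI2⟩ := h.ex
    have e : (B → ℝ) ≃ₗ[ℝ] T := LinearEquiv.ofLinearMap P I (LinearMap.ext hI2) (LinearMap.ext hI1)
    rw [← finrank_real_of_complex, ← e.finrank_eq, finrank_fintype_fun_eq_card,
      finrank_fintype_fun_eq_card]
  pol := hp

end cht

section Z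

variable {g : ℕ} {Z : Matrix (Fin g) (Fin g) ℂ}

theorem PM.cht (h : PM Z) : Cht (perOne Z) (JR Z) :=
  ⟨JR_sq h.det, perR Z, invR Z, fun w => (perOne_eq w).symm, perR_JR Z h.det, invR_perR h.det,
    perR_invR h.det⟩

theorem PM.polar (h : PM Z) :
    IsPolarization (perOne Z) (fun v w => v ⬝ᵥ ((-Om g ℚ) *ᵥ w)) := by
  have h1 : cK ℝ (-Om g ℚ) = -Om g ℝ := by
    have h2 : cK ℝ (Om g ℚ) = Om g ℝ := Om_map ℝ
    rw [← h2]
    ext i j
    simp [cK]
  refine h.cht.polar _ ?_ ?_ ?_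
  · rw [transpose_neg, Om_transpose, neg_neg]
  · rw [h1, Matrix.mul_neg, Matrix.neg_mul, ← neg_add, JR_sp h.symm, neg_zero]
  · intro x hx
    have h3 := (OmJ_posDef h.symm h.pos).dotProduct_mulVec_pos hx
    rw [star_trivial, ← mulVec_mulVec, dotProduct_mulVec, ← mulVec_transpose, Om_transpose,
      neg_mulVec, neg_dotProduct, dotProduct_comm] at h3
    rw [h1, neg_mulVec, dotProduct_neg]
    exact h3

/-- The abelian variety with a given period matrix. -/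
abbrev AVZ (h : PM Z) : AV := h.cht.av ⟨_, h.polar⟩

end Z

section prod

variable {B₁ B₂ : Type} [Fintype B₁] [DecidableEq B₁] [Fintype B₂] [DecidableEq B₂]
  {T₁ T₂ : Type} [AddCommGroup T₁] [Module ℂ T₁] [AddCommGroup T₂] [Module ℂ T₂]

/-- The periods of a product. -/
def perP (per₁ : (B₁ → ℚ) →+ T₁) (per₂ : (B₂ → ℚ) →+ T₂) : (B₁ ⊕ B₂ → ℚ) →+ T₁ × T₂ where
  toFun v := (per₁ (fun i => v (Sum.inl i)), per₂ (fun i => v (Sum.inr i)))
  map_zero' := by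
    have h1 : (fun i : B₁ => (0 : B₁ ⊕ B₂ → ℚ) (Sum.inl i)) = 0 := rfl
    have h2 : (fun i : B₂ => (0 : B₁ ⊕ B₂ → ℚ) (Sum.inr i)) = 0 := rfl
    rw [h1, h2, map_zero, map_zero]
    rfl
  map_add' v w := by
    have h1 : (fun i : B₁ => (v + w) (Sum.inl i)) = (fun i => v (Sum.inl i)) +
      fun i => w (Sum.inl i) := rfl
    have h2 : (fun i : B₂ => (v + w) (Sum.inr i)) = (fun i => v (Sum.inr i)) +
      fun i => w (Sum.inr i) := rfl
    rw [h1, h2, map_add, map_add]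
    rfl

theorem perP_apply (per₁ : (B₁ → ℚ) →+ T₁) (per₂ : (B₂ → ℚ) →+ T₂) (v : B₁ ⊕ B₂ → ℚ) :
    perP per₁ per₂ v = (per₁ (fun i => v (Sum.inl i)), per₂ (fun i => v (Sum.inr i))) := rfl

theorem Cht.prod {per₁ : (B₁ → ℚ) →+ T₁} {per₂ : (B₂ → ℚ) →+ T₂} {J₁ : Matrix B₁ B₁ ℝ}
    {J₂ : Matrix B₂ B₂ ℝ} (h₁ : Cht per₁ J₁) (h₂ : Cht per₂ J₂) :
    Cht (perP per₁ per₂) (fromBlocks J₁ 0 0 J₂) := by
  obtain ⟨P, I, hP1, hP2, hI1, hI2⟩ := h₁.ex
  obtain ⟨P', I', hP1', hP2', hI1', hI2'⟩ := h₂.ex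
  refine ⟨?_, (P.comp (LinearMap.funLeft ℝ ℝ Sum.inl)).prod (P'.comp (LinearMap.funLeft ℝ ℝ Sum.inr)),
    (LinearEquiv.sumArrowLequivProdArrow B₁ B₂ ℝ ℝ).symm.toLinearMap.comp (I.prodMap I'),
    fun w => ?_, fun x => ?_, fun x => ?_, fun t => ?_⟩
  · rw [fromBlocks_multiply, h₁.sq, h₂.sq]
    simp only [Matrix.zero_mul, Matrix.mul_zero, add_zero, zero_add]
    rw [← fromBlocks_one, fromBlocks_neg, neg_zero, neg_zero]
  · exact Prod.ext (hP1 _) (hP1' _)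
  · refine Prod.ext ?_ ?_
    · change P (fun i => (fromBlocks J₁ 0 0 J₂ *ᵥ x) (Sum.inl i)) = Complex.I • P _
      rw [← hP2]
      congr 1
      funext i
      rw [fromBlocks_mulVec, Sum.elim_inl, zero_mulVec, add_zero]
      rfl
    · change P' (fun i => (fromBlocks J₁ 0 0 J₂ *ᵥ x) (Sum.inr i)) = Complex.I • P' _
      rw [← hP2']
      congr 1
      funext i
      rw [fromBlocks_mulVec, Sum.elim_inr, zero_mulVec, zero_add]
      rfl
  · funext i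
    rcases i with i | i
    · change I (P (fun i => x (Sum.inl i))) i = _
      rw [hI1]
    · change I' (P' (fun i => x (Sum.inr i))) i = _
      rw [hI1']
  · refine Prod.ext ?_ ?_
    · change P (I t.1) = _
      rw [hI2]
    · change P' (I' t.2) = _
      rw [hI2']

end prod

end

end Pool.Agent.Y90
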