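import Mathlib
import Pool.Agent.Y90.Ring

/-!
# Hodge classes belong to the ring
-/

set_option linter.unusedSectionVars false

namespace Pool.Agent.Y90

open Matrix Module Pool.Agent.W437.HC Pool.Agent.W437.HD Pool.Agent.W548.Odd Pool.Agent.TH504.CB
open Pool.Agent.H204R3.CM (IsHodge)
open Pool.Agent.H204R3.SP (Kills bil2 IsTate)
open Pool.Agent.W522.U (exists_reps exists_st)

noncomputable section

variable {G : ℕ} {Z : Matrix (Fin G) (Fin G) ℂ}

theorem DJ_JR : DJ (JR Z) = DZ Z := rfl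

/-- The alternation of an invariant form is a combination of Hodge classes. -/
theorem altQ_mem (h : PM Z) {κ : Type} [Fintype κ] [DecidableEq κ]
    {F : MultilinearMap ℂ (fun _ : κ => Fin G ⊕ Fin G → ℂ) ℂ}
    (hF : ∀ X ∈ LZ Z, act X (CF F) = 0)
    (hR : ∀ r : (Fin G ⊕ Fin G → ℚ) [⋀^κ]→ₗ[ℚ] ℚ, IsHodge (perOne Z) r → WeilRing (AVZ h) κ r) :
    altQ F ∈ RC (AVZ h) κ := by
  obtain ⟨m, c, l, hl⟩ := altQ_expand F
  have h1 : altQ F = ∑ j, c j • fun v : κ → (AVZ h).H => ((ratA F (l j) v : ℚ) : ℂ) := by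
    funext v
    rw [hl v, Finset.sum_apply]
    rfl
  rw [h1]
  refine Submodule.sum_mem _ fun j _ => Submodule.smul_mem _ _ ?_
  exact RC_of (X := AVZ h) (hR _ (h.cht.hodge_rat gal_LZ DZ_mem hF (l j)))

theorem pair_mem (h : PM Z) (b : (Fin G ⊕ Fin G → ℂ) →ₗ[ℂ] (Fin G ⊕ Fin G → ℂ) →ₗ[ℂ] ℂ)
    (hb : ∀ g u v, b (RZ Z g u) (RZ Z g v) = (1 : Gam (GG (LZ Z)) →* ℂ) g * b u v) :
    bil2 b ∈ NZ h (Fin 2) := by
  intro i1 i2
  obtain rfl : i1 = Fin.fintype 2 := Subsingleton.elim _ _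
  obtain rfl : i2 = instDecidableEqFin 2 := Subsingleton.elim _ _
  refine altQ_mem h (fun X hX => act_of_kills fun v => ?_) fun r hr =>
    WeilRing.divisor (X := AVZ h) (κ := Fin 2) (Nat.card_fin 2) r hr
  have h1 := (rz_bil h stab_top stab_top b).1 (fun g u _ v _ => by
    rw [hb, MonoidHom.one_apply, one_mul]) X hX (v 0) trivial (v 1) trivial
  rw [Fin.sum_univ_two]
  exact h1

/-- Killed rational forms extend to invariant forms. -/
theorem hodge_inv (h : PM Z) {κ : Type} [Fintype κ] [DecidableEq κ]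
    {f : (Fin G ⊕ Fin G → ℚ) [⋀^κ]→ₗ[ℚ] ℚ} (hf : IsHodge (perOne Z) f) (g : Gam (GG (LZ Z)))
    (v : κ → Fin G ⊕ Fin G → ℂ) :
    evalM (cst ℂ (CF f.toMultilinearMap)) (fun k => RZ Z g (v k)) =
      evalM (cst ℂ (CF f.toMultilinearMap)) v := by
  have h1 : act (DZ Z) (cst ℂ (CF f.toMultilinearMap)) = 0 := h.cht.isH hf
  let C : Submodule ℂ (Matrix (Fin G ⊕ Fin G) (Fin G ⊕ Fin G) ℂ) :=
    { carrier := {X | act X (cst ℂ (CF f.toMultilinearMap)) = 0}
      add_mem' := fun {X Y} hX hY => by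
        change act (X + Y) _ = 0
        rw [act_add_left, show act X (cst ℂ (CF f.toMultilinearMap)) = 0 from hX,
          show act Y (cst ℂ (CF f.toMultilinearMap)) = 0 from hY, add_zero]
      zero_mem' := act_zero_left _
      smul_mem' := fun c X hX => by
        change act (c • X) _ = 0
        rw [act_smul_left, show act X (cst ℂ (CF f.toMultilinearMap)) = 0 from hX, smul_zero] }
  have hC : LZ Z ≤ C := by
    refine LZ_le (fun σ => ?_) (fun A hA B hB => act_bracket hA hB)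
    change act (DS Z σ) (cst ℂ (CF f.toMultilinearMap)) = 0
    funext I
    have h2 := congrArg σ (congrFun h1 I)
    rw [Pi.zero_apply, map_zero] at h2
    rw [Pi.zero_apply, ← h2]
    simp only [act, map_sum, map_mul, cst, map_ratCast]
    rfl
  refine inv_gam _ (fun D hD _ => ?_) g v
  obtain ⟨X, hX, rfl⟩ := exists_GG hD
  refine kills_of_act ?_
  have h3 : CF (evalM (cst ℂ (CF f.toMultilinearMap))) = cst ℂ (CF f.toMultilinearMap) := by
    funext I
    unfold CF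
    rw [evalM_apply, evalF_single]
  rw [h3]
  exact hC hX

/-- The alternation of an alternating form. -/
theorem altQ_alt (h : PM Z) {κ : Type} [Fintype κ] [DecidableEq κ]
    (f : (Fin G ⊕ Fin G → ℚ) [⋀^κ]→ₗ[ℚ] ℚ)
    (hf : altQ (evalM (cst ℂ (CF f.toMultilinearMap))) ∈ RC (AVZ h) κ) :
    WeilRing (AVZ h) κ f := by
  refine RC_descent ?_
  have h1 : (fun v : κ → (AVZ h).H => ((f v : ℚ) : ℂ)) =
      ((Fintype.card (Equiv.Perm κ) : ℂ))⁻¹ • altQ (evalM (cst ℂ (CF f.toMultilinearMap))) := by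
    funext v
    have h2 : ∀ σ : Equiv.Perm κ, ((Equiv.Perm.sign σ : ℤ) : ℂ) *
        evalM (cst ℂ (CF f.toMultilinearMap)) (fun k => cv (v (σ k))) = ((f v : ℚ) : ℂ) := by
      intro σ
      have h3 : evalM (cst ℂ (CF f.toMultilinearMap)) (fun k => cv (v (σ k))) =
          ((f (fun k => v (σ k)) : ℚ) : ℂ) := by
        have h4 := CF_eval f.toMultilinearMap (fun k => v (σ k))
        rw [evalM_apply]
        change _ = ((f.toMultilinearMap (fun k => v (σ k)) : ℚ) : ℂ)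
        rw [h4, evalF_castK]
        rfl
      rw [h3, show (fun k => v (σ k)) = v ∘ σ from rfl, AlternatingMap.map_perm, Units.smul_def,
        zsmul_eq_mul]
      push_cast
      rw [← mul_assoc, ← Int.cast_mul, ← Units.val_mul, Int.units_mul_self, Units.val_one,
        Int.cast_one, one_mul]
    rw [Pi.smul_apply, smul_eq_mul]
    change _ = _ * altQ (evalM (cst ℂ (CF f.toMultilinearMap))) v
    unfold altQ
    rw [Finset.sum_congr rfl fun σ _ => h2 σ, Finset.sum_const, nsmul_eq_mul, Finset.card_univ,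
      ← mul_assoc, inv_mul_cancel₀, one_mul]
    exact_mod_cast Fintype.card_ne_zero
  rw [h1]
  exact Submodule.smul_mem _ _ hf

section main

variable (h : PM Z) (hs : SmallF Z)
  (hdet : ∀ U U' : Submodule ℂ (Fin G ⊕ Fin G → ℂ), PrU Z U U' → ∀ (ι ι' : Type) [Fintype ι]
    [Fintype ι'] [DecidableEq ι] [DecidableEq ι'] (f : Basis ι ℂ U) (f' : Basis ι' ℂ U')
    (q : ι → (Fin G ⊕ Fin G → ℂ) →ₗ[ℂ] U) (q' : ι' → (Fin G ⊕ Fin G → ℂ) →ₗ[ℂ] U'),
    (∀ y g x, (q y (RZ Z g x) : Fin G ⊕ Fin G → ℂ) = RZ Z g (q y x)) →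
    (∀ y g x, (q' y (RZ Z g x) : Fin G ⊕ Fin G → ℂ) = RZ Z g (q' y x)) →
    ∀ ψ : MultilinearMap ℂ (fun _ : ι ⊕ ι' => Fin G ⊕ Fin G → ℂ) ℂ,
    (∀ v, ψ v = f.det (fun y => q y (v (Sum.inl y))) * f'.det (fun y => q' y (v (Sum.inr y)))) →
    ψ ∈ NZ h (ι ⊕ ι'))
include hs hdet

theorem inv_mem {m : ℕ}
    (φ : MultilinearMap ℂ (fun _ : Fin m × Fin 2 => Fin G ⊕ Fin G → ℂ) ℂ)
    (hφ : ∀ (g : Gam (GG (LZ Z))) v, φ (fun k => RZ Z g (v k)) = φ v) :
    φ ∈ NZ h (Fin m × Fin 2) := by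
  have hSI : ∀ {U}, W522.U.SI (RZ Z) U ↔ IrS (LZ Z) U := fun {U} => si_iff h.genI
  obtain ⟨s, W, hW, hWW, hall⟩ := exists_reps (rz_proj h)
  obtain ⟨st, hst, hDu, hDu'⟩ := exists_st (χ := 1) (rz_proj h) (om G) om_nd (rz_om h) W hW hWW hall
  refine forms_mem (χ := 1) (fun Δ hΔ => fi_top Δ hΔ) (om G) om_nd (rz_om h) ?_ ?_ ?_ (rz_proj h)
    W hW hWW hall st hst hDu hDu' (NZ h) (clo_NZ h) (pair_mem h)
    (fun i i' => PrU Z (W i) (W i')) ?_ ?_ φ ?_
  · intro U hU hn
    exact rz_unip h ((loc h hs (hSI.1 hU)).1 hn).1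
  · intro U hU hn
    exact rz_line h (hSI.1 hU) hn
  · intro U U' hU hU' hn _ ψ hT
    exact rz_twist h (hSI.1 hU) (hSI.1 hU') ((loc h hs (hSI.1 hU)).1 hn).2 ψ hT
  · intro i i' hp ι ι' _ _ _ _ f f' q q' hq hq' ψ hψ
    exact hdet (W i) (W i') hp ι ι' f f' q q' hq hq' ψ hψ
  · intro a ha hag
    exact bal h hs W (fun i => hSI.1 (hW i)) st hst hDu hDu' a ha hag
  · refine ⟨⊤, inferInstance, fun g _ v => ?_⟩
    rw [MonoidHom.one_apply, one_pow, one_mul]
    exact hφ g v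

/-- Hodge classes belong to the ring. -/
theorem ring_of_hodge {κ : Type} [Finite κ] (f : (Fin G ⊕ Fin G → ℚ) [⋀^κ]→ₗ[ℚ] ℚ)
    (hf : IsHodge (perOne Z) f) : WeilRing (AVZ h) κ f := by
  classical
  let _ : Fintype κ := Fintype.ofFinite κ
  refine altQ_alt h f ?_
  set φ := evalM (cst ℂ (CF f.toMultilinearMap)) with hφ
  have hinv := hodge_inv h hf
  rcases Nat.even_or_odd (Fintype.card κ) with he | ho
  · obtain ⟨m, hm⟩ := he
    have e : κ ≃ Fin m × Fin 2 := Fintype.equivOfCardEq (by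
      rw [Fintype.card_prod, Fintype.card_fin, Fintype.card_fin, hm]
      ring)
    have h1 := inv_mem h hs hdet (φ.domDomCongr e) (fun g v => by
      rw [MultilinearMap.domDomCongr_apply, MultilinearMap.domDomCongr_apply]
      exact hinv g _)
    have h2 : φ ∈ NZ h κ := (clo_NZ h).reindex e.symm h1 φ fun v => by
      rw [MultilinearMap.domDomCongr_apply]
      congr 1
      funext k
      simp
    exact h2 _ _
  · have h0 : φ = 0 := by
      refine MultilinearMap.ext fun v => ?_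
      have h1 := hinv (gt (D := ph _ (DZ Z)) (by rw [← map_mul, DZ_sq h.det, map_one])
        (mem_GG.2 DZ_mem) (-1)) v
      have h2 : (fun k => RZ Z (gt (D := ph _ (DZ Z)) (by rw [← map_mul, DZ_sq h.det, map_one])
        (mem_GG.2 DZ_mem) (-1)) (v k)) = fun k => (-1 : ℂ) • v k := by
        funext k
        change torE (ph _ (DZ Z)) (-1) (v k) = _
        rw [torE_apply]
        simp only [Units.val_neg, Units.val_one, inv_neg, inv_one]
        module
      rw [h2, MultilinearMap.map_smul_univ, Finset.prod_const, Finset.card_univ,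
        Odd.neg_one_pow ho, neg_one_smul] at h1
      rw [← hφ] at h1
      have h3 : φ v = 0 := by linear_combination (-1 / 2 : ℂ) * h1
      rw [h3]
      rfl
    have h1 : φ ∈ NZ h κ := by
      rw [h0]
      exact Submodule.zero_mem _
    exact h1 _ _

end main

end

end Pool.Agent.Y90
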