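import Mathlib
import Pool.Agent.Y90.Asm

/-!
# Determinants on the submodules attached to imaginary quadratic fields
-/

set_option linter.unusedSectionVars false

namespace Pool.Agent.Y90

open Matrix Module Pool.Agent.W437.HC Pool.Agent.W437.HD Pool.Agent.W548.Odd Pool.Agent.TH504.CB
open Pool.Agent.H204R3.CM (IsHodge)
open Pool.Agent.H204R3.SP (Kills)
open Pool.Agent.W437.HP (cK cK_mul cK_one)

noncomputable section

section inv

variable {B : Type*} [Fintype B] [DecidableEq B] {κ : Type*} [Fintype κ] [DecidableEq κ]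

/-- Invariant forms are killed. -/
theorem kill_of_inv {D : Matrix B B ℂ} (hD : D * D = 1)
    {F : MultilinearMap ℂ (fun _ : κ => B → ℂ) ℂ}
    (h : ∀ v, F (fun k => torE (ph B D) two (v k)) = F v) : act D (CF F) = 0 := by
  apply eq_zero_of_evalF
  refine evalF_span _ {v | D *ᵥ v = v ∨ D *ᵥ v = -v} ?_ ?_
  · rw [eq_top_iff]
    intro v _
    have h2 : D *ᵥ (D *ᵥ v) = v := by rw [mulVec_mulVec, hD, one_mulVec]
    have h1 : v = (1 / 2 : ℂ) • (v + D *ᵥ v) + (1 / 2 : ℂ) • (v - D *ᵥ v) := by module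
    rw [h1]
    refine Submodule.add_mem _ (Submodule.smul_mem _ _ (Submodule.subset_span (Or.inl ?_)))
      (Submodule.smul_mem _ _ (Submodule.subset_span (Or.inr ?_)))
    · rw [mulVec_add, h2, add_comm]
    · rw [mulVec_sub, h2, neg_sub]
  · intro x hx
    have h1 : ∀ k, ∃ s : ℤ, (s = 1 ∨ s = -1) ∧ D *ᵥ x k = (s : ℂ) • x k := by
      intro k
      rcases hx k with h1 | h1
      · exact ⟨1, Or.inl rfl, by rw [h1, Int.cast_one, one_smul]⟩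
      · exact ⟨-1, Or.inr rfl, by rw [h1, Int.cast_neg, Int.cast_one, neg_one_smul]⟩
    choose s hs hsx using h1
    have h2 : evalF (act D (CF F)) x = ((∑ k, s k : ℤ) : ℂ) * F x := by
      rw [evalF_act, Int.cast_sum, Finset.sum_mul]
      refine Finset.sum_congr rfl fun k _ => ?_
      rw [hsx, evalF_update_smul, Function.update_eq_self, ← CF_eval]
    have h3 : F x = (2 : ℂ) ^ (∑ k, s k) * F x := by
      have h4 : (fun k => torE (ph B D) two (x k)) = fun k => ((2 : ℂ) ^ s k) • x k := by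
        funext k
        rw [torE_two]
        change (5 / 4 : ℂ) • x k + (3 / 4 : ℂ) • (D *ᵥ x k) = _
        rw [hsx]
        rcases hs k with h5 | h5
        · rw [h5, Int.cast_one, zpow_one]
          module
        · rw [h5, Int.cast_neg, Int.cast_one, _root_.zpow_neg_one]
          module
      have h5 : ∀ t : Finset κ, ∏ k ∈ t, (2 : ℂ) ^ s k = (2 : ℂ) ^ ∑ k ∈ t, s k := by
        intro t
        induction t using Finset.induction_on with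
        | empty => simp
        | insert i t hi ih => rw [Finset.prod_insert hi, Finset.sum_insert hi, ih,
            zpow_add₀ two_ne_zero]
      have h6 := h x
      rw [h4, MultilinearMap.map_smul_univ, h5, smul_eq_mul] at h6
      exact h6.symm
    rw [h2]
    by_cases h4 : F x = 0
    · rw [h4, mul_zero]
    · have h5 : (2 : ℂ) ^ (∑ k, s k) = 1 := by
        have h6 : ((2 : ℂ) ^ (∑ k, s k)) * F x = 1 * F x := by rw [one_mul]; exact h3.symm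
        exact mul_right_cancel₀ h4 h6
      have h6 : ((2 : ℝ) ^ (∑ k, s k)) = (2 : ℝ) ^ (0 : ℤ) := by
        rw [zpow_zero]
        have h9 := congrArg (fun z : ℂ => ‖z‖) h5
        simp only [norm_zpow, norm_one, Complex.norm_ofNat] at h9
        exact h9
      have h7 := zpow_right_injective₀ (by norm_num : (0 : ℝ) < 2) (by norm_num) h6
      rw [h7, Int.cast_zero, zero_mul]

end inv

variable {a : ℕ} {Z : Matrix (Fin a) (Fin a) ℂ} {U : Submodule ℂ (Fin a ⊕ Fin a → ℂ)}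
  {φ : Matrix (Fin a ⊕ Fin a) (Fin a ⊕ Fin a) ℚ} {α : ℂ} {d : ℚ}

theorem qm_smul {B : Type*} [Fintype B] [DecidableEq B] (c : ℚ) (M : Matrix B B ℚ) :
    qm (c • M) = (c : ℂ) • qm M := by
  ext i j
  simp [qm]

/-- Scaling. -/
theorem KT.scale (h : KT Z U φ α d) {c : ℚ} (hc : c ≠ 0) : KT Z U (c • φ) (c * α) (c * c * d) where
  irr := h.irr
  dim := h.dim
  comm X hX := by rw [qm_smul, Matrix.mul_smul, Matrix.smul_mul, h.comm X hX]
  pos := mul_pos (mul_self_pos.2 hc) h.pos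
  sq := by
    rw [Matrix.smul_mul, Matrix.mul_smul, h.sq, smul_neg, smul_neg, smul_smul, smul_smul]
  al := by
    have h1 := h.al
    push_cast
    linear_combination (c : ℂ) * c * h1
  mem v := by
    have hc' : (c : ℂ) ≠ 0 := by exact_mod_cast hc
    rw [h.mem, qm_smul, smul_mulVec, mul_smul]
    constructor
    · intro h1
      rw [h1]
    · intro h1
      exact smul_right_injective _ hc' h1
  sgn := h.sgn

/-- The projection to the eigenspace. -/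
def pj (φ : Matrix (Fin a ⊕ Fin a) (Fin a ⊕ Fin a) ℚ) (α : ℂ) :
    (Fin a ⊕ Fin a → ℂ) →ₗ[ℂ] (Fin a ⊕ Fin a → ℂ) :=
  (2 * α)⁻¹ • (ml φ + α • LinearMap.id)

theorem pj_apply (v : Fin a ⊕ Fin a → ℂ) : pj φ α v = (2 * α)⁻¹ • (qm φ *ᵥ v + α • v) := rfl

theorem KT.sqv (h : KT Z U φ α d) (v : Fin a ⊕ Fin a → ℂ) :
    qm φ *ᵥ (qm φ *ᵥ v) = (α * α) • v := by
  rw [mulVec_mulVec, ← qm_mul, h.sq, h.al]
  have h1 : qm (-(d • (1 : Matrix (Fin a ⊕ Fin a) (Fin a ⊕ Fin a) ℚ))) = (-(d : ℂ)) • 1 := by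
    ext i j
    simp only [Matrix.map_apply, Matrix.neg_apply, Matrix.smul_apply, Matrix.one_apply, smul_eq_mul]
    split_ifs <;> simp
  rw [h1, smul_mulVec, one_mulVec]

theorem KT.pj_mem (h : KT Z U φ α d) (v : Fin a ⊕ Fin a → ℂ) : pj φ α v ∈ U := by
  rw [h.mem, pj_apply, mulVec_smul, mulVec_add, h.sqv, mulVec_smul]
  module

theorem KT.pj_of_mem (h : KT Z U φ α d) {v : Fin a ⊕ Fin a → ℂ} (hv : v ∈ U) : pj φ α v = v := by
  have h0 := h.al_ne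
  rw [pj_apply, (h.mem v).1 hv, ← two_smul ℂ (α • v), smul_smul, smul_smul]
  have h1 : (2 * α)⁻¹ * (2 * α) = 1 := inv_mul_cancel₀ (mul_ne_zero two_ne_zero h0)
  rw [mul_assoc, h1, one_smul]

/-- The projection to the eigenspace. -/
def KT.pU (h : KT Z U φ α d) : (Fin a ⊕ Fin a → ℂ) →ₗ[ℂ] U := (pj φ α).codRestrict U h.pj_mem

theorem KT.pU_coe (h : KT Z U φ α d) (v : Fin a ⊕ Fin a → ℂ) :
    (h.pU v : Fin a ⊕ Fin a → ℂ) = pj φ α v := rfl

theorem KT.pU_phi (h : KT Z U φ α d) (v : Fin a ⊕ Fin a → ℂ) : h.pU (qm φ *ᵥ v) = α • h.pU v := by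
  apply Subtype.ext
  change pj φ α _ = α • pj φ α v
  rw [pj_apply, pj_apply, h.sqv]
  module

theorem KT.pU_comm (h : KT Z U φ α d) {X : Matrix (Fin a ⊕ Fin a) (Fin a ⊕ Fin a) ℂ}
    (hX : X ∈ LZ Z) (v : Fin a ⊕ Fin a → ℂ) :
    (h.pU (X *ᵥ v) : Fin a ⊕ Fin a → ℂ) = X *ᵥ (h.pU v : Fin a ⊕ Fin a → ℂ) := by
  rw [h.pU_coe, h.pU_coe, pj_apply, pj_apply, mulVec_smul, mulVec_add, mulVec_smul, mulVec_mulVec,
    mulVec_mulVec, h.comm X hX]

theorem KT.pU_of_mem (h : KT Z U φ α d) {v : Fin a ⊕ Fin a → ℂ} (hv : v ∈ U) :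
    h.pU v = ⟨v, hv⟩ := Subtype.ext (h.pj_of_mem hv)

/-- The determinant form. -/
def KT.dl (h : KT Z U φ α d) {ι : Type} [Fintype ι] [DecidableEq ι] (f : Basis ι ℂ U) :
    MultilinearMap ℂ (fun _ : ι => Fin a ⊕ Fin a → ℂ) ℂ :=
  f.det.toMultilinearMap.compLinearMap (fun _ => h.pU)

theorem KT.dl_apply (h : KT Z U φ α d) {ι : Type} [Fintype ι] [DecidableEq ι] (f : Basis ι ℂ U)
    (v : ι → Fin a ⊕ Fin a → ℂ) : h.dl f v = f.det (fun y => h.pU (v y)) := rfl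

theorem KT.dl_phi (h : KT Z U φ α d) {ι : Type} [Fintype ι] [DecidableEq ι] (f : Basis ι ℂ U)
    (v : ι → Fin a ⊕ Fin a → ℂ) (y : ι) :
    h.dl f (Function.update v y (qm φ *ᵥ v y)) = α * h.dl f v := by
  rw [h.dl_apply, h.dl_apply]
  have h1 : (fun k => h.pU (Function.update v y (qm φ *ᵥ v y) k)) =
      Function.update (fun k => h.pU (v k)) y (α • h.pU (v y)) := by
    funext k
    by_cases hk : k = y
    · subst hk
      rw [Function.update_self, Function.update_self, h.pU_phi]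
    · rw [Function.update_of_ne hk, Function.update_of_ne hk]
  rw [h1, AlternatingMap.map_update_smul, Function.update_eq_self, smul_eq_mul]

theorem KT.dl_tor (hZ : PM Z) (h : KT Z U φ α d) {ι : Type} [Fintype ι] [DecidableEq ι]
    (f : Basis ι ℂ U) (σ : ℂ ≃+* ℂ) (v : ι → Fin a ⊕ Fin a → ℂ) :
    h.dl f (fun y => torE (ph _ (DS Z σ)) two (v y)) =
      (2 : ℂ) ^ tr Z (cjS σ.symm U) * h.dl f v := by
  have hst := rz_stable hZ h.irr.2.1 (gs hZ σ)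
  rw [h.dl_apply, h.dl_apply, ← det_gs hZ h.irr.2.1 σ hst, ← Basis.det_comp]
  congr 1
  funext y
  apply Subtype.ext
  change (h.pU (torE (ph _ (DS Z σ)) two (v y)) : Fin a ⊕ Fin a → ℂ) =
    torE (ph _ (DS Z σ)) two (h.pU (v y))
  rw [torE_two, torE_two, map_add, map_smul, map_smul]
  change (5 / 4 : ℂ) • (h.pU (v y) : Fin a ⊕ Fin a → ℂ) +
    (3 / 4 : ℂ) • (h.pU (DS Z σ *ᵥ v y) : Fin a ⊕ Fin a → ℂ) = _
  rw [h.pU_comm (DS_mem σ)]
  rfl

section pair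

variable {G : ℕ} {Y : Matrix (Fin G) (Fin G) ℂ}
  {W W' : Submodule ℂ (Fin G ⊕ Fin G → ℂ)}

/-- The data of a pair of submodules whose determinants cancel. -/
theorem PrU.data (h : PrU Y W W') : ∃ (a₁ : ℕ) (Z₁ : Matrix (Fin a₁) (Fin a₁) ℂ)
    (E₁ : Matrix (Fin G ⊕ Fin G) (Fin a₁ ⊕ Fin a₁) ℚ)
    (F₁ : Matrix (Fin a₁ ⊕ Fin a₁) (Fin G ⊕ Fin G) ℚ)
    (φ₁ : Matrix (Fin a₁ ⊕ Fin a₁) (Fin a₁ ⊕ Fin a₁) ℚ)
    (a₂ : ℕ) (Z₂ : Matrix (Fin a₂) (Fin a₂) ℂ)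
    (E₂ : Matrix (Fin G ⊕ Fin G) (Fin a₂ ⊕ Fin a₂) ℚ)
    (F₂ : Matrix (Fin a₂ ⊕ Fin a₂) (Fin G ⊕ Fin G) ℚ)
    (φ₂ : Matrix (Fin a₂ ⊕ Fin a₂) (Fin a₂ ⊕ Fin a₂) ℚ) (α : ℂ) (d : ℚ),
    KD Y W a₁ Z₁ E₁ F₁ φ₁ α d ∧ KD Y W' a₂ Z₂ E₂ F₂ φ₂ α d ∧
      tr Z₁ (W.map (ml F₁)) = 1 ∧ tr Z₂ (W'.map (ml F₂)) = -1 := by
  obtain ⟨χ, ⟨a₁, Z₁, E₁, F₁, φ₁, α₁, d₁, k₁, t₁, c₁⟩, ⟨a₂, Z₂, E₂, F₂, φ₂, α₂, d₂, k₂, t₂, c₂⟩⟩ := h
  have n₁ := k₁.kt.al_ne
  have n₂ := k₂.kt.al_ne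
  obtain ⟨c, hc⟩ : ∃ c : ℚ, α₁ / α₂ = c := by
    apply exists_rat
    intro σ
    rw [map_div₀, c₁, c₂]
    have h1 : χ σ ≠ 0 := by
      intro h0
      have h2 := c₁ σ
      rw [h0, zero_mul] at h2
      exact n₁ ((map_eq_zero_iff σ σ.injective).1 h2)
    rw [mul_div_mul_left _ _ h1]
  have hc0 : c ≠ 0 := by
    rintro rfl
    rw [Rat.cast_zero, div_eq_zero_iff] at hc
    exact hc.elim n₁ n₂
  have hα : (c : ℂ) * α₂ = α₁ := by rw [← hc, div_mul_cancel₀ _ n₂]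
  have hd : c * c * d₂ = d₁ := by
    have h1 := k₁.kt.al
    have h2 := k₂.kt.al
    have h3 : ((c * c * d₂ : ℚ) : ℂ) = ((d₁ : ℚ) : ℂ) := by
      push_cast
      have h4 : (d₂ : ℂ) = -(α₂ * α₂) := by rw [h2, neg_neg]
      have h5 : (d₁ : ℂ) = -(α₁ * α₁) := by rw [h1, neg_neg]
      rw [h4, h5, ← hα]
      ring
    exact_mod_cast h3
  refine ⟨a₁, Z₁, E₁, F₁, φ₁, a₂, Z₂, E₂, F₂, c • φ₂, α₁, d₁, k₁,
    ⟨k₂.fac, k₂.pm, k₂.inj, ?_, k₂.odd⟩, t₁, t₂⟩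
  have h6 := k₂.kt.scale hc0
  rwa [hα, hd] at h6

end pair

end

end Pool.Agent.Y90
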