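import Mathlib
import Pool.Agent.Y90.Wei1

/-!
# Weil classes on products
-/

set_option linter.unusedSectionVars false

namespace Pool.Agent.Y90

open Matrix Module Pool.Agent.W437.HC Pool.Agent.W437.HD Pool.Agent.W548.Odd Pool.Agent.TH504.CB
open Pool.Agent.H204R3.CM (IsHodge)
open Pool.Agent.H204R3.SP (Kills)
open Pool.Agent.W437.HP (cK cK_mul cK_one)

noncomputable section

section gen

variable {B B' : Type} [Fintype B] [DecidableEq B] [Fintype B'] [DecidableEq B']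
  {T T' : Type} [AddCommGroup T] [Module ℂ T] [AddCommGroup T'] [Module ℂ T']
  {per : (B → ℚ) →+ T} {per' : (B' → ℚ) →+ T'} {J : Matrix B B ℝ} {J' : Matrix B' B' ℝ}

theorem real_of_DJ {R : Matrix B' B ℚ} (h : cK ℂ R * DJ J = DJ J' * cK ℂ R) :
    cK ℝ R * J = J' * cK ℝ R := by
  have h4 : (cK ℝ R * J).map (fun x : ℝ => (x : ℂ)) =
      (cK ℝ R).map (fun x : ℝ => (x : ℂ)) * J.map (fun x : ℝ => (x : ℂ)) :=
    Matrix.map_mul (f := Complex.ofRealHom)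
  have h5 : (J' * cK ℝ R).map (fun x : ℝ => (x : ℂ)) =
      J'.map (fun x : ℝ => (x : ℂ)) * (cK ℝ R).map (fun x : ℝ => (x : ℂ)) :=
    Matrix.map_mul (f := Complex.ofRealHom)
  unfold DJ at h
  rw [Matrix.mul_smul, Matrix.smul_mul, ← cK_R, ← h4, ← h5] at h
  have h6 := smul_right_injective _ (neg_ne_zero.2 Complex.I_ne_zero) h
  ext i j
  have h7 := congrFun (congrFun h6 i) j
  simp only [Matrix.map_apply] at h7
  exact_mod_cast h7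

/-- Rational maps compatible with the complex structures are homomorphisms. -/
theorem Cht.hom (h : Cht per J) (h' : Cht per' J') {R : Matrix B' B ℚ}
    (hR : cK ℂ R * DJ J = DJ J' * cK ℂ R) :
    ∃ Ψ : T →ₗ[ℂ] T', ∀ v, Ψ (per v) = per' (R *ᵥ v) := by
  obtain ⟨P, I, hP1, hP2, hI1, hI2⟩ := h.ex
  obtain ⟨P', I', hP1', hP2', hI1', hI2'⟩ := h'.ex
  have hR' := real_of_DJ hR
  have hI3 : ∀ t : T, I (Complex.I • t) = J *ᵥ I t := by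
    intro t
    rw [← hI1 (J *ᵥ I t), hP2, hI2]
  let Ψ : T →ₗ[ℂ] T' :=
    { toFun := fun t => P' (cK ℝ R *ᵥ I t)
      map_add' := by
        intro x y
        rw [map_add, mulVec_add, map_add]
      map_smul' := by
        intro c x
        rw [real_smul_eq c x, map_add, map_smul, map_smul, hI3, mulVec_add, mulVec_smul,
          mulVec_smul, mulVec_mulVec, hR', ← mulVec_mulVec, map_add, map_smul, map_smul, hP2',
          RingHom.id_apply, ← real_smul_eq] }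
  refine ⟨Ψ, fun v => ?_⟩
  change P' (cK ℝ R *ᵥ I (per v)) = _
  rw [← hP1, hI1, ← hP1']
  congr 1
  funext i
  simp [mulVec, dotProduct, cK]

theorem isHodge_congr {κ κ' : Type} (e : κ ≃ κ') {f : (B → ℚ) [⋀^κ]→ₗ[ℚ] ℚ}
    (hf : IsHodge per f) : IsHodge per (f.domDomCongr e) := by
  obtain ⟨ψ, h1, h2⟩ := hf
  refine ⟨ψ.domDomCongr e, fun v => ?_, fun z hz u => ?_⟩
  · rw [MultilinearMap.domDomCongr_apply, AlternatingMap.domDomCongr_apply]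
    exact h1 _
  · rw [MultilinearMap.domDomCongr_apply, MultilinearMap.domDomCongr_apply]
    exact h2 z hz _

end gen

section prod

variable {a₁ a₂ : ℕ} {Z₁ : Matrix (Fin a₁) (Fin a₁) ℂ} {Z₂ : Matrix (Fin a₂) (Fin a₂) ℂ}
  (h₁ : PM Z₁) (h₂ : PM Z₂)

theorem PM.pos_om {g : ℕ} {Z : Matrix (Fin g) (Fin g) ℂ} (h : PM Z) {x : Fin g ⊕ Fin g → ℝ}
    (hx : x ≠ 0) : 0 < (JR Z *ᵥ x) ⬝ᵥ ((-Om g ℝ) *ᵥ x) := by
  have h3 := (OmJ_posDef h.symm h.pos).dotProduct_mulVec_pos hx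
  rw [star_trivial, ← mulVec_mulVec, dotProduct_mulVec, ← mulVec_transpose, Om_transpose,
    neg_mulVec, neg_dotProduct, dotProduct_comm] at h3
  rw [neg_mulVec, dotProduct_neg]
  exact h3

/-- The polarizations of the product. -/
def MP (a₁ a₂ : ℕ) (l : ℚ) : Matrix ((Fin a₁ ⊕ Fin a₁) ⊕ (Fin a₂ ⊕ Fin a₂))
    ((Fin a₁ ⊕ Fin a₁) ⊕ (Fin a₂ ⊕ Fin a₂)) ℚ :=
  fromBlocks (-Om a₁ ℚ) 0 0 (-(l • Om a₂ ℚ))

theorem cK_MP (l : ℚ) : cK ℝ (MP a₁ a₂ l) = fromBlocks (-Om a₁ ℝ) 0 0 (-((l : ℝ) • Om a₂ ℝ)) := by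
  have h1 : cK ℝ (Om a₁ ℚ) = Om a₁ ℝ := Om_map ℝ
  have h2 : cK ℝ (Om a₂ ℚ) = Om a₂ ℝ := Om_map ℝ
  rw [← h1, ← h2]
  ext i j
  rcases i with i | i <;> rcases j with j | j <;> simp [cK, MP]

include h₁ h₂ in
theorem pol_prod {l : ℚ} (hl : 0 < l) : IsPolarization (perP (perOne Z₁) (perOne Z₂))
    (fun v w => v ⬝ᵥ (MP a₁ a₂ l *ᵥ w)) := by
  refine (h₁.cht.prod h₂.cht).polar _ ?_ ?_ ?_
  · unfold MP
    rw [fromBlocks_transpose, fromBlocks_neg, transpose_neg, transpose_neg, transpose_smul,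
      Om_transpose, Om_transpose, transpose_zero, transpose_zero, neg_zero, neg_zero, smul_neg]
  · rw [cK_MP, fromBlocks_transpose, fromBlocks_multiply, fromBlocks_multiply, fromBlocks_add]
    have e1 := JR_sp h₁.symm
    have e2 := JR_sp h₂.symm
    simp only [transpose_zero, Matrix.mul_zero, Matrix.zero_mul, add_zero, zero_add,
      Matrix.mul_neg, Matrix.neg_mul, Matrix.mul_smul, Matrix.smul_mul]
    rw [← neg_add, e1, ← neg_add, ← smul_add, e2]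
    simp
  · intro x hx
    obtain ⟨x₁, x₂, rfl⟩ : ∃ x₁ x₂, x = Sum.elim x₁ x₂ :=
      ⟨fun i => x (Sum.inl i), fun i => x (Sum.inr i), by
        funext i
        rcases i with i | i <;> rfl⟩
    rw [cK_MP, fromBlocks_mulVec, fromBlocks_mulVec, sumElim_dotProduct_sumElim]
    simp only [Sum.elim_comp_inl, Sum.elim_comp_inr, zero_mulVec, add_zero, zero_add]
    have hl' : (0 : ℝ) < l := by exact_mod_cast hl
    have e3 : (JR Z₂ *ᵥ x₂) ⬝ᵥ (-((l : ℝ) • Om a₂ ℝ) *ᵥ x₂) =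
        (l : ℝ) * ((JR Z₂ *ᵥ x₂) ⬝ᵥ ((-Om a₂ ℝ) *ᵥ x₂)) := by
      rw [← smul_neg, smul_mulVec, dotProduct_smul, smul_eq_mul]
    rw [e3]
    by_cases hx₁ : x₁ = 0
    · have hx₂ : x₂ ≠ 0 := by
        rintro rfl
        apply hx
        rw [hx₁]
        funext i
        rcases i with i | i <;> rfl
      rw [hx₁, mulVec_zero, zero_dotProduct, zero_add]
      exact mul_pos hl' (h₂.pos_om hx₂)
    · have e4 := h₁.pos_om hx₁
      have e5 : 0 ≤ (JR Z₂ *ᵥ x₂) ⬝ᵥ ((-Om a₂ ℝ) *ᵥ x₂) := by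
        by_cases hx₂ : x₂ = 0
        · rw [hx₂, mulVec_zero, zero_dotProduct]
        · exact (h₂.pos_om hx₂).le
      nlinarith [mul_nonneg hl'.le e5]

/-- The product of two abelian varieties. -/
abbrev AVP : AV := (h₁.cht.prod h₂.cht).av ⟨_, pol_prod h₁ h₂ one_pos⟩

/-- The conjugates of the complex structure. -/
def DP (Z₁ : Matrix (Fin a₁) (Fin a₁) ℂ) (Z₂ : Matrix (Fin a₂) (Fin a₂) ℂ) (σ : ℂ ≃+* ℂ) :
    Matrix ((Fin a₁ ⊕ Fin a₁) ⊕ (Fin a₂ ⊕ Fin a₂)) ((Fin a₁ ⊕ Fin a₁) ⊕ (Fin a₂ ⊕ Fin a₂)) ℂ :=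
  fromBlocks (DS Z₁ σ) 0 0 (DS Z₂ σ)

theorem DJ_prod : DJ (fromBlocks (JR Z₁) 0 0 (JR Z₂)) = DP Z₁ Z₂ (RingEquiv.refl ℂ) := by
  ext i j
  rcases i with i | i <;> rcases j with j | j <;> simp [DJ, DP, DS, DZ]

theorem DP_map (σ τ : ℂ ≃+* ℂ) : (DP Z₁ Z₂ σ).map τ = DP Z₁ Z₂ (σ.trans τ) := by
  ext i j
  rcases i with i | i <;> rcases j with j | j <;> simp [DP, DS]

include h₁ h₂ in
theorem DP_sq (σ : ℂ ≃+* ℂ) : DP Z₁ Z₂ σ * DP Z₁ Z₂ σ = 1 := by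
  unfold DP
  rw [fromBlocks_multiply, DS_sq h₁.det, DS_sq h₂.det]
  simp only [Matrix.mul_zero, Matrix.zero_mul, add_zero, zero_add, fromBlocks_one]

/-- The Galois stable space spanned by the conjugates of the complex structure. -/
def LP (Z₁ : Matrix (Fin a₁) (Fin a₁) ℂ) (Z₂ : Matrix (Fin a₂) (Fin a₂) ℂ) :
    Submodule ℂ (Matrix ((Fin a₁ ⊕ Fin a₁) ⊕ (Fin a₂ ⊕ Fin a₂))
      ((Fin a₁ ⊕ Fin a₁) ⊕ (Fin a₂ ⊕ Fin a₂)) ℂ) :=
  Submodule.span ℂ (Set.range (DP Z₁ Z₂))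

theorem gal_LP : Gal (LP Z₁ Z₂) := by
  intro τ X hX
  unfold LP at hX
  induction hX using Submodule.span_induction with
  | mem X hX =>
    obtain ⟨σ, rfl⟩ := hX
    rw [DP_map]
    exact Submodule.subset_span ⟨_, rfl⟩
  | zero =>
    rw [Matrix.map_zero _ (map_zero τ)]
    exact Submodule.zero_mem _
  | add X Y _ _ hX hY =>
    rw [Matrix.map_add _ (map_add τ)]
    exact Submodule.add_mem _ hX hY
  | smul c X _ hX =>
    have h1 : (c • X).map τ = τ c • X.map τ := by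
      ext i j
      simp
    rw [h1]
    exact Submodule.smul_mem _ _ hX

variable {U₁ : Submodule ℂ (Fin a₁ ⊕ Fin a₁ → ℂ)} {U₂ : Submodule ℂ (Fin a₂ ⊕ Fin a₂ → ℂ)}
  {φ₁ : Matrix (Fin a₁ ⊕ Fin a₁) (Fin a₁ ⊕ Fin a₁) ℚ}
  {φ₂ : Matrix (Fin a₂ ⊕ Fin a₂) (Fin a₂ ⊕ Fin a₂) ℚ} {α : ℂ} {d : ℚ}
  (k₁ : KT Z₁ U₁ φ₁ α d) (k₂ : KT Z₂ U₂ φ₂ α d)
  {ι ι' : Type} [Fintype ι] [DecidableEq ι] [Fintype ι'] [DecidableEq ι']
  (f₁ : Basis ι ℂ U₁) (f₂ : Basis ι' ℂ U₂)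

/-- The form defining the Weil classes. -/
def GY : MultilinearMap ℂ (fun _ : ι ⊕ ι' => (Fin a₁ ⊕ Fin a₁) ⊕ (Fin a₂ ⊕ Fin a₂) → ℂ) ℂ :=
  prd ((k₁.dl f₁).compLinearMap (fun _ => LinearMap.funLeft ℂ ℂ Sum.inl))
    ((k₂.dl f₂).compLinearMap (fun _ => LinearMap.funLeft ℂ ℂ Sum.inr))

theorem GY_apply (w : ι ⊕ ι' → (Fin a₁ ⊕ Fin a₁) ⊕ (Fin a₂ ⊕ Fin a₂) → ℂ) :
    GY k₁ k₂ f₁ f₂ w = k₁.dl f₁ (fun y i => w (Sum.inl y) (Sum.inl i)) *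
      k₂.dl f₂ (fun y i => w (Sum.inr y) (Sum.inr i)) := rfl

/-- The endomorphism. -/
def PH (φ₁ : Matrix (Fin a₁ ⊕ Fin a₁) (Fin a₁ ⊕ Fin a₁) ℚ)
    (φ₂ : Matrix (Fin a₂ ⊕ Fin a₂) (Fin a₂ ⊕ Fin a₂) ℚ) :
    Matrix ((Fin a₁ ⊕ Fin a₁) ⊕ (Fin a₂ ⊕ Fin a₂)) ((Fin a₁ ⊕ Fin a₁) ⊕ (Fin a₂ ⊕ Fin a₂)) ℚ :=
  fromBlocks φ₁ 0 0 φ₂

theorem qm_PH : qm (PH φ₁ φ₂) = fromBlocks (qm φ₁) 0 0 (qm φ₂) := by
  ext i j
  rcases i with i | i <;> rcases j with j | j <;> simp [PH]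

theorem PH_l (w : (Fin a₁ ⊕ Fin a₁) ⊕ (Fin a₂ ⊕ Fin a₂) → ℂ) :
    (fun i => (qm (PH φ₁ φ₂) *ᵥ w) (Sum.inl i)) = qm φ₁ *ᵥ fun i => w (Sum.inl i) := by
  funext i
  rw [qm_PH, fromBlocks_mulVec, Sum.elim_inl, zero_mulVec, add_zero]
  rfl

theorem PH_r (w : (Fin a₁ ⊕ Fin a₁) ⊕ (Fin a₂ ⊕ Fin a₂) → ℂ) :
    (fun i => (qm (PH φ₁ φ₂) *ᵥ w) (Sum.inr i)) = qm φ₂ *ᵥ fun i => w (Sum.inr i) := by
  funext i
  rw [qm_PH, fromBlocks_mulVec, Sum.elim_inr, zero_mulVec, zero_add]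
  rfl

/-- The endomorphism may be moved. -/
theorem GY_PH (w : ι ⊕ ι' → (Fin a₁ ⊕ Fin a₁) ⊕ (Fin a₂ ⊕ Fin a₂) → ℂ) (k : ι ⊕ ι') :
    GY k₁ k₂ f₁ f₂ (Function.update w k (qm (PH φ₁ φ₂) *ᵥ w k)) = α * GY k₁ k₂ f₁ f₂ w := by
  rw [GY_apply, GY_apply]
  rcases k with k | k
  · have e1 : (fun (y : ι) i => Function.update w (Sum.inl k) (qm (PH φ₁ φ₂) *ᵥ w (Sum.inl k))
        (Sum.inl y) (Sum.inl i)) = Function.update (fun (y : ι) i => w (Sum.inl y) (Sum.inl i)) k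
          (qm φ₁ *ᵥ fun i => w (Sum.inl k) (Sum.inl i)) := by
      funext y
      by_cases hy : y = k
      · subst hy
        rw [Function.update_self, Function.update_self, ← PH_l (φ₂ := φ₂)]
      · rw [Function.update_of_ne hy, Function.update_of_ne (fun h => hy (Sum.inl_injective h))]
    have e2 : (fun (y : ι') i => Function.update w (Sum.inl k) (qm (PH φ₁ φ₂) *ᵥ w (Sum.inl k))
        (Sum.inr y) (Sum.inr i)) = fun y i => w (Sum.inr y) (Sum.inr i) := by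
      funext y
      rw [Function.update_of_ne (by simp)]
    have e3 := k₁.dl_phi f₁ (fun y i => w (Sum.inl y) (Sum.inl i)) k
    rw [e1, e2, e3, mul_assoc]
  · have e1 : (fun (y : ι') i => Function.update w (Sum.inr k) (qm (PH φ₁ φ₂) *ᵥ w (Sum.inr k))
        (Sum.inr y) (Sum.inr i)) = Function.update (fun (y : ι') i => w (Sum.inr y) (Sum.inr i)) k
          (qm φ₂ *ᵥ fun i => w (Sum.inr k) (Sum.inr i)) := by
      funext y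
      by_cases hy : y = k
      · subst hy
        rw [Function.update_self, Function.update_self, ← PH_r (φ₁ := φ₁)]
      · rw [Function.update_of_ne hy, Function.update_of_ne (fun h => hy (Sum.inr_injective h))]
    have e2 : (fun (y : ι) i => Function.update w (Sum.inr k) (qm (PH φ₁ φ₂) *ᵥ w (Sum.inr k))
        (Sum.inl y) (Sum.inl i)) = fun y i => w (Sum.inl y) (Sum.inl i) := by
      funext y
      rw [Function.update_of_ne (by simp)]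
    have e3 := k₂.dl_phi f₂ (fun y i => w (Sum.inr y) (Sum.inr i)) k
    rw [e1, e2, e3]
    ring

theorem torP_l (σ : ℂ ≃+* ℂ) (w : (Fin a₁ ⊕ Fin a₁) ⊕ (Fin a₂ ⊕ Fin a₂) → ℂ) :
    (fun i => torE (ph _ (DP Z₁ Z₂ σ)) two w (Sum.inl i)) =
      torE (ph _ (DS Z₁ σ)) two fun i => w (Sum.inl i) := by
  rw [torE_two, torE_two]
  have h1 : (fun i => (DP Z₁ Z₂ σ *ᵥ w) (Sum.inl i)) = DS Z₁ σ *ᵥ fun i => w (Sum.inl i) := by
    funext i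
    unfold DP
    rw [fromBlocks_mulVec, Sum.elim_inl, zero_mulVec, add_zero]
    rfl
  change (fun i => (5 / 4 : ℂ) * w (Sum.inl i) + (3 / 4 : ℂ) * (DP Z₁ Z₂ σ *ᵥ w) (Sum.inl i)) =
    (5 / 4 : ℂ) • (fun i => w (Sum.inl i)) + (3 / 4 : ℂ) • (DS Z₁ σ *ᵥ fun i => w (Sum.inl i))
  rw [← h1]
  rfl

theorem torP_r (σ : ℂ ≃+* ℂ) (w : (Fin a₁ ⊕ Fin a₁) ⊕ (Fin a₂ ⊕ Fin a₂) → ℂ) :
    (fun i => torE (ph _ (DP Z₁ Z₂ σ)) two w (Sum.inr i)) =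
      torE (ph _ (DS Z₂ σ)) two fun i => w (Sum.inr i) := by
  rw [torE_two, torE_two]
  have h1 : (fun i => (DP Z₁ Z₂ σ *ᵥ w) (Sum.inr i)) = DS Z₂ σ *ᵥ fun i => w (Sum.inr i) := by
    funext i
    unfold DP
    rw [fromBlocks_mulVec, Sum.elim_inr, zero_mulVec, zero_add]
    rfl
  change (fun i => (5 / 4 : ℂ) * w (Sum.inr i) + (3 / 4 : ℂ) * (DP Z₁ Z₂ σ *ᵥ w) (Sum.inr i)) =
    (5 / 4 : ℂ) • (fun i => w (Sum.inr i)) + (3 / 4 : ℂ) • (DS Z₂ σ *ᵥ fun i => w (Sum.inr i))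
  rw [← h1]
  rfl

variable (t₁ : tr Z₁ U₁ = 1) (t₂ : tr Z₂ U₂ = -1)

include k₁ k₂ t₁ t₂ in
theorem tr_sum (τ : ℂ ≃+* ℂ) : tr Z₁ (cjS τ U₁) + tr Z₂ (cjS τ U₂) = 0 := by
  have h0 := k₁.al_ne
  have h1 : (2 : ℂ) * α ≠ 0 := mul_ne_zero two_ne_zero h0
  rcases k₁.tr_cj τ with ⟨h2, h3⟩ | ⟨h2, h3⟩ <;> rcases k₂.tr_cj τ with ⟨h4, h5⟩ | ⟨h4, h5⟩
  · rw [h3, h5, t₁, t₂]
    rfl
  · exfalso
    apply h1
    linear_combination h4 - h2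
  · exfalso
    apply h1
    linear_combination h2 - h4
  · rw [h3, h5, t₁, t₂]
    rfl

include h₁ h₂ t₁ t₂ in
theorem GY_kill : ∀ X ∈ LP Z₁ Z₂, act X (CF (GY k₁ k₂ f₁ f₂)) = 0 := by
  have h1 : LP Z₁ Z₂ ≤ LinearMap.ker (actL (CF (GY k₁ k₂ f₁ f₂))) := by
    refine Submodule.span_le.2 ?_
    rintro _ ⟨σ, rfl⟩
    rw [SetLike.mem_coe, LinearMap.mem_ker, actL_apply]
    refine kill_of_inv (DP_sq h₁ h₂ σ) fun w => ?_
    rw [GY_apply, GY_apply]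
    have e1 := k₁.dl_tor h₁ f₁ σ (fun y i => w (Sum.inl y) (Sum.inl i))
    have e2 := k₂.dl_tor h₂ f₂ σ (fun y i => w (Sum.inr y) (Sum.inr i))
    have e3 : (fun (y : ι) i => torE (ph _ (DP Z₁ Z₂ σ)) two (w (Sum.inl y)) (Sum.inl i)) =
        fun y => torE (ph _ (DS Z₁ σ)) two fun i => w (Sum.inl y) (Sum.inl i) := by
      funext y
      exact torP_l σ (w (Sum.inl y))
    have e4 : (fun (y : ι') i => torE (ph _ (DP Z₁ Z₂ σ)) two (w (Sum.inr y)) (Sum.inr i)) =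
        fun y => torE (ph _ (DS Z₂ σ)) two fun i => w (Sum.inr y) (Sum.inr i) := by
      funext y
      exact torP_r σ (w (Sum.inr y))
    rw [e3, e4, e1, e2, mul_mul_mul_comm, ← zpow_add₀ two_ne_zero,
      tr_sum k₁ k₂ t₁ t₂ σ.symm, zpow_zero, one_mul]
  intro X hX
  have h2 := h1 hX
  rwa [LinearMap.mem_ker, actL_apply] at h2

include h₁ h₂ t₁ t₂ in
/-- The rational parts are Hodge classes. -/
theorem GY_hodge (l : ℂ →ₗ[ℚ] ℚ) :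
    IsHodge (perP (perOne Z₁) (perOne Z₂)) (ratA (GY k₁ k₂ f₁ f₂) l) := by
  refine (h₁.cht.prod h₂.cht).hodge_rat gal_LP ?_ (GY_kill h₁ h₂ k₁ k₂ f₁ f₂ t₁ t₂) l
  rw [DJ_prod]
  exact Submodule.subset_span ⟨_, rfl⟩

/-- The endomorphism may be moved in the rational parts. -/
theorem ratA_move (l : ℂ →ₗ[ℚ] ℚ) (v : ι ⊕ ι' → (Fin a₁ ⊕ Fin a₁) ⊕ (Fin a₂ ⊕ Fin a₂) → ℚ)
    (k : ι ⊕ ι') : ratA (GY k₁ k₂ f₁ f₂) l (Function.update v k (PH φ₁ φ₂ *ᵥ v k)) =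
      ∑ σ : Equiv.Perm (ι ⊕ ι'), ((Equiv.Perm.sign σ : ℤ) : ℚ) *
        l (α * GY k₁ k₂ f₁ f₂ (fun k => cv (v (σ k)))) := by
  rw [ratA_apply]
  refine Finset.sum_congr rfl fun σ _ => ?_
  congr 2
  rw [← GY_PH k₁ k₂ f₁ f₂ _ (σ.symm k)]
  congr 1
  funext j
  by_cases hj : j = σ.symm k
  · subst hj
    rw [Function.update_self, Equiv.apply_symm_apply, Function.update_self]
    funext i
    simp [cv, mulVec, dotProduct]
  · rw [Function.update_of_ne hj, Function.update_of_ne]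
    intro h
    exact hj (by rw [← h, Equiv.symm_apply_apply])

end prod

end

end Pool.Agent.Y90
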