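import Mathlib
import Pool.Agent.Y90.Wei2

/-!
# Hermitian forms and discriminants
-/

set_option linter.unusedSectionVars false

namespace Pool.Agent.Y90

open Matrix Module Pool.Agent.W437.HC Pool.Agent.W437.HD Pool.Agent.W548.Odd Pool.Agent.TH504.CB
open Pool.Agent.H204R3.CM (IsHodge)
open Pool.Agent.W437.HP (cK cK_mul cK_one)
open scoped ComplexOrder

noncomputable section

variable {a : ℕ} {Z : Matrix (Fin a) (Fin a) ℂ} {U : Submodule ℂ (Fin a ⊕ Fin a → ℂ)}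
  {φ : Matrix (Fin a ⊕ Fin a) (Fin a ⊕ Fin a) ℚ} {α : ℂ} {d : ℚ}

/-- The conjugate of a vector. -/
def cnj (v : Fin a ⊕ Fin a → ℂ) : Fin a ⊕ Fin a → ℂ := fun i => cc (v i)

theorem cnj_cnj (v : Fin a ⊕ Fin a → ℂ) : cnj (cnj v) = v := by
  funext i
  exact Complex.conj_conj _

theorem cnj_cv (v : Fin a ⊕ Fin a → ℚ) : cnj (cv v) = cv v := by
  funext i
  simp [cnj, cv]

theorem cnj_add (u v : Fin a ⊕ Fin a → ℂ) : cnj (u + v) = cnj u + cnj v := by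
  funext i
  exact map_add cc _ _

theorem cnj_smul (c : ℂ) (v : Fin a ⊕ Fin a → ℂ) : cnj (c • v) = cc c • cnj v := by
  funext i
  exact map_mul cc _ _

theorem KT.iso (h : PM Z) (k : KT Z U φ α d) {u v : Fin a ⊕ Fin a → ℂ} (hu : u ∈ U) (hv : v ∈ U) :
    om a u v = 0 := by
  by_contra hcon
  have h1 := tr_dual (b := om a) h k.irr k.irr ⟨u, hu, v, hv, hcon⟩
    (fun X hX u _ v _ => h.om_sp hX u v)
  unfold tr at h1
  rcases k.sgn with h2 | h2 <;> omega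

theorem KT.mem_cj (k : KT Z U φ α d) (v : Fin a ⊕ Fin a → ℂ) :
    cnj v ∈ U ↔ qm φ *ᵥ v = -α • v := by
  have h1 := k.cj cc v
  rw [k.cc_al] at h1
  exact h1

theorem KT.iso' (h : PM Z) (k : KT Z U φ α d) {u v : Fin a ⊕ Fin a → ℂ} (hu : cnj u ∈ U)
    (hv : cnj v ∈ U) : om a u v = 0 := by
  have h1 := k.iso h hu hv
  have h2 := om_conj cc (cnj u) (cnj v)
  rw [h1, map_zero] at h2
  have h3 : om a (fun i => cc (cnj u i)) (fun i => cc (cnj v i)) = om a u v := by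
    change om a (cnj (cnj u)) (cnj (cnj v)) = _
    rw [cnj_cnj, cnj_cnj]
  rw [h3] at h2
  exact h2.symm

/-- The complementary projection. -/
theorem KT.compl (k : KT Z U φ α d) (v : Fin a ⊕ Fin a → ℂ) : cnj (v - pj φ α v) ∈ U := by
  have h0 := k.al_ne
  have h1 : qm φ *ᵥ v = (2 * α) • pj φ α v - α • v := by
    rw [pj_apply, smul_smul, mul_inv_cancel₀ (mul_ne_zero two_ne_zero h0), one_smul,
      add_sub_cancel_right]
  rw [k.mem_cj, mulVec_sub, (k.mem _).1 (k.pj_mem v), h1]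
  module

/-- The Rosati involution. -/
theorem KT.skew (h : PM Z) (k : KT Z U φ α d) (u v : Fin a ⊕ Fin a → ℂ) :
    om a (qm φ *ᵥ u) v = -om a u (qm φ *ᵥ v) := by
  obtain ⟨u₁, u₂, hu₁, hu₂, rfl⟩ : ∃ u₁ u₂, u₁ ∈ U ∧ cnj u₂ ∈ U ∧ u = u₁ + u₂ :=
    ⟨_, _, k.pj_mem u, k.compl u, by abel⟩
  obtain ⟨v₁, v₂, hv₁, hv₂, rfl⟩ : ∃ u₁ u₂, u₁ ∈ U ∧ cnj u₂ ∈ U ∧ v = u₁ + u₂ :=
    ⟨_, _, k.pj_mem v, k.compl v, by abel⟩
  rw [mulVec_add, mulVec_add, (k.mem _).1 hu₁, (k.mem _).1 hv₁, (k.mem_cj _).1 hu₂,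
    (k.mem_cj _).1 hv₂]
  simp only [map_add, map_smul, LinearMap.add_apply, LinearMap.smul_apply, smul_eq_mul,
    k.iso h hu₁ hv₁, k.iso' h hu₂ hv₂]
  ring

/-- The Riemann form. -/
def rE (a : ℕ) (v w : Fin a ⊕ Fin a → ℚ) : ℚ := v ⬝ᵥ ((-Om a ℚ) *ᵥ w)

theorem rE_cv (v w : Fin a ⊕ Fin a → ℚ) : ((rE a v w : ℚ) : ℂ) = -om a (cv v) (cv w) := by
  have h1 : Om a ℂ = (Om a ℚ).map (fun x : ℚ => (x : ℂ)) := (Om_map ℂ).symm
  have h2 : Om a ℂ *ᵥ cv w = cv (Om a ℚ *ᵥ w) := by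
    rw [h1]
    funext i
    simp only [cv, mulVec, dotProduct, Matrix.map_apply]
    push_cast
    rfl
  rw [om_apply, h2, rE, neg_mulVec, dotProduct_neg, Rat.cast_neg]
  simp only [cv, dotProduct]
  push_cast
  rfl

theorem cv_mulVec' (v : Fin a ⊕ Fin a → ℚ) : cv (φ *ᵥ v) = qm φ *ᵥ cv v := by
  funext i
  simp [cv, mulVec, dotProduct]

theorem KT.skewQ (h : PM Z) (k : KT Z U φ α d) (v w : Fin a ⊕ Fin a → ℚ) :
    rE a (φ *ᵥ v) w = -rE a v (φ *ᵥ w) := by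
  have h1 : ((rE a (φ *ᵥ v) w : ℚ) : ℂ) = ((-rE a v (φ *ᵥ w) : ℚ) : ℂ) := by
    rw [Rat.cast_neg, rE_cv, rE_cv, cv_mulVec', cv_mulVec', k.skew h]
  exact_mod_cast h1

theorem rE_alt (v w : Fin a ⊕ Fin a → ℚ) : rE a v w = -rE a w v := by
  have h1 : ((rE a v w : ℚ) : ℂ) = ((-rE a w v : ℚ) : ℂ) := by
    rw [Rat.cast_neg, rE_cv, rE_cv, om_anti]
  exact_mod_cast h1

/-- Rational vectors whose projections are a basis. -/
theorem KT.exists_basis (k : KT Z U φ α d) : ∃ (x : Fin a → (Fin a ⊕ Fin a → ℚ))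
    (b : Basis (Fin a) ℂ U), ∀ j, b j = k.pU (cv (x j)) := by
  let t : Set U := Set.range fun i : Fin a ⊕ Fin a => k.pU (cv (Pi.single i 1))
  have ht : Submodule.span ℂ t = ⊤ := by
    rw [eq_top_iff]
    rintro u _
    have h1 : u = k.pU u := (k.pU_of_mem u.2).symm
    have h2 : (u : Fin a ⊕ Fin a → ℂ) = ∑ i, (u : Fin a ⊕ Fin a → ℂ) i • cv (Pi.single i 1) := by
      funext j
      simp [single_cv, Finset.sum_apply, Pi.single_apply]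
    rw [h1, h2, map_sum]
    refine Submodule.sum_mem _ fun i _ => ?_
    rw [map_smul]
    exact Submodule.smul_mem _ _ (Submodule.subset_span ⟨i, rfl⟩)
  obtain ⟨s, hst, hs1, hs2⟩ := exists_linearIndependent ℂ t
  let b0 : Basis s ℂ U := Basis.mk hs2 (by
    rw [Subtype.range_coe, hs1, ht])
  have hfin : Finite s := Finite.Set.subset t hst
  have : Fintype s := Fintype.ofFinite s
  have hcard : Fintype.card s = a := by
    rw [← finrank_eq_card_basis b0, k.dim]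
  let e : s ≃ Fin a := Fintype.equivFinOfCardEq hcard
  have hx : ∀ j, ∃ x : Fin a ⊕ Fin a → ℚ, b0.reindex e j = k.pU (cv x) := by
    intro j
    obtain ⟨i, hi⟩ := hst (e.symm j).2
    refine ⟨Pi.single i 1, ?_⟩
    rw [Basis.reindex_apply, Basis.mk_apply]
    exact hi.symm
  choose x hx using hx
  exact ⟨x, b0.reindex e, hx⟩

theorem om_cvJ (x y : Fin a ⊕ Fin a → ℝ) :
    om a (fun i => (x i : ℂ)) (fun i => (y i : ℂ)) = ((x ⬝ᵥ (Om a ℝ *ᵥ y) : ℝ) : ℂ) := by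
  have h1 : Om a ℂ = (Om a ℝ).map (fun x : ℝ => (x : ℂ)) := by
    ext i j
    rcases i with i | i <;> rcases j with j | j <;> simp [Om, Matrix.one_apply, apply_ite]
  rw [om_apply, h1]
  simp [mulVec, dotProduct]

/-- The positivity of the Hermitian form. -/
theorem PM.herm_pos (h : PM Z) {w : Fin a ⊕ Fin a → ℂ} (hw : w ≠ 0) :
    0 < Complex.I * om a (cnj w) (DZ Z *ᵥ w) := by
  obtain ⟨x, y, rfl⟩ : ∃ x y : Fin a ⊕ Fin a → ℝ,
      w = (fun i => (x i : ℂ)) + Complex.I • fun i => (y i : ℂ) :=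
    ⟨fun i => (w i).re, fun i => (w i).im, by
      funext i
      rw [Pi.add_apply, Pi.smul_apply, smul_eq_mul, mul_comm]
      exact (Complex.re_add_im _).symm⟩
  have hJ : ∀ x : Fin a ⊕ Fin a → ℝ, DZ Z *ᵥ (fun i => (x i : ℂ)) =
      (-Complex.I) • fun i => (((JR Z *ᵥ x) i : ℝ) : ℂ) := by
    intro x
    unfold DZ
    rw [smul_mulVec]
    congr 1
    funext i
    simp [mulVec, dotProduct]
  have hc : cnj ((fun i => (x i : ℂ)) + Complex.I • fun i => (y i : ℂ)) =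
      (fun i => (x i : ℂ)) - Complex.I • fun i => (y i : ℂ) := by
    funext i
    simp [cnj, cc]
    ring
  have hsp : ∀ x y : Fin a ⊕ Fin a → ℝ, (JR Z *ᵥ x) ⬝ᵥ (Om a ℝ *ᵥ y) =
      -(x ⬝ᵥ (Om a ℝ *ᵥ (JR Z *ᵥ y))) := by
    intro x y
    have h1 : (JR Z)ᵀ * Om a ℝ = -(Om a ℝ * JR Z) := eq_neg_of_add_eq_zero_left (JR_sp h.symm)
    have h2 : (JR Z *ᵥ x) ⬝ᵥ (Om a ℝ *ᵥ y) = x ⬝ᵥ (((JR Z)ᵀ * Om a ℝ) *ᵥ y) := by
      rw [← mulVec_mulVec, dotProduct_mulVec x, vecMul_transpose]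
    rw [h2, h1, neg_mulVec, dotProduct_neg, mulVec_mulVec]
  have halt : ∀ x y : Fin a ⊕ Fin a → ℝ, x ⬝ᵥ (Om a ℝ *ᵥ y) = -(y ⬝ᵥ (Om a ℝ *ᵥ x)) := by
    intro x y
    rw [dotProduct_mulVec, ← mulVec_transpose, Om_transpose, neg_mulVec, neg_dotProduct,
      dotProduct_comm]
  have hsymm : x ⬝ᵥ (Om a ℝ *ᵥ (JR Z *ᵥ y)) = y ⬝ᵥ (Om a ℝ *ᵥ (JR Z *ᵥ x)) := by
    rw [halt x, hsp y x, neg_neg]
  rw [hc, mulVec_add, mulVec_smul, hJ, hJ]
  have e1 : Complex.I * om a ((fun i => (x i : ℂ)) - Complex.I • fun i => (y i : ℂ))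
      ((-Complex.I) • (fun i => (((JR Z *ᵥ x) i : ℝ) : ℂ)) +
        Complex.I • (-Complex.I) • fun i => (((JR Z *ᵥ y) i : ℝ) : ℂ)) =
      ((x ⬝ᵥ (Om a ℝ *ᵥ (JR Z *ᵥ x)) + y ⬝ᵥ (Om a ℝ *ᵥ (JR Z *ᵥ y)) : ℝ) : ℂ) := by
    simp only [map_add, map_sub, map_smul, LinearMap.sub_apply, LinearMap.smul_apply, smul_eq_mul,
      om_cvJ]
    rw [hsymm]
    push_cast
    linear_combination (-((x ⬝ᵥ (Om a ℝ *ᵥ (JR Z *ᵥ x)) : ℝ) : ℂ) +
      ((y ⬝ᵥ (Om a ℝ *ᵥ (JR Z *ᵥ y)) : ℝ) : ℂ) * (Complex.I * Complex.I - 1)) * Complex.I_mul_I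
  rw [e1]
  have hpos : ∀ x : Fin a ⊕ Fin a → ℝ, x ≠ 0 → 0 < x ⬝ᵥ (Om a ℝ *ᵥ (JR Z *ᵥ x)) := by
    intro x hx
    have h1 := (OmJ_posDef h.symm h.pos).dotProduct_mulVec_pos hx
    rwa [star_trivial, ← mulVec_mulVec] at h1
  have hnn : ∀ x : Fin a ⊕ Fin a → ℝ, 0 ≤ x ⬝ᵥ (Om a ℝ *ᵥ (JR Z *ᵥ x)) := by
    intro x
    by_cases hx : x = 0
    · rw [hx, zero_dotProduct]
    · exact (hpos x hx).le
  rw [Complex.zero_lt_real]
  by_cases hx : x = 0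
  · have hy : y ≠ 0 := by
      rintro rfl
      apply hw
      rw [hx]
      funext i
      simp
    exact add_pos_of_nonneg_of_pos (hnn x) (hpos y hy)
  · exact add_pos_of_pos_of_nonneg (hpos x hx) (hnn y)

end

end Pool.Agent.Y90
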