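import Mathlib
import Pool.Agent.Y90.Wei3

/-!
# Gram determinants
-/

set_option linter.unusedSectionVars false

namespace Pool.Agent.Y90

open Matrix Module Pool.Agent.W437.HC Pool.Agent.W437.HD Pool.Agent.W548.Odd Pool.Agent.TH504.CB
open Pool.Agent.H204R3.CM (IsHodge)
open Pool.Agent.W437.HP (cK cK_mul cK_one)
open scoped ComplexOrder

noncomputable section

variable {a : ℕ} {Z : Matrix (Fin a) (Fin a) ℂ} {U : Submodule ℂ (Fin a ⊕ Fin a → ℂ)}
  {φ : Matrix (Fin a ⊕ Fin a) (Fin a ⊕ Fin a) ℚ} {α : ℂ} {d : ℚ}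

theorem cnj_mulVec (M : Matrix (Fin a ⊕ Fin a) (Fin a ⊕ Fin a) ℂ) (v : Fin a ⊕ Fin a → ℂ) :
    cnj (M *ᵥ v) = M.map cc *ᵥ cnj v := map_mulVec_aut cc M v

theorem cnj_DZ (v : Fin a ⊕ Fin a → ℂ) : cnj (DZ Z *ᵥ v) = -(DZ Z *ᵥ cnj v) := by
  rw [cnj_mulVec, DZ_conj, neg_mulVec]

theorem KT.pj_cnj (k : KT Z U φ α d) (x : Fin a ⊕ Fin a → ℚ) :
    cv x = pj φ α (cv x) + cnj (pj φ α (cv x)) := by
  have h0 := k.al_ne
  have h1 : cnj (pj φ α (cv x)) = (2 * -α)⁻¹ • (qm φ *ᵥ cv x + (-α) • cv x) := by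
    rw [pj_apply, cnj_smul, cnj_add, cnj_smul, cnj_mulVec, cnj_cv, map_inv₀, map_mul, map_ofNat,
      k.cc_al]
    have h2 : (qm φ).map cc = qm φ := cK_aut cc φ
    rw [h2]
  rw [h1, pj_apply]
  have h2 : (2 * -α)⁻¹ = -(2 * α)⁻¹ := by
    rw [mul_neg, inv_neg]
  rw [h2]
  have h3 : (2 * α)⁻¹ • (qm φ *ᵥ cv x + α • cv x) + -(2 * α)⁻¹ • (qm φ *ᵥ cv x + -α • cv x) =
      ((2 * α)⁻¹ * (2 * α)) • cv x := by module
  rw [h3, inv_mul_cancel₀ (mul_ne_zero two_ne_zero h0), one_smul]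

/-- The Hermitian form. -/
def hP (Z : Matrix (Fin a) (Fin a) ℂ) (u v : Fin a ⊕ Fin a → ℂ) : ℂ :=
  Complex.I * om a (cnj u) (DZ Z *ᵥ v)

theorem hP_symm (h : PM Z) (u v : Fin a ⊕ Fin a → ℂ) : cc (hP Z u v) = hP Z v u := by
  unfold hP
  rw [map_mul]
  have h1 : cc (om a (cnj u) (DZ Z *ᵥ v)) = om a u (-(DZ Z *ᵥ cnj v)) := by
    rw [om_conj cc]
    have h2 : (fun i => cc (cnj u i)) = u := cnj_cnj u
    have h3 : (fun i => cc ((DZ Z *ᵥ v) i)) = -(DZ Z *ᵥ cnj v) := cnj_DZ v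
    rw [h2, h3]
  have h4 : cc Complex.I = -Complex.I := Complex.conj_I
  have h5 := h.om_sp DZ_mem u (cnj v)
  rw [h1, h4, map_neg, om_anti (cnj v)]
  linear_combination Complex.I * h5

theorem hP_add_left (u u' v : Fin a ⊕ Fin a → ℂ) : hP Z (u + u') v = hP Z u v + hP Z u' v := by
  unfold hP
  rw [cnj_add, map_add, LinearMap.add_apply, mul_add]

theorem hP_smul_left (c : ℂ) (u v : Fin a ⊕ Fin a → ℂ) : hP Z (c • u) v = cc c * hP Z u v := by
  unfold hP
  rw [cnj_smul, map_smul, LinearMap.smul_apply, smul_eq_mul]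
  ring

theorem hP_add_right (u v v' : Fin a ⊕ Fin a → ℂ) : hP Z u (v + v') = hP Z u v + hP Z u v' := by
  unfold hP
  rw [mulVec_add, map_add, mul_add]

theorem hP_smul_right (c : ℂ) (u v : Fin a ⊕ Fin a → ℂ) : hP Z u (c • v) = c * hP Z u v := by
  unfold hP
  rw [mulVec_smul, map_smul, smul_eq_mul]
  ring

theorem hP_sum_left {ι : Type*} (s : Finset ι) (u : ι → Fin a ⊕ Fin a → ℂ)
    (v : Fin a ⊕ Fin a → ℂ) : hP Z (∑ i ∈ s, u i) v = ∑ i ∈ s, hP Z (u i) v := by
  classical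
  induction s using Finset.induction_on with
  | empty =>
    rw [Finset.sum_empty, Finset.sum_empty]
    have h1 := hP_smul_left (Z := Z) 0 0 v
    rwa [zero_smul, map_zero, zero_mul] at h1
  | insert i s hi ih => rw [Finset.sum_insert hi, Finset.sum_insert hi, hP_add_left, ih]

theorem hP_sum_right {ι : Type*} (s : Finset ι) (u : Fin a ⊕ Fin a → ℂ)
    (v : ι → Fin a ⊕ Fin a → ℂ) : hP Z u (∑ i ∈ s, v i) = ∑ i ∈ s, hP Z u (v i) := by
  classical
  induction s using Finset.induction_on with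
  | empty =>
    rw [Finset.sum_empty, Finset.sum_empty]
    have h1 := hP_smul_right (Z := Z) 0 u 0
    rwa [zero_smul, zero_mul] at h1
  | insert i s hi ih => rw [Finset.sum_insert hi, Finset.sum_insert hi, hP_add_right, ih]

/-- The Gram determinants of the Hermitian forms. -/
theorem KT.gram (h : PM Z) (k : KT Z U φ α d) :
    ∃ (x : Fin a → (Fin a ⊕ Fin a → ℚ)) (r : ℚ) (P : ℝ), 0 < P ∧
      (Matrix.of fun i j => ((rE a (x i) (φ *ᵥ x j) : ℚ) : ℂ) +
        α * ((rE a (x i) (x j) : ℚ) : ℂ)).det = r ∧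
      (r : ℂ) * (-1) ^ qd Z U = (2 * Complex.I * α) ^ a * P := by
  have h0 := k.al_ne
  obtain ⟨x, b, hx⟩ := k.exists_basis
  let u : Fin a → Fin a ⊕ Fin a → ℂ := fun j => pj φ α (cv (x j))
  have hu : ∀ j, (b j : Fin a ⊕ Fin a → ℂ) = u j := fun j => by
    rw [hx]
    rfl
  have huU : ∀ j, u j ∈ U := fun j => k.pj_mem _
  let M : Matrix (Fin a) (Fin a) ℂ := Matrix.of fun i j =>
    ((rE a (x i) (φ *ᵥ x j) : ℚ) : ℂ) + α * ((rE a (x i) (x j) : ℚ) : ℂ)
  have hM : ∀ i j, M i j = -(2 * α) * om a (cnj (u i)) (u j) := by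
    intro i j
    change ((rE a (x i) (φ *ᵥ x j) : ℚ) : ℂ) + α * ((rE a (x i) (x j) : ℚ) : ℂ) = _
    have h1 : (2 * α) • u j = qm φ *ᵥ cv (x j) + α • cv (x j) := by
      change (2 * α) • pj φ α (cv (x j)) = _
      rw [pj_apply, smul_smul, mul_inv_cancel₀ (mul_ne_zero two_ne_zero h0), one_smul]
    have h2 := congrArg (om a (cv (x i))) h1
    rw [map_add, map_smul, map_smul, smul_eq_mul, smul_eq_mul] at h2
    have h3 : om a (cv (x i)) (u j) = om a (cnj (u i)) (u j) := by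
      conv_lhs => rw [k.pj_cnj (x i)]
      rw [map_add, LinearMap.add_apply]
      have h4 : om a (pj φ α (cv (x i))) (u j) = 0 := k.iso h (huU i) (huU j)
      rw [h4, zero_add]
    rw [rE_cv, rE_cv, cv_mulVec']
    rw [h3] at h2
    linear_combination h2
  -- the positive definite matrix
  let P : Matrix (Fin a) (Fin a) ℂ := Matrix.of fun i j => hP Z (u i) (u j)
  have hPd : P.PosDef := by
    refine PosDef.of_dotProduct_mulVec_pos ?_ fun c hc => ?_
    · ext i j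
      exact hP_symm h (u j) (u i)
    · have hw : ∑ j, c j • u j ≠ 0 := by
        intro h1
        apply hc
        have h2 : ∑ j, c j • b j = 0 := by
          apply Subtype.ext
          rw [AddSubmonoidClass.coe_finsetSum]
          refine Eq.trans ?_ h1
          refine Finset.sum_congr rfl fun j _ => ?_
          rw [← hu j]
          rfl
        funext j
        exact Fintype.linearIndependent_iff.1 b.linearIndependent c h2 j
      have h1 := h.herm_pos hw
      have h2 : star c ⬝ᵥ (P *ᵥ c) = Complex.I * om a (cnj (∑ j, c j • u j))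
          (DZ Z *ᵥ ∑ j, c j • u j) := by
        change _ = hP Z (∑ j, c j • u j) (∑ j, c j • u j)
        rw [hP_sum_left]
        simp only [dotProduct, mulVec, Pi.star_apply, P, Matrix.of_apply]
        refine Finset.sum_congr rfl fun i _ => ?_
        rw [hP_smul_left, hP_sum_right, Finset.mul_sum, Finset.mul_sum]
        refine Finset.sum_congr rfl fun j _ => ?_
        rw [hP_smul_right]
        change star (c i) * _ = star (c i) * _
        ring
      rw [h2]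
      exact h1
  have hdp := hPd.det_pos
  obtain ⟨hre, him⟩ := Complex.lt_def.1 hdp
  -- the matrix of the complex structure
  have hst : ∀ v ∈ U, ph (Fin a ⊕ Fin a) (DZ Z) v ∈ U := fun v hv => k.irr.2.1 _ DZ_mem v hv
  let Dm := LinearMap.toMatrix b b ((ph (Fin a ⊕ Fin a) (DZ Z)).restrict hst)
  have hDm : Dm.det = (-1) ^ qd Z U := by
    obtain ⟨e1, e2⟩ := split_eig h k.irr.2.1
    rw [LinearMap.det_toMatrix, det_eig e1 e2 (ph (Fin a ⊕ Fin a) (DZ Z)) hst 1 (-1)
      (fun v hv => mem_eig.1 hv.2) (fun v hv => mem_eig.1 hv.2), one_pow, one_mul]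
    rfl
  have hD : ∀ j, DZ Z *ᵥ u j = ∑ l, Dm l j • u l := by
    intro j
    have h1 := congrArg Subtype.val
      (b.sum_repr ((ph (Fin a ⊕ Fin a) (DZ Z)).restrict hst (b j)))
    rw [AddSubmonoidClass.coe_finsetSum] at h1
    have h2 : (((ph (Fin a ⊕ Fin a) (DZ Z)).restrict hst (b j) : U) : Fin a ⊕ Fin a → ℂ) =
        DZ Z *ᵥ u j := by
      change DZ Z *ᵥ (b j : Fin a ⊕ Fin a → ℂ) = _
      rw [hu]
    rw [← h2, ← h1]
    refine Finset.sum_congr rfl fun l _ => ?_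
    have h3 : Dm l j = b.repr ((ph (Fin a ⊕ Fin a) (DZ Z)).restrict hst (b j)) l :=
      LinearMap.toMatrix_apply _ _ _ _ _
    rw [h3, ← hu l]
    rfl
  have hprod : M * Dm = (2 * Complex.I * α) • P := by
    ext i j
    rw [Matrix.mul_apply, Matrix.smul_apply, smul_eq_mul]
    change ∑ l, M i l * Dm l j = (2 * Complex.I * α) * hP Z (u i) (u j)
    unfold hP
    rw [hD j, map_sum, Finset.mul_sum, Finset.mul_sum]
    refine Finset.sum_congr rfl fun l _ => ?_
    rw [hM, map_smul, smul_eq_mul]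
    linear_combination (-2 * α * Dm l j * om a (cnj (u i)) (u l)) * Complex.I_mul_I
  have hdet : M.det * (-1) ^ qd Z U = (2 * Complex.I * α) ^ a * P.det.re := by
    rw [← hDm, ← det_mul, hprod, det_smul, Fintype.card_fin]
    congr 1
    apply Complex.ext
    · rw [Complex.ofReal_re]
    · rw [Complex.ofReal_im, ← him]
      rfl
  -- rationality
  obtain ⟨r, hr⟩ : ∃ r : ℚ, M.det = r := by
    apply exists_rat
    intro σ
    have h1 : σ M.det = (M.map σ).det := RingHom.map_det (σ : ℂ →+* ℂ) M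
    rw [h1]
    rcases aut_pm k.al σ with h2 | h2
    · congr 1
      ext i j
      change σ (((rE a (x i) (φ *ᵥ x j) : ℚ) : ℂ) + α * ((rE a (x i) (x j) : ℚ) : ℂ)) =
        ((rE a (x i) (φ *ᵥ x j) : ℚ) : ℂ) + α * ((rE a (x i) (x j) : ℚ) : ℂ)
      rw [map_add, map_mul, map_ratCast, map_ratCast, h2]
    · rw [← det_transpose M]
      congr 1
      ext i j
      change σ (((rE a (x i) (φ *ᵥ x j) : ℚ) : ℂ) + α * ((rE a (x i) (x j) : ℚ) : ℂ)) =
        ((rE a (x j) (φ *ᵥ x i) : ℚ) : ℂ) + α * ((rE a (x j) (x i) : ℚ) : ℂ)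
      rw [map_add, map_mul, map_ratCast, map_ratCast, h2]
      have h3 : rE a (x j) (φ *ᵥ x i) = rE a (x i) (φ *ᵥ x j) := by
        rw [rE_alt, k.skewQ h, neg_neg]
      rw [h3, rE_alt (x j) (x i)]
      push_cast
      ring
  refine ⟨x, r, P.det.re, hre, hr, ?_⟩
  rw [← hr]
  exact hdet

end

end Pool.Agent.Y90
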