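import Mathlib
import Pool.Agent.Y90.Wei4

/-!
# Weil classes with trivial discriminant
-/

set_option linter.unusedSectionVars false

namespace Pool.Agent.Y90

open Matrix Module Pool.Agent.W437.HC Pool.Agent.W437.HD Pool.Agent.W548.Odd Pool.Agent.TH504.CB
open Pool.Agent.H204R3.CM (IsHodge)
open Pool.Agent.W437.HP (cK cK_mul cK_one)

noncomputable section

section split

variable {a₁ a₂ : ℕ} {φ₁ : Matrix (Fin a₁ ⊕ Fin a₁) (Fin a₁ ⊕ Fin a₁) ℚ}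
  {φ₂ : Matrix (Fin a₂ ⊕ Fin a₂) (Fin a₂ ⊕ Fin a₂) ℚ}

theorem E_split (l : ℚ) (v w : (Fin a₁ ⊕ Fin a₁) ⊕ (Fin a₂ ⊕ Fin a₂) → ℚ) :
    v ⬝ᵥ (MP a₁ a₂ l *ᵥ w) = rE a₁ (fun i => v (Sum.inl i)) (fun i => w (Sum.inl i)) +
      l * rE a₂ (fun i => v (Sum.inr i)) (fun i => w (Sum.inr i)) := by
  obtain ⟨v₁, v₂, rfl⟩ : ∃ x₁ x₂, v = Sum.elim x₁ x₂ :=
    ⟨fun i => v (Sum.inl i), fun i => v (Sum.inr i), by
      funext i
      rcases i with i | i <;> rfl⟩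
  obtain ⟨w₁, w₂, rfl⟩ : ∃ x₁ x₂, w = Sum.elim x₁ x₂ :=
    ⟨fun i => w (Sum.inl i), fun i => w (Sum.inr i), by
      funext i
      rcases i with i | i <;> rfl⟩
  unfold MP
  rw [fromBlocks_mulVec, sumElim_dotProduct_sumElim]
  simp only [Sum.elim_comp_inl, Sum.elim_comp_inr, zero_mulVec, add_zero, zero_add, Sum.elim_inl,
    Sum.elim_inr]
  unfold rE
  rw [← smul_neg, smul_mulVec, dotProduct_smul, smul_eq_mul]

theorem PHQ_l (w : (Fin a₁ ⊕ Fin a₁) ⊕ (Fin a₂ ⊕ Fin a₂) → ℚ) :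
    (fun i => (PH φ₁ φ₂ *ᵥ w) (Sum.inl i)) = φ₁ *ᵥ fun i => w (Sum.inl i) := by
  funext i
  unfold PH
  rw [fromBlocks_mulVec, Sum.elim_inl, zero_mulVec, add_zero]
  rfl

theorem PHQ_r (w : (Fin a₁ ⊕ Fin a₁) ⊕ (Fin a₂ ⊕ Fin a₂) → ℚ) :
    (fun i => (PH φ₁ φ₂ *ᵥ w) (Sum.inr i)) = φ₂ *ᵥ fun i => w (Sum.inr i) := by
  funext i
  unfold PH
  rw [fromBlocks_mulVec, Sum.elim_inr, zero_mulVec, zero_add]
  rfl

end split

section disc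

variable {Z₁ Z₂ : Matrix (Fin 3) (Fin 3) ℂ} (h₁ : PM Z₁) (h₂ : PM Z₂)
  {U₁ U₂ : Submodule ℂ (Fin 3 ⊕ Fin 3 → ℂ)}
  {φ₁ φ₂ : Matrix (Fin 3 ⊕ Fin 3) (Fin 3 ⊕ Fin 3) ℚ} {α : ℂ} {d : ℚ}

theorem trivialDisc (k₁ : KT Z₁ U₁ φ₁ α d) (k₂ : KT Z₂ U₂ φ₂ α d) (t₁ : tr Z₁ U₁ = 1)
    (t₂ : tr Z₂ U₂ = -1) : HasTrivialDisc (AVP h₁ h₂) d (Matrix.toLin' (PH φ₁ φ₂)) := by
  obtain ⟨x₁, r₁, P₁, hP₁, hr₁, g₁⟩ := k₁.gram h₁
  obtain ⟨x₂, r₂, P₂, hP₂, hr₂, g₂⟩ := k₂.gram h₂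
  have hq₁ : qd Z₁ U₁ = 1 := by
    have e1 := pd_add_qd h₁ k₁.irr.2.1
    rw [k₁.dim] at e1
    unfold tr at t₁
    omega
  have hq₂ : qd Z₂ U₂ = 2 := by
    have e1 := pd_add_qd h₂ k₂.irr.2.1
    rw [k₂.dim] at e1
    unfold tr at t₂
    omega
  rw [hq₁, pow_one] at g₁
  rw [hq₂] at g₂
  have hneg : r₁ * r₂ < 0 := by
    have e1 : -((r₁ : ℂ) * r₂) = (4 * d) ^ 3 * (P₁ * P₂) := by
      have e2 : (2 * Complex.I * α) ^ 3 * (2 * Complex.I * α) ^ 3 = (4 * (d : ℂ)) ^ 3 := by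
        have e3 : (2 * Complex.I * α) * (2 * Complex.I * α) = 4 * (d : ℂ) := by
          linear_combination 4 * (α * α) * Complex.I_mul_I - 4 * k₁.al
        rw [← mul_pow, e3]
      have e3 : ((r₁ : ℂ) * (-1)) * ((r₂ : ℂ) * (-1) ^ 2) =
          ((2 * Complex.I * α) ^ 3 * (2 * Complex.I * α) ^ 3) * (P₁ * P₂) := by
        rw [g₁, g₂]
        ring
      rw [e2] at e3
      rw [← e3]
      ring
    have e2 : -((r₁ : ℝ) * r₂) = (4 * d) ^ 3 * (P₁ * P₂) := by exact_mod_cast e1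
    have e3 : (0 : ℝ) < (4 * d) ^ 3 * (P₁ * P₂) := by
      have hd : (0 : ℝ) < d := by exact_mod_cast k₁.pos
      positivity
    rw [← e2] at e3
    have e4 : (r₁ : ℝ) * r₂ < 0 := by linarith
    exact_mod_cast e4
  set l : ℚ := -(r₁ * r₂) with hl
  have hlpos : 0 < l := by
    rw [hl]
    linarith
  let e : Fin 3 ⊕ Fin 3 ≃ Fin 6 := finSumFinEquiv
  let vv : Fin 3 ⊕ Fin 3 → ((Fin 3 ⊕ Fin 3) ⊕ (Fin 3 ⊕ Fin 3) → ℚ) :=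
    Sum.elim (fun i => Sum.elim (x₁ i) 0) (fun i => Sum.elim 0 (x₂ i))
  refine ⟨α, fun v w => v ⬝ᵥ (MP 3 3 l *ᵥ w), fun i => vv (e.symm i), (r₁ * r₂) ^ 2, 0, k₁.al,
    pol_prod h₁ h₂ hlpos, fun v w => ?_, Or.inl (pow_ne_zero 2 hneg.ne), ?_⟩
  · beta_reduce
    rw [toLin'_apply, toLin'_apply, E_split, E_split, PHQ_l, PHQ_r, PHQ_l, PHQ_r, k₁.skewQ h₁,
      k₂.skewQ h₂]
    ring
  · let M₁ : Matrix (Fin 3) (Fin 3) ℂ := Matrix.of fun i j =>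
      ((rE 3 (x₁ i) (φ₁ *ᵥ x₁ j) : ℚ) : ℂ) + α * ((rE 3 (x₁ i) (x₁ j) : ℚ) : ℂ)
    let M₂ : Matrix (Fin 3) (Fin 3) ℂ := Matrix.of fun i j =>
      ((rE 3 (x₂ i) (φ₂ *ᵥ x₂ j) : ℚ) : ℂ) + α * ((rE 3 (x₂ i) (x₂ j) : ℚ) : ℂ)
    have hz : ∀ w : Fin 3 ⊕ Fin 3 → ℚ, rE 3 w 0 = 0 := fun w => by
      unfold rE
      rw [mulVec_zero, dotProduct_zero]
    have hz' : ∀ w : Fin 3 ⊕ Fin 3 → ℚ, rE 3 0 w = 0 := fun w => by
      unfold rE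
      rw [zero_dotProduct]
    have h0 : (fun _ : Fin 3 ⊕ Fin 3 => (0 : ℚ)) = 0 := rfl
    have hM : (Matrix.of fun i j =>
        ((vv (e.symm i) ⬝ᵥ (MP 3 3 l *ᵥ (Matrix.toLin' (PH φ₁ φ₂) (vv (e.symm j)))) : ℚ) : ℂ) +
          α * ((vv (e.symm i) ⬝ᵥ (MP 3 3 l *ᵥ vv (e.symm j)) : ℚ) : ℂ)) =
        (fromBlocks M₁ 0 0 ((l : ℂ) • M₂)).submatrix e.symm e.symm := by
      ext i j
      rw [Matrix.of_apply, submatrix_apply, toLin'_apply, E_split, E_split, PHQ_l, PHQ_r]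
      generalize e.symm i = i'
      generalize e.symm j = j'
      rcases i' with i' | i' <;> rcases j' with j' | j'
      · simp only [vv, Sum.elim_inl, Sum.elim_inr, fromBlocks_apply₁₁, Pi.zero_apply, h0, hz, hz',
          mul_zero, add_zero]
        rfl
      · simp only [vv, Sum.elim_inl, Sum.elim_inr, fromBlocks_apply₁₂, Pi.zero_apply, h0, hz, hz',
          mul_zero, add_zero, mulVec_zero]
        simp
      · simp only [vv, Sum.elim_inl, Sum.elim_inr, fromBlocks_apply₂₁, Pi.zero_apply, h0, hz, hz',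
          mul_zero, add_zero, mulVec_zero]
        simp
      · simp only [vv, Sum.elim_inl, Sum.elim_inr, fromBlocks_apply₂₂, Pi.zero_apply, h0, hz, hz',
          zero_add]
        change _ = (l : ℂ) * (((rE 3 (x₂ i') (φ₂ *ᵥ x₂ j') : ℚ) : ℂ) +
          α * ((rE 3 (x₂ i') (x₂ j') : ℚ) : ℂ))
        push_cast
        ring
    have h1 : (Matrix.of fun i j =>
        ((vv (e.symm i) ⬝ᵥ (MP 3 3 l *ᵥ (Matrix.toLin' (PH φ₁ φ₂) (vv (e.symm j)))) : ℚ) : ℂ) +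
          α * ((vv (e.symm i) ⬝ᵥ (MP 3 3 l *ᵥ vv (e.symm j)) : ℚ) : ℂ)).det =
        (r₁ : ℂ) * ((l : ℂ) ^ 3 * r₂) := by
      rw [hM, det_submatrix_equiv_self, det_fromBlocks_zero₂₁, det_smul, Fintype.card_fin]
      rw [show M₁.det = r₁ from hr₁, show M₂.det = r₂ from hr₂]
    refine Eq.trans h1 ?_
    rw [hl]
    push_cast
    ring

end disc

end

end Pool.Agent.Y90
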