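import Mathlib
import Pool.Agent.Y90.Wei5
import Pool.Agent.TH504.CB.Red4

/-!
# Pull-backs of Weil classes
-/

set_option linter.unusedSectionVars false

namespace Pool.Agent.Y90

open Matrix Module Pool.Agent.W437.HC Pool.Agent.W437.HD Pool.Agent.W548.Odd Pool.Agent.TH504.CB
open Pool.Agent.H204R3.CM (IsHodge)
open Pool.Agent.W437.HP (cK cK_mul cK_one)

noncomputable section

variable {a₁ a₂ : ℕ} {Z₁ : Matrix (Fin a₁) (Fin a₁) ℂ} {Z₂ : Matrix (Fin a₂) (Fin a₂) ℂ}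
  (h₁ : PM Z₁) (h₂ : PM Z₂)
  {U₁ : Submodule ℂ (Fin a₁ ⊕ Fin a₁ → ℂ)} {U₂ : Submodule ℂ (Fin a₂ ⊕ Fin a₂ → ℂ)}
  {φ₁ : Matrix (Fin a₁ ⊕ Fin a₁) (Fin a₁ ⊕ Fin a₁) ℚ}
  {φ₂ : Matrix (Fin a₂ ⊕ Fin a₂) (Fin a₂ ⊕ Fin a₂) ℚ} {α : ℂ} {d : ℚ}
  (k₁ : KT Z₁ U₁ φ₁ α d) (k₂ : KT Z₂ U₂ φ₂ α d)
  (t₁ : tr Z₁ U₁ = 1) (t₂ : tr Z₂ U₂ = -1)
  {ι ι' : Type} [Fintype ι] [DecidableEq ι] [Fintype ι'] [DecidableEq ι']
  (f₁ : Basis ι ℂ U₁) (f₂ : Basis ι' ℂ U₂)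

include k₁ k₂ f₁ f₂ in
theorem card_idx : Fintype.card (ι ⊕ ι') = a₁ + a₂ := by
  rw [Fintype.card_sum, ← finrank_eq_card_basis f₁, ← finrank_eq_card_basis f₂, k₁.dim, k₂.dim]

include k₁ k₂ in
theorem PH_comm : cK ℂ (PH φ₁ φ₂) * DJ (fromBlocks (JR Z₁) 0 0 (JR Z₂)) =
    DJ (fromBlocks (JR Z₁) 0 0 (JR Z₂)) * cK ℂ (PH φ₁ φ₂) := by
  have h1 : cK ℂ (PH φ₁ φ₂) = fromBlocks (qm φ₁) 0 0 (qm φ₂) := qm_PH
  rw [DJ_prod, h1]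
  unfold DP
  rw [fromBlocks_multiply, fromBlocks_multiply, k₁.comm _ (DS_mem _), k₂.comm _ (DS_mem _)]
  simp only [Matrix.mul_zero, Matrix.zero_mul, add_zero, zero_add]

include k₁ k₂ in
theorem PH_sq (w : (Fin a₁ ⊕ Fin a₁) ⊕ (Fin a₂ ⊕ Fin a₂) → ℚ) :
    PH φ₁ φ₂ *ᵥ (PH φ₁ φ₂ *ᵥ w) = -(d • w) := by
  have h1 : PH φ₁ φ₂ * PH φ₁ φ₂ = -(d • 1) := by
    have h2 : (-(d • 1) : Matrix ((Fin a₁ ⊕ Fin a₁) ⊕ (Fin a₂ ⊕ Fin a₂))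
        ((Fin a₁ ⊕ Fin a₁) ⊕ (Fin a₂ ⊕ Fin a₂)) ℚ) = fromBlocks (-(d • 1)) 0 0 (-(d • 1)) := by
      rw [show (1 : Matrix ((Fin a₁ ⊕ Fin a₁) ⊕ (Fin a₂ ⊕ Fin a₂))
        ((Fin a₁ ⊕ Fin a₁) ⊕ (Fin a₂ ⊕ Fin a₂)) ℚ) = fromBlocks 1 0 0 1 from fromBlocks_one.symm,
        fromBlocks_smul, fromBlocks_neg, smul_zero, smul_zero, neg_zero, neg_zero]
    rw [h2]
    unfold PH
    rw [fromBlocks_multiply, k₁.sq, k₂.sq]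
    simp only [Matrix.mul_zero, Matrix.zero_mul, add_zero, zero_add]
  rw [mulVec_mulVec, h1, neg_mulVec, smul_mulVec, one_mulVec]

include t₁ t₂ in
theorem weil_class (o₁ : a₁ = 1 ∨ a₁ = 3) (o₂ : a₂ = 1 ∨ a₂ = 3) (l : ℂ →ₗ[ℚ] ℚ) {n : ℕ}
    (e : ι ⊕ ι' ≃ Fin n) :
    IsWeilClass (AVP h₁ h₂) n ((ratA (GY k₁ k₂ f₁ f₂) l).domDomCongr e) := by
  have hn : n = a₁ + a₂ := by
    rw [← card_idx k₁ k₂ f₁ f₂, Fintype.card_congr e, Fintype.card_fin]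
  refine ⟨?_, isHodge_congr e (GY_hodge h₁ h₂ k₁ k₂ f₁ f₂ t₁ t₂ l), d, Matrix.toLin' (PH φ₁ φ₂),
    k₁.pos, ?_, fun w => ?_, fun v k k' => ?_, fun h6 => ?_⟩
  · change finrank ℚ ((Fin a₁ ⊕ Fin a₁) ⊕ (Fin a₂ ⊕ Fin a₂) → ℚ) = 2 * n
    rw [finrank_fintype_fun_eq_card]
    simp only [Fintype.card_sum, Fintype.card_fin]
    omega
  · obtain ⟨Ψ, hΨ⟩ := (h₁.cht.prod h₂.cht).hom (h₁.cht.prod h₂.cht) (PH_comm k₁ k₂)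
    exact ⟨Ψ, fun v => by rw [toLin'_apply]; exact hΨ v⟩
  · rw [toLin'_apply, toLin'_apply]
    exact PH_sq k₁ k₂ w
  · have key : ∀ k, (ratA (GY k₁ k₂ f₁ f₂) l).domDomCongr e
        (Function.update v k (Matrix.toLin' (PH φ₁ φ₂) (v k))) =
        ∑ σ : Equiv.Perm (ι ⊕ ι'), ((Equiv.Perm.sign σ : ℤ) : ℚ) *
          l (α * GY k₁ k₂ f₁ f₂ (fun k => cv (v (e (σ k))))) := by
      intro k
      rw [AlternatingMap.domDomCongr_apply, toLin'_apply]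
      have h1 := ratA_move k₁ k₂ f₁ f₂ l (fun j => v (e j)) (e.symm k)
      rw [Equiv.apply_symm_apply] at h1
      rw [← h1]
      congr 1
      funext j
      rw [Function.comp_apply]
      by_cases hj : j = e.symm k
      · subst hj
        rw [Equiv.apply_symm_apply, Function.update_self, Function.update_self]
      · rw [Function.update_of_ne hj, Function.update_of_ne]
        intro h
        exact hj (by rw [← h, Equiv.symm_apply_apply])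
    rw [key k, key k']
  · have e1 : a₁ = 3 := by
      rcases o₁ with h | h
      · exfalso
        rcases o₂ with h' | h' <;> omega
      · exact h
    have e2 : a₂ = 3 := by
      rcases o₂ with h | h
      · exfalso
        omega
      · exact h
    subst e1
    subst e2
    exact trivialDisc h₁ h₂ k₁ k₂ t₁ t₂

section pull

variable {G : ℕ} {Z : Matrix (Fin G) (Fin G) ℂ} (h : PM Z)
  {R₁ : Matrix (Fin a₁ ⊕ Fin a₁) (Fin G ⊕ Fin G) ℚ}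
  {R₂ : Matrix (Fin a₂ ⊕ Fin a₂) (Fin G ⊕ Fin G) ℚ}
  (c₁ : cK ℂ R₁ * DZ Z = DZ Z₁ * cK ℂ R₁) (c₂ : cK ℂ R₂ * DZ Z = DZ Z₂ * cK ℂ R₂)

include c₁ c₂ in
theorem rows_comm : cK ℂ (fromRows R₁ R₂) * DJ (JR Z) =
    DJ (fromBlocks (JR Z₁) 0 0 (JR Z₂)) * cK ℂ (fromRows R₁ R₂) := by
  have h1 : cK ℂ (fromRows R₁ R₂) = fromRows (cK ℂ R₁) (cK ℂ R₂) := by
    ext i j
    rcases i with i | i <;> rfl
  rw [DJ_prod, DJ_JR, h1]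
  unfold DP
  rw [fromRows_mul, c₁, c₂, fromBlocks_mul_fromRows, Matrix.zero_mul, Matrix.zero_mul, add_zero,
    zero_add]
  rfl

include h₁ h₂ t₁ t₂ c₁ c₂ in
theorem pull_mem (o₁ : a₁ = 1 ∨ a₁ = 3) (o₂ : a₂ = 1 ∨ a₂ = 3) (l : ℂ →ₗ[ℚ] ℚ) :
    WeilRing (AVZ h) (ι ⊕ ι')
      ((ratA (GY k₁ k₂ f₁ f₂) l).compLinearMap (Matrix.toLin' (fromRows R₁ R₂))) := by
  obtain ⟨Ψ, hΨ⟩ := h.cht.hom (h₁.cht.prod h₂.cht) (rows_comm c₁ c₂)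
  have hΨ' : ∀ v, Ψ (perOne Z v) = perP (perOne Z₁) (perOne Z₂)
      (Matrix.toLin' (fromRows R₁ R₂) v) := fun v => by
    rw [toLin'_apply]
    exact hΨ v
  have hc := card_idx k₁ k₂ f₁ f₂
  let e : ι ⊕ ι' ≃ Fin (a₁ + a₂) := Fintype.equivFinOfCardEq hc
  by_cases h2 : a₁ + a₂ = 2
  · refine WeilRing.divisor (by rw [Nat.card_eq_fintype_card, hc, h2]) _ ?_
    exact isHodge_comp (Matrix.toLin' (fromRows R₁ R₂)) Ψ hΨ'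
      (GY_hodge h₁ h₂ k₁ k₂ f₁ f₂ t₁ t₂ l)
  · have hn : a₁ + a₂ = 4 ∨ a₁ + a₂ = 6 := by omega
    have h3 := WeilRing.weil (X := AVZ h) (Y := AVP h₁ h₂) hn _
      (weil_class h₁ h₂ k₁ k₂ t₁ t₂ f₁ f₂ o₁ o₂ l e) (Matrix.toLin' (fromRows R₁ R₂)) ⟨Ψ, hΨ'⟩
    have h4 := h3.reindex e.symm
    have h5 : ((((ratA (GY k₁ k₂ f₁ f₂) l).domDomCongr e).compLinearMap
        (Matrix.toLin' (fromRows R₁ R₂))).domDomCongr e.symm) =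
        (ratA (GY k₁ k₂ f₁ f₂) l).compLinearMap (Matrix.toLin' (fromRows R₁ R₂)) := by
      ext v
      rw [AlternatingMap.domDomCongr_apply, AlternatingMap.compLinearMap_apply,
        AlternatingMap.domDomCongr_apply, AlternatingMap.compLinearMap_apply]
      congr 1
      funext k
      simp
    rw [← h5]
    exact h4

include h₁ h₂ t₁ t₂ c₁ c₂ in
theorem diag_mem (o₁ : a₁ = 1 ∨ a₁ = 3) (o₂ : a₂ = 1 ∨ a₂ = 3) :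
    (fun v : ι ⊕ ι' → (AVZ h).H =>
      altQ (GY k₁ k₂ f₁ f₂) (fun k => fromRows R₁ R₂ *ᵥ v k)) ∈ RC (AVZ h) (ι ⊕ ι') := by
  obtain ⟨m, c, l, hl⟩ := altQ_expand (GY k₁ k₂ f₁ f₂)
  have h1 : (fun v : ι ⊕ ι' → (AVZ h).H =>
      altQ (GY k₁ k₂ f₁ f₂) (fun k => fromRows R₁ R₂ *ᵥ v k)) =
      ∑ j, c j • fun v : ι ⊕ ι' → (AVZ h).H => ((((ratA (GY k₁ k₂ f₁ f₂) (l j)).compLinearMap
        (Matrix.toLin' (fromRows R₁ R₂))) v : ℚ) : ℂ) := by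
    funext v
    rw [hl, Finset.sum_apply]
    rfl
  rw [h1]
  refine Submodule.sum_mem _ fun j _ => Submodule.smul_mem _ _ ?_
  exact RC_of (X := AVZ h) (pull_mem h₁ h₂ k₁ k₂ t₁ t₂ f₁ f₂ h c₁ c₂ o₁ o₂ (l j))

end pull

end

end Pool.Agent.Y90
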