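import Mathlib
import Pool.Agent.Y90.Wei6

/-!
# Polarization and rational expansion
-/

set_option linter.unusedSectionVars false

namespace Pool.Agent.Y90

open Matrix Module Pool.Agent.W437.HC Pool.Agent.W437.HD Pool.Agent.W548.Odd Pool.Agent.TH504.CB
open Pool.Agent.W437.HP (cK cK_mul cK_one)

noncomputable section

section pol

variable {ι : Type*} [Fintype ι] [DecidableEq ι] {X W : Type*} [AddCommGroup X] [Module ℂ X]
  [AddCommGroup W] [Module ℂ W]

/-- Multilinear maps with values in a subspace. -/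
theorem multi_span (M : MultilinearMap ℂ (fun _ : ι => X) W) (S : Submodule ℂ W) (T : Set X)
    (h : ∀ x : ι → X, (∀ i, x i ∈ T) → M x ∈ S) (x : ι → X)
    (hx : ∀ i, x i ∈ Submodule.span ℂ T) : M x ∈ S := by
  have key : ∀ (s : Finset ι) (x : ι → X), (∀ i ∈ s, x i ∈ Submodule.span ℂ T) →
      (∀ i ∉ s, x i ∈ T) → M x ∈ S := by
    intro s
    induction s using Finset.induction_on with
    | empty => exact fun x _ h2 => h x fun i => h2 i (Finset.notMem_empty i)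
    | insert j s hj ih =>
      intro x h1 h2
      have h3 : ∀ z ∈ Submodule.span ℂ T, M (Function.update x j z) ∈ S := by
        intro z hz
        induction hz using Submodule.span_induction with
        | mem z hz =>
          refine ih _ (fun i hi => ?_) (fun i hi => ?_)
          · rw [Function.update_of_ne (fun h : i = j => hj (h ▸ hi))]
            exact h1 i (Finset.mem_insert_of_mem hi)
          · by_cases hij : i = j
            · subst hij
              rwa [Function.update_self]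
            · rw [Function.update_of_ne hij]
              exact h2 i (by simp [hij, hi])
        | zero =>
          rw [MultilinearMap.map_update_zero]
          exact S.zero_mem
        | add a b _ _ ha hb =>
          rw [MultilinearMap.map_update_add]
          exact S.add_mem ha hb
        | smul c a _ ha =>
          rw [MultilinearMap.map_update_smul]
          exact S.smul_mem c ha
      have h4 := h3 (x j) (h1 j (Finset.mem_insert_self j s))
      rwa [Function.update_eq_self] at h4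
  exact key Finset.univ x (fun i _ => hx i) fun i hi => absurd (Finset.mem_univ i) hi

/-- The polarization formula. -/
theorem polar_sum (M : MultilinearMap ℂ (fun _ : ι => X) W) (x : ι → X) :
    ∑ t : Finset ι, (-1 : ℤ) ^ t.card • M (fun _ => ∑ i ∈ tᶜ, x i) =
      ∑ τ : Equiv.Perm ι, M (fun k => x (τ k)) := by
  have h1 : ∀ t : Finset ι, M (fun _ => ∑ i ∈ tᶜ, x i) =
      ∑ p : ι → ι, if (∀ k, p k ∈ tᶜ) then M (fun k => x (p k)) else 0 := by
    intro t
    rw [MultilinearMap.map_sum_finset M (fun _ j => x j) (fun _ => tᶜ), ← Finset.sum_filter]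
    refine Finset.sum_congr ?_ fun _ _ => rfl
    ext p
    simp [Fintype.mem_piFinset]
  simp only [h1, Finset.smul_sum]
  rw [Finset.sum_comm]
  have h2 : ∀ p : ι → ι, (∑ t : Finset ι, (-1 : ℤ) ^ t.card •
      if (∀ k, p k ∈ tᶜ) then M (fun k => x (p k)) else 0) =
      if Function.Bijective p then M (fun k => x (p k)) else 0 := by
    intro p
    have h3 : ∀ t : Finset ι, ((-1 : ℤ) ^ t.card •
        if (∀ k, p k ∈ tᶜ) then M (fun k => x (p k)) else 0) =
        (if t ∈ (Finset.univ.image p)ᶜ.powerset then (-1 : ℤ) ^ t.card else 0) •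
          M (fun k => x (p k)) := by
      intro t
      have h4 : (∀ k, p k ∈ tᶜ) ↔ t ∈ (Finset.univ.image p)ᶜ.powerset := by
        rw [Finset.mem_powerset]
        constructor
        · intro h i hi
          rw [Finset.mem_compl, Finset.mem_image]
          rintro ⟨k, -, rfl⟩
          exact Finset.mem_compl.1 (h k) hi
        · intro h k
          rw [Finset.mem_compl]
          intro hk
          exact Finset.mem_compl.1 (h hk) (Finset.mem_image_of_mem p (Finset.mem_univ k))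
      by_cases h5 : t ∈ (Finset.univ.image p)ᶜ.powerset
      · rw [if_pos (h4.2 h5), if_pos h5]
      · rw [if_neg (fun h => h5 (h4.1 h)), if_neg h5, smul_zero, zero_smul]
    rw [Finset.sum_congr rfl fun t _ => h3 t, ← Finset.sum_smul, ← Finset.sum_filter,
      Finset.filter_mem_eq_inter, Finset.univ_inter, Finset.sum_powerset_neg_one_pow_card]
    by_cases h6 : Function.Bijective p
    · rw [if_pos h6, if_pos, one_smul]
      rw [Finset.compl_eq_empty_iff, Finset.image_univ_of_surjective h6.2]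
    · rw [if_neg h6, if_neg, zero_smul]
      rw [Finset.compl_eq_empty_iff]
      intro h7
      apply h6
      rw [← Finite.surjective_iff_bijective]
      intro i
      have h8 : i ∈ Finset.univ.image p := by rw [h7]; exact Finset.mem_univ i
      obtain ⟨k, -, hk⟩ := Finset.mem_image.1 h8
      exact ⟨k, hk⟩
  rw [Finset.sum_congr rfl fun p _ => h2 p, ← Finset.sum_filter]
  symm
  refine Finset.sum_bij (fun (τ : Equiv.Perm ι) _ => (τ : ι → ι)) ?_ ?_ ?_ ?_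
  · intro τ _
    exact Finset.mem_filter.2 ⟨Finset.mem_univ _, τ.bijective⟩
  · intro τ _ τ' _ h
    exact DFunLike.coe_injective h
  · intro p hp
    exact ⟨Equiv.ofBijective p (Finset.mem_filter.1 hp).2, Finset.mem_univ _, rfl⟩
  · intro τ _
    rfl

/-- Symmetric multilinear maps are determined by the diagonal. -/
theorem polar_mem (M : MultilinearMap ℂ (fun _ : ι => X) W) (S : Submodule ℂ W)
    (T : AddSubmonoid X) (hs : ∀ (x : ι → X) (τ : Equiv.Perm ι), M (fun k => x (τ k)) = M x)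
    (h : ∀ x ∈ T, M (fun _ => x) ∈ S) (x : ι → X) (hx : ∀ i, x i ∈ T) : M x ∈ S := by
  have h1 := polar_sum M x
  rw [Finset.sum_congr rfl fun τ _ => hs x τ, Finset.sum_const, Finset.card_univ] at h1
  have h2 : (Fintype.card (Equiv.Perm ι)) • M x ∈ S := by
    rw [← h1]
    refine Submodule.sum_mem _ fun t _ => ?_
    exact zsmul_mem (h _ (AddSubmonoid.sum_mem _ fun i _ => hx i)) _
  have h3 : M x = ((Fintype.card (Equiv.Perm ι) : ℂ))⁻¹ • (Fintype.card (Equiv.Perm ι)) • M x := by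
    rw [← Nat.cast_smul_eq_nsmul ℂ, smul_smul, inv_mul_cancel₀, one_smul]
    exact_mod_cast Fintype.card_ne_zero
  rw [h3]
  exact S.smul_mem _ h2

end pol

theorem alg_aux (s t t' a b : ℂ) (h1 : t * t = 1) (h2 : t' * t' = 1) :
    s * (t * t') * (t * a * (t' * b)) = s * (a * b) := by
  have h3 : s * (t * t') * (t * a * (t' * b)) = s * (t * t) * (t' * t') * (a * b) := by ring
  rw [h3, h1, h2, mul_one, mul_one]

section nn

variable {ι ι' : Type} [Fintype ι] [DecidableEq ι] [Fintype ι'] [DecidableEq ι']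
  {B B₁ B₂ : Type} [Fintype B] [Fintype B₁] [Fintype B₂]
  (A₁ : (B₁ → ℂ) [⋀^ι]→ₗ[ℂ] ℂ) (A₂ : (B₂ → ℂ) [⋀^ι']→ₗ[ℂ] ℂ)

/-- Evaluation of matrices. -/
def mvL {m n : Type} [Fintype n] (w : n → ℂ) : Matrix m n ℂ →ₗ[ℂ] (m → ℂ) where
  toFun R := R *ᵥ w
  map_add' R R' := add_mulVec R R' w
  map_smul' c R := smul_mulVec c R w

theorem mvL_apply {m n : Type} [Fintype n] (w : n → ℂ) (R : Matrix m n ℂ) :
    mvL w R = R *ᵥ w := rfl

/-- The alternation of the product of two alternating forms composed with linear maps. -/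
def NN (R : ι → Matrix B₁ B ℂ) (R' : ι' → Matrix B₂ B ℂ) (v : ι ⊕ ι' → B → ℚ) : ℂ :=
  ∑ σ : Equiv.Perm (ι ⊕ ι'), ((Equiv.Perm.sign σ : ℤ) : ℂ) *
    (A₁ (fun y => R y *ᵥ cv (v (σ (Sum.inl y)))) * A₂ (fun y => R' y *ᵥ cv (v (σ (Sum.inr y)))))

/-- The first multilinear map. -/
def NL (R' : ι' → Matrix B₂ B ℂ) :
    MultilinearMap ℂ (fun _ : ι => Matrix B₁ B ℂ) ((ι ⊕ ι' → B → ℚ) → ℂ) :=
  MultilinearMap.pi fun v => ∑ σ : Equiv.Perm (ι ⊕ ι'), (((Equiv.Perm.sign σ : ℤ) : ℂ) *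
    A₂ (fun y => R' y *ᵥ cv (v (σ (Sum.inr y))))) •
      A₁.toMultilinearMap.compLinearMap fun y => mvL (cv (v (σ (Sum.inl y))))

theorem NL_apply (R : ι → Matrix B₁ B ℂ) (R' : ι' → Matrix B₂ B ℂ) :
    NL A₁ A₂ R' R = NN A₁ A₂ R R' := by
  funext v
  unfold NL NN
  rw [MultilinearMap.pi_apply, _root_.sum_apply]
  refine Finset.sum_congr rfl fun σ _ => ?_
  rw [_root_.smul_apply, MultilinearMap.compLinearMap_apply, smul_eq_mul, mul_assoc,
    mul_comm (A₂ _)]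
  rfl

/-- The second multilinear map. -/
def NR (R : ι → Matrix B₁ B ℂ) :
    MultilinearMap ℂ (fun _ : ι' => Matrix B₂ B ℂ) ((ι ⊕ ι' → B → ℚ) → ℂ) :=
  MultilinearMap.pi fun v => ∑ σ : Equiv.Perm (ι ⊕ ι'), (((Equiv.Perm.sign σ : ℤ) : ℂ) *
    A₁ (fun y => R y *ᵥ cv (v (σ (Sum.inl y))))) •
      A₂.toMultilinearMap.compLinearMap fun y => mvL (cv (v (σ (Sum.inr y))))

theorem NR_apply (R : ι → Matrix B₁ B ℂ) (R' : ι' → Matrix B₂ B ℂ) :
    NR A₁ A₂ R R' = NN A₁ A₂ R R' := by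
  funext v
  unfold NR NN
  rw [MultilinearMap.pi_apply, _root_.sum_apply]
  refine Finset.sum_congr rfl fun σ _ => ?_
  rw [_root_.smul_apply, MultilinearMap.compLinearMap_apply, smul_eq_mul, mul_assoc]
  rfl

theorem NN_sym (R : ι → Matrix B₁ B ℂ) (R' : ι' → Matrix B₂ B ℂ) (τ : Equiv.Perm ι)
    (τ' : Equiv.Perm ι') :
    NN A₁ A₂ (fun y => R (τ y)) (fun y => R' (τ' y)) = NN A₁ A₂ R R' := by
  funext v
  unfold NN
  rw [← Equiv.sum_comp (Equiv.mulRight (Equiv.Perm.sumCongr τ τ'))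
    (fun σ : Equiv.Perm (ι ⊕ ι') => ((Equiv.Perm.sign σ : ℤ) : ℂ) *
      (A₁ (fun y => R (τ y) *ᵥ cv (v (σ (Sum.inl y)))) *
        A₂ (fun y => R' (τ' y) *ᵥ cv (v (σ (Sum.inr y))))))]
  refine Finset.sum_congr rfl fun σ _ => ?_
  have h4 : (Equiv.mulRight (Equiv.Perm.sumCongr τ τ')) σ = σ * Equiv.Perm.sumCongr τ τ' := rfl
  have e1 : A₁ (fun y => R (τ y) *ᵥ cv (v ((σ * Equiv.Perm.sumCongr τ τ') (Sum.inl y)))) =
      Equiv.Perm.sign τ • A₁ (fun y => R y *ᵥ cv (v (σ (Sum.inl y)))) := by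
    rw [← AlternatingMap.map_perm]
    rfl
  have e2 : A₂ (fun y => R' (τ' y) *ᵥ cv (v ((σ * Equiv.Perm.sumCongr τ τ') (Sum.inr y)))) =
      Equiv.Perm.sign τ' • A₂ (fun y => R' y *ᵥ cv (v (σ (Sum.inr y)))) := by
    rw [← AlternatingMap.map_perm]
    rfl
  rw [h4, e1, e2, Equiv.Perm.sign_mul, Equiv.Perm.sign_sumCongr, Units.smul_def, Units.smul_def,
    zsmul_eq_mul, zsmul_eq_mul]
  have s1 : (((Equiv.Perm.sign τ : ℤˣ) : ℤ) : ℂ) * (((Equiv.Perm.sign τ : ℤˣ) : ℤ) : ℂ) = 1 := by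
    rw [← Int.cast_mul, ← Units.val_mul, Int.units_mul_self, Units.val_one, Int.cast_one]
  have s2 : (((Equiv.Perm.sign τ' : ℤˣ) : ℤ) : ℂ) * (((Equiv.Perm.sign τ' : ℤˣ) : ℤ) : ℂ) = 1 := by
    rw [← Int.cast_mul, ← Units.val_mul, Int.units_mul_self, Units.val_one, Int.cast_one]
  rw [Units.val_mul, Units.val_mul, Int.cast_mul, Int.cast_mul]
  exact alg_aux _ _ _ _ _ s1 s2

theorem NN_memL (S : Submodule ℂ ((ι ⊕ ι' → B → ℚ) → ℂ)) (T₁ : AddSubmonoid (Matrix B₁ B ℂ))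
    (R' : Matrix B₂ B ℂ) (h : ∀ R ∈ T₁, NN A₁ A₂ (fun _ => R) (fun _ => R') ∈ S)
    (R : ι → Matrix B₁ B ℂ) (hR : ∀ y, R y ∈ Submodule.span ℂ (T₁ : Set (Matrix B₁ B ℂ))) :
    NN A₁ A₂ R (fun _ => R') ∈ S := by
  have h2 : ∀ (x : ι → Matrix B₁ B ℂ) (τ : Equiv.Perm ι),
      NL A₁ A₂ (fun _ => R') (fun k => x (τ k)) = NL A₁ A₂ (fun _ => R') x := by
    intro x τ
    rw [NL_apply, NL_apply]
    exact NN_sym A₁ A₂ x (fun _ => R') τ 1
  have h3 : ∀ x ∈ T₁, NL A₁ A₂ (fun _ => R') (fun _ => x) ∈ S := by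
    intro x hx
    rw [NL_apply]
    exact h x hx
  have h4 := polar_mem (NL A₁ A₂ (fun _ => R')) S T₁ h2 h3
  have h5 := multi_span (NL A₁ A₂ (fun _ => R')) S T₁ h4 R hR
  rwa [NL_apply] at h5

theorem NN_memR (S : Submodule ℂ ((ι ⊕ ι' → B → ℚ) → ℂ)) (T₂ : AddSubmonoid (Matrix B₂ B ℂ))
    (R : ι → Matrix B₁ B ℂ) (h : ∀ R' ∈ T₂, NN A₁ A₂ R (fun _ => R') ∈ S)
    (R' : ι' → Matrix B₂ B ℂ) (hR : ∀ y, R' y ∈ Submodule.span ℂ (T₂ : Set (Matrix B₂ B ℂ))) :
    NN A₁ A₂ R R' ∈ S := by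
  have h2 : ∀ (x : ι' → Matrix B₂ B ℂ) (τ : Equiv.Perm ι'),
      NR A₁ A₂ R (fun k => x (τ k)) = NR A₁ A₂ R x := by
    intro x τ
    rw [NR_apply, NR_apply]
    exact NN_sym A₁ A₂ R x 1 τ
  have h3 : ∀ x ∈ T₂, NR A₁ A₂ R (fun _ => x) ∈ S := by
    intro x hx
    rw [NR_apply]
    exact h x hx
  have h4 := polar_mem (NR A₁ A₂ R) S T₂ h2 h3
  have h5 := multi_span (NR A₁ A₂ R) S T₂ h4 R' hR
  rwa [NR_apply] at h5

/-- Reduction to the diagonal. -/
theorem NN_mem (S : Submodule ℂ ((ι ⊕ ι' → B → ℚ) → ℂ)) (T₁ : AddSubmonoid (Matrix B₁ B ℂ))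
    (T₂ : AddSubmonoid (Matrix B₂ B ℂ))
    (h : ∀ R ∈ T₁, ∀ R' ∈ T₂, NN A₁ A₂ (fun _ => R) (fun _ => R') ∈ S)
    (R : ι → Matrix B₁ B ℂ) (R' : ι' → Matrix B₂ B ℂ)
    (hR : ∀ y, R y ∈ Submodule.span ℂ (T₁ : Set (Matrix B₁ B ℂ)))
    (hR' : ∀ y, R' y ∈ Submodule.span ℂ (T₂ : Set (Matrix B₂ B ℂ))) : NN A₁ A₂ R R' ∈ S :=
  NN_memR A₁ A₂ S T₂ R (fun x hx => NN_memL A₁ A₂ S T₁ x (fun y hy => h y hy x hx) R hR) R' hR'

end nn

section expand

variable {G a : ℕ} {Z : Matrix (Fin G) (Fin G) ℂ} {Z₁ : Matrix (Fin a) (Fin a) ℂ}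

/-- Rational homomorphisms. -/
def TT (Z : Matrix (Fin G) (Fin G) ℂ) (Z₁ : Matrix (Fin a) (Fin a) ℂ) :
    AddSubmonoid (Matrix (Fin a ⊕ Fin a) (Fin G ⊕ Fin G) ℂ) where
  carrier := {C | ∃ R : Matrix (Fin a ⊕ Fin a) (Fin G ⊕ Fin G) ℚ, C = cK ℂ R ∧
    cK ℂ R * DZ Z = DZ Z₁ * cK ℂ R}
  add_mem' := by
    rintro _ _ ⟨R, rfl, hR⟩ ⟨R', rfl, hR'⟩
    have h1 : cK ℂ (R + R') = cK ℂ R + cK ℂ R' := by
      ext i j
      simp [cK]
    exact ⟨R + R', h1.symm, by rw [h1, Matrix.add_mul, Matrix.mul_add, hR, hR']⟩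
  zero_mem' := by
    have h1 : cK ℂ (0 : Matrix (Fin a ⊕ Fin a) (Fin G ⊕ Fin G) ℚ) = 0 := by
      ext i j
      simp [cK]
    exact ⟨0, h1.symm, by rw [h1, Matrix.zero_mul, Matrix.mul_zero]⟩

theorem exp_mem {Q : Matrix (Fin a ⊕ Fin a) (Fin G ⊕ Fin G) ℂ}
    (hQ : ∀ σ, Q * DS Z σ = DS Z₁ σ * Q) :
    Q ∈ Submodule.span ℂ (TT Z Z₁ : Set (Matrix (Fin a ⊕ Fin a) (Fin G ⊕ Fin G) ℂ)) := by
  let W : Submodule ℚ ℂ := Submodule.span ℚ (Set.range fun p : (Fin a ⊕ Fin a) × (Fin G ⊕ Fin G) =>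
    Q p.1 p.2)
  have : FiniteDimensional ℚ W := FiniteDimensional.span_of_finite ℚ (Set.finite_range _)
  obtain ⟨m, c, l, hl⟩ := exists_coord W
  have h1 : Q = ∑ j, c j • cK ℂ (Matrix.of fun i k => l j (Q i k)) := by
    ext i k
    rw [Matrix.sum_apply]
    exact hl _ (Submodule.subset_span ⟨(i, k), rfl⟩)
  rw [h1]
  refine Submodule.sum_mem _ fun j _ => Submodule.smul_mem _ _ (Submodule.subset_span ?_)
  refine ⟨_, rfl, ?_⟩
  -- the commutation on the span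
  let toL : Matrix ((Fin G ⊕ Fin G) ⊕ (Fin a ⊕ Fin a)) ((Fin G ⊕ Fin G) ⊕ (Fin a ⊕ Fin a)) ℂ →
      Prop := fun X => Q * X.toBlocks₁₁ = X.toBlocks₂₂ * Q
  have hLQ : ∀ X ∈ LP Z Z₁, toL X := by
    intro X hX
    unfold LP at hX
    induction hX using Submodule.span_induction with
    | mem X hX =>
      obtain ⟨σ, rfl⟩ := hX
      exact hQ σ
    | zero =>
      change Q * 0 = 0 * Q
      rw [Matrix.mul_zero, Matrix.zero_mul]
    | add X Y _ _ hX hY =>
      change Q * (X.toBlocks₁₁ + Y.toBlocks₁₁) = (X.toBlocks₂₂ + Y.toBlocks₂₂) * Q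
      rw [Matrix.mul_add, Matrix.add_mul, hX, hY]
    | smul c X _ hX =>
      change Q * (c • X.toBlocks₁₁) = (c • X.toBlocks₂₂) * Q
      rw [Matrix.mul_smul, Matrix.smul_mul, hX]
  have key : ∀ X ∈ LP Z Z₁, cK ℂ (Matrix.of fun i k => l j (Q i k)) * X.toBlocks₁₁ =
      X.toBlocks₂₂ * cK ℂ (Matrix.of fun i k => l j (Q i k)) := by
    refine rational_induction (LP Z Z₁) gal_LP ?_ ?_ ?_ ?_
    · intro u hu
      have h2 := hLQ _ hu
      change Q * (qm u).toBlocks₁₁ = (qm u).toBlocks₂₂ * Q at h2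
      ext i k
      have h3 := congrArg (l j) (congrFun (congrFun h2 i) k)
      rw [Matrix.mul_apply, Matrix.mul_apply, map_sum, map_sum] at h3
      have h4 : ∀ x, l j (Q i x * (qm u).toBlocks₁₁ x k) =
          l j (Q i x) * u (Sum.inl x) (Sum.inl k) := by
        intro x
        change l j (Q i x * ((u (Sum.inl x) (Sum.inl k) : ℚ) : ℂ)) = _
        rw [mul_comm, ← Rat.smul_def, map_smul, smul_eq_mul, mul_comm]
      have h5 : ∀ x, l j ((qm u).toBlocks₂₂ i x * Q x k) =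
          u (Sum.inr i) (Sum.inr x) * l j (Q x k) := by
        intro x
        change l j (((u (Sum.inr i) (Sum.inr x) : ℚ) : ℂ) * Q x k) = _
        rw [← Rat.smul_def, map_smul, smul_eq_mul]
      rw [Finset.sum_congr rfl fun x _ => h4 x, Finset.sum_congr rfl fun x _ => h5 x] at h3
      rw [Matrix.mul_apply, Matrix.mul_apply]
      have h6 := congrArg (fun q : ℚ => (q : ℂ)) h3
      simp only [Rat.cast_sum, Rat.cast_mul] at h6
      exact h6
    · change _ * 0 = 0 * _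
      rw [Matrix.mul_zero, Matrix.zero_mul]
    · intro X Y hX hY
      change _ * (X.toBlocks₁₁ + Y.toBlocks₁₁) = (X.toBlocks₂₂ + Y.toBlocks₂₂) * _
      rw [Matrix.mul_add, Matrix.add_mul, hX, hY]
    · intro c X hX
      change _ * (c • X.toBlocks₁₁) = (c • X.toBlocks₂₂) * _
      rw [Matrix.mul_smul, Matrix.smul_mul, hX]
  exact key _ (Submodule.subset_span ⟨RingEquiv.refl ℂ, rfl⟩)

end expand

end

end Pool.Agent.Y90
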