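import Mathlib
import Pool.Agent.Y90.Wei7

/-!
# The determinant forms belong to the ring
-/

set_option linter.unusedSectionVars false

namespace Pool.Agent.Y90

open Matrix Module Pool.Agent.W437.HC Pool.Agent.W437.HD Pool.Agent.W548.Odd Pool.Agent.TH504.CB
open Pool.Agent.H204R3.CM (IsHodge)
open Pool.Agent.W437.HP (cK cK_mul cK_one)

noncomputable section

variable {G : ℕ} {Z : Matrix (Fin G) (Fin G) ℂ}

section side

variable {U : Submodule ℂ (Fin G ⊕ Fin G → ℂ)} {a : ℕ} {Z' : Matrix (Fin a) (Fin a) ℂ}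
  {E : Matrix (Fin G ⊕ Fin G) (Fin a ⊕ Fin a) ℚ} {F : Matrix (Fin a ⊕ Fin a) (Fin G ⊕ Fin G) ℚ}
  {φ : Matrix (Fin a ⊕ Fin a) (Fin a ⊕ Fin a) ℚ} {α : ℂ} {d : ℚ} (k : KD Z U a Z' E F φ α d)
  {ι : Type} [Fintype ι] [DecidableEq ι]

/-- The isomorphism with the submodule of the factor. -/
def KD.eqv : U ≃ₗ[ℂ] U.map (ml F) :=
  LinearEquiv.ofBijective (((ml F).domRestrict U).codRestrict (U.map (ml F))
    fun u => Submodule.mem_map_of_mem u.2) (by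
      constructor
      · rw [injective_iff_map_eq_zero]
        intro u hu
        exact Subtype.ext (k.inj u u.2 (congrArg Subtype.val hu))
      · rintro ⟨_, u, hu, rfl⟩
        exact ⟨⟨u, hu⟩, rfl⟩)

theorem KD.eqv_coe (u : U) : (k.eqv u : Fin a ⊕ Fin a → ℂ) = ml F u := rfl

/-- The matrix of an equivariant map. -/
def qmat (F : Matrix (Fin a ⊕ Fin a) (Fin G ⊕ Fin G) ℚ) (q : (Fin G ⊕ Fin G → ℂ) →ₗ[ℂ] U) :
    Matrix (Fin a ⊕ Fin a) (Fin G ⊕ Fin G) ℂ :=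
  LinearMap.toMatrix' ((ml F).comp (U.subtype.comp q))

theorem qmat_mulVec (q : (Fin G ⊕ Fin G → ℂ) →ₗ[ℂ] U) (v : Fin G ⊕ Fin G → ℂ) :
    qmat F q *ᵥ v = ml F (q v) := by
  unfold qmat
  rw [← Matrix.toLin'_apply, Matrix.toLin'_toMatrix']
  rfl

include k in
theorem KD.qmat_comm (h : PM Z) {q : (Fin G ⊕ Fin G → ℂ) →ₗ[ℂ] U}
    (hq : ∀ g x, (q (RZ Z g x) : Fin G ⊕ Fin G → ℂ) = RZ Z g (q x)) (σ : ℂ ≃+* ℂ) :
    qmat F q * DS Z σ = DS Z' σ * qmat F q := by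
  have h1 := (rz_equiv h stab_top (U.subtype.comp q)).1 (fun g u _ => hq g u)
  have h2 : ∀ v, q (DS Z σ *ᵥ v) = DS Z σ *ᵥ (q v : Fin G ⊕ Fin G → ℂ) := fun v =>
    h1 _ (DS_mem σ) v trivial
  apply Matrix.toLin'.injective
  refine LinearMap.ext fun v => ?_
  rw [Matrix.toLin'_apply, Matrix.toLin'_apply, ← mulVec_mulVec, ← mulVec_mulVec, qmat_mulVec,
    qmat_mulVec, h2, ml_apply, ml_apply, mulVec_mulVec, mulVec_mulVec, k.fac.fds]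

/-- The alternating form. -/
def KD.alt (f : Basis ι ℂ U) : (Fin a ⊕ Fin a → ℂ) [⋀^ι]→ₗ[ℂ] ℂ :=
  (f.map k.eqv).det.compLinearMap k.kt.pU

theorem KD.alt_dl (f : Basis ι ℂ U) (v : ι → Fin a ⊕ Fin a → ℂ) :
    k.alt f v = k.kt.dl (f.map k.eqv) v := rfl

theorem KD.alt_q (f : Basis ι ℂ U) (q : ι → (Fin G ⊕ Fin G → ℂ) →ₗ[ℂ] U)
    (v : ι → Fin G ⊕ Fin G → ℂ) :
    k.alt f (fun y => qmat F (q y) *ᵥ v y) = f.det (fun y => q y (v y)) := by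
  unfold KD.alt
  rw [AlternatingMap.compLinearMap_apply, Basis.det_map]
  congr 1
  funext y
  have h1 : k.kt.pU (qmat F (q y) *ᵥ v y) = k.eqv (q y (v y)) := by
    rw [qmat_mulVec]
    exact k.kt.pU_of_mem (Submodule.mem_map_of_mem (q y (v y)).2)
  change k.eqv.symm (k.kt.pU (qmat F (q y) *ᵥ v y)) = _
  rw [h1, LinearEquiv.symm_apply_apply]

end side

theorem cv_rows_l {B B₁ B₂ : Type} [Fintype B] (R₁ : Matrix B₁ B ℚ) (R₂ : Matrix B₂ B ℚ)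
    (w : B → ℚ) : (fun i => cv (fromRows R₁ R₂ *ᵥ w) (Sum.inl i)) = cK ℂ R₁ *ᵥ cv w := by
  funext i
  simp [cv, mulVec, dotProduct, cK]

theorem cv_rows_r {B B₁ B₂ : Type} [Fintype B] (R₁ : Matrix B₁ B ℚ) (R₂ : Matrix B₂ B ℚ)
    (w : B → ℚ) : (fun i => cv (fromRows R₁ R₂ *ᵥ w) (Sum.inr i)) = cK ℂ R₂ *ᵥ cv w := by
  funext i
  simp [cv, mulVec, dotProduct, cK]

/-- The determinant forms belong to the ring. -/
theorem det_mem (h : PM Z) {U U' : Submodule ℂ (Fin G ⊕ Fin G → ℂ)} (hp : PrU Z U U')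
    (ι ι' : Type) [Fintype ι] [Fintype ι'] [DecidableEq ι] [DecidableEq ι'] (f : Basis ι ℂ U)
    (f' : Basis ι' ℂ U') (q : ι → (Fin G ⊕ Fin G → ℂ) →ₗ[ℂ] U)
    (q' : ι' → (Fin G ⊕ Fin G → ℂ) →ₗ[ℂ] U')
    (hq : ∀ y g x, (q y (RZ Z g x) : Fin G ⊕ Fin G → ℂ) = RZ Z g (q y x))
    (hq' : ∀ y g x, (q' y (RZ Z g x) : Fin G ⊕ Fin G → ℂ) = RZ Z g (q' y x))
    (ψ : MultilinearMap ℂ (fun _ : ι ⊕ ι' => Fin G ⊕ Fin G → ℂ) ℂ)
    (hψ : ∀ v, ψ v = f.det (fun y => q y (v (Sum.inl y))) *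
      f'.det (fun y => q' y (v (Sum.inr y)))) : ψ ∈ NZ h (ι ⊕ ι') := by
  obtain ⟨a₁, Z₁, E₁, F₁, φ₁, a₂, Z₂, E₂, F₂, φ₂, α, d, k₁, k₂, t₁, t₂⟩ := hp.data
  intro i1 i2
  obtain rfl : i1 = instFintypeSum ι ι' := Subsingleton.elim _ _
  obtain rfl : i2 = instDecidableEqSum := Subsingleton.elim _ _
  have h1 : altQ ψ = NN (k₁.alt f) (k₂.alt f') (fun y => qmat F₁ (q y))
      (fun y => qmat F₂ (q' y)) := by
    funext v
    unfold altQ NN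
    refine Finset.sum_congr rfl fun σ _ => ?_
    rw [hψ, k₁.alt_q f q, k₂.alt_q f' q']
  rw [h1]
  refine NN_mem (k₁.alt f) (k₂.alt f') (RC (AVZ h) (ι ⊕ ι')) (TT Z Z₁) (TT Z Z₂) ?_ _ _
    (fun y => exp_mem (k₁.qmat_comm h (hq y))) (fun y => exp_mem (k₂.qmat_comm h (hq' y)))
  rintro _ ⟨R, rfl, hR⟩ _ ⟨R', rfl, hR'⟩
  have h2 := diag_mem k₁.pm k₂.pm k₁.kt k₂.kt t₁ t₂ (f.map k₁.eqv) (f'.map k₂.eqv) h hR hR'
    k₁.odd k₂.odd
  have h3 : NN (k₁.alt f) (k₂.alt f') (fun _ => cK ℂ R) (fun _ => cK ℂ R') =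
      fun v : ι ⊕ ι' → (AVZ h).H => altQ (GY k₁.kt k₂.kt (f.map k₁.eqv) (f'.map k₂.eqv))
        (fun k => fromRows R R' *ᵥ v k) := by
    funext v
    unfold altQ NN
    refine Finset.sum_congr rfl fun σ _ => ?_
    rw [GY_apply, k₁.alt_dl, k₂.alt_dl]
    congr 3
    · funext y
      exact (cv_rows_l R R' (v (σ (Sum.inl y)))).symm
    · funext y
      exact (cv_rows_r R R' (v (σ (Sum.inr y)))).symm
  rw [h3]
  exact h2

/-- Hodge classes belong to the ring. -/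
theorem ring_main (h : PM Z) (hs : SmallF Z) {κ : Type} [Finite κ]
    (f : (Fin G ⊕ Fin G → ℚ) [⋀^κ]→ₗ[ℚ] ℚ) (hf : IsHodge (perOne Z) f) :
    WeilRing (AVZ h) κ f :=
  ring_of_hodge h hs (fun _ _ hp ι ι' _ _ _ _ f f' q q' hq hq' ψ hψ =>
    det_mem h hp ι ι' f f' q q' hq hq' ψ hψ) f hf

end

end Pool.Agent.Y90
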