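import Mathlib
import Pool.Agent.Y90.Wei8
import Pool.Agent.Y90.Stm

/-!
# Abstract abelian varieties and period matrices
-/

set_option linter.unusedSectionVars false

namespace Pool.Agent.Y90

open Matrix Module Pool.Agent.W437.HC Pool.Agent.W437.HD Pool.Agent.W548.Odd Pool.Agent.TH504.CB
open Pool.Agent.H204R3.CM (IsHodge)
open Pool.Agent.W437.HP (cK cK_mul cK_one)

noncomputable section

/-- Symplectic bases. -/
theorem darboux_std {V : Type*} [AddCommGroup V] [Module ℚ V] [FiniteDimensional ℚ V]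
    (ω : V →ₗ[ℚ] V →ₗ[ℚ] ℚ) (halt : ∀ v, ω v v = 0) (hnd : ∀ u, (∀ v, ω v u = 0) → u = 0) :
    ∃ (a : ℕ) (b : Basis (Fin a ⊕ Fin a) ℚ V), ∀ p q, ω (b p) (b q) = Om a ℚ p q := by
  classical
  obtain ⟨R, hR1, hR2, e, inv, jj, h3, h4, h5, h6, h7⟩ := exists_darboux
    (finrank ℚ V) V ω halt hnd le_rfl
  obtain ⟨a, τ⟩ : ∃ a, Nonempty (Fin a ≃ {x // jj x = 1}) :=
    ⟨Fintype.card {x // jj x = 1}, ⟨(Fintype.equivFin _).symm⟩⟩
  obtain ⟨τ⟩ := τ
  have hτ : ∀ k, jj (τ k).1 = 1 := fun k => (τ k).2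
  have hτi : ∀ k, jj (inv (τ k).1) = -1 := fun k => by rw [h5, hτ]
  let σf : Fin a ⊕ Fin a → R := Sum.elim (fun k => (τ k).1) (fun k => inv (τ k).1)
  have hσ : Function.Bijective σf := by
    constructor
    · rintro (k | k) (l | l) hkl
      · exact congrArg Sum.inl (τ.injective (Subtype.ext hkl))
      · exfalso
        have h8 : (τ k).1 = inv (τ l).1 := hkl
        have h9 := hτ k
        rw [h8, hτi] at h9
        norm_num at h9
      · exfalso
        have h8 : inv (τ k).1 = (τ l).1 := hkl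
        have h9 := hτ l
        rw [← h8, hτi] at h9
        norm_num at h9
      · have h8 : inv (τ k).1 = inv (τ l).1 := hkl
        have h9 := congrArg inv h8
        rw [h3, h3] at h9
        exact congrArg Sum.inr (τ.injective (Subtype.ext h9))
    · intro x
      rcases h6 x with h | h
      · exact ⟨Sum.inl (τ.symm ⟨x, h⟩), by simp [σf]⟩
      · have h8 : jj (inv x) = 1 := by rw [h5, h, neg_neg]
        exact ⟨Sum.inr (τ.symm ⟨inv x, h8⟩), by simp [σf, h3]⟩
  let σ : Fin a ⊕ Fin a ≃ R := Equiv.ofBijective σf hσ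
  let b : Basis (Fin a ⊕ Fin a) ℚ V := e.reindex σ.symm
  have hb : ∀ q, b q = e (σf q) := fun q => by
    rw [Basis.reindex_apply, Equiv.symm_symm]
    rfl
  refine ⟨a, b, fun p q => ?_⟩
  rw [hb, hb, h7]
  unfold Pool.Agent.H204R3.SP.JJ
  rcases p with k | k <;> rcases q with l | l
  · rw [if_neg]
    · simp [Om]
    · intro h
      have h8 : (τ l).1 = inv (τ k).1 := h
      have h9 := hτ l
      rw [h8, hτi] at h9
      norm_num at h9
  · by_cases hkl : k = l
    · subst hkl
      have h8 : σf (Sum.inr k) = inv (σf (Sum.inl k)) := rfl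
      rw [if_pos h8, Om12, if_pos rfl]
      exact hτ k
    · rw [if_neg, Om12, if_neg hkl]
      intro h
      have h8 : inv (τ l).1 = inv (τ k).1 := h
      have h9 := congrArg inv h8
      rw [h3, h3] at h9
      exact hkl (τ.injective (Subtype.ext h9)).symm
  · by_cases hkl : k = l
    · subst hkl
      have h8 : σf (Sum.inl k) = inv (σf (Sum.inr k)) := (h3 _).symm
      rw [if_pos h8, Om21, if_pos rfl]
      exact hτi k
    · rw [if_neg, Om21, if_neg hkl]
      intro h
      have h8 : (τ l).1 = inv (inv (τ k).1) := h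
      rw [h3] at h8
      exact hkl (τ.injective (Subtype.ext h8)).symm
  · rw [if_neg]
    · simp [Om]
    · intro h
      have h8 : inv (τ l).1 = inv (inv (τ k).1) := h
      rw [h3] at h8
      have h9 := hτ k
      rw [← h8, hτi] at h9
      norm_num at h9

section real

variable {B : Type} [Fintype B] [DecidableEq B] {T : Type} [AddCommGroup T] [Module ℂ T]

/-- Multiplication by the imaginary unit. -/
def mulI (T : Type) [AddCommGroup T] [Module ℂ T] : T →ₗ[ℝ] T where
  toFun t := Complex.I • t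
  map_add' s t := smul_add _ s t
  map_smul' r t := by
    rw [RingHom.id_apply, smul_comm]

theorem mulI_apply (t : T) : mulI T t = Complex.I • t := rfl

/-- The complex structure on the coordinates. -/
def Jm (e : (B → ℝ) ≃ₗ[ℝ] T) : Matrix B B ℝ :=
  LinearMap.toMatrix' (e.symm.toLinearMap.comp ((mulI T).comp e.toLinearMap))

theorem Jm_mulVec (e : (B → ℝ) ≃ₗ[ℝ] T) (x : B → ℝ) : Jm e *ᵥ x = e.symm (Complex.I • e x) := by
  unfold Jm
  rw [← Matrix.toLin'_apply, Matrix.toLin'_toMatrix']
  rfl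

theorem Jm_sq (e : (B → ℝ) ≃ₗ[ℝ] T) : Jm e * Jm e = -1 := by
  apply Matrix.toLin'.injective
  refine LinearMap.ext fun x => ?_
  rw [Matrix.toLin'_apply, Matrix.toLin'_apply, ← mulVec_mulVec, Jm_mulVec, Jm_mulVec,
    LinearEquiv.apply_symm_apply, smul_smul, Complex.I_mul_I, neg_one_smul, map_neg,
    LinearEquiv.symm_apply_apply, neg_mulVec, one_mulVec]

end real

variable {H T : Type} [AddCommGroup H] [Module ℚ H] [AddCommGroup T] [Module ℂ T] {per : H →+ T}

theorem per_smul (per : H →+ T) (c : ℚ) (v : H) : per (c • v) = (c : ℝ) • per v := by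
  have h1 := map_ratCast_smul per ℚ ℝ c v
  rwa [Rat.cast_id] at h1

/-- **Period matrices** of abstract abelian varieties. -/
theorem exists_ppav (hX : St.IsAV per) : ∃ (a : ℕ) (Z : Matrix (Fin a) (Fin a) ℂ) (_ : PM Z)
    (A : H ≃ₗ[ℚ] (Fin a ⊕ Fin a → ℚ)), Cht (per.comp A.symm.toLinearMap.toAddMonoidHom) (JR Z) := by
  obtain ⟨hH, hT, hspan, hrank, E, Ψ, hΨl, hΨc, hΨp, hE⟩ := hX
  have hadd : ∀ u v w, Ψ (u + v) w = Ψ u w + Ψ v w := fun u v w => (hΨl w).map_add u v
  have hsmul : ∀ (c : ℂ) u w, Ψ (c • u) w = c * Ψ u w := fun c u w => (hΨl w).map_smul c u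
  have hadd' : ∀ u v w, Ψ w (u + v) = Ψ w u + Ψ w v := by
    intro u v w
    rw [hΨc (u + v) w, hadd, map_add, ← hΨc, ← hΨc]
  have hrs : ∀ (r : ℝ) u w, Ψ (r • u) w = r * Ψ u w := by
    intro r u w
    rw [show r • u = (r : ℂ) • u from rfl, hsmul]
  have hrs' : ∀ (r : ℝ) u w, Ψ w (r • u) = r * Ψ w u := by
    intro r u w
    rw [hΨc (r • u) w, hrs, map_mul, Complex.conj_ofReal, ← hΨc]
  have hanti : ∀ u w, (Ψ u w).im = -(Ψ w u).im := by
    intro u w
    rw [hΨc w u, Complex.conj_im]
  -- the real form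
  let Bf : T →ₗ[ℝ] T →ₗ[ℝ] ℝ := LinearMap.mk₂ ℝ (fun u v => (Ψ v u).im)
    (fun u v w => by rw [hadd', Complex.add_im]) (fun r u v => by
      rw [hrs', Complex.im_ofReal_mul, smul_eq_mul])
    (fun u v w => by rw [hadd, Complex.add_im]) (fun r u v => by
      rw [hrs, Complex.im_ofReal_mul, smul_eq_mul])
  have hBf : ∀ u v, Bf u v = (Ψ v u).im := fun u v => rfl
  -- the rational form
  have hcast : ∀ v w, ((E w v : ℚ) : ℝ) = Bf (per v) (per w) := fun v w => (hE w v).symm
  let ω : H →ₗ[ℚ] H →ₗ[ℚ] ℚ := LinearMap.mk₂ ℚ (fun v w => E w v)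
    (fun u v w => by
      have h1 : ((E w (u + v) : ℚ) : ℝ) = ((E w u + E w v : ℚ) : ℝ) := by
        push_cast
        rw [hcast, hcast, hcast, map_add, map_add, LinearMap.add_apply]
      exact_mod_cast h1)
    (fun c u v => by
      have h1 : ((E v (c • u) : ℚ) : ℝ) = ((c • E v u : ℚ) : ℝ) := by
        rw [smul_eq_mul]
        push_cast
        rw [hcast, hcast, per_smul, map_smul, LinearMap.smul_apply, smul_eq_mul]
      exact_mod_cast h1)
    (fun u v w => by
      have h1 : ((E (v + w) u : ℚ) : ℝ) = ((E v u + E w u : ℚ) : ℝ) := by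
        push_cast
        rw [hcast, hcast, hcast, map_add, map_add]
      exact_mod_cast h1)
    (fun c u v => by
      have h1 : ((E (c • v) u : ℚ) : ℝ) = ((c • E v u : ℚ) : ℝ) := by
        rw [smul_eq_mul]
        push_cast
        rw [hcast, hcast, per_smul, map_smul, smul_eq_mul]
      exact_mod_cast h1)
  have hω : ∀ v w, ((ω v w : ℚ) : ℝ) = Bf (per v) (per w) := fun v w => hcast v w
  have halt : ∀ v, ω v v = 0 := by
    intro v
    have h1 : ((ω v v : ℚ) : ℝ) = 0 := by
      rw [hω, hBf]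
      have h2 := hanti (per v) (per v)
      linarith
    exact_mod_cast h1
  -- the coordinates
  have hfinR : finrank ℝ T = 2 * finrank ℂ T := (finrank_real_of_complex T)
  have hfT : FiniteDimensional ℝ T := FiniteDimensional.complexToReal T
  -- injectivity of the periods
  have hinj : ∀ v : H, per v = 0 → v = 0 := by
    intro v hv
    let b := finBasis ℚ H
    have h1 : ⊤ ≤ Submodule.span ℝ (Set.range fun i => per (b i)) := by
      rw [← hspan]
      refine Submodule.span_le.2 ?_
      rintro _ ⟨w, rfl⟩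
      rw [← b.sum_repr w, map_sum]
      refine Submodule.sum_mem _ fun i _ => ?_
      rw [per_smul]
      exact Submodule.smul_mem _ _ (Submodule.subset_span ⟨i, rfl⟩)
    have h2 := linearIndependent_of_top_le_span_of_card_eq_finrank h1 (by
      rw [Fintype.card_fin, hrank, hfinR])
    rw [Fintype.linearIndependent_iff] at h2
    have h3 := h2 (fun i => ((b.repr v i : ℚ) : ℝ)) (by
      rw [← hv]
      conv_rhs => rw [← b.sum_repr v, map_sum]
      refine Finset.sum_congr rfl fun i _ => ?_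
      rw [per_smul])
    rw [← b.sum_repr v]
    refine Finset.sum_eq_zero fun i _ => ?_
    have h4 : b.repr v i = 0 := by exact_mod_cast h3 i
    rw [h4, zero_smul]
  have hnd : ∀ u, (∀ v, ω v u = 0) → u = 0 := by
    intro u hu
    apply hinj
    by_contra hne
    have h1 : ∀ t : T, Bf t (per u) = 0 := by
      intro t
      have ht : t ∈ Submodule.span ℝ (Set.range per) := by rw [hspan]; trivial
      induction ht using Submodule.span_induction with
      | mem t ht =>
        obtain ⟨v, rfl⟩ := ht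
        rw [← hω, hu, Rat.cast_zero]
      | zero => rw [map_zero, LinearMap.zero_apply]
      | add x y _ _ hx hy => rw [map_add, LinearMap.add_apply, hx, hy, add_zero]
      | smul r x _ hx => rw [map_smul, LinearMap.smul_apply, hx, smul_zero]
    have h2 := h1 (Complex.I • per u)
    rw [hBf, hanti, hsmul] at h2
    have h3 := hΨp _ hne
    rw [Complex.mul_im, Complex.I_re, Complex.I_im, zero_mul, one_mul, zero_add] at h2
    linarith
  obtain ⟨a, b, hb⟩ := darboux_std ω halt hnd
  have hcard : finrank ℚ H = a + a := by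
    rw [finrank_eq_card_basis b, Fintype.card_sum, Fintype.card_fin]
  let P : (Fin a ⊕ Fin a → ℝ) →ₗ[ℝ] T := Fintype.linearCombination ℝ (fun i => per (b i))
  have hP : ∀ x, P x = ∑ i, x i • per (b i) := fun x => rfl
  have hPw : ∀ w : Fin a ⊕ Fin a → ℚ, P (fun i => ((w i : ℚ) : ℝ)) =
      per (b.equivFun.symm w) := by
    intro w
    rw [hP, Basis.equivFun_symm_apply, map_sum]
    refine Finset.sum_congr rfl fun i _ => ?_
    rw [per_smul]
  have hPs : Function.Surjective P := by
    rw [← LinearMap.range_eq_top, eq_top_iff, ← hspan, Submodule.span_le]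
    rintro _ ⟨w, rfl⟩
    refine ⟨fun i => ((b.equivFun w i : ℚ) : ℝ), ?_⟩
    rw [hPw, LinearEquiv.symm_apply_apply]
  have hPi : Function.Injective P :=
    (LinearMap.injective_iff_surjective_of_finrank_eq_finrank (by
      rw [finrank_fintype_fun_eq_card, Fintype.card_sum, Fintype.card_fin, hfinR, ← hrank,
        hcard])).2 hPs
  let e : (Fin a ⊕ Fin a → ℝ) ≃ₗ[ℝ] T := LinearEquiv.ofBijective P ⟨hPi, hPs⟩
  have he : ∀ x, e x = P x := fun x => rfl
  have hom : ∀ x y : Fin a ⊕ Fin a → ℝ, x ⬝ᵥ (Om a ℝ *ᵥ y) = Bf (e x) (e y) := by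
    intro x y
    have key : Bf (∑ i, x i • per (b i)) (∑ j, y j • per (b j)) =
        ∑ i, ∑ j, x i * (y j * Bf (per (b i)) (per (b j))) := by
      rw [map_sum Bf, LinearMap.sum_apply]
      refine Finset.sum_congr rfl fun i _ => ?_
      rw [map_smul, LinearMap.smul_apply, map_sum, smul_eq_mul, Finset.mul_sum]
      refine Finset.sum_congr rfl fun j _ => ?_
      rw [map_smul, smul_eq_mul]
    rw [he, he, hP, hP, key]
    simp only [dotProduct, mulVec, Finset.mul_sum]
    refine Finset.sum_congr rfl fun i _ => Finset.sum_congr rfl fun j _ => ?_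
    rw [← hω, hb]
    have h1 : cK ℝ (Om a ℚ) = Om a ℝ := Om_map ℝ
    rw [← h1]
    change x i * (((Om a ℚ i j : ℚ) : ℝ) * y j) = _
    ring
  have hsym : ∀ x y : Fin a ⊕ Fin a → ℝ, x ⬝ᵥ ((Om a ℝ * Jm e) *ᵥ y) = (Ψ (e y) (e x)).re := by
    intro x y
    rw [← mulVec_mulVec, hom, Jm_mulVec, LinearEquiv.apply_symm_apply, hBf, hsmul,
      Complex.mul_im, Complex.I_re, Complex.I_im, zero_mul, one_mul, zero_add]
  have hpos : (Om a ℝ * Jm e).PosDef := by
    refine PosDef.of_dotProduct_mulVec_pos ?_ fun x hx => ?_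
    · rw [IsHermitian, conjTranspose_eq_transpose_of_trivial]
      ext i j
      have h1 := hsym (Pi.single j 1) (Pi.single i 1)
      have h2 := hsym (Pi.single i 1) (Pi.single j 1)
      rw [mulVec_single_one, single_one_dotProduct] at h1 h2
      rw [transpose_apply]
      change (Om a ℝ * Jm e) j i = (Om a ℝ * Jm e) i j
      rw [Matrix.col_apply] at h1 h2
      rw [h1, h2, hΨc (e (Pi.single j 1)) (e (Pi.single i 1)), Complex.conj_re]
    · rw [star_trivial, hsym]
      exact hΨp _ (fun h0 => hx (by rw [← e.symm_apply_apply x, h0, map_zero]))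
  obtain ⟨Z, hZ1, hZ2, hZ3⟩ := exists_period (Jm_sq e) hpos
  refine ⟨a, Z, ⟨hZ1, hZ2⟩, b.equivFun, ?_, P, e.symm.toLinearMap, hPw, fun x => ?_, fun x => ?_,
    fun t => ?_⟩
  · rw [hZ3]
    exact Jm_sq e
  · rw [hZ3, Jm_mulVec, ← he, LinearEquiv.apply_symm_apply]
    rfl
  · exact e.symm_apply_apply x
  · exact e.apply_symm_apply t

end

end Pool.Agent.Y90
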