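import Mathlib
import Pool.Agent.Y90.Ab1

/-!
# Simple abelian subvarieties and factors of the period matrix
-/

set_option linter.unusedSectionVars false

namespace Pool.Agent.Y90

open Matrix Module Pool.Agent.W437.HC Pool.Agent.W437.HD Pool.Agent.W548.Odd Pool.Agent.TH504.CB
open Pool.Agent.H204R3.CM (IsHodge)
open Pool.Agent.W437.HP (cK cK_mul cK_one)

noncomputable section

variable {H T : Type} [AddCommGroup H] [Module ℚ H] [AddCommGroup T] [Module ℂ T] {per : H →+ T}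
  {G : ℕ} {Z : Matrix (Fin G) (Fin G) ℂ}

theorem perOne_span {a : ℕ} {Z' : Matrix (Fin a) (Fin a) ℂ} (h' : PM Z') :
    Submodule.span ℝ (Set.range (perOne Z')) = ⊤ := (AVZ h').span

/-- The simple factors of the period matrix are small. -/
theorem smallF_of (A : H ≃ₗ[ℚ] (Fin G ⊕ Fin G → ℚ))
    (hC : Cht (per.comp A.symm.toLinearMap.toAddMonoidHom) (JR Z)) (hs : St.SmallSimple per) :
    SmallF Z := by
  intro a Z' E F hfac h' hsim ha
  obtain ⟨Ψ₁, h₁⟩ := h'.cht.hom hC (R := E) (by rw [DJ_JR, DJ_JR]; exact hfac.de.symm)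
  obtain ⟨Ψ₂, h₂⟩ := hC.hom h'.cht (R := F) (by rw [DJ_JR, DJ_JR]; exact hfac.fd)
  obtain ⟨ι, hι⟩ : ∃ ι : (Fin a ⊕ Fin a → ℚ) →ₗ[ℚ] H, ∀ y, ι y = A.symm (E *ᵥ y) :=
    ⟨A.symm.toLinearMap.comp (Matrix.mulVecLin E), fun y => rfl⟩
  obtain ⟨π, hπ⟩ : ∃ π : H →ₗ[ℚ] (Fin a ⊕ Fin a → ℚ), ∀ v, π v = F *ᵥ A v :=
    ⟨(Matrix.mulVecLin F).comp A.toLinearMap, fun y => rfl⟩
  have hπι : ∀ y, π (ι y) = y := by
    intro y
    rw [hπ, hι, LinearEquiv.apply_symm_apply, mulVec_mulVec, hfac.fe, one_mulVec]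
  have g₁ : ∀ y, Ψ₁ (perOne Z' y) = per (ι y) := fun y => by
    rw [hι]
    exact h₁ y
  have g₂ : ∀ v, Ψ₂ (per v) = perOne Z' (π v) := fun v => by
    have h3 := h₂ (A v)
    have h4 : (per.comp A.symm.toLinearMap.toAddMonoidHom) (A v) = per v := by
      change per (A.symm (A v)) = per v
      rw [LinearEquiv.symm_apply_apply]
    rw [h4] at h3
    rw [hπ]
    exact h3
  have hsp : ∀ t : Fin a → ℂ, t ∈ Submodule.span ℝ (Set.range (perOne Z')) := by
    intro t
    rw [perOne_span h']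
    trivial
  have hr₁ : ∀ (r : ℝ) t, Ψ₁ (r • t) = r • Ψ₁ t := fun r t => Ψ₁.map_smul_of_tower r t
  have hr₂ : ∀ (r : ℝ) t, Ψ₂ (r • t) = r • Ψ₂ t := fun r t => Ψ₂.map_smul_of_tower r t
  have hinj : Function.Injective ι := fun x y hxy => by
    rw [← hπι x, hxy, hπι]
  obtain ⟨U, hU⟩ : ∃ U : Submodule ℚ H, U = LinearMap.range ι := ⟨_, rfl⟩
  have hUι : ∀ y, ι y ∈ U := fun y => by
    rw [hU]
    exact ⟨y, rfl⟩
  have hrank : finrank ℚ U = 2 * a := by
    rw [hU, LinearMap.finrank_range_of_inj hinj, finrank_fintype_fun_eq_card, Fintype.card_sum,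
      Fintype.card_fin]
    ring
  -- the image of the first map
  have hm₁ : ∀ (S : Set H) (S' : Set (Fin a ⊕ Fin a → ℚ)), (∀ y ∈ S', ι y ∈ S) →
      ∀ t ∈ Submodule.span ℝ (perOne Z' '' S'), Ψ₁ t ∈ Submodule.span ℝ (per '' S) := by
    intro S S' hS t ht
    induction ht using Submodule.span_induction with
    | mem t ht =>
      obtain ⟨y, hy, rfl⟩ := ht
      rw [g₁]
      exact Submodule.subset_span ⟨_, hS y hy, rfl⟩
    | zero =>
      rw [map_zero]
      exact Submodule.zero_mem _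
    | add x y _ _ hx hy =>
      rw [map_add]
      exact Submodule.add_mem _ hx hy
    | smul r x _ hx =>
      rw [hr₁]
      exact Submodule.smul_mem _ _ hx
  have hm₂ : ∀ (S : Set H) (S' : Set (Fin a ⊕ Fin a → ℚ)), (∀ v ∈ S, π v ∈ S') →
      ∀ t ∈ Submodule.span ℝ (per '' S), Ψ₂ t ∈ Submodule.span ℝ (perOne Z' '' S') := by
    intro S S' hS t ht
    induction ht using Submodule.span_induction with
    | mem t ht =>
      obtain ⟨v, hv, rfl⟩ := ht
      rw [g₂]
      exact Submodule.subset_span ⟨_, hS v hv, rfl⟩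
    | zero =>
      rw [map_zero]
      exact Submodule.zero_mem _
    | add x y _ _ hx hy =>
      rw [map_add]
      exact Submodule.add_mem _ hx hy
    | smul r x _ hx =>
      rw [hr₂]
      exact Submodule.smul_mem _ _ hx
  have hΨ : ∀ t, Ψ₂ (Ψ₁ t) = t := by
    intro t
    have ht := hsp t
    induction ht using Submodule.span_induction with
    | mem t ht =>
      obtain ⟨y, rfl⟩ := ht
      rw [g₁, g₂, hπι]
    | zero => rw [map_zero, map_zero]
    | add x y _ _ hx hy => rw [map_add, map_add, hx, hy]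
    | smul r x _ hx => rw [hr₁, hr₂, hx]
  have hsub : St.IsSub per U := by
    intro x hx
    obtain ⟨t, rfl⟩ : ∃ t, x = Ψ₁ t := by
      induction hx using Submodule.span_induction with
      | mem x hx =>
        obtain ⟨v, hv, rfl⟩ := hx
        rw [hU] at hv
        obtain ⟨y, rfl⟩ := hv
        exact ⟨_, (g₁ y).symm⟩
      | zero => exact ⟨0, (map_zero _).symm⟩
      | add x y _ _ hx hy =>
        obtain ⟨s, rfl⟩ := hx
        obtain ⟨t, rfl⟩ := hy
        exact ⟨s + t, (map_add _ _ _).symm⟩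
      | smul r x _ hx =>
        obtain ⟨s, rfl⟩ := hx
        exact ⟨r • s, (hr₁ _ _).symm⟩
    rw [← map_smul]
    refine hm₁ U Set.univ (fun y _ => hUι y) _ ?_
    rw [Set.image_univ]
    exact hsp _
  have hsimple : St.IsSimpleSub per U := by
    refine ⟨hsub, ?_, fun U' hU' hsub' => ?_⟩
    · intro h0
      rw [h0, finrank_bot] at hrank
      omega
    · have h3 := hsim (U'.comap ι) (fun x hx => by
        have h4 := hm₁ U' (U'.comap ι) (fun y hy => hy) x hx
        have h5 := hsub' _ h4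
        have h6 := hm₂ U' (U'.comap ι) (fun v hv => by
          have h7 := hU' hv
          rw [hU] at h7
          obtain ⟨y, rfl⟩ := h7
          change ι (π (ι y)) ∈ U'
          rw [hπι]
          exact hv) _ h5
        rwa [map_smul, hΨ] at h6)
      rcases h3 with h3 | h3
      · left
        rw [Submodule.eq_bot_iff]
        intro v hv
        have h7 := hU' hv
        rw [hU] at h7
        obtain ⟨y, rfl⟩ := h7
        have h8 : y ∈ U'.comap ι := hv
        rw [h3, Submodule.mem_bot] at h8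
        rw [h8, map_zero]
      · right
        refine le_antisymm hU' ?_
        intro v hv
        rw [hU] at hv
        obtain ⟨y, rfl⟩ := hv
        have h8 : y ∈ U'.comap ι := by rw [h3]; trivial
        exact h8
  obtain ⟨h3, h4⟩ := hs U hsimple
  refine ⟨by omega, fun hcm => ?_⟩
  suffices hcm' : St.IsCMSub per U by
    have h5 := h4 hcm'
    omega
  obtain ⟨A', hc, hr, hD⟩ := hcm
  let e₀ : (Fin a ⊕ Fin a → ℚ) ≃ₗ[ℚ] LinearMap.range ι := LinearEquiv.ofInjective ι hinj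
  let e : (Fin a ⊕ Fin a → ℚ) ≃ₗ[ℚ] U := e₀.trans (LinearEquiv.ofEq _ _ hU.symm)
  have he : ∀ y, (e y : H) = ι y := fun y => rfl
  let Φ : Matrix (Fin a ⊕ Fin a) (Fin a ⊕ Fin a) ℚ ≃ₗ[ℚ] (U →ₗ[ℚ] U) :=
    Matrix.toLin'.trans e.conj
  have hΦ : ∀ M u, Φ M u = e (M *ᵥ e.symm u) := by
    intro M u
    change e.conj (Matrix.toLin' M) u = _
    rw [LinearEquiv.conj_apply_apply, Matrix.toLin'_apply]
  have hΦm : ∀ M N, Φ M ∘ₗ Φ N = Φ (M * N) := by
    intro M N
    refine LinearMap.ext fun u => ?_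
    rw [LinearMap.comp_apply, hΦ, hΦ, hΦ, LinearEquiv.symm_apply_apply, mulVec_mulVec]
  refine ⟨(Subalgebra.toSubmodule A').map Φ.toLinearMap, ?_, ?_, ?_⟩
  · rintro _ ⟨M, hM, rfl⟩ _ ⟨N, hN, rfl⟩
    change Φ M ∘ₗ Φ N = Φ N ∘ₗ Φ M ∧ Φ M ∘ₗ Φ N ∈ _
    rw [hΦm, hΦm, hc M hM N hN]
    exact ⟨rfl, ⟨N * M, A'.mul_mem hN hM, rfl⟩⟩
  · rw [hrank, ← hr]
    exact LinearEquiv.finrank_map_eq Φ (Subalgebra.toSubmodule A')
  · rintro _ ⟨M, hM, rfl⟩
    obtain ⟨Ψ₃, h₅⟩ := h'.cht.hom h'.cht (R := M) (by rw [DJ_JR]; exact hD M hM)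
    refine ⟨Ψ₁.comp (Ψ₃.comp Ψ₂), fun u => ?_⟩
    obtain ⟨y, rfl⟩ := e.surjective u
    rw [LinearMap.comp_apply, LinearMap.comp_apply, he, g₂, hπι, h₅, g₁]
    change _ = per ((Φ M (e y) : U) : H)
    rw [hΦ, LinearEquiv.symm_apply_apply, he]

end

end Pool.Agent.Y90
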