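import Mathlib
import Pool.Agent.Y90.Pi2

/-!
# Invariant forms on a multiplicity free sum, with products of determinants
-/

set_option linter.unusedSectionVars false

namespace Pool.Agent.Y90

open Module Pool.Agent.H204R3.SP Pool.Agent.H204R3.GP Pool.Agent.W522.U

noncomputable section

/-- Products of multilinear forms. -/
theorem exists_prodML {K : Type*} [Field K] {X : Type*} [AddCommGroup X] [Module K X] {A : Type}
    [Fintype A] (B : A → Type) [∀ a, Finite (B a)]
    (ψ : ∀ a, MultilinearMap K (fun _ : B a => X) K) :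
    ∃ Ψ : MultilinearMap K (fun _ : (Σ a, B a) => X) K, ∀ v, Ψ v = ∏ a, ψ a (fun k => v ⟨a, k⟩) := by
  let N : ∀ (κ : Type) [Finite κ], Submodule K (MultilinearMap K (fun _ : κ => X) K) :=
    fun κ _ => ⊤
  have hN : Clo N := ⟨fun _ _ _ _ => trivial, fun _ _ _ _ _ _ _ _ _ _ _ _ _ => trivial⟩
  obtain ⟨Ψ, -, hΨ⟩ := hN.exists_fam B ψ (fun _ => trivial) (Equiv.refl _)
  exact ⟨Ψ, hΨ⟩

variable {K : Type*} [Field K] [CharZero K]
  {I : Type} [Fintype I] [DecidableEq I] {E : I → Type*} [∀ i, AddCommGroup (E i)]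
  [∀ i, Module K (E i)] [∀ i, FiniteDimensional K (E i)] {G : Type*} [Group G]
  {r : ∀ i, Representation K G (E i)} {χ : G →* K}
  (ω : (∀ i, E i) →ₗ[K] (∀ i, E i) →ₗ[K] K) (halt : ∀ u, ω u u = 0)
  (hnd : ∀ u, (∀ w, ω u w = 0) → u = 0)
  (hωρ : ∀ g u v, ω (piRep r g u) (piRep r g v) = χ g * ω u v)
  (st : I → I) (hst : ∀ i, st (st i) = i)
  (hor : ∀ i j, j ≠ st i → ∀ (u : E i) (v : E j), ω (Pi.single i u) (Pi.single j v) = 0)
  (htw : ∀ i j, i ≠ j → 2 ≤ finrank K (E i) → 2 ≤ finrank K (E j) →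
    ∀ (T : E i →ₗ[K] E j) (ψ : G → K), (∀ g u, T (r i g u) = ψ g • r j g (T u)) → T = 0)
  (hirr : ∀ i, 2 ≤ finrank K (E i) → Irr (r i))
  (hnil : ∀ i, 2 ≤ finrank K (E i) → ∃ N ∈ lieT (piRep r) χ, N * N = 0 ∧
    ∃ (u : E i) (φ : Dual K (E i)), u ≠ 0 ∧ φ ≠ 0 ∧ ∀ x, N (Pi.single i x) i = φ x • u)
  {n : ℕ} (e : Basis (Fin n ⊕ Fin n) K (∀ i, E i)) (lab : Fin n ⊕ Fin n → I)
  (hlab : ∀ x, e x = Pi.single (lab x) (e x (lab x)))
  (hlab' : ∀ x, lab x.swap = st (lab x))
  (he0 : ∀ x y, y ≠ x.swap → ω (e x) (e y) = 0) (he1 : ∀ x, ω (e x) (e x.swap) ≠ 0)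

variable (N : ∀ (κ : Type) [Finite κ], Submodule K (MultilinearMap K (fun _ : κ => ∀ i, E i) K))
  (hN : Clo N)
  (hpair : ∀ b : (∀ i, E i) →ₗ[K] (∀ i, E i) →ₗ[K] K,
    (∀ g u v, b (piRep r g u) (piRep r g v) = χ g * b u v) → bil2 b ∈ N (Fin 2))

include hN hpair hlab he0 hωρ in
/-- The products of pairings and determinants belong to the system. -/
theorem PD_mem3 {κ : Type} [Fintype κ] [DecidableEq κ] {S : Type} [Fintype S] (C : S → I)
    (hdet : ∀ ψ : MultilinearMap K (fun _ : (Σ q, Mem lab (C q)) => ∀ i, E i) K,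
      (∀ v, ψ v = ∏ q, dF e lab (C q) (fun y => v ⟨q, y⟩)) → ψ ∈ N (Σ q, Mem lab (C q))) :
    PD κ lab Sum.swap (fun x => ω (e x) (e x.swap)) C ⊆ (N κ).map (evB e) := by
  classical
  rintro _ ⟨m, S0, e2, c, rfl⟩
  obtain ⟨Θ, hΘ⟩ := exists_prodML (fun q : S => Mem lab (C q)) (fun q => dF e lab (C q))
  let B : (S0 ⊕ Unit) → Type := Sum.elim (fun _ => Fin 2) (fun _ => Σ q, Mem lab (C q))
  have hBf : ∀ a, Finite (B a) := by
    rintro (s | x)
    · exact inferInstanceAs (Finite (Fin 2))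
    · exact inferInstanceAs (Finite (Σ q, Mem lab (C q)))
  let ψ : ∀ a, MultilinearMap K (fun _ : B a => ∀ i, E i) K := fun a =>
    match a with
    | Sum.inl s => bil2 (ω.comp (pc (c s)))
    | Sum.inr _ => Θ
  have hψ : ∀ a, ψ a ∈ N (B a) := by
    rintro (s | x)
    · refine hpair _ fun g u v => ?_
      change ω (Pi.single (c s) (r (c s) g (u (c s)))) (piRep r g v) =
        χ g * ω (Pi.single (c s) (u (c s))) v
      rw [← piRep_single, hωρ]
    · exact hdet _ hΘ
  let eB : (Σ a, B a) ≃ κ :=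
    (Equiv.sumSigmaDistrib B).trans ((Equiv.sumCongr (Equiv.sigmaEquivProd S0 (Fin 2))
      (Equiv.uniqueSigma (fun _ : Unit => Σ q, Mem lab (C q)))).trans e2)
  obtain ⟨Ψ, hΨ, hΨ'⟩ := hN.exists_fam B ψ hψ eB
  refine ⟨Ψ, hΨ, ?_⟩
  funext J
  change Ψ (fun k => e (J k)) = _
  rw [hΨ', Fintype.prod_sum_type]
  congr 1
  · refine Finset.prod_congr rfl fun s _ => ?_
    change ω (pc (c s) (e (J (e2 (Sum.inl (s, 0)))))) (e (J (e2 (Sum.inl (s, 1))))) = _
    rw [pc_e e lab hlab]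
    split_ifs with h
    · exact (JJ_eq ω e he0 _ _).symm
    · rw [map_zero, LinearMap.zero_apply]
  · rw [Fintype.prod_unique]
    change Θ (fun k => e (J (e2 (Sum.inr k)))) = _
    rw [hΘ]
    refine Finset.prod_congr rfl fun q _ => ?_
    rw [dF_basis]

variable (hprod : ∀ a : I → ℤ, (∀ i, a (st i) = -a i) →
  (∀ g : G, ∃ M : ℕ, M ≠ 0 ∧ (∏ i, LinearMap.det (r i g) ^ a i) ^ M = 1) →
  ∀ ψ : MultilinearMap K (fun _ : (Σ q : (Σ i, Fin (a i).toNat), Mem lab q.1) => ∀ i, E i) K,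
    (∀ v, ψ v = ∏ q : (Σ i, Fin (a i).toNat), dF e lab q.1 (fun y => v ⟨q, y⟩)) →
    ψ ∈ N (Σ q : (Σ i, Fin (a i).toNat), Mem lab q.1))

include halt hnd hωρ hst hor htw hirr hnil hlab hlab' he0 he1 hN hpair hprod in
/-- The components of a Tate form belong to the system. -/
theorem comp_mem3 [IsAlgClosed K] {m : ℕ}
    (φ : MultilinearMap K (fun _ : Fin m × Fin 2 => ∀ i, E i) K)
    (hφ : IsTate (piRep r) χ m φ) (t : Fin m × Fin 2 → I) :
    φ.compLinearMap (fun k => pc (t k)) ∈ N (Fin m × Fin 2) := by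
  classical
  have hskew := om_skew ω halt
  have hev : evB e (φ.compLinearMap (fun k => pc (t k))) = Fc e lab φ t := by
    funext J
    change φ (fun k => pc (t k) (e (J k))) = _
    unfold Fc
    split_ifs with h
    · congr 1
      funext k
      rw [pc_e e lab hlab, if_pos (h k)]
    · push Not at h
      obtain ⟨k, hk⟩ := h
      refine φ.map_coord_zero k ?_
      rw [pc_e e lab hlab, if_neg hk]
  by_cases h0 : φ.compLinearMap (fun k => pc (t k)) = 0
  · rw [h0]
    exact Submodule.zero_mem _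
  obtain ⟨J, hJt, hJ⟩ : ∃ J : Fin m × Fin 2 → Fin n ⊕ Fin n, (∀ k, lab (J k) = t k) ∧
      φ (fun k => e (J k)) ≠ 0 := by
    by_contra hcon
    push Not at hcon
    apply h0
    apply evB_inj e
    rw [hev, map_zero]
    funext J
    unfold Fc
    split_ifs with h
    · exact hcon J h
    · rfl
  have htJ : (fun k => lab (J k)) = t := funext hJt
  -- the integers
  have hz : ∀ i, ∃ z : ℤ, (finrank K (E i) : ℤ) * z = (cnt t i : ℤ) - cnt t (st i) ∧
      (finrank K (E i) = 0 → z = 0) := by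
    intro i
    by_cases h : ∃ y, lab y = i
    · obtain ⟨y, rfl⟩ := h
      refine ⟨(cnt J y : ℤ) - cnt J y.swap, ?_, fun h1 => absurd h1
        (finrank_pos_lab e lab hlab y).ne'⟩
      rw [weight_one ω halt hnd hωρ st hst hor htw hirr hnil e lab hlab hlab' he0 he1 φ hφ J hJ y,
        htJ]
    · push Not at h
      have h1 : ∀ j, (∀ y, lab y ≠ j) → cnt t j = 0 := by
        intro j hj
        unfold cnt
        refine Finset.sum_eq_zero fun k _ => if_neg ?_
        rw [← hJt k]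
        exact hj _
      refine ⟨0, ?_, fun _ => rfl⟩
      rw [h1 i h, h1 (st i) (fun y hy => h y.swap (by rw [hlab', hy, hst]))]
      simp
  choose a ha ha0 using hz
  have ha' : ∀ i, a (st i) = -a i := by
    intro i
    have hfr := finrank_st ω hnd st hst hor i
    by_cases h : finrank K (E i) = 0
    · rw [ha0 i h, ha0 (st i) (by rw [hfr, h]), neg_zero]
    · have h1 := ha i
      have h2 := ha (st i)
      rw [hfr, hst] at h2
      have h3 : (finrank K (E i) : ℤ) * a (st i) = (finrank K (E i) : ℤ) * (-a i) := by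
        rw [h2, mul_neg, h1]
        ring
      exact mul_left_cancel₀ (by exact_mod_cast h) h3
  -- the balance
  have hdet := hprod a ha' (fun g => by
    obtain ⟨Δ, hΔ, hφΔ⟩ := hφ
    obtain ⟨M, hM0, hM⟩ := exists_pow_mem Δ hΔ g
    refine ⟨M, hM0, det_rel ω halt hnd hωρ st hst hor htw hirr hnil g φ Δ hΔ hφΔ M hM t
      (fun k => e (J k) (t k)) ?_ a ha⟩
    have h1 : (fun k => (Pi.single (t k) (e (J k) (t k)) : ∀ i, E i)) = fun k => e (J k) := by
      funext k
      exact (e_single e lab hlab (hJt k)).symm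
    rw [h1]
    exact hJ)
  have hF : Fc e lab φ t ∈ Submodule.span K (PD (Fin m × Fin 2) lab Sum.swap
      (fun x => ω (e x) (e x.swap)) (fun q : (Σ i, Fin (a i).toNat) => q.1)) := by
    refine sl_fft (Cs := fun q => st q.1) (fun x => Sum.swap_swap x) (fun x => ?_) he1
      (fun x y h => ?_) (fun q : (Σ i, Fin (a i).toNat) => q.1) (fun q y => ?_)
      (fun q q' h => ?_) (t := t) (fun L hL k => ?_) (fun b c hbc L => ?_)
    · rw [Sum.swap_swap, hskew]
    · rw [hlab', hlab', h]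
    · rw [hlab', y.2]
    · have h1 := q.2.2
      have h2 := q'.2.2
      have h3 := ha' q.1
      rw [h] at h3
      omega
    · unfold Fc at hL
      by_contra hcon
      exact hL (if_neg fun h => hcon (h k))
    · exact elemX_F ω halt hnd hωρ st hst hor htw hirr hnil e lab hlab hlab' he0 he1 φ hφ t a ha
        ha' b c hbc L
  have h2 := Submodule.span_le.2 (PD_mem3 ω hωρ e lab hlab he0 N hN hpair
    (κ := Fin m × Fin 2) (fun q : (Σ i, Fin (a i).toNat) => q.1) hdet) hF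
  obtain ⟨ψ, hψ, hψF⟩ := h2
  rw [← hev] at hψF
  rw [← evB_inj e hψF]
  exact hψ

include halt hnd hωρ hst hor htw hirr hnil hlab hlab' he0 he1 hN hpair hprod in
/-- Tate forms belong to the system. -/
theorem tate_mem3 [IsAlgClosed K] {m : ℕ}
    (φ : MultilinearMap K (fun _ : Fin m × Fin 2 => ∀ i, E i) K)
    (hφ : IsTate (piRep r) χ m φ) : φ ∈ N (Fin m × Fin 2) := by
  classical
  have h1 : φ = ∑ t : Fin m × Fin 2 → I, φ.compLinearMap (fun k => pc (t k)) := by
    refine MultilinearMap.ext fun v => ?_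
    rw [_root_.sum_apply]
    have h2 : v = fun k => ∑ i, pc (K := K) i (v k) := by
      funext k
      exact (Finset.univ_sum_single (v k)).symm
    conv_lhs => rw [h2]
    rw [MultilinearMap.map_sum]
    rfl
  rw [h1]
  exact Submodule.sum_mem _ fun t _ => comp_mem3 ω halt hnd hωρ st hst hor htw hirr hnil e lab
    hlab hlab' he0 he1 N hN hpair hprod φ hφ t

end

end Pool.Agent.Y90
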