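import Mathlib
import Pool.Agent.Y90.E2
import Pool.Agent.Y90.Pi3

/-!
# Invariant forms on a semisimple representation, with products of determinants
-/

set_option linter.unusedSectionVars false

namespace Pool.Agent.Y90

open Module Pool.Agent.H204R3.SP Pool.Agent.H204R3.GP Pool.Agent.W522.U

noncomputable section

variable {K : Type*} [Field K] [CharZero K] {X : Type*} [AddCommGroup X] [Module K X]
  [FiniteDimensional K X]
  {Γ : Type*} [Group Γ]

variable {R : Representation K Γ X} {χ : Γ →* K}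
  (hfi : ∀ Δ : Subgroup Γ, Δ.FiniteIndex → Δ = ⊤)
  (ω : X →ₗ[K] X →ₗ[K] K) (hnd : ∀ u, (∀ v, ω u v = 0) → u = 0)
  (hωR : ∀ g u v, ω (R g u) (R g v) = χ g * ω u v)
  (hR1 : ∀ U, SI R U → 2 ≤ finrank K U → ∃ γ : Γ, (R γ - 1) * (R γ - 1) = 0 ∧
    finrank K (U.map (R γ - 1)) = 1)
  (hR2 : ∀ U, SI R U → finrank K U = 1 → ¬Du R χ U U)
  (hH : ∀ U U', SI R U → SI R U' → 2 ≤ finrank K U → ¬Du R χ U U → ∀ ψ : Γ → K, Tw R ψ U U' →
    Tw R (fun _ => 1) U U')
  (hss : HasProj R)

include hfi hnd hωR hR1 hR2 hH hss in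
/-- The invariant forms belong to each system of forms which contains the invariant bilinear forms
and the invariant products of determinants. -/
theorem forms_mem3 [IsAlgClosed K] {s : ℕ} (W : Fin s → Submodule K X) (hW : ∀ i, SI R (W i))
    (hWW : ∀ i j, Tw R (fun _ => 1) (W i) (W j) → i = j)
    (hall : ∀ U, SI R U → ∃ i, Tw R (fun _ => 1) U (W i))
    (st : Fin s → Fin s) (hst : ∀ i, st (st i) = i) (hDu : ∀ i, Du R χ (W i) (W (st i)))
    (hDu' : ∀ i j, Du R χ (W i) (W j) → j = st i)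
    (N : ∀ (κ : Type) [Finite κ], Submodule K (MultilinearMap K (fun _ : κ => X) K))
    (hN : Clo N)
    (hpair : ∀ b : X →ₗ[K] X →ₗ[K] K, (∀ g u v, b (R g u) (R g v) = χ g * b u v) →
      bil2 b ∈ N (Fin 2))
    (hprod : ∀ a : Fin s → ℤ, (∀ i, a (st i) = -a i) →
      (∀ (g : Γ) (h : ∀ i, ∀ u ∈ W i, R g u ∈ W i), ∃ M : ℕ, M ≠ 0 ∧
        (∏ i, LinearMap.det ((R g).restrict (h i)) ^ a i) ^ M = 1) →
      ∀ (ι : (Σ i, Fin (a i).toNat) → Type) [∀ q, Fintype (ι q)] [∀ q, DecidableEq (ι q)]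
        (f : ∀ q, Basis (ι q) K (W q.1)) (Q : ∀ q, ι q → X →ₗ[K] W q.1),
        (∀ q y g x, (Q q y (R g x) : X) = R g (Q q y x)) →
        ∀ ψ : MultilinearMap K (fun _ : (Σ q, ι q) => X) K, (∀ v, ψ v =
          ∏ q, (f q).det (fun y => Q q y (v ⟨q, y⟩))) → ψ ∈ N (Σ q, ι q))
    {m : ℕ} (φ : MultilinearMap K (fun _ : Fin m × Fin 2 => X) K) (hφ : IsTate R χ m φ) :
    φ ∈ N (Fin m × Fin 2) := by
  classical
  obtain ⟨B, Δ, hΔ, hWΔ, halt, hnd', hsim, hor, htw, hirr, hnil⟩ :=
    main_data ω hnd hωR hR1 hR2 hH W hW hWW st hst hDu hDu'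
  obtain rfl := hfi Δ hΔ
  obtain ⟨n, e, lab, -, hlab, hlab', he0, he1, -, -⟩ :=
    exists_graded (pf W st B) halt hnd' hsim st hst hor 1
  let r := fun i => resR R ⊤ (W i) (hWΔ i)
  -- the system on the sum of the representatives
  let Eq : (X →ₗ[K] ∀ i, W i) → Prop := fun q =>
    ∀ (g : Γ) (x : X), q (R g x) = piRep r ⟨g, Subgroup.mem_top g⟩ (q x)
  let N' : ∀ (κ : Type) [Finite κ], Submodule K (MultilinearMap K (fun _ : κ => ∀ i, W i) K) :=
    fun κ _ =>
      { carrier := {F | ∀ q : κ → (X →ₗ[K] ∀ i, W i), (∀ k, Eq (q k)) → F.compLinearMap q ∈ N κ}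
        add_mem' := fun {F F'} hF hF' q hq => by
          have h1 := Submodule.add_mem _ (hF q hq) (hF' q hq)
          exact h1
        zero_mem' := fun q hq => by
          have h1 : (0 : MultilinearMap K (fun _ : κ => ∀ i, W i) K).compLinearMap q = 0 := rfl
          rw [h1]
          exact Submodule.zero_mem _
        smul_mem' := fun c F hF q hq => by
          have h1 := Submodule.smul_mem _ c (hF q hq)
          exact h1 }
  have hN' : Clo N' := by
    constructor
    · intro κ _ _ F q _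
      exact hN.unit κ _
    · intro κ κ' κ'' _ _ _ e F F' ψ hF hF' hψ q hq
      refine hN.mul κ κ' κ'' e _ _ _ (hF (fun k => q (e (Sum.inl k))) (fun k => hq _))
        (hF' (fun k => q (e (Sum.inr k))) (fun k => hq _)) fun v => ?_
      rw [MultilinearMap.compLinearMap_apply, hψ]
      rfl
  have hmain : ∀ F : MultilinearMap K (fun _ : Fin m × Fin 2 => ∀ i, W i) K,
      IsTate (piRep r) (χ.comp (⊤ : Subgroup Γ).subtype) m F → F ∈ N' (Fin m × Fin 2) := by
    intro F hF
    refine tate_mem3 (pf W st B) halt hnd' hsim st hst hor htw (fun i _ => hirr i) hnil e lab hlab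
      hlab' he0 he1 N' hN' ?_ ?_ F hF
    · intro b hb q hq
      have h1 := hpair (b.compl₁₂ (q 0) (q 1)) (fun g u v => by
        rw [LinearMap.compl₁₂_apply, LinearMap.compl₁₂_apply, hq, hq, hb]
        rfl)
      refine hN.reindex (Equiv.refl _) h1 _ fun v => rfl
    · intro a ha hag ψ hψ q hq
      choose f hf using fun i => exists_fb e lab hlab i
      refine hprod a ha (fun g h => hag ⟨g, Subgroup.mem_top g⟩) (fun q' => Mem lab q'.1)
        (fun q' => f q'.1) (fun q' y => (LinearMap.proj q'.1).comp (q ⟨q', y⟩))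
        (fun q' y g x => ?_) _ fun v => ?_
      · rw [LinearMap.comp_apply, hq]
        rfl
      · rw [MultilinearMap.compLinearMap_apply, hψ]
        refine Finset.prod_congr rfl fun q' _ => ?_
        rw [dF_eq e lab q'.1 (f q'.1) (hf q'.1) hlab]
        rfl
  -- expansion
  obtain ⟨n', f, T, hfT⟩ := Submodule.mem_span_set'.1 (decomp hss W hW hall)
  choose i p ι D hD hp hι hT using fun l => (T l).2
  have hDt : ∀ l, D l = ⊤ := fun l => hfi _ (hD l)
  have hexp : φ = ∑ L : Fin m × Fin 2 → Fin n', (∏ k, f (L k)) •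
      φ.compLinearMap (fun k => (T (L k)).1) := by
    ext v
    rw [sum_apply]
    have h1 : v = fun k => ∑ l, f l • (T l).1 (v k) := by
      funext k
      have h2 := congrArg (fun F : Module.End K X => F (v k)) hfT
      simp only [LinearMap.sum_apply, LinearMap.smul_apply, Module.End.one_apply] at h2
      exact h2.symm
    conv_lhs => rw [h1]
    rw [MultilinearMap.map_sum]
    refine Finset.sum_congr rfl fun L _ => ?_
    rw [MultilinearMap.map_smul_univ]
    rfl
  obtain ⟨Δφ, hΔφ, hφ'⟩ := hφ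
  obtain rfl := hfi Δφ hΔφ
  rw [hexp]
  refine Submodule.sum_mem _ fun L _ => Submodule.smul_mem _ _ ?_
  let φL : MultilinearMap K (fun _ : Fin m × Fin 2 => ∀ i, W i) K :=
    φ.compLinearMap (fun k => (ι (L k)).comp (LinearMap.proj (i (L k))))
  have hφL : IsTate (piRep r) (χ.comp (⊤ : Subgroup Γ).subtype) m φL := by
    refine ⟨⊤, inferInstance, fun g _ w => ?_⟩
    change φ (fun k => ι (L k) (piRep r g (w k) (i (L k)))) = χ g.1 ^ m * φ (fun k => _)
    rw [← hφ' g.1 (Subgroup.mem_top _)]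
    congr 1
    funext k
    exact hι (L k) g.1 (by rw [hDt]; exact Subgroup.mem_top _) _ _ rfl
  let q : Fin m × Fin 2 → (X →ₗ[K] ∀ i, W i) := fun k =>
    (LinearMap.single K (fun i => W i) (i (L k))).comp (p (L k))
  have hq : ∀ k, Eq (q k) := by
    intro k g x
    change (Pi.single (i (L k)) (p (L k) (R g x)) : ∀ i, W i) =
      piRep r ⟨g, _⟩ (Pi.single (i (L k)) (p (L k) x))
    rw [piRep_single]
    congr 1
    exact Subtype.ext (hp (L k) g (by rw [hDt]; exact Subgroup.mem_top _) x)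
  have h1 : φ.compLinearMap (fun k => (T (L k)).1) = φL.compLinearMap q := by
    ext v
    change φ (fun k => (T (L k)).1 (v k)) = φ (fun k => ι (L k)
      ((Pi.single (i (L k)) (p (L k) (v k)) : ∀ i, W i) (i (L k))))
    congr 1
    funext k
    rw [hT, Pi.single_eq_same]
    rfl
  rw [h1]
  exact hmain φL hφL q hq

end

end Pool.Agent.Y90
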