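import Mathlib
import Pool.Agent.Y90.Stm

/-!
# The system of cohomology classes generated by divisors, Weil classes on abelian fourfolds and
# Hodge classes on abelian varieties with complex multiplication

The conventions are those of `Pool.Agent.Y90.Stm`: an abelian variety (up to isogeny) is given by
`H = H_1(X, ℚ)`, its tangent space `T` and its period map `per : H → T`, and `H^κ(X, ℚ)` is the
space of the alternating forms on `H` in variables indexed by the finite set `κ`.
-/

namespace Pool.Agent.Y90.St

open Pool.Agent.H204R3.CM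

variable {H T : Type} [AddCommGroup H] [Module ℚ H] [AddCommGroup T] [Module ℂ T]

/-- All simple abelian subvarieties of `X` have dimension at most three, and those with complex
multiplication have dimension at most `m`. -/
def SmallSimpleCM (m : ℕ) (per : H →+ T) : Prop :=
  ∀ U : Submodule ℚ H, IsSimpleSub per U →
    Module.finrank ℚ U ≤ 6 ∧ (IsCMSub per U → Module.finrank ℚ U ≤ 2 * m)

/-- All simple abelian subvarieties of `X` have complex multiplication and dimension at most `m`. -/
def CMSimple (m : ℕ) (per : H →+ T) : Prop :=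
  ∀ U : Submodule ℚ H, IsSimpleSub per U → IsCMSub per U ∧ Module.finrank ℚ U ≤ 2 * m

/-- `f ∈ H^4(Y, ℚ)` is a Weil class of an imaginary quadratic field on the abelian fourfold `Y`:
`f` is a Hodge class, and there are a positive rational number `d` and an endomorphism `h = √-d` of
`Y` such that `h` may be moved in `f` from each variable to each other variable (so `f` lies in the
line `Λ^4_K H¹(Y, ℚ)` over the field `K = ℚ(√-d)`). -/
def IsWeilFour (per : H →+ T) (f : H [⋀^Fin 4]→ₗ[ℚ] ℚ) : Prop :=
  Module.finrank ℚ H = 8 ∧ IsHodge per f ∧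
    ∃ (d : ℚ) (h : H →ₗ[ℚ] H), 0 < d ∧ IsHom per per h ∧ (∀ w, h (h w) = -(d • w)) ∧
      ∀ (v : Fin 4 → H) (k l : Fin 4),
        f (Function.update v k (h (v k))) = f (Function.update v l (h (v l)))

/-- The period map of the product of two abelian varieties. -/
def perProd {H' T' : Type} [AddCommGroup H'] [Module ℚ H'] [AddCommGroup T'] [Module ℂ T']
    (per : H →+ T) (per' : H' →+ T') : H × H' →+ T × T' :=
  per.prodMap per'

/-- The smallest system of cohomology classes on abelian varieties which contains the classes of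
degree zero, the Hodge classes of degree two, the Weil classes of imaginary quadratic fields on
abelian fourfolds and the Hodge classes on abelian varieties whose simple abelian subvarieties have
complex multiplication and dimension at most `m`, and which is stable under linear combinations, cup
products, pull-backs along homomorphisms of abelian varieties and push-forwards along the
projections `X × Y → X`. -/
inductive Generated (m : ℕ) : ∀ {H T : Type} [AddCommGroup H] [Module ℚ H] [AddCommGroup T]
    [Module ℂ T] (_ : H →+ T) (κ : Type), (H [⋀^κ]→ₗ[ℚ] ℚ) → Prop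
  /-- classes of degree zero -/
  | unit {H T : Type} [AddCommGroup H] [Module ℚ H] [AddCommGroup T] [Module ℂ T] {per : H →+ T}
      (hX : IsAV per) {κ : Type} [IsEmpty κ] (f : H [⋀^κ]→ₗ[ℚ] ℚ) : Generated m per κ f
  /-- Hodge classes of degree two -/
  | divisor {H T : Type} [AddCommGroup H] [Module ℚ H] [AddCommGroup T] [Module ℂ T]
      {per : H →+ T} (hX : IsAV per) {κ : Type} (hκ : Nat.card κ = 2) (f : H [⋀^κ]→ₗ[ℚ] ℚ)
      (hf : IsHodge per f) : Generated m per κ f
  /-- Weil classes on abelian fourfolds -/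
  | weil {H T : Type} [AddCommGroup H] [Module ℚ H] [AddCommGroup T] [Module ℂ T]
      {per : H →+ T} (hX : IsAV per) (f : H [⋀^Fin 4]→ₗ[ℚ] ℚ) (hf : IsWeilFour per f) :
      Generated m per (Fin 4) f
  /-- Hodge classes on abelian varieties with complex multiplication -/
  | cm {H T : Type} [AddCommGroup H] [Module ℚ H] [AddCommGroup T] [Module ℂ T] {per : H →+ T}
      (hX : IsAV per) (hm : CMSimple m per) {κ : Type} (f : H [⋀^κ]→ₗ[ℚ] ℚ)
      (hf : IsHodge per f) : Generated m per κ f
  /-- sums -/
  | add {H T : Type} [AddCommGroup H] [Module ℚ H] [AddCommGroup T] [Module ℂ T] {per : H →+ T}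
      {κ : Type} (f g : H [⋀^κ]→ₗ[ℚ] ℚ) (hf : Generated m per κ f) (hg : Generated m per κ g) :
      Generated m per κ (f + g)
  /-- rational multiples -/
  | smul {H T : Type} [AddCommGroup H] [Module ℚ H] [AddCommGroup T] [Module ℂ T] {per : H →+ T}
      {κ : Type} (a : ℚ) (f : H [⋀^κ]→ₗ[ℚ] ℚ) (hf : Generated m per κ f) :
      Generated m per κ (a • f)
  /-- the zero class -/
  | zero {H T : Type} [AddCommGroup H] [Module ℚ H] [AddCommGroup T] [Module ℂ T] {per : H →+ T}
      (hX : IsAV per) (κ : Type) : Generated m per κ 0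
  /-- renaming of the variables -/
  | reindex {H T : Type} [AddCommGroup H] [Module ℚ H] [AddCommGroup T] [Module ℂ T]
      {per : H →+ T} {κ κ' : Type} (e : κ ≃ κ') (f : H [⋀^κ]→ₗ[ℚ] ℚ) (hf : Generated m per κ f) :
      Generated m per κ' (f.domDomCongr e)
  /-- cup products (up to a factor) -/
  | cup {H T : Type} [AddCommGroup H] [Module ℚ H] [AddCommGroup T] [Module ℂ T] {per : H →+ T}
      {κ κ' : Type} [Fintype κ] [DecidableEq κ] [Fintype κ'] [DecidableEq κ']
      (f : H [⋀^κ]→ₗ[ℚ] ℚ) (g : H [⋀^κ']→ₗ[ℚ] ℚ) (hf : Generated m per κ f)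
      (hg : Generated m per κ' g) (h : H [⋀^κ ⊕ κ']→ₗ[ℚ] ℚ)
      (hh : ∀ v : κ ⊕ κ' → H, h v = ∑ σ : Equiv.Perm (κ ⊕ κ'), ((Equiv.Perm.sign σ : ℤ) : ℚ) *
        (f (fun k => v (σ (Sum.inl k))) * g (fun k => v (σ (Sum.inr k))))) :
      Generated m per (κ ⊕ κ') h
  /-- pull-backs along homomorphisms `X → Y` -/
  | pull {H T H' T' : Type} [AddCommGroup H] [Module ℚ H] [AddCommGroup T] [Module ℂ T]
      [AddCommGroup H'] [Module ℚ H'] [AddCommGroup T'] [Module ℂ T'] {per : H →+ T}
      {per' : H' →+ T'} (hX : IsAV per) {κ : Type} (f : H' [⋀^κ]→ₗ[ℚ] ℚ)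
      (hf : Generated m per' κ f) (h : H →ₗ[ℚ] H') (hh : IsHom per per' h) :
      Generated m per κ (f.compLinearMap h)
  /-- push-forwards along the projections `X × Y → X` (integration over the fibres: the last
  variables are replaced by a basis of `H_1(Y, ℚ)`) -/
  | push {H T H' T' : Type} [AddCommGroup H] [Module ℚ H] [AddCommGroup T] [Module ℂ T]
      [AddCommGroup H'] [Module ℚ H'] [AddCommGroup T'] [Module ℂ T'] {per : H →+ T}
      {per' : H' →+ T'} (hX : IsAV per) (hY : IsAV per') {κ : Type} {n : ℕ}
      (e : Module.Basis (Fin n) ℚ H') (f : (H × H') [⋀^κ ⊕ Fin n]→ₗ[ℚ] ℚ)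
      (hf : Generated m (perProd per per') (κ ⊕ Fin n) f) (g : H [⋀^κ]→ₗ[ℚ] ℚ)
      (hg : ∀ v : κ → H, g v = f (Sum.elim (fun k => (v k, 0)) (fun j => (0, e j)))) :
      Generated m per κ g

end Pool.Agent.Y90.St
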