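import Mathlib
import Pool.Agent.Y90.NRing
import Pool.Agent.Y90.Wei8

/-!
# Pull-backs of Weil classes on products of a threefold and an elliptic curve
-/

set_option linter.unusedSectionVars false

namespace Pool.Agent.Y90

open Matrix Module Pool.Agent.W437.HC Pool.Agent.W437.HD Pool.Agent.W548.Odd Pool.Agent.TH504.CB
open Pool.Agent.H204R3.CM (IsHodge)
open Pool.Agent.W437.HP (cK cK_mul cK_one)

noncomputable section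

theorem isAV_AV (X : AV) : St.IsAV X.per := ⟨X.finH, X.finT, X.span, X.rank, X.pol⟩

/-- Rational homomorphisms. -/
def TJ {B B₁ : Type} [Fintype B] [Fintype B₁] (D : Matrix B B ℂ) (D₁ : Matrix B₁ B₁ ℂ) :
    AddSubmonoid (Matrix B₁ B ℂ) where
  carrier := {C | ∃ R : Matrix B₁ B ℚ, C = cK ℂ R ∧ cK ℂ R * D = D₁ * cK ℂ R}
  add_mem' := by
    rintro _ _ ⟨R, rfl, hR⟩ ⟨R', rfl, hR'⟩
    refine ⟨R + R', ?_, ?_⟩
    · ext i j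
      simp [cK]
    · have h1 : cK ℂ (R + R') = cK ℂ R + cK ℂ R' := by
        ext i j
        simp [cK]
      rw [h1, Matrix.add_mul, Matrix.mul_add, hR, hR']
  zero_mem' := by
    refine ⟨0, ?_, ?_⟩
    · ext i j
      simp [cK]
    · have h1 : cK ℂ (0 : Matrix B₁ B ℚ) = 0 := by
        ext i j
        simp [cK]
      rw [h1, Matrix.zero_mul, Matrix.mul_zero]

/-- The alternating form. -/
def KT.altF {a : ℕ} {Z : Matrix (Fin a) (Fin a) ℂ} {U : Submodule ℂ (Fin a ⊕ Fin a → ℂ)}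
    {φ : Matrix (Fin a ⊕ Fin a) (Fin a ⊕ Fin a) ℚ} {α : ℂ} {d : ℚ} (k : KT Z U φ α d)
    {ι : Type} [Fintype ι] [DecidableEq ι] (f : Basis ι ℂ U) :
    (Fin a ⊕ Fin a → ℂ) [⋀^ι]→ₗ[ℂ] ℂ := f.det.compLinearMap k.pU

variable {a₁ a₂ : ℕ} {Z₁ : Matrix (Fin a₁) (Fin a₁) ℂ} {Z₂ : Matrix (Fin a₂) (Fin a₂) ℂ}
  (h₁ : PM Z₁) (h₂ : PM Z₂)
  {U₁ : Submodule ℂ (Fin a₁ ⊕ Fin a₁ → ℂ)} {U₂ : Submodule ℂ (Fin a₂ ⊕ Fin a₂ → ℂ)}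
  {φ₁ : Matrix (Fin a₁ ⊕ Fin a₁) (Fin a₁ ⊕ Fin a₁) ℚ}
  {φ₂ : Matrix (Fin a₂ ⊕ Fin a₂) (Fin a₂ ⊕ Fin a₂) ℚ} {α : ℂ} {d : ℚ}
  (k₁ : KT Z₁ U₁ φ₁ α d) (k₂ : KT Z₂ U₂ φ₂ α d)
  (t₁ : tr Z₁ U₁ = 1) (t₂ : tr Z₂ U₂ = -1)
  {ι ι' : Type} [Fintype ι] [DecidableEq ι] [Fintype ι'] [DecidableEq ι']
  (f₁ : Basis ι ℂ U₁) (f₂ : Basis ι' ℂ U₂)
  {B : Type} [Fintype B] [DecidableEq B] {T : Type} [AddCommGroup T] [Module ℂ T]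
  {per : (B → ℚ) →+ T} {J : Matrix B B ℝ} (h : Cht per J) (hX : St.IsAV per) {m : ℕ}

section pull

variable {R₁ : Matrix (Fin a₁ ⊕ Fin a₁) B ℚ} {R₂ : Matrix (Fin a₂ ⊕ Fin a₂) B ℚ}
  (c₁ : cK ℂ R₁ * DJ J = DZ Z₁ * cK ℂ R₁) (c₂ : cK ℂ R₂ * DJ J = DZ Z₂ * cK ℂ R₂)

include c₁ c₂ in
theorem rows_commG : cK ℂ (fromRows R₁ R₂) * DJ J =
    DJ (fromBlocks (JR Z₁) 0 0 (JR Z₂)) * cK ℂ (fromRows R₁ R₂) := by
  have h1 : cK ℂ (fromRows R₁ R₂) = fromRows (cK ℂ R₁) (cK ℂ R₂) := by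
    ext i j
    rcases i with i | i <;> rfl
  rw [DJ_prod, h1]
  unfold DP
  rw [fromRows_mul, c₁, c₂, fromBlocks_mul_fromRows, Matrix.zero_mul, Matrix.zero_mul, add_zero,
    zero_add]
  rfl

include h₁ h₂ t₁ t₂ c₁ c₂ h hX in
theorem pull_memG (o₁ : a₁ = 1 ∨ a₁ = 3) (o₂ : a₂ = 1 ∨ a₂ = 3) (o : a₁ + a₂ = 4)
    (l : ℂ →ₗ[ℚ] ℚ) : St.Generated m per (ι ⊕ ι')
      ((ratA (GY k₁ k₂ f₁ f₂) l).compLinearMap (Matrix.toLin' (fromRows R₁ R₂))) := by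
  obtain ⟨Ψ, hΨ⟩ := h.hom (h₁.cht.prod h₂.cht) (rows_commG c₁ c₂)
  have hΨ' : ∀ v, Ψ (per v) = perP (perOne Z₁) (perOne Z₂)
      (Matrix.toLin' (fromRows R₁ R₂) v) := fun v => by
    rw [toLin'_apply]
    exact hΨ v
  have hc := card_idx k₁ k₂ f₁ f₂
  let e : ι ⊕ ι' ≃ Fin 4 := Fintype.equivFinOfCardEq (hc.trans o)
  obtain ⟨w1, w2, d', h', w3, w4, w5, w6, -⟩ := weil_class h₁ h₂ k₁ k₂ t₁ t₂ f₁ f₂ o₁ o₂ l e
  have h3 : St.Generated m (AVP h₁ h₂).per (Fin 4) ((ratA (GY k₁ k₂ f₁ f₂) l).domDomCongr e) :=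
    St.Generated.weil (isAV_AV _) _ ⟨w1, w2, d', h', w3, w4, w5, w6⟩
  have h4 := St.Generated.reindex e.symm _
    (St.Generated.pull (per := per) hX _ h3 (Matrix.toLin' (fromRows R₁ R₂)) ⟨Ψ, hΨ'⟩)
  have h5 : ((((ratA (GY k₁ k₂ f₁ f₂) l).domDomCongr e).compLinearMap
      (Matrix.toLin' (fromRows R₁ R₂))).domDomCongr e.symm) =
      (ratA (GY k₁ k₂ f₁ f₂) l).compLinearMap (Matrix.toLin' (fromRows R₁ R₂)) := by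
    ext v
    rw [AlternatingMap.domDomCongr_apply, AlternatingMap.compLinearMap_apply,
      AlternatingMap.domDomCongr_apply, AlternatingMap.compLinearMap_apply]
    congr 1
    funext k
    simp
  rw [← h5]
  exact h4

include h₁ h₂ t₁ t₂ c₁ c₂ h hX in
theorem diag_memG (o₁ : a₁ = 1 ∨ a₁ = 3) (o₂ : a₂ = 1 ∨ a₂ = 3) (o : a₁ + a₂ = 4) :
    (fun v : ι ⊕ ι' → B → ℚ =>
      altQ (GY k₁ k₂ f₁ f₂) (fun k => fromRows R₁ R₂ *ᵥ v k)) ∈ RG' m per (ι ⊕ ι') := by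
  obtain ⟨n, c, l, hl⟩ := altQ_expand (GY k₁ k₂ f₁ f₂)
  have h1 : (fun v : ι ⊕ ι' → B → ℚ =>
      altQ (GY k₁ k₂ f₁ f₂) (fun k => fromRows R₁ R₂ *ᵥ v k)) =
      ∑ j, c j • fun v : ι ⊕ ι' → B → ℚ => ((((ratA (GY k₁ k₂ f₁ f₂) (l j)).compLinearMap
        (Matrix.toLin' (fromRows R₁ R₂))) v : ℚ) : ℂ) := by
    funext v
    rw [hl, Finset.sum_apply]
    rfl
  rw [h1]
  refine Submodule.sum_mem _ fun j _ => Submodule.smul_mem _ _ ?_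
  exact RG_of (pull_memG h₁ h₂ k₁ k₂ t₁ t₂ f₁ f₂ h hX c₁ c₂ o₁ o₂ o (l j))

end pull

include h₁ h₂ t₁ t₂ h hX in
/-- The product of the two determinants belongs to the system. -/
theorem pair_memG (o₁ : a₁ = 1 ∨ a₁ = 3) (o₂ : a₂ = 1 ∨ a₂ = 3) (o : a₁ + a₂ = 4)
    (R : ι → Matrix (Fin a₁ ⊕ Fin a₁) B ℂ) (R' : ι' → Matrix (Fin a₂ ⊕ Fin a₂) B ℂ)
    (hR : ∀ y, R y ∈ Submodule.span ℂ (TJ (DJ J) (DZ Z₁) : Set (Matrix (Fin a₁ ⊕ Fin a₁) B ℂ)))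
    (hR' : ∀ y, R' y ∈ Submodule.span ℂ (TJ (DJ J) (DZ Z₂) : Set (Matrix (Fin a₂ ⊕ Fin a₂) B ℂ)))
    (ψ : MultilinearMap ℂ (fun _ : ι ⊕ ι' => B → ℂ) ℂ)
    (hψ : ∀ v, ψ v = k₁.altF f₁ (fun y => R y *ᵥ v (Sum.inl y)) *
      k₂.altF f₂ (fun y => R' y *ᵥ v (Sum.inr y))) : ψ ∈ NG m per (ι ⊕ ι') := by
  intro i1 i2
  obtain rfl : i1 = instFintypeSum ι ι' := Subsingleton.elim _ _
  obtain rfl : i2 = instDecidableEqSum := Subsingleton.elim _ _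
  have h1 : altQ ψ = NN (k₁.altF f₁) (k₂.altF f₂) R R' := by
    funext v
    unfold altQ NN
    refine Finset.sum_congr rfl fun σ _ => ?_
    rw [hψ]
  rw [h1]
  refine NN_mem (k₁.altF f₁) (k₂.altF f₂) (RG' m per (ι ⊕ ι')) (TJ (DJ J) (DZ Z₁))
    (TJ (DJ J) (DZ Z₂)) ?_ _ _ hR hR'
  rintro _ ⟨R, rfl, hR⟩ _ ⟨R', rfl, hR'⟩
  have h2 := diag_memG (m := m) h₁ h₂ k₁ k₂ t₁ t₂ f₁ f₂ h hX hR hR' o₁ o₂ o
  have h3 : NN (k₁.altF f₁) (k₂.altF f₂) (fun _ => cK ℂ R) (fun _ => cK ℂ R') =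
      fun v : ι ⊕ ι' → B → ℚ => altQ (GY k₁ k₂ f₁ f₂)
        (fun k => fromRows R R' *ᵥ v k) := by
    funext v
    unfold altQ NN
    refine Finset.sum_congr rfl fun σ _ => ?_
    rw [GY_apply]
    have h4 : (fun y => k₁.pU (cK ℂ R *ᵥ cv (v (σ (Sum.inl y))))) =
        fun y => k₁.pU (fun j => cv (fromRows R R' *ᵥ v (σ (Sum.inl y))) (Sum.inl j)) := by
      funext y
      exact congrArg k₁.pU (cv_rows_l R R' (v (σ (Sum.inl y)))).symm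
    have h5 : (fun y => k₂.pU (cK ℂ R' *ᵥ cv (v (σ (Sum.inr y))))) =
        fun y => k₂.pU (fun j => cv (fromRows R R' *ᵥ v (σ (Sum.inr y))) (Sum.inr j)) := by
      funext y
      exact congrArg k₂.pU (cv_rows_r R R' (v (σ (Sum.inr y)))).symm
    exact congrArg (fun x : ℂ => ((Equiv.Perm.sign σ : ℤ) : ℂ) * x) (congrArg₂ (· * ·)
      (congrArg f₁.det h4) (congrArg f₂.det h5))
  rw [h3]
  exact h2

end

end Pool.Agent.Y90
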