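import Mathlib
import Pool.Agent.Y90.Ab3
import Pool.Agent.Y90.NPair

/-!
# Kernels of homomorphisms, and products of simple abelian varieties with complex multiplication
-/

set_option linter.unusedSectionVars false

namespace Pool.Agent.Y90

open Matrix Module Pool.Agent.W437.HC Pool.Agent.W437.HD Pool.Agent.W548.Odd Pool.Agent.TH504.CB
open Pool.Agent.H204R3.CM (IsHodge)
open Pool.Agent.W437.HP (cK cK_mul cK_one)

noncomputable section

theorem exists_coordR (W : Submodule ℚ ℝ) [FiniteDimensional ℚ W] :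
    ∃ (m : ℕ) (c : Fin m → ℝ) (l : Fin m → (ℝ →ₗ[ℚ] ℚ)),
      ∀ z ∈ W, z = ∑ j, ((l j z : ℚ) : ℝ) * c j := by
  let b := finBasis ℚ W
  have h1 : ∀ j, ∃ l : ℝ →ₗ[ℚ] ℚ, l.comp W.subtype = b.coord j := fun j =>
    LinearMap.exists_extend _
  choose l hl using h1
  refine ⟨finrank ℚ W, fun j => b j, l, fun z hz => ?_⟩
  have h2 := congrArg Subtype.val (b.sum_repr ⟨z, hz⟩)
  have h3 : z = ∑ j, ((b.repr ⟨z, hz⟩ j : ℚ) • (b j : ℝ)) := by
    conv_lhs => rw [show z = ((⟨z, hz⟩ : W) : ℝ) from rfl, ← h2]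
    rw [AddSubmonoidClass.coe_finsetSum]
    rfl
  conv_lhs => rw [h3]
  refine Finset.sum_congr rfl fun j _ => ?_
  have h4 : b.repr ⟨z, hz⟩ j = l j z := by
    have h5 := congrArg (fun f : W →ₗ[ℚ] ℚ => f ⟨z, hz⟩) (hl j)
    exact h5.symm
  rw [h4, Rat.smul_def]

section ker

variable {H T : Type} [AddCommGroup H] [Module ℚ H] [AddCommGroup T] [Module ℂ T] {per : H →+ T}
  {B : Type} [Fintype B] [DecidableEq B] {T' : Type} [AddCommGroup T'] [Module ℂ T']
  {per' : (B → ℚ) →+ T'} {J : Matrix B B ℝ}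

theorem real_smul_map (Ψ : T →ₗ[ℂ] T') (r : ℝ) (t : T) : Ψ (r • t) = r • Ψ t :=
  Ψ.map_smul_of_tower r t

/-- Real points of the kernel. -/
theorem mem_ker_real (h' : Cht per' J) {U : Submodule ℚ H} {π : H →ₗ[ℚ] (B → ℚ)} {Ψ : T →ₗ[ℂ] T'}
    (hΨ : ∀ v, Ψ (per v) = per' (π v)) {y : T} (hy : y ∈ Submodule.span ℝ (per '' U))
    (h0 : Ψ y = 0) : y ∈ Submodule.span ℝ (per '' (U ⊓ LinearMap.ker π : Submodule ℚ H)) := by
  obtain ⟨-, P, I, hP, -, hIP, -⟩ := h'
  rw [Submodule.mem_span_set'] at hy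
  obtain ⟨n, r, g, rfl⟩ := hy
  have hg : ∀ j, ∃ u ∈ U, per u = g j := fun j => (g j).2
  choose u hu hgu using hg
  have h1 : FiniteDimensional ℚ (Submodule.span ℚ (Set.range r)) :=
    FiniteDimensional.span_of_finite ℚ (Set.finite_range _)
  obtain ⟨m, c, l, hl⟩ := exists_coordR (Submodule.span ℚ (Set.range r))
  have hr : ∀ j, r j = ∑ k, ((l k (r j) : ℚ) : ℝ) * c k := fun j =>
    hl _ (Submodule.subset_span ⟨j, rfl⟩)
  have h2 : ∑ j, r j • (g j : T) = ∑ k, c k • per (∑ j, l k (r j) • u j) := by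
    have e1 : ∀ j, r j • (g j : T) = ∑ k, c k • per (l k (r j) • u j) := by
      intro j
      rw [← hgu j]
      conv_lhs => rw [hr j, Finset.sum_smul]
      refine Finset.sum_congr rfl fun k _ => ?_
      rw [per_smul, smul_smul, mul_comm]
    rw [Finset.sum_congr rfl fun j _ => e1 j, Finset.sum_comm]
    refine Finset.sum_congr rfl fun k _ => ?_
    rw [map_sum, Finset.smul_sum]
  have h3 : (∑ j, r j • (fun i => ((π (u j) i : ℚ) : ℝ)) : B → ℝ) = 0 := by
    have h4 : P (∑ j, r j • (fun i => ((π (u j) i : ℚ) : ℝ))) = 0 := by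
      rw [map_sum, ← h0, map_sum]
      refine Finset.sum_congr rfl fun j _ => ?_
      rw [map_smul, hP, real_smul_map, ← hgu j, hΨ]
    rw [← hIP (∑ j, r j • (fun i => ((π (u j) i : ℚ) : ℝ))), h4, map_zero]
  have h5 : ∀ k, π (∑ j, l k (r j) • u j) = 0 := by
    intro k
    funext i
    have h6 := congrFun h3 i
    rw [Finset.sum_apply] at h6
    have h7 := congrArg (l k) h6
    rw [map_sum, Pi.zero_apply, map_zero] at h7
    rw [map_sum, Finset.sum_apply, Pi.zero_apply, ← h7]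
    refine Finset.sum_congr rfl fun j _ => ?_
    rw [map_smul, Pi.smul_apply, Pi.smul_apply, smul_eq_mul, smul_eq_mul]
    have h8 : r j * ((π (u j) i : ℚ) : ℝ) = (π (u j) i) • r j := by
      rw [Rat.smul_def, mul_comm]
    rw [h8, map_smul, smul_eq_mul, mul_comm]
  rw [h2]
  refine Submodule.sum_mem _ fun k _ => Submodule.smul_mem _ _ (Submodule.subset_span ⟨_, ?_, rfl⟩)
  exact ⟨Submodule.sum_mem _ fun j _ => U.smul_mem _ (hu j), h5 k⟩

/-- Kernels are abelian subvarieties. -/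
theorem sub_ker (h' : Cht per' J) {U : Submodule ℚ H} (hU : St.IsSub per U)
    {π : H →ₗ[ℚ] (B → ℚ)} {Ψ : T →ₗ[ℂ] T'} (hΨ : ∀ v, Ψ (per v) = per' (π v)) :
    St.IsSub per (U ⊓ LinearMap.ker π) := by
  intro x hx
  have h1 : x ∈ Submodule.span ℝ (per '' U) :=
    Submodule.span_mono (Set.image_mono fun u hu => hu.1) hx
  have h2 : Ψ x = 0 := by
    induction hx using Submodule.span_induction with
    | mem x hx =>
      obtain ⟨u, hu, rfl⟩ := hx
      have h3 : π u = 0 := hu.2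
      rw [hΨ, h3, map_zero]
    | zero => exact map_zero _
    | add x y hx hy hx' hy' =>
      rw [map_add, hx' (Submodule.span_mono (Set.image_mono fun u hu => hu.1) hx),
        hy' (Submodule.span_mono (Set.image_mono fun u hu => hu.1) hy), add_zero]
    | smul r x hx hx' =>
      rw [real_smul_map, hx' (Submodule.span_mono (Set.image_mono fun u hu => hu.1) hx), smul_zero]
  refine mem_ker_real h' hΨ (hU x h1) ?_
  rw [map_smul, h2, smul_zero]

/-- Images are abelian subvarieties. -/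
theorem sub_map {U : Submodule ℚ H} (hU : St.IsSub per U) {π : H →ₗ[ℚ] (B → ℚ)} {Ψ : T →ₗ[ℂ] T'}
    (hΨ : ∀ v, Ψ (per v) = per' (π v)) : ∀ x ∈ Submodule.span ℝ (per' '' (U.map π : Set (B → ℚ))),
      Complex.I • x ∈ Submodule.span ℝ (per' '' (U.map π : Set (B → ℚ))) := by
  have h1 : ∀ t ∈ Submodule.span ℝ (per '' U),
      Ψ t ∈ Submodule.span ℝ (per' '' (U.map π : Set (B → ℚ))) := by
    intro t ht
    induction ht using Submodule.span_induction with
    | mem t ht =>
      obtain ⟨u, hu, rfl⟩ := ht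
      rw [hΨ]
      exact Submodule.subset_span ⟨_, ⟨u, hu, rfl⟩, rfl⟩
    | zero =>
      rw [map_zero]
      exact Submodule.zero_mem _
    | add x y _ _ hx hy =>
      rw [map_add]
      exact Submodule.add_mem _ hx hy
    | smul r x _ hx =>
      rw [real_smul_map]
      exact Submodule.smul_mem _ _ hx
  have h2 : ∀ x ∈ Submodule.span ℝ (per' '' (U.map π : Set (B → ℚ))),
      ∃ t ∈ Submodule.span ℝ (per '' U), Ψ t = x := by
    intro x hx
    induction hx using Submodule.span_induction with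
    | mem x hx =>
      obtain ⟨_, ⟨u, hu, rfl⟩, rfl⟩ := hx
      exact ⟨per u, Submodule.subset_span ⟨u, hu, rfl⟩, hΨ u⟩
    | zero => exact ⟨0, Submodule.zero_mem _, map_zero _⟩
    | add x y _ _ hx hy =>
      obtain ⟨s, hs, rfl⟩ := hx
      obtain ⟨t, ht, rfl⟩ := hy
      exact ⟨s + t, Submodule.add_mem _ hs ht, map_add _ _ _⟩
    | smul r x _ hx =>
      obtain ⟨s, hs, rfl⟩ := hx
      exact ⟨r • s, Submodule.smul_mem _ _ hs, real_smul_map _ _ _⟩
  intro x hx
  obtain ⟨t, ht, rfl⟩ := h2 x hx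
  rw [← map_smul]
  exact h1 _ (hU t ht)

end ker

end

end Pool.Agent.Y90
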