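import Mathlib
import Pool.Agent.Y90.NSub

/-!
# Products of simple abelian varieties with complex multiplication
-/

set_option linter.unusedSectionVars false

namespace Pool.Agent.Y90

open Matrix Module Pool.Agent.W437.HC Pool.Agent.W437.HD Pool.Agent.W548.Odd Pool.Agent.TH504.CB
open Pool.Agent.H204R3.CM (IsHodge)
open Pool.Agent.W437.HP (cK cK_mul cK_one)

noncomputable section

section gen

variable {B B' : Type} [Fintype B] [DecidableEq B] [Fintype B'] [DecidableEq B']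
  {T T' : Type} [AddCommGroup T] [Module ℂ T] [AddCommGroup T'] [Module ℂ T']
  {per : (B → ℚ) →+ T} {per' : (B' → ℚ) →+ T'} {J : Matrix B B ℝ} {J' : Matrix B' B' ℝ}

theorem DJ_of_real {R : Matrix B' B ℚ} (h : cK ℝ R * J = J' * cK ℝ R) :
    cK ℂ R * DJ J = DJ J' * cK ℂ R := by
  have h4 : (cK ℝ R * J).map (fun x : ℝ => (x : ℂ)) =
      (cK ℝ R).map (fun x : ℝ => (x : ℂ)) * J.map (fun x : ℝ => (x : ℂ)) :=
    Matrix.map_mul (f := Complex.ofRealHom)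
  have h5 : (J' * cK ℝ R).map (fun x : ℝ => (x : ℂ)) =
      J'.map (fun x : ℝ => (x : ℂ)) * (cK ℝ R).map (fun x : ℝ => (x : ℂ)) :=
    Matrix.map_mul (f := Complex.ofRealHom)
  unfold DJ
  rw [Matrix.mul_smul, Matrix.smul_mul, ← cK_R, ← h4, ← h5, h]

end gen

section cm

variable {B : Type} [Fintype B] [DecidableEq B] {T : Type} [AddCommGroup T] [Module ℂ T]
  {per : (B → ℚ) →+ T} {J : Matrix B B ℝ} {a : ℕ} {Z' : Matrix (Fin a) (Fin a) ℂ}

/-- Simple abelian subvarieties that map nontrivially to a simple abelian variety. -/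
theorem cm_sub (h : Cht per J) (h' : PM Z') (hsim : IsSimpleAV Z') (hcm : HasCM Z')
    {U : Submodule ℚ (B → ℚ)} (hU : St.IsSimpleSub per U)
    {π : (B → ℚ) →ₗ[ℚ] (Fin a ⊕ Fin a → ℚ)} {Ψ : T →ₗ[ℂ] (Fin a → ℂ)}
    (hΨ : ∀ v, Ψ (per v) = perOne Z' (π v)) (hne : ∃ u ∈ U, π u ≠ 0) :
    St.IsCMSub per U ∧ finrank ℚ U = 2 * a := by
  obtain ⟨u₀, hu₀, hne⟩ := hne
  have hker : U ⊓ LinearMap.ker π = ⊥ := by
    rcases hU.2.2 _ inf_le_left (sub_ker h'.cht hU.1 hΨ) with h1 | h1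
    · exact h1
    · exfalso
      have h2 : u₀ ∈ U ⊓ LinearMap.ker π := by rw [h1]; exact hu₀
      exact hne h2.2
  have hmap : U.map π = ⊤ := by
    rcases hsim _ (sub_map hU.1 hΨ) with h1 | h1
    · exfalso
      have h2 : π u₀ ∈ U.map π := ⟨u₀, hu₀, rfl⟩
      rw [h1, Submodule.mem_bot] at h2
      exact hne h2
    · exact h1
  have hinj : ∀ u ∈ U, π u = 0 → u = 0 := by
    intro u hu h0
    have h2 : u ∈ U ⊓ LinearMap.ker π := ⟨hu, h0⟩
    rwa [hker, Submodule.mem_bot] at h2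
  obtain ⟨e, he⟩ : ∃ e : U ≃ₗ[ℚ] (Fin a ⊕ Fin a → ℚ), ∀ u, e u = π u := by
    refine ⟨LinearEquiv.ofBijective (π.domRestrict U) ⟨?_, fun y => ?_⟩, fun u => rfl⟩
    · rw [injective_iff_map_eq_zero]
      intro u hu
      exact Subtype.ext (hinj u u.2 hu)
    · have h1 : y ∈ U.map π := by rw [hmap]; trivial
      obtain ⟨u, hu, rfl⟩ := h1
      exact ⟨⟨u, hu⟩, rfl⟩
  have hrank : finrank ℚ U = 2 * a := by
    rw [e.finrank_eq, finrank_fintype_fun_eq_card, Fintype.card_sum, Fintype.card_fin]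
    ring
  refine ⟨?_, hrank⟩
  -- the inverse homomorphism
  obtain ⟨R, hR⟩ : ∃ R : Matrix B (Fin a ⊕ Fin a) ℚ, ∀ y, R *ᵥ y = (e.symm y : B → ℚ) :=
    ⟨LinearMap.toMatrix' (U.subtype.comp e.symm.toLinearMap), fun y => by
      rw [← Matrix.toLin'_apply, Matrix.toLin'_toMatrix']
      rfl⟩
  obtain ⟨-, P, I, hP, hPJ, hIP, -⟩ := id h
  obtain ⟨-, P', I', hP', hPJ', hIP', -⟩ := id h'.cht
  have hbas : ∀ x : Fin a ⊕ Fin a → ℝ, x = ∑ i, x i • (Pi.single i 1 : Fin a ⊕ Fin a → ℝ) := by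
    intro x
    funext j
    simp [Finset.sum_apply, Pi.single_apply]
  have hRe : ∀ i, cK ℝ R *ᵥ (Pi.single i 1 : Fin a ⊕ Fin a → ℝ) =
      fun j => (((e.symm (Pi.single i 1) : B → ℚ) j : ℚ) : ℝ) := by
    intro i
    rw [← hR]
    funext j
    simp [cK]
  have hPR : ∀ i, P (cK ℝ R *ᵥ (Pi.single i 1 : Fin a ⊕ Fin a → ℝ)) =
      per (e.symm (Pi.single i 1)) := by
    intro i
    rw [hRe, hP]
  have hin : ∀ x : Fin a ⊕ Fin a → ℝ, P (cK ℝ R *ᵥ x) ∈ Submodule.span ℝ (per '' U) := by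
    intro x
    rw [hbas x, mulVec_sum, map_sum]
    refine Submodule.sum_mem _ fun i _ => ?_
    rw [mulVec_smul, map_smul, hPR]
    exact Submodule.smul_mem _ _ (Submodule.subset_span ⟨_, (e.symm _).2, rfl⟩)
  have hΨP : ∀ x : Fin a ⊕ Fin a → ℝ, Ψ (P (cK ℝ R *ᵥ x)) = P' x := by
    intro x
    rw [hbas x, mulVec_sum, map_sum, map_sum, map_sum]
    refine Finset.sum_congr rfl fun i _ => ?_
    rw [mulVec_smul, map_smul, real_smul_map, map_smul, hPR, hΨ, ← he, LinearEquiv.apply_symm_apply,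
      ← hP']
    congr 2
    funext j
    by_cases hij : j = i
    · subst hij; simp
    · simp [hij]
  have hreal : cK ℝ R * JR Z' = J * cK ℝ R := by
    apply Matrix.toLin'.injective
    refine LinearMap.ext fun x => ?_
    rw [Matrix.toLin'_apply, Matrix.toLin'_apply, ← mulVec_mulVec, ← mulVec_mulVec]
    have h1 : P (cK ℝ R *ᵥ (JR Z' *ᵥ x)) - Complex.I • P (cK ℝ R *ᵥ x) = 0 := by
      have h2 : P (cK ℝ R *ᵥ (JR Z' *ᵥ x)) - Complex.I • P (cK ℝ R *ᵥ x) ∈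
          Submodule.span ℝ (per '' U) :=
        Submodule.sub_mem _ (hin _) (hU.1 _ (hin _))
      have h3 : Ψ (P (cK ℝ R *ᵥ (JR Z' *ᵥ x)) - Complex.I • P (cK ℝ R *ᵥ x)) = 0 := by
        rw [map_sub, map_smul, hΨP, hΨP, hPJ', sub_self]
      have h4 := mem_ker_real h'.cht hΨ h2 h3
      rw [hker] at h4
      have h5 : (per '' ((⊥ : Submodule ℚ (B → ℚ)) : Set (B → ℚ))) = {0} := by
        rw [Submodule.bot_coe, Set.image_singleton, map_zero]
      rw [h5, Submodule.span_singleton_eq_bot.2 rfl, Submodule.mem_bot] at h4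
      exact h4
    have h2 : P (cK ℝ R *ᵥ (JR Z' *ᵥ x)) = P (J *ᵥ (cK ℝ R *ᵥ x)) := by
      rw [hPJ]
      exact sub_eq_zero.1 h1
    rw [← hIP (cK ℝ R *ᵥ (JR Z' *ᵥ x)), h2, hIP]
  obtain ⟨Ψ₁, h₁⟩ := h'.cht.hom h (R := R) (DJ_of_real hreal)
  have g₁ : ∀ y, Ψ₁ (perOne Z' y) = per (e.symm y) := fun y => by rw [h₁, hR]
  obtain ⟨A', hc, hr, hD⟩ := hcm
  let Φ : Matrix (Fin a ⊕ Fin a) (Fin a ⊕ Fin a) ℚ ≃ₗ[ℚ] (U →ₗ[ℚ] U) :=
    Matrix.toLin'.trans e.symm.conj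
  have hΦ : ∀ M u, Φ M u = e.symm (M *ᵥ e u) := by
    intro M u
    change e.symm.conj (Matrix.toLin' M) u = _
    rw [LinearEquiv.conj_apply_apply, Matrix.toLin'_apply, LinearEquiv.symm_symm]
  have hΦm : ∀ M N, Φ M ∘ₗ Φ N = Φ (M * N) := by
    intro M N
    refine LinearMap.ext fun u => ?_
    rw [LinearMap.comp_apply, hΦ, hΦ, hΦ, LinearEquiv.apply_symm_apply, mulVec_mulVec]
  refine ⟨(Subalgebra.toSubmodule A').map Φ.toLinearMap, ?_, ?_, ?_⟩
  · rintro _ ⟨M, hM, rfl⟩ _ ⟨N, hN, rfl⟩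
    change Φ M ∘ₗ Φ N = Φ N ∘ₗ Φ M ∧ Φ M ∘ₗ Φ N ∈ _
    rw [hΦm, hΦm, hc M hM N hN]
    exact ⟨rfl, ⟨N * M, A'.mul_mem hN hM, rfl⟩⟩
  · rw [hrank, ← hr]
    exact LinearEquiv.finrank_map_eq Φ (Subalgebra.toSubmodule A')
  · rintro _ ⟨M, hM, rfl⟩
    obtain ⟨Ψ₃, h₅⟩ := h'.cht.hom h'.cht (R := M) (by rw [DJ_JR]; exact hD M hM)
    refine ⟨Ψ₁.comp (Ψ₃.comp Ψ), fun u => ?_⟩
    rw [LinearMap.comp_apply, LinearMap.comp_apply, hΨ, h₅, g₁]
    change _ = per ((Φ M u : U) : B → ℚ)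
    rw [hΦ, he]

end cm

section fam

variable {L : Type} [Fintype L] [DecidableEq L] {a : L → ℕ}
  (Zf : ∀ b, Matrix (Fin (a b)) (Fin (a b)) ℂ)

/-- The indices of the product. -/
abbrev BS (a : L → ℕ) : Type := Σ b, (Fin (a b) ⊕ Fin (a b))

/-- The periods of a product. -/
def perS : (BS a → ℚ) →+ (∀ b, Fin (a b) → ℂ) where
  toFun w b := perOne (Zf b) (fun i => w ⟨b, i⟩)
  map_zero' := by
    funext b
    exact map_zero (perOne (Zf b))
  map_add' v w := by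
    funext b
    exact map_add (perOne (Zf b)) (fun i => v ⟨b, i⟩) (fun i => w ⟨b, i⟩)

theorem perS_apply (w : BS a → ℚ) (b : L) : perS Zf w b = perOne (Zf b) (fun i => w ⟨b, i⟩) := rfl

/-- The complex structure of a product. -/
def JS : Matrix (BS a) (BS a) ℝ := blockDiagonal' fun b => JR (Zf b)

theorem bd_mulVec {K : Type*} [CommRing K] (M : ∀ b, Matrix (Fin (a b) ⊕ Fin (a b))
    (Fin (a b) ⊕ Fin (a b)) K) (x : BS a → K) (b : L) (i : Fin (a b) ⊕ Fin (a b)) :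
    (blockDiagonal' M *ᵥ x) ⟨b, i⟩ = (M b *ᵥ fun i => x ⟨b, i⟩) i := by
  simp only [mulVec, dotProduct]
  rw [Fintype.sum_sigma, Finset.sum_eq_single b]
  · simp [blockDiagonal'_apply_eq]
  · intro b' _ hb
    refine Finset.sum_eq_zero fun j _ => ?_
    rw [blockDiagonal'_apply_ne _ _ _ (Ne.symm hb), zero_mul]
  · intro hb
    exact absurd (Finset.mem_univ b) hb

variable {Zf} (hZ : ∀ b, PM (Zf b))
include hZ

theorem chtS : Cht (perS Zf) (JS Zf) := by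
  refine ⟨?_, ?_⟩
  · unfold JS
    rw [← blockDiagonal'_mul]
    have h1 : (fun b => JR (Zf b) * JR (Zf b)) = fun b => -1 := by
      funext b
      exact (hZ b).cht.sq
    rw [h1]
    have h2 : (fun b : L => (-1 : Matrix (Fin (a b) ⊕ Fin (a b)) (Fin (a b) ⊕ Fin (a b)) ℝ)) =
        -(1 : ∀ b, Matrix (Fin (a b) ⊕ Fin (a b)) (Fin (a b) ⊕ Fin (a b)) ℝ) := rfl
    rw [h2, blockDiagonal'_neg, blockDiagonal'_one]
  · have h1 := fun b => (hZ b).cht.ex
    choose P I hP hPJ hIP hPI using h1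
    refine ⟨⟨⟨fun x b => P b (fun i => x ⟨b, i⟩), fun x y => ?_⟩, fun r x => ?_⟩,
      ⟨⟨fun t i => I i.1 (t i.1) i.2, fun x y => ?_⟩, fun r x => ?_⟩, ?_, ?_, ?_, ?_⟩
    · funext b
      exact map_add (P b) (fun i => x ⟨b, i⟩) (fun i => y ⟨b, i⟩)
    · funext b
      exact map_smul (P b) r (fun i => x ⟨b, i⟩)
    · funext ⟨b, i⟩
      exact congrFun (map_add (I b) (x b) (y b)) i
    · funext ⟨b, i⟩
      exact congrFun (map_smul (I b) r (x b)) i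
    · intro w
      funext b
      exact hP b _
    · intro x
      funext b
      change P b _ = Complex.I • P b _
      rw [← hPJ]
      congr 1
      funext i
      exact bd_mulVec _ x b i
    · intro x
      funext ⟨b, i⟩
      exact congrFun (hIP b (fun i => x ⟨b, i⟩)) i
    · intro t
      funext b
      exact hPI b (t b)

theorem polS : ∃ E, IsPolarization (perS Zf) E := by
  have h1 := fun b => (hZ b).polar
  choose Ψ hΨl hΨc hΨp hE using h1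
  have h0 : ∀ b, Ψ b 0 0 = 0 := fun b => (hΨl b 0).map_zero
  refine ⟨fun v w => ∑ b, (fun i => v ⟨b, i⟩) ⬝ᵥ ((-Om (a b) ℚ) *ᵥ fun i => w ⟨b, i⟩),
    fun u u' => ∑ b, Ψ b (u b) (u' b), fun u' => ⟨fun x y => ?_, fun c x => ?_⟩, fun u u' => ?_,
    fun u hu => ?_, fun v w => ?_⟩
  · rw [← Finset.sum_add_distrib]
    exact Finset.sum_congr rfl fun b _ => (hΨl b (u' b)).map_add _ _
  · rw [smul_eq_mul, Finset.mul_sum]
    exact Finset.sum_congr rfl fun b _ => (hΨl b (u' b)).map_smul _ _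
  · rw [map_sum]
    exact Finset.sum_congr rfl fun b _ => hΨc b _ _
  · rw [Complex.re_sum]
    obtain ⟨b, hb⟩ := Function.ne_iff.1 hu
    refine Finset.sum_pos' (fun b _ => ?_) ⟨b, Finset.mem_univ b, hΨp b _ hb⟩
    by_cases h2 : u b = 0
    · rw [h2, h0, Complex.zero_re]
    · exact (hΨp b _ h2).le
  · rw [Complex.im_sum, Rat.cast_sum]
    exact Finset.sum_congr rfl fun b _ => hE b (fun i => v ⟨b, i⟩) (fun i => w ⟨b, i⟩)

theorem isAV_S : St.IsAV (perS Zf) := isAV_AV ((chtS hZ).av (polS hZ))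

theorem cmSimple_S (hs : ∀ b, IsSimpleAV (Zf b)) (hcm : ∀ b, HasCM (Zf b)) {m : ℕ}
    (hm : ∀ b, a b ≤ m) : St.CMSimple m (perS Zf) := by
  intro U hU
  have h1 : ∃ b, ∃ u ∈ U, (fun i => u ⟨b, i⟩) ≠ (0 : Fin (a b) ⊕ Fin (a b) → ℚ) := by
    by_contra hc
    push Not at hc
    refine hU.2.1 ?_
    rw [Submodule.eq_bot_iff]
    intro u hu
    funext ⟨b, i⟩
    exact congrFun (hc b u hu) i
  obtain ⟨b, hb⟩ := h1
  have h2 := cm_sub (π := LinearMap.funLeft ℚ ℚ (fun i => (⟨b, i⟩ : BS a)))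
    (Ψ := LinearMap.proj b) (chtS hZ) (hZ b) (hs b) (hcm b) hU (fun v => rfl) hb
  refine ⟨h2.1, ?_⟩
  rw [h2.2]
  have := hm b
  omega

end fam

end

end Pool.Agent.Y90
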