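import Mathlib
import Pool.Agent.Y90.NProd

/-!
# Hodge classes on products of simple abelian varieties with complex multiplication
-/

set_option linter.unusedSectionVars false

namespace Pool.Agent.Y90

open Matrix Module Pool.Agent.W437.HC Pool.Agent.W437.HD Pool.Agent.W548.Odd Pool.Agent.TH504.CB
open Pool.Agent.H204R3.CM (IsHodge)
open Pool.Agent.H204R3.SP (Kills)
open Pool.Agent.W437.HP (cK cK_mul cK_one)

noncomputable section

section pol

variable {ι : Type*} [Fintype ι] [DecidableEq ι] {X W : Type*} [AddCommGroup X] [Module ℂ X]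
  [AddCommGroup W] [Module ℂ W]

/-- Multilinear maps with values in a subspace. -/
theorem multi_span' (M : MultilinearMap ℂ (fun _ : ι => X) W) (S : Submodule ℂ W) (T : ι → Set X)
    (h : ∀ x : ι → X, (∀ i, x i ∈ T i) → M x ∈ S) (x : ι → X)
    (hx : ∀ i, x i ∈ Submodule.span ℂ (T i)) : M x ∈ S := by
  have key : ∀ (s : Finset ι) (x : ι → X), (∀ i ∈ s, x i ∈ Submodule.span ℂ (T i)) →
      (∀ i ∉ s, x i ∈ T i) → M x ∈ S := by
    intro s
    induction s using Finset.induction_on with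
    | empty => exact fun x _ h2 => h x fun i => h2 i (Finset.notMem_empty i)
    | insert j s hj ih =>
      intro x h1 h2
      have h3 : ∀ z ∈ Submodule.span ℂ (T j), M (Function.update x j z) ∈ S := by
        intro z hz
        induction hz using Submodule.span_induction with
        | mem z hz =>
          refine ih _ (fun i hi => ?_) (fun i hi => ?_)
          · rw [Function.update_of_ne (fun h : i = j => hj (h ▸ hi))]
            exact h1 i (Finset.mem_insert_of_mem hi)
          · by_cases hij : i = j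
            · subst hij
              rwa [Function.update_self]
            · rw [Function.update_of_ne hij]
              exact h2 i (by simp [hij, hi])
        | zero =>
          rw [MultilinearMap.map_update_zero]
          exact S.zero_mem
        | add a b _ _ ha hb =>
          rw [MultilinearMap.map_update_add]
          exact S.add_mem ha hb
        | smul c a _ ha =>
          rw [MultilinearMap.map_update_smul]
          exact S.smul_mem c ha
      have h4 := h3 (x j) (h1 j (Finset.mem_insert_self j s))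
      rwa [Function.update_eq_self] at h4
  exact key Finset.univ x (fun i _ => hx i) fun i hi => absurd (Finset.mem_univ i) hi

end pol

section fam

variable {L : Type} [iL : Fintype L] [dL : DecidableEq L] {a : L → ℕ}
  {Zf : ∀ b, Matrix (Fin (a b)) (Fin (a b)) ℂ} (hZ : ∀ b, PM (Zf b))

/-- The conjugates of the complex structure. -/
def DD (Zf : ∀ b, Matrix (Fin (a b)) (Fin (a b)) ℂ) (σ : ℂ ≃+* ℂ) : Matrix (BS a) (BS a) ℂ :=
  blockDiagonal' fun b => DS (Zf b) σ

theorem DJ_S : DJ (JS Zf) = DD Zf (RingEquiv.refl ℂ) := by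
  unfold DJ JS DD
  rw [blockDiagonal'_map _ _ Complex.ofReal_zero]
  have h1 : (fun b => DS (Zf b) (RingEquiv.refl ℂ)) =
      (-Complex.I) • fun b => (JR (Zf b)).map (fun x : ℝ => (x : ℂ)) := by
    funext b
    rfl
  rw [h1, blockDiagonal'_smul]

theorem DD_map (σ τ : ℂ ≃+* ℂ) : (DD Zf σ).map τ = DD Zf (σ.trans τ) := by
  unfold DD
  rw [blockDiagonal'_map _ _ (map_zero τ)]
  congr 1

/-- The Galois stable space spanned by the conjugates of the complex structure. -/
def LD (Zf : ∀ b, Matrix (Fin (a b)) (Fin (a b)) ℂ) : Submodule ℂ (Matrix (BS a) (BS a) ℂ) :=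
  Submodule.span ℂ (Set.range (DD Zf))

theorem gal_LD : Gal (LD Zf) := by
  intro τ X hX
  unfold LD at hX
  induction hX using Submodule.span_induction with
  | mem X hX =>
    obtain ⟨σ, rfl⟩ := hX
    rw [DD_map]
    exact Submodule.subset_span ⟨_, rfl⟩
  | zero =>
    rw [Matrix.map_zero _ (map_zero τ)]
    exact Submodule.zero_mem _
  | add X Y _ _ hX hY =>
    rw [Matrix.map_add _ (map_add τ)]
    exact Submodule.add_mem _ hX hY
  | smul c X _ hX =>
    have h1 : (c • X).map τ = τ c • X.map τ := by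
      ext i j
      simp
    rw [h1]
    exact Submodule.smul_mem _ _ hX

variable (lam : ∀ b, (Fin (a b) ⊕ Fin (a b) → ℂ) →ₗ[ℂ] ℂ)

/-- The product of the functionals. -/
def QL : MultilinearMap ℂ (fun _ : L => BS a → ℂ) ℂ :=
  (MultilinearMap.mkPiAlgebra ℂ L ℂ).compLinearMap fun b =>
    (lam b).comp (LinearMap.funLeft ℂ ℂ (fun i => (⟨b, i⟩ : BS a)))

theorem QL_apply (w : L → BS a → ℂ) : QL lam w = ∏ b, lam b (fun i => w b ⟨b, i⟩) := by
  unfold QL
  rw [MultilinearMap.compLinearMap_apply, MultilinearMap.mkPiAlgebra_apply]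
  rfl

variable (ε : L → (ℂ ≃+* ℂ) → ℂ)
  (hε : ∀ b σ w, lam b (DS (Zf b) σ *ᵥ w) = ε b σ * lam b w) (hsum : ∀ σ, ∑ b, ε b σ = 0)

include hε hsum in
theorem QL_kill : ∀ X ∈ LD Zf, act X (CF (QL lam)) = 0 := by
  have h1 : LD Zf ≤ LinearMap.ker (actL (CF (QL lam))) := by
    refine Submodule.span_le.2 ?_
    rintro _ ⟨σ, rfl⟩
    rw [SetLike.mem_coe, LinearMap.mem_ker, actL_apply]
    refine act_of_kills fun v => ?_
    have h2 : ∀ k, QL lam (Function.update v k (ph (BS a) (DD Zf σ) (v k))) =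
        ε k σ * QL lam v := by
      intro k
      rw [QL_apply, QL_apply, ← Finset.mul_prod_erase _ _ (Finset.mem_univ k),
        ← Finset.mul_prod_erase _ _ (Finset.mem_univ k), Function.update_self, ← mul_assoc]
      congr 1
      · rw [← hε]
        congr 1
        funext i
        exact bd_mulVec _ (v k) k i
      · refine Finset.prod_congr rfl fun b hb => ?_
        rw [Function.update_of_ne (Finset.ne_of_mem_erase hb)]
    rw [Finset.sum_congr rfl fun k _ => h2 k, ← Finset.sum_mul, hsum, zero_mul]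
  intro X hX
  have h2 := h1 hX
  rwa [LinearMap.mem_ker, actL_apply] at h2

include hZ hε hsum in
theorem QL_hodge (l : ℂ →ₗ[ℚ] ℚ) : IsHodge (perS Zf) (ratA (QL lam) l) := by
  refine (chtS hZ).hodge_rat gal_LD ?_ (QL_kill lam ε hε hsum) l
  rw [DJ_S]
  exact Submodule.subset_span ⟨_, rfl⟩

variable (hs : ∀ b, IsSimpleAV (Zf b)) (hcm : ∀ b, HasCM (Zf b)) {m : ℕ} (hm : ∀ b, a b ≤ m)

variable {B : Type} [Fintype B] [DecidableEq B] {T : Type} [AddCommGroup T] [Module ℂ T]
  {per : (B → ℚ) →+ T} {J : Matrix B B ℝ} (h : Cht per J) (hX : St.IsAV per)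

include hZ hε hsum hs hcm hm h hX in
theorem QL_pull (R : Matrix (BS a) B ℚ) (hR : cK ℂ R * DJ J = DJ (JS Zf) * cK ℂ R) :
    (fun v : L → B → ℚ => altQ (QL lam) (fun k => R *ᵥ v k)) ∈ RG' m per L := by
  obtain ⟨n, c, l, hl⟩ := altQ_expand (QL lam)
  obtain ⟨Ψ, hΨ⟩ := h.hom (chtS hZ) hR
  have h1 : (fun v : L → B → ℚ => altQ (QL lam) (fun k => R *ᵥ v k)) =
      ∑ j, c j • fun v : L → B → ℚ => ((((ratA (QL lam) (l j)).compLinearMap
        (Matrix.toLin' R)) v : ℚ) : ℂ) := by
    funext v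
    rw [hl, Finset.sum_apply]
    rfl
  rw [h1]
  refine Submodule.sum_mem _ fun j _ => Submodule.smul_mem _ _ ?_
  refine RG_of ?_
  refine St.Generated.pull hX _ (St.Generated.cm (isAV_S hZ) (cmSimple_S hZ hs hcm hm) _
    (QL_hodge hZ lam ε hε hsum (l j))) _ ⟨Ψ, fun v => ?_⟩
  rw [toLin'_apply]
  exact hΨ v

/-- The functionals given by rational homomorphisms. -/
def TF (b : L) : Set ((B → ℂ) →ₗ[ℂ] ℂ) :=
  {μ | ∃ R ∈ TJ (DJ J) (DZ (Zf b)), μ = (lam b).comp (mulVecLin R)}

/-- Products of functionals. -/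
def PF : MultilinearMap ℂ (fun _ : L => (B → ℂ) →ₗ[ℂ] ℂ) ((L → B → ℚ) → ℂ) :=
  MultilinearMap.pi fun v => ∑ σ : Equiv.Perm L, ((Equiv.Perm.sign σ : ℤ) : ℂ) •
    (MultilinearMap.mkPiAlgebra ℂ L ℂ).compLinearMap
      fun b => LinearMap.applyₗ (cv (v (σ b)))

theorem PF_apply (μ : L → (B → ℂ) →ₗ[ℂ] ℂ) (v : L → B → ℚ) :
    PF μ v = ∑ σ : Equiv.Perm L, ((Equiv.Perm.sign σ : ℤ) : ℂ) * ∏ b, μ b (cv (v (σ b))) := by
  unfold PF
  rw [MultilinearMap.pi_apply, _root_.sum_apply]
  refine Finset.sum_congr rfl fun σ _ => ?_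
  rw [_root_.smul_apply, MultilinearMap.compLinearMap_apply,
    MultilinearMap.mkPiAlgebra_apply]
  rfl

include hZ hε hsum hs hcm hm h hX in
/-- **The complex multiplication lemma.** -/
theorem cm_memG (μ : L → (B → ℂ) →ₗ[ℂ] ℂ)
    (hμ : ∀ b, μ b ∈ Submodule.span ℂ (TF (Zf := Zf) (J := J) lam b))
    (ψ : MultilinearMap ℂ (fun _ : L => B → ℂ) ℂ) (hψ : ∀ v, ψ v = ∏ b, μ b (v b)) :
    ψ ∈ NG m per L := by
  intro i1 i2
  obtain rfl : i1 = iL := Subsingleton.elim _ _
  obtain rfl : i2 = dL := Subsingleton.elim _ _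
  have h1 : altQ ψ = PF μ := by
    funext v
    rw [PF_apply]
    unfold altQ
    refine Finset.sum_congr rfl fun σ _ => ?_
    rw [hψ]
  rw [h1]
  refine multi_span' PF (RG' m per L) (TF (Zf := Zf) (J := J) lam) (fun μ hμ => ?_) μ hμ
  choose R hR hμR using hμ
  choose R' hR' hcomm using hR
  have h2 := QL_pull (m := m) hZ lam ε hε hsum hs hcm hm h hX
    (Matrix.of fun i j => R' i.1 i.2 j) (by
      ext ⟨b, i⟩ j
      have e1 := congrFun (congrFun (hcomm b) i) j
      have e2 : (cK ℂ (Matrix.of fun (i : BS a) j => R' i.1 i.2 j) * DJ J) ⟨b, i⟩ j =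
          (cK ℂ (R' b) * DJ J) i j := rfl
      rw [e2, e1, DJ_S]
      have e3 : (DD Zf (RingEquiv.refl ℂ) * cK ℂ (Matrix.of fun (i : BS a) j => R' i.1 i.2 j))
          ⟨b, i⟩ j = (DD Zf (RingEquiv.refl ℂ) *ᵥ fun i : BS a => ((R' i.1 i.2 j : ℚ) : ℂ))
            ⟨b, i⟩ := rfl
      rw [e3]
      unfold DD
      rw [bd_mulVec]
      rfl)
  have h3 : PF μ = fun v : L → B → ℚ => altQ (QL lam)
      (fun k => (Matrix.of fun (i : BS a) j => R' i.1 i.2 j) *ᵥ v k) := by
    funext v
    rw [PF_apply]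
    unfold altQ
    refine Finset.sum_congr rfl fun σ _ => ?_
    rw [QL_apply]
    congr 1
    refine Finset.prod_congr rfl fun b _ => ?_
    rw [hμR, LinearMap.comp_apply, mulVecLin_apply, hR']
    congr 1
    funext i
    simp [cv, mulVec, dotProduct, cK]
  rw [h3]
  exact h2

end fam

end

end Pool.Agent.Y90
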