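import Mathlib
import Pool.Agent.Y90.NCM

/-!
# Push-forwards of products
-/

set_option linter.unusedSectionVars false

namespace Pool.Agent.Y90

open Matrix Module Pool.Agent.W437.HC Pool.Agent.W437.HD Pool.Agent.W548.Odd Pool.Agent.TH504.CB
open Pool.Agent.H204R3.CM (IsHodge)
open Pool.Agent.W437.HP (cK cK_mul cK_one)

noncomputable section

section prod

variable {H T H' T' : Type} [AddCommGroup H] [Module ℚ H] [AddCommGroup T] [Module ℂ T]
  [AddCommGroup H'] [Module ℚ H'] [AddCommGroup T'] [Module ℂ T'] {per : H →+ T}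
  {per' : H' →+ T'}

theorem isAV_prod (hX : St.IsAV per) (hY : St.IsAV per') : St.IsAV (St.perProd per per') := by
  obtain ⟨h1, h2, h3, h4, E, Ψ, h5, h6, h7, h8⟩ := hX
  obtain ⟨g1, g2, g3, g4, E', Ψ', g5, g6, g7, g8⟩ := hY
  refine ⟨inferInstance, inferInstance, ?_, ?_, fun v w => E v.1 w.1 + E' v.2 w.2,
    fun t u => Ψ t.1 u.1 + Ψ' t.2 u.2, fun u => ⟨fun x y => ?_, fun c x => ?_⟩, fun t u => ?_,
    fun u hu => ?_, fun v w => ?_⟩
  · rw [eq_top_iff]
    rintro ⟨t, t'⟩ -
    have e1 : ∀ t ∈ Submodule.span ℝ (Set.range per),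
        ((t, 0) : T × T') ∈ Submodule.span ℝ (Set.range (St.perProd per per')) := by
      intro t ht
      induction ht using Submodule.span_induction with
      | mem t ht =>
        obtain ⟨v, rfl⟩ := ht
        refine Submodule.subset_span ⟨(v, 0), ?_⟩
        exact Prod.ext rfl (map_zero per')
      | zero => exact Submodule.zero_mem _
      | add x y _ _ hx hy =>
        have := Submodule.add_mem _ hx hy
        rwa [Prod.mk_add_mk, add_zero] at this
      | smul r x _ hx =>
        have := Submodule.smul_mem _ r hx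
        rwa [Prod.smul_mk, smul_zero] at this
    have e2 : ∀ t ∈ Submodule.span ℝ (Set.range per'),
        ((0, t) : T × T') ∈ Submodule.span ℝ (Set.range (St.perProd per per')) := by
      intro t ht
      induction ht using Submodule.span_induction with
      | mem t ht =>
        obtain ⟨v, rfl⟩ := ht
        refine Submodule.subset_span ⟨(0, v), ?_⟩
        exact Prod.ext (map_zero per) rfl
      | zero => exact Submodule.zero_mem _
      | add x y _ _ hx hy =>
        have := Submodule.add_mem _ hx hy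
        rwa [Prod.mk_add_mk, add_zero] at this
      | smul r x _ hx =>
        have := Submodule.smul_mem _ r hx
        rwa [Prod.smul_mk, smul_zero] at this
    have e3 := Submodule.add_mem _ (e1 t (by rw [h3]; trivial)) (e2 t' (by rw [g3]; trivial))
    rwa [Prod.mk_add_mk, add_zero, zero_add] at e3
  · rw [finrank_prod, finrank_prod, h4, g4]
    ring
  · beta_reduce
    rw [Prod.fst_add, Prod.snd_add, (h5 u.1).map_add, (g5 u.2).map_add]
    ring
  · beta_reduce
    rw [Prod.smul_fst, Prod.smul_snd, (h5 u.1).map_smul, (g5 u.2).map_smul, smul_add]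
  · rw [map_add, ← h6, ← g6]
  · have e1 : Ψ 0 0 = 0 := (h5 0).map_zero
    have e2 : Ψ' 0 0 = 0 := (g5 0).map_zero
    rw [Complex.add_re]
    by_cases hu1 : u.1 = 0
    · have hu2 : u.2 ≠ 0 := fun hu2 => hu (Prod.ext hu1 hu2)
      rw [hu1, e1, Complex.zero_re, zero_add]
      exact g7 _ hu2
    · by_cases hu2 : u.2 = 0
      · rw [hu2, e2, Complex.zero_re, add_zero]
        exact h7 _ hu1
      · exact add_pos (h7 _ hu1) (g7 _ hu2)
  · rw [Complex.add_im, Rat.cast_add]
    congr 1
    · exact h8 _ _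
    · exact g8 _ _

theorem isAV_equiv {per₂ : H' →+ T} (A : H ≃ₗ[ℚ] H') (hA : ∀ v, per v = per₂ (A v))
    (hY : St.IsAV per₂) : St.IsAV per := by
  obtain ⟨g1, g2, g3, g4, E', Ψ', g5, g6, g7, g8⟩ := hY
  refine ⟨LinearEquiv.finiteDimensional A.symm, g2, ?_, ?_, fun v w => E' (A v) (A w), Ψ', g5, g6,
    g7, fun v w => ?_⟩
  · rw [← g3]
    congr 1
    ext t
    constructor
    · rintro ⟨v, rfl⟩
      exact ⟨A v, (hA v).symm⟩
    · rintro ⟨v, rfl⟩
      exact ⟨A.symm v, by rw [hA, LinearEquiv.apply_symm_apply]⟩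
  · rw [A.finrank_eq, g4]
  · rw [hA, hA, g8]

end prod

variable {B B' : Type} [Fintype B] [DecidableEq B] [Fintype B'] [DecidableEq B']
  {T T' : Type} [AddCommGroup T] [Module ℂ T] [AddCommGroup T'] [Module ℂ T']
  {per : (B → ℚ) →+ T} {per' : (B' → ℚ) →+ T'} {m : ℕ}

/-- The functions on a disjoint union. -/
def AE (B B' : Type) : (B ⊕ B' → ℚ) ≃ₗ[ℚ] (B → ℚ) × (B' → ℚ) :=
  LinearEquiv.sumArrowLequivProdArrow B B' ℚ ℚ

theorem AE_symm (v : B → ℚ) (w : B' → ℚ) : (AE B B').symm (v, w) = Sum.elim v w := rfl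

theorem isAV_perP (hX : St.IsAV per) (hY : St.IsAV per') : St.IsAV (perP per per') :=
  isAV_equiv (AE B B') (fun _ => rfl) (isAV_prod hX hY)

theorem RG_push (hX : St.IsAV per) (hY : St.IsAV per') {κ : Type} {n : ℕ}
    (e : Basis (Fin n) ℚ (B' → ℚ)) {G : (κ ⊕ Fin n → (B ⊕ B' → ℚ)) → ℂ}
    (hG : G ∈ RG' m (perP per per') (κ ⊕ Fin n)) :
    (fun v : κ → B → ℚ => G (Sum.elim (fun k => Sum.elim (v k) 0) (fun j => Sum.elim 0 (e j)))) ∈
      RG' m per κ := by
  unfold RG' at hG
  induction hG using Submodule.span_induction with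
  | mem G hG =>
    obtain ⟨r, hr, rfl⟩ := hG
    have h1 : St.Generated m (St.perProd per per') (κ ⊕ Fin n)
        (r.compLinearMap (AE B B').symm.toLinearMap) :=
      St.Generated.pull (isAV_prod hX hY) r hr _ ⟨LinearMap.id, fun v => rfl⟩
    let g : (B → ℚ) [⋀^κ]→ₗ[ℚ] ℚ :=
      { toFun := fun v => (r.compLinearMap (AE B B').symm.toLinearMap)
          (Sum.elim (fun k => (v k, 0)) (fun j => (0, e j)))
        map_update_add' := by
          intro dκ v k x y
          classical
          have e1 : ∀ z : B → ℚ, (Sum.elim (fun k' => ((Function.update v k z k', 0) :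
              (B → ℚ) × (B' → ℚ))) (fun j => (0, e j)) : κ ⊕ Fin n → (B → ℚ) × (B' → ℚ)) =
              Function.update (Sum.elim (fun k => (v k, 0)) (fun j => (0, e j))) (Sum.inl k)
                (z, 0) := by
            intro z
            funext k'
            rcases k' with k' | j
            · by_cases hk : k' = k
              · subst hk
                simp
              · rw [Function.update_of_ne (fun h => hk (Sum.inl.inj h))]
                simp [Function.update_of_ne hk]
            · rw [Function.update_of_ne (by simp)]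
              rfl
          rw [e1, e1, e1]
          have e2 : ((x + y, 0) : (B → ℚ) × (B' → ℚ)) = (x, 0) + (y, 0) := by
            rw [Prod.mk_add_mk, add_zero]
          rw [e2, AlternatingMap.map_update_add]
        map_update_smul' := by
          intro dκ v k c x
          classical
          have e1 : ∀ z : B → ℚ, (Sum.elim (fun k' => ((Function.update v k z k', 0) :
              (B → ℚ) × (B' → ℚ))) (fun j => (0, e j)) : κ ⊕ Fin n → (B → ℚ) × (B' → ℚ)) =
              Function.update (Sum.elim (fun k => (v k, 0)) (fun j => (0, e j))) (Sum.inl k)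
                (z, 0) := by
            intro z
            funext k'
            rcases k' with k' | j
            · by_cases hk : k' = k
              · subst hk
                simp
              · rw [Function.update_of_ne (fun h => hk (Sum.inl.inj h))]
                simp [Function.update_of_ne hk]
            · rw [Function.update_of_ne (by simp)]
              rfl
          rw [e1, e1]
          have e2 : ((c • x, 0) : (B → ℚ) × (B' → ℚ)) = c • (x, 0) := by
            rw [Prod.smul_mk, smul_zero]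
          rw [e2, AlternatingMap.map_update_smul]
        map_eq_zero_of_eq' := by
          intro v i j hv hij
          refine AlternatingMap.map_eq_zero_of_eq _ _ (i := Sum.inl i) (j := Sum.inl j) ?_
            (fun h => hij (Sum.inl.inj h))
          rw [Sum.elim_inl, Sum.elim_inl, hv] }
    have h2 : St.Generated m per κ g :=
      St.Generated.push hX hY e _ h1 g fun v => rfl
    have h3 := RG_of h2
    have h4 : (fun v : κ → B → ℚ => ((r (Sum.elim (fun k => Sum.elim (v k) 0)
        (fun j => Sum.elim 0 (e j))) : ℚ) : ℂ)) = fun v => ((g v : ℚ) : ℂ) := by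
      funext v
      congr 1
      change r _ = r _
      congr 1
      funext k
      rcases k with k | k <;> rfl
    rw [h4]
    exact h3
  | zero => exact Submodule.zero_mem _
  | add x y _ _ hx hy => exact Submodule.add_mem _ hx hy
  | smul c x _ hx => exact Submodule.smul_mem _ c hx

variable {κ κ' : Type} [iκ : Fintype κ] [dκ : DecidableEq κ] [Fintype κ'] [DecidableEq κ']

/-- The alternation of a product with typed variables. -/
theorem altQ_push {F : MultilinearMap ℂ (fun _ : κ ⊕ κ' => B ⊕ B' → ℂ) ℂ}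
    {ψ : MultilinearMap ℂ (fun _ : κ => B → ℂ) ℂ} {θ : MultilinearMap ℂ (fun _ : κ' => B' → ℂ) ℂ}
    (hF : ∀ w, F w = ψ (fun k i => w (Sum.inl k) (Sum.inl i)) *
      θ (fun k i => w (Sum.inr k) (Sum.inr i))) (v : κ → B → ℚ) (y : κ' → B' → ℚ) :
    altQ F (Sum.elim (fun k => Sum.elim (v k) 0) (fun j => Sum.elim 0 (y j))) =
      altQ ψ v * altQ θ y := by
  unfold altQ
  rw [Finset.sum_mul_sum, ← Fintype.sum_prod_type']
  symm
  refine Fintype.sum_of_injective (fun p : Equiv.Perm κ × Equiv.Perm κ' =>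
    Equiv.Perm.sumCongrHom κ κ' p) Equiv.Perm.sumCongrHom_injective _ _ (fun σ hσ => ?_)
    fun p => ?_
  · have h1 : ¬Set.MapsTo σ (Set.range (Sum.inl : κ → κ ⊕ κ')) (Set.range Sum.inl) :=
      fun h => hσ (Equiv.Perm.mem_sumCongrHom_range_of_perm_mapsTo_inl h)
    have h2 : ∃ k j, σ (Sum.inl k) = Sum.inr j := by
      by_contra hc
      push Not at hc
      apply h1
      rintro _ ⟨k, rfl⟩
      rcases h : σ (Sum.inl k) with k' | j
      · exact ⟨k', rfl⟩
      · exact absurd h (hc k j)
    obtain ⟨k, j, hkj⟩ := h2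
    rw [hF, ψ.map_coord_zero k, zero_mul, mul_zero]
    funext i
    rw [hkj]
    simp [cv]
  · rw [hF]
    have h1 : ((Equiv.Perm.sign (Equiv.Perm.sumCongrHom κ κ' p) : ℤ) : ℂ) =
        ((Equiv.Perm.sign p.1 : ℤ) : ℂ) * ((Equiv.Perm.sign p.2 : ℤ) : ℂ) := by
      rw [Equiv.Perm.sumCongrHom_apply, Equiv.Perm.sign_sumCongr]
      push_cast
      rfl
    rw [h1]
    have h2 : (fun k i => cv (Sum.elim (fun k => (Sum.elim (v k) 0 : B ⊕ B' → ℚ))
        (fun j => (Sum.elim 0 (y j) : B ⊕ B' → ℚ))
          ((Equiv.Perm.sumCongrHom κ κ' p) (Sum.inl k))) (Sum.inl i)) =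
        fun k => cv (v (p.1 k)) := rfl
    have h3 : (fun k i => cv (Sum.elim (fun k => (Sum.elim (v k) 0 : B ⊕ B' → ℚ))
        (fun j => (Sum.elim 0 (y j) : B ⊕ B' → ℚ))
          ((Equiv.Perm.sumCongrHom κ κ' p) (Sum.inr k))) (Sum.inr i)) =
        fun k => cv (y (p.2 k)) := rfl
    rw [h2, h3]
    ring

/-- **The push-forward lemma.** -/
theorem push_memG (hX : St.IsAV per) (hY : St.IsAV per') {n : ℕ}
    (e : Basis (Fin n) ℚ (B' → ℚ)) {F : MultilinearMap ℂ (fun _ : κ ⊕ Fin n => B ⊕ B' → ℂ) ℂ}
    {ψ : MultilinearMap ℂ (fun _ : κ => B → ℂ) ℂ}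
    {θ : MultilinearMap ℂ (fun _ : Fin n => B' → ℂ) ℂ}
    (hF : ∀ w, F w = ψ (fun k i => w (Sum.inl k) (Sum.inl i)) *
      θ (fun k i => w (Sum.inr k) (Sum.inr i)))
    (hG : F ∈ NG m (perP per per') (κ ⊕ Fin n)) (hθ : altQ θ (fun j => e j) ≠ 0) :
    ψ ∈ NG m per κ := by
  intro i1 i2
  obtain rfl : i1 = iκ := Subsingleton.elim _ _
  obtain rfl : i2 = dκ := Subsingleton.elim _ _
  have h1 := RG_push (m := m) hX hY e (hG inferInstance inferInstance)
  have h2 : altQ ψ = (altQ θ (fun j => e j))⁻¹ • fun v : κ → B → ℚ => altQ F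
      (Sum.elim (fun k => Sum.elim (v k) 0) (fun j => Sum.elim 0 (e j))) := by
    funext v
    rw [Pi.smul_apply, altQ_push hF, smul_eq_mul, mul_comm, mul_assoc, mul_inv_cancel₀ hθ, mul_one]
  rw [h2]
  exact Submodule.smul_mem _ _ h1

end

end Pool.Agent.Y90
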