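import Mathlib
import Pool.Agent.Y90.NPush

/-!
# The elliptic curve attached to an imaginary quadratic field
-/

set_option linter.unusedSectionVars false

namespace Pool.Agent.Y90

open Matrix Module Pool.Agent.W437.HC Pool.Agent.W437.HD Pool.Agent.W548.Odd Pool.Agent.TH504.CB
open Pool.Agent.H204R3.CM (IsHodge)
open Pool.Agent.W437.HP (cK cK_mul cK_one)

noncomputable section

/-- The period. -/
def dE (d : ℚ) : ℂ := ((Real.sqrt d : ℝ) : ℂ) * Complex.I

/-- The period of an elliptic curve. -/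
def ZE (d : ℚ) : Matrix (Fin 1) (Fin 1) ℂ := Matrix.of fun _ _ => dE d

/-- The endomorphism. -/
def phE (d : ℚ) : Matrix (Fin 1 ⊕ Fin 1) (Fin 1 ⊕ Fin 1) ℚ := fromBlocks 0 (-(d • 1)) 1 0

variable {d : ℚ} (hd : 0 < d)

theorem reZE : reM (ZE d) = 0 := by
  ext i j
  simp [reM, ZE, dE]

theorem imZE : imM (ZE d) = Real.sqrt d • (1 : Matrix (Fin 1) (Fin 1) ℝ) := by
  ext i j
  rw [Subsingleton.elim i j]
  simp [imM, ZE, dE]

include hd

theorem sqrt_pos : 0 < Real.sqrt d := Real.sqrt_pos.2 (by exact_mod_cast hd)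

theorem dE_sq : dE d * dE d = -(d : ℂ) := by
  have h1 : Real.sqrt d * Real.sqrt d = d := Real.mul_self_sqrt (by exact_mod_cast hd.le)
  unfold dE
  rw [mul_mul_mul_comm, Complex.I_mul_I, ← Complex.ofReal_mul, h1]
  push_cast
  ring

theorem dE_ne : dE d ≠ 0 := by
  intro h0
  have h1 := dE_sq hd
  rw [h0, mul_zero] at h1
  have h2 : (d : ℂ) = 0 := by
    rw [← neg_eq_zero, ← h1]
  exact hd.ne' (by exact_mod_cast h2)

theorem pmE : PM (ZE d) := by
  refine ⟨?_, ?_⟩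
  · ext i j
    rfl
  · rw [imZE]
    exact PosDef.smul PosDef.one (sqrt_pos hd)

theorem JRE : JR (ZE d) = (Real.sqrt d)⁻¹ • cK ℝ (phE d) := by
  have h1 := sqrt_pos hd
  have h2 : (imM (ZE d))⁻¹ = (Real.sqrt d)⁻¹ • (1 : Matrix (Fin 1) (Fin 1) ℝ) := by
    rw [imZE]
    refine Matrix.inv_eq_right_inv ?_
    rw [smul_mul_smul_comm, mul_inv_cancel₀ h1.ne', one_smul, Matrix.one_mul]
  have h3 : Real.sqrt d = (Real.sqrt d)⁻¹ * d := by
    have h4 : Real.sqrt d * Real.sqrt d = d := Real.mul_self_sqrt (by exact_mod_cast hd.le)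
    rw [eq_inv_mul_iff_mul_eq₀ h1.ne', h4]
  unfold JR
  rw [h2, reZE, imZE]
  ext i j
  rcases i with i | i <;> rcases j with j | j <;> rw [Subsingleton.elim i 0, Subsingleton.elim j 0]
  · simp [phE, cK]
  · simp only [Matrix.zero_mul, Matrix.mul_zero, sub_zero, fromBlocks_apply₁₂, Matrix.neg_apply,
      Matrix.smul_apply, Matrix.one_apply_eq, smul_eq_mul, mul_one, phE, cK, Matrix.map_apply,
      Rat.cast_neg, mul_neg]
    rw [← h3]
  · simp [phE, cK]
  · simp [phE, cK]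

theorem DZE : DZ (ZE d) = (dE d)⁻¹ • qm (phE d) := by
  have h1 := sqrt_pos hd
  have h2 : (dE d)⁻¹ = -Complex.I * ((Real.sqrt d : ℝ) : ℂ)⁻¹ := by
    unfold dE
    rw [mul_inv, Complex.inv_I, mul_comm]
  unfold DZ
  rw [JRE hd, h2, mul_smul]
  congr 1
  ext i j
  simp [cK, qm]

theorem DSE (σ : ℂ ≃+* ℂ) : DS (ZE d) σ = (σ (dE d))⁻¹ • qm (phE d) := by
  unfold DS
  rw [DZE hd]
  ext i j
  simp [qm]

theorem LZE {X : Matrix (Fin 1 ⊕ Fin 1) (Fin 1 ⊕ Fin 1) ℂ} (hX : X ∈ LZ (ZE d)) :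
    ∃ c : ℂ, X = c • qm (phE d) := by
  have h1 : LZ (ZE d) ≤ Submodule.span ℂ {qm (phE d)} := by
    refine LZ_le (fun σ => ?_) fun A hA C hC => ?_
    · rw [DSE hd]
      exact Submodule.smul_mem _ _ (Submodule.mem_span_singleton_self _)
    · rw [Submodule.mem_span_singleton] at hA hC
      obtain ⟨a, rfl⟩ := hA
      obtain ⟨c, rfl⟩ := hC
      have h2 : a • qm (phE d) * c • qm (phE d) - c • qm (phE d) * a • qm (phE d) = 0 := by
        rw [smul_mul_smul_comm, smul_mul_smul_comm, mul_comm a c, sub_self]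
      rw [h2]
      exact Submodule.zero_mem _
  obtain ⟨c, hc⟩ := Submodule.mem_span_singleton.1 (h1 hX)
  exact ⟨c, hc.symm⟩

omit hd in
theorem phE_mulVec (v : Fin 1 ⊕ Fin 1 → ℂ) :
    qm (phE d) *ᵥ v = Sum.elim (fun _ => -(d : ℂ) * v (Sum.inr 0)) (fun _ => v (Sum.inl 0)) := by
  funext i
  rcases i with i | i <;> rw [Subsingleton.elim i 0] <;>
    simp [qm, phE, mulVec, dotProduct, Fintype.sum_sum_type]

/-- The eigenline. -/
def UE (β : ℂ) : Submodule ℂ (Fin 1 ⊕ Fin 1 → ℂ) :=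
  Submodule.span ℂ {Sum.elim (fun _ => β) (fun _ => 1)}

omit hd in
theorem mem_UE {β : ℂ} (hβ : β * β = -(d : ℂ)) (v : Fin 1 ⊕ Fin 1 → ℂ) :
    v ∈ UE β ↔ qm (phE d) *ᵥ v = β • v := by
  unfold UE
  rw [Submodule.mem_span_singleton, phE_mulVec]
  constructor
  · rintro ⟨c, rfl⟩
    funext i
    rcases i with i | i
    · simp only [Sum.elim_inl, Pi.smul_apply, Sum.elim_inr, smul_eq_mul]
      linear_combination (-c) * hβ
    · simp only [Sum.elim_inl, Pi.smul_apply, Sum.elim_inr, smul_eq_mul]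
      ring
  · intro h
    refine ⟨v (Sum.inr 0), ?_⟩
    have h1 := congrFun h (Sum.inr 0)
    simp only [Sum.elim_inr, Pi.smul_apply, smul_eq_mul] at h1
    funext i
    rcases i with i | i <;> rw [Subsingleton.elim i 0]
    · simp only [Pi.smul_apply, Sum.elim_inl, smul_eq_mul]
      rw [h1, mul_comm]
    · simp

omit hd in
theorem uE_ne (β : ℂ) : (Sum.elim (fun _ => β) (fun _ => 1) : Fin 1 ⊕ Fin 1 → ℂ) ≠ 0 := by
  intro h
  have := congrFun h (Sum.inr 0)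
  simp at this

omit hd in
theorem finrank_UE (β : ℂ) : finrank ℂ (UE β) = 1 := finrank_span_singleton (uE_ne β)

theorem irE {β : ℂ} (hβ : β * β = -(d : ℂ)) : IrS (LZ (ZE d)) (UE β) := by
  refine ⟨fun h => ?_, fun X hX u hu => ?_, fun W hW _ => ?_⟩
  · have h1 := finrank_UE β
    rw [h, finrank_bot] at h1
    exact zero_ne_one h1
  · obtain ⟨c, rfl⟩ := LZE hd hX
    rw [smul_mulVec, (mem_UE hβ u).1 hu]
    exact Submodule.smul_mem _ _ (Submodule.smul_mem _ _ hu)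
  · by_cases h : W = ⊥
    · exact Or.inl h
    · right
      refine Submodule.eq_of_le_of_finrank_le hW ?_
      rw [finrank_UE]
      exact Nat.one_le_iff_ne_zero.2 fun h0 => h (Submodule.finrank_eq_zero.1 h0)

theorem tr_E {β : ℂ} (hβ : β * β = -(d : ℂ)) (s : ℤ) (hs : s = 1 ∨ s = -1)
    (h : β = s * dE d) : tr (ZE d) (UE β) = s := by
  have h1 : ∀ u ∈ UE β, DZ (ZE d) *ᵥ u = (s : ℂ) • u := by
    intro u hu
    rw [DZE hd, smul_mulVec, (mem_UE hβ u).1 hu, smul_smul, h, mul_comm (s : ℂ), ← mul_assoc,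
      inv_mul_cancel₀ (dE_ne hd), one_mul]
  have h2 : UE β ≤ eig (ZE d) (s : ℂ) := h1
  have h3 : UE β ⊓ eig (ZE d) (s : ℂ) = UE β := inf_eq_left.2 h2
  have h4 : ∀ c : ℂ, (s : ℂ) ≠ c → UE β ⊓ eig (ZE d) c = ⊥ := by
    intro c hc
    rw [eq_bot_iff, ← eig_inf (s : ℂ) c hc]
    exact inf_le_inf h2 le_rfl
  unfold tr pd qd
  rcases hs with rfl | rfl
  · have h5 := h3
    rw [Int.cast_one] at h5
    rw [h5, h4 (-1) (by norm_num), finrank_UE, finrank_bot]
    norm_num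
  · have h5 := h3
    rw [Int.cast_neg, Int.cast_one] at h5
    rw [h5, h4 1 (by norm_num), finrank_UE, finrank_bot]
    norm_num

/-- The data of the elliptic curve. -/
theorem ktE {α : ℂ} (hα : α * α = -(d : ℂ)) {s : ℚ} (hs : s * s = 1) :
    KT (ZE d) (UE (s * α)) (s • phE d) α d := by
  have hs' : (s : ℂ) * s = 1 := by exact_mod_cast hs
  have hβ : ((s : ℂ) * α) * (s * α) = -(d : ℂ) := by
    rw [mul_mul_mul_comm, hs', one_mul, hα]
  refine ⟨irE hd hβ, finrank_UE _, fun X hX => ?_, hd, ?_, hα, fun v => ?_, ?_⟩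
  · obtain ⟨c, rfl⟩ := LZE hd hX
    rw [qm_smul, smul_mul_smul_comm, smul_mul_smul_comm, mul_comm c]
  · rw [smul_mul_smul_comm, hs, one_smul]
    unfold phE
    rw [fromBlocks_multiply]
    ext i j
    rcases i with i | i <;> rcases j with j | j <;>
      rw [Subsingleton.elim i 0, Subsingleton.elim j 0] <;> simp
  · rw [mem_UE hβ, qm_smul, smul_mulVec]
    constructor
    · intro h
      rw [h, smul_smul, ← mul_assoc, hs', one_mul]
    · intro h
      have h1 := congrArg (fun x => (s : ℂ) • x) h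
      beta_reduce at h1
      rwa [smul_smul, smul_smul, hs', one_smul] at h1
  · have h1 : (s * α : ℂ) = dE d ∨ (s * α : ℂ) = -dE d := by
      have h2 := dE_sq hd
      have h3 : ((s : ℂ) * α - dE d) * (s * α + dE d) = 0 := by
        linear_combination hβ - h2
      rcases mul_eq_zero.1 h3 with h4 | h4
      · exact Or.inl (sub_eq_zero.1 h4)
      · exact Or.inr (eq_neg_of_add_eq_zero_left h4)
    rcases h1 with h1 | h1
    · left
      have h2 := tr_E hd hβ 1 (Or.inl rfl) (by rw [h1]; simp)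
      unfold tr at h2
      omega
    · right
      have h2 := tr_E hd hβ (-1) (Or.inr rfl) (by rw [h1]; simp)
      unfold tr at h2
      omega

/-- Elliptic curves are simple. -/
theorem simE : IsSimpleAV (ZE d) := by
  intro U hU
  by_cases h0 : U = ⊥
  · exact Or.inl h0
  by_cases h1 : U = ⊤
  · exact Or.inr h1
  exfalso
  have h2 : finrank ℚ U ≤ 1 := by
    have h3 := Submodule.finrank_lt h1
    rw [finrank_fintype_fun_eq_card] at h3
    simp only [Fintype.card_sum, Fintype.card_fin] at h3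
    omega
  obtain ⟨u, hu, hu0⟩ := Submodule.exists_mem_ne_zero_of_ne_bot h0
  have h3 : ∀ w ∈ U, ∃ c : ℚ, c • u = w := by
    intro w hw
    have h4 := (finrank_le_one_iff (K := ℚ) (V := U)).1 h2
    obtain ⟨v, hv⟩ := h4
    obtain ⟨c, hc⟩ := hv ⟨u, hu⟩
    obtain ⟨c', hc'⟩ := hv ⟨w, hw⟩
    have hc1 : c • (v : Fin 1 ⊕ Fin 1 → ℚ) = u := congrArg Subtype.val hc
    have hc2 : c' • (v : Fin 1 ⊕ Fin 1 → ℚ) = w := congrArg Subtype.val hc'
    have hc0 : c ≠ 0 := by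
      rintro rfl
      rw [zero_smul] at hc1
      exact hu0 hc1.symm
    refine ⟨c' * c⁻¹, ?_⟩
    rw [← hc1, ← hc2, smul_smul, mul_assoc, inv_mul_cancel₀ hc0, mul_one]
  have h4 := hU _ (Submodule.subset_span ⟨u, hu, rfl⟩)
  have h5 : perOne (ZE d) '' U ⊆ (Submodule.span ℝ {perOne (ZE d) u} : Set (Fin 1 → ℂ)) := by
    rintro _ ⟨w, hw, rfl⟩
    obtain ⟨c, rfl⟩ := h3 w hw
    rw [per_smul]
    exact Submodule.smul_mem _ _ (Submodule.mem_span_singleton_self _)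
  have h6 := (Submodule.span_le.2 h5) h4
  obtain ⟨r, hr⟩ := Submodule.mem_span_singleton.1 h6
  have h7 : perOne (ZE d) u ≠ 0 := by
    intro h8
    have h9 := congrArg (invR (ZE d)) (perOne_eq (Z := ZE d) u)
    rw [invR_perR (pmE hd).det, h8, map_zero] at h9
    apply hu0
    funext i
    have h10 := congrFun h9 i
    simp only [Pi.zero_apply] at h10
    rw [Pi.zero_apply]
    exact_mod_cast h10.symm
  have h8 : ((r : ℂ) - Complex.I) • perOne (ZE d) u = 0 := by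
    rw [sub_smul, ← hr]
    exact sub_self _
  rcases smul_eq_zero.1 h8 with h9 | h9
  · have h10 := congrArg Complex.im h9
    simp at h10
  · exact h7 h9

theorem cmE : HasCM (ZE d) :=
  cm_of_one (pmE hd) (simE hd) one_pos (irE hd (dE_sq hd)) (finrank_UE _)

omit hd

/-- The functionals. -/
def lamE (β : ℂ) : (Fin 1 ⊕ Fin 1 → ℂ) →ₗ[ℂ] ℂ :=
  LinearMap.proj (Sum.inl 0) + β • LinearMap.proj (Sum.inr 0)

theorem lamE_apply (β : ℂ) (w : Fin 1 ⊕ Fin 1 → ℂ) :
    lamE β w = w (Sum.inl 0) + β * w (Sum.inr 0) := rfl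

theorem lamE_ph {β : ℂ} (hβ : β * β = -(d : ℂ)) (w : Fin 1 ⊕ Fin 1 → ℂ) :
    lamE β (qm (phE d) *ᵥ w) = β * lamE β w := by
  rw [phE_mulVec, lamE_apply, lamE_apply]
  simp only [Sum.elim_inl, Sum.elim_inr]
  linear_combination (-w (Sum.inr 0)) * hβ

include hd in
theorem lamE_DS {β : ℂ} (hβ : β * β = -(d : ℂ)) (σ : ℂ ≃+* ℂ) (w : Fin 1 ⊕ Fin 1 → ℂ) :
    lamE β (DS (ZE d) σ *ᵥ w) = ((σ (dE d))⁻¹ * β) * lamE β w := by
  rw [DSE hd, smul_mulVec, map_smul, lamE_ph hβ, smul_eq_mul, mul_assoc]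

include hd in
theorem altF_E {α : ℂ} (hα : α * α = -(d : ℂ)) {s : ℚ} (hs : s * s = 1)
    (k : KT (ZE d) (UE (s * α)) (s • phE d) α d) (f : Basis (Fin 1) ℂ (UE (s * α))) :
    ∃ c : ℂ, c ≠ 0 ∧ ∀ v : Fin 1 → Fin 1 ⊕ Fin 1 → ℂ, k.altF f v = c * lamE (s * α) (v 0) := by
  have hs' : (s : ℂ) * s = 1 := by exact_mod_cast hs
  have hα0 : α ≠ 0 := k.al_ne
  have hs0 : (s : ℂ) ≠ 0 := fun h => by rw [h, mul_zero] at hs'; exact zero_ne_one hs'
  obtain ⟨u₀, hu₀⟩ : ∃ u₀ : UE (s * α), (u₀ : Fin 1 ⊕ Fin 1 → ℂ) =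
      Sum.elim (fun _ => s * α) (fun _ => 1) :=
    ⟨⟨_, Submodule.mem_span_singleton_self _⟩, rfl⟩
  have h1 : ∀ w, k.pU w = ((2 * α)⁻¹ * s * lamE (s * α) w) • u₀ := by
    intro w
    apply Subtype.ext
    rw [k.pU_coe, pj_apply, qm_smul, smul_mulVec, phE_mulVec, Submodule.coe_smul, hu₀]
    funext i
    rcases i with i | i <;> rw [Subsingleton.elim i 0]
    · simp only [Pi.smul_apply, Pi.add_apply, Sum.elim_inl, smul_eq_mul, lamE_apply]
      have e1 : (2 * α)⁻¹ * (s * (-(d : ℂ) * w (Sum.inr 0)) + α * w (Sum.inl 0)) =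
        (2 * α)⁻¹ * (s * (α * α * w (Sum.inr 0)) + (s * s) * α * w (Sum.inl 0)) := by
        rw [hα, hs']; ring
      rw [e1]
      have e2 : (s : ℂ) * (α * α * w (Sum.inr 0)) = (s * s) * s * (α * α * w (Sum.inr 0)) := by
        rw [hs']; ring
      rw [e2]
      ring
    · simp only [Pi.smul_apply, Pi.add_apply, Sum.elim_inr, smul_eq_mul, lamE_apply]
      have e1 : (2 * α)⁻¹ * (s * w (Sum.inl 0) + α * w (Sum.inr 0)) =
        (2 * α)⁻¹ * (s * w (Sum.inl 0) + (s * s) * α * w (Sum.inr 0)) := by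
        rw [hs']; ring
      rw [e1]
      ring
  have h2 : ∀ x : UE (s * α), f.det (fun _ => x) = f.repr x 0 := by
    intro x
    rw [Basis.det_apply, det_fin_one]
    rfl
  refine ⟨(2 * α)⁻¹ * s * f.repr u₀ 0, ?_, fun v => ?_⟩
  · refine mul_ne_zero (mul_ne_zero (inv_ne_zero (mul_ne_zero two_ne_zero hα0)) hs0) fun h0 => ?_
    have h3 : u₀ = 0 := by
      rw [← f.sum_repr u₀]
      simp [h0]
    apply uE_ne (s * α)
    rw [← hu₀, h3]
    rfl
  · have h3 : k.altF f v = f.det (fun _ => k.pU (v 0)) := by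
      change f.det (fun y => k.pU (v y)) = _
      congr 1
      funext y
      rw [Subsingleton.elim y 0]
    rw [h3, h2, h1, map_smul, Finsupp.smul_apply, smul_eq_mul]
    ring

/-- The basis of the homology of the elliptic curve. -/
def bE : Basis (Fin 2) ℚ (Fin 1 ⊕ Fin 1 → ℚ) :=
  (Pi.basisFun ℚ (Fin 1 ⊕ Fin 1)).reindex finSumFinEquiv

theorem bE0 : bE 0 = Pi.single (Sum.inl 0) 1 := by
  unfold bE
  rw [Basis.reindex_apply]
  have h1 : (finSumFinEquiv : Fin 1 ⊕ Fin 1 ≃ Fin (1 + 1)).symm 0 = Sum.inl 0 := rfl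
  erw [h1]
  exact Pi.basisFun_apply ℚ _ _

theorem bE1 : bE 1 = Pi.single (Sum.inr 0) 1 := by
  unfold bE
  rw [Basis.reindex_apply]
  have h1 : (finSumFinEquiv : Fin 1 ⊕ Fin 1 ≃ Fin (1 + 1)).symm 1 = Sum.inr 0 := rfl
  erw [h1]
  exact Pi.basisFun_apply ℚ _ _

theorem univ_perm2 : (Finset.univ : Finset (Equiv.Perm (Fin 2))) = {1, Equiv.swap 0 1} := by
  decide

/-- The alternation does not vanish. -/
theorem altQ_E {β c : ℂ} (hβ : β ≠ 0) (hc : c ≠ 0)
    {θ : MultilinearMap ℂ (fun _ : Fin 2 => Fin 1 ⊕ Fin 1 → ℂ) ℂ}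
    (hθ : ∀ v, θ v = c * lamE β (v 0) * lamE (-β) (v 1)) : altQ θ (fun j => bE j) ≠ 0 := by
  unfold altQ
  rw [univ_perm2, Finset.sum_insert (by decide), Finset.sum_singleton, hθ, hθ]
  have h0 : Equiv.swap (0 : Fin 2) 1 0 = 1 := by decide
  have h1 : Equiv.swap (0 : Fin 2) 1 1 = 0 := by decide
  have h2 : Equiv.Perm.sign (Equiv.swap (0 : Fin 2) 1) = -1 := by decide
  rw [h0, h1, h2, Equiv.Perm.one_apply, Equiv.Perm.one_apply, Equiv.Perm.sign_one]
  beta_reduce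
  rw [bE0, bE1, single_cv, single_cv]
  simp only [lamE_apply]
  simp
  exact ⟨hc, hβ⟩

end

end Pool.Agent.Y90
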