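import Mathlib
import Pool.Agent.Y90.NEll
import Pool.Agent.Y90.Pi3

/-!
# Balanced products of determinants
-/

set_option linter.unusedSectionVars false

namespace Pool.Agent.Y90

open Matrix Module Pool.Agent.W437.HC Pool.Agent.W437.HD Pool.Agent.W548.Odd Pool.Agent.TH504.CB
open Pool.Agent.H204R3.CM (IsHodge)
open Pool.Agent.W437.HP (cK cK_mul cK_one)

noncomputable section

section defs

variable {B : Type} [Fintype B] [DecidableEq B]

/-- Functionals given by a simple abelian variety with complex multiplication. -/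
def LineG (m : ℕ) (J : Matrix B B ℝ) (μ : (B → ℂ) →ₗ[ℂ] ℂ) (ε : (ℂ ≃+* ℂ) → ℂ) : Prop :=
  ∃ (a : ℕ) (Z : Matrix (Fin a) (Fin a) ℂ) (lam : (Fin a ⊕ Fin a → ℂ) →ₗ[ℂ] ℂ),
    PM Z ∧ IsSimpleAV Z ∧ HasCM Z ∧ a ≤ m ∧ (∀ σ w, lam (DS Z σ *ᵥ w) = ε σ * lam w) ∧
    μ ∈ Submodule.span ℂ {μ | ∃ R ∈ TJ (DJ J) (DZ Z), μ = lam.comp (mulVecLin R)}

/-- Determinants given by a threefold with an action of an imaginary quadratic field. -/
def BlockG (J : Matrix B B ℝ) (M : MultilinearMap ℂ (fun _ : Fin 3 => B → ℂ) ℂ)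
    (ε : (ℂ ≃+* ℂ) → ℂ) : Prop :=
  ∃ (Z : Matrix (Fin 3) (Fin 3) ℂ) (U : Submodule ℂ (Fin 3 ⊕ Fin 3 → ℂ))
    (φ : Matrix (Fin 3 ⊕ Fin 3) (Fin 3 ⊕ Fin 3) ℚ) (α : ℂ) (d : ℚ) (k : KT Z U φ α d)
    (f : Basis (Fin 3) ℂ U) (R : Fin 3 → Matrix (Fin 3 ⊕ Fin 3) B ℂ), PM Z ∧
    (∀ y, R y ∈ Submodule.span ℂ (TJ (DJ J) (DZ Z) : Set (Matrix (Fin 3 ⊕ Fin 3) B ℂ))) ∧
    (∀ v, M v = k.altF f (fun y => R y *ᵥ v y)) ∧ ∀ σ, ε σ = (tr Z (cjS σ.symm U) : ℂ)

end defs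

section comp

variable {B B' B₁ : Type} [Fintype B] [DecidableEq B] [Fintype B'] [DecidableEq B'] [Fintype B₁]
  [DecidableEq B₁]

theorem TJ_comp1 {D : Matrix B B ℂ} {D₁ : Matrix B₁ B₁ ℂ} {D' : Matrix B' B' ℂ}
    {P : Matrix B B' ℚ} (hP : cK ℂ P * D' = D * cK ℂ P) {R : Matrix B₁ B ℂ} (hR : R ∈ TJ D D₁) :
    R * cK ℂ P ∈ TJ D' D₁ := by
  obtain ⟨R, rfl, hR⟩ := hR
  refine ⟨R * P, (cK_mul ℂ R P).symm, ?_⟩
  rw [cK_mul, Matrix.mul_assoc, hP, ← Matrix.mul_assoc, hR, Matrix.mul_assoc]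

theorem TJ_comp {D : Matrix B B ℂ} {D₁ : Matrix B₁ B₁ ℂ} {D' : Matrix B' B' ℂ}
    {P : Matrix B B' ℚ} (hP : cK ℂ P * D' = D * cK ℂ P) {R : Matrix B₁ B ℂ}
    (hR : R ∈ Submodule.span ℂ (TJ D D₁ : Set (Matrix B₁ B ℂ))) :
    R * cK ℂ P ∈ Submodule.span ℂ (TJ D' D₁ : Set (Matrix B₁ B' ℂ)) := by
  induction hR using Submodule.span_induction with
  | mem R hR => exact Submodule.subset_span (TJ_comp1 hP hR)
  | zero =>
    rw [Matrix.zero_mul]
    exact Submodule.zero_mem _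
  | add x y _ _ hx hy =>
    rw [Matrix.add_mul]
    exact Submodule.add_mem _ hx hy
  | smul c x _ hx =>
    rw [Matrix.smul_mul]
    exact Submodule.smul_mem _ _ hx

theorem LineG.comp {m : ℕ} {J : Matrix B B ℝ} {J' : Matrix B' B' ℝ} {μ : (B → ℂ) →ₗ[ℂ] ℂ}
    {ε : (ℂ ≃+* ℂ) → ℂ} (h : LineG m J μ ε) {P : Matrix B B' ℚ}
    (hP : cK ℂ P * DJ J' = DJ J * cK ℂ P) : LineG m J' (μ.comp (mulVecLin (cK ℂ P))) ε := by
  obtain ⟨a, Z, lam, h1, h2, h3, h4, h5, h6⟩ := h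
  refine ⟨a, Z, lam, h1, h2, h3, h4, h5, ?_⟩
  induction h6 using Submodule.span_induction with
  | mem μ hμ =>
    obtain ⟨R, hR, rfl⟩ := hμ
    refine Submodule.subset_span ⟨R * cK ℂ P, TJ_comp1 hP hR, ?_⟩
    rw [LinearMap.comp_assoc, mulVecLin_mul]
  | zero =>
    rw [LinearMap.zero_comp]
    exact Submodule.zero_mem _
  | add x y _ _ hx hy =>
    rw [LinearMap.add_comp]
    exact Submodule.add_mem _ hx hy
  | smul c x _ hx =>
    rw [LinearMap.smul_comp]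
    exact Submodule.smul_mem _ _ hx

theorem BlockG.comp {J : Matrix B B ℝ} {J' : Matrix B' B' ℝ}
    {M : MultilinearMap ℂ (fun _ : Fin 3 => B → ℂ) ℂ}
    {ε : (ℂ ≃+* ℂ) → ℂ} (h : BlockG J M ε) {P : Matrix B B' ℚ}
    (hP : cK ℂ P * DJ J' = DJ J * cK ℂ P) :
    BlockG J' (M.compLinearMap fun _ => mulVecLin (cK ℂ P)) ε := by
  obtain ⟨Z, U, φ, α, d, k, f, R, h1, h2, h3, h4⟩ := h
  refine ⟨Z, U, φ, α, d, k, f, fun y => R y * cK ℂ P, h1, fun y => TJ_comp hP (h2 y),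
    fun v => ?_, h4⟩
  rw [MultilinearMap.compLinearMap_apply, h3]
  congr 1
  funext y
  rw [mulVecLin_apply, mulVec_mulVec]

variable (B B') in
/-- The projections. -/
def P1 : Matrix B (B ⊕ B') ℚ := fromCols 1 0

variable (B B') in
/-- The projections. -/
def P2 : Matrix B' (B ⊕ B') ℚ := fromCols 0 1

theorem P1_comm (J : Matrix B B ℝ) (J' : Matrix B' B' ℝ) :
    cK ℂ (P1 B B') * DJ (fromBlocks J 0 0 J') = DJ J * cK ℂ (P1 B B') := by
  apply DJ_of_real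
  have h1 : cK ℝ (P1 B B') = fromCols 1 0 := by
    ext i j
    rcases j with j | j
    · simp [P1, cK, Matrix.one_apply, apply_ite]
    · simp [P1, cK]
  rw [h1, fromCols_mul_fromBlocks, mul_fromCols]
  simp

theorem P2_comm (J : Matrix B B ℝ) (J' : Matrix B' B' ℝ) :
    cK ℂ (P2 B B') * DJ (fromBlocks J 0 0 J') = DJ J' * cK ℂ (P2 B B') := by
  apply DJ_of_real
  have h1 : cK ℝ (P2 B B') = fromCols 0 1 := by
    ext i j
    rcases j with j | j
    · simp [P2, cK]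
    · simp [P2, cK, Matrix.one_apply, apply_ite]
  rw [h1, fromCols_mul_fromBlocks, mul_fromCols]
  simp

theorem P1_mulVec (w : B ⊕ B' → ℂ) : cK ℂ (P1 B B') *ᵥ w = fun i => w (Sum.inl i) := by
  have h1 : cK ℂ (P1 B B') = fromCols 1 0 := by
    ext i j
    rcases j with j | j
    · simp [P1, cK, Matrix.one_apply, apply_ite]
    · simp [P1, cK]
  rw [h1]
  funext i
  simp [mulVec, dotProduct, Fintype.sum_sum_type, Matrix.one_apply]

theorem P2_mulVec (w : B ⊕ B' → ℂ) : cK ℂ (P2 B B') *ᵥ w = fun i => w (Sum.inr i) := by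
  have h1 : cK ℂ (P2 B B') = fromCols 0 1 := by
    ext i j
    rcases j with j | j
    · simp [P2, cK]
    · simp [P2, cK, Matrix.one_apply, apply_ite]
  rw [h1]
  funext i
  simp [mulVec, dotProduct, Fintype.sum_sum_type, Matrix.one_apply]

end comp

/-- The slots. -/
def slotE (n : ℕ) (L : Type) : ((Fin 3 ⊕ Fin 1) ⊕ ((Fin n × Fin 3) ⊕ (L ⊕ Unit))) ≃
    ((Fin (n + 1) × Fin 3) ⊕ L) ⊕ Fin 2 where
  toFun x := match x with
    | Sum.inl (Sum.inl y) => Sum.inl (Sum.inl (0, y))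
    | Sum.inl (Sum.inr _) => Sum.inr 0
    | Sum.inr (Sum.inl (q, y)) => Sum.inl (Sum.inl (q.succ, y))
    | Sum.inr (Sum.inr (Sum.inl b)) => Sum.inl (Sum.inr b)
    | Sum.inr (Sum.inr (Sum.inr _)) => Sum.inr 1
  invFun x := match x with
    | Sum.inl (Sum.inl (q, y)) =>
        Fin.cases (Sum.inl (Sum.inl y)) (fun q => Sum.inr (Sum.inl (q, y))) q
    | Sum.inl (Sum.inr b) => Sum.inr (Sum.inr (Sum.inl b))
    | Sum.inr k => Fin.cases (Sum.inl (Sum.inr 0)) (fun _ => Sum.inr (Sum.inr (Sum.inr ()))) k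
  left_inv x := by
    rcases x with ((y | y) | (⟨q, y⟩ | (b | u)))
    · rfl
    · rw [Subsingleton.elim y 0]
      rfl
    · rfl
    · rfl
    · rfl
  right_inv x := by
    rcases x with ((⟨q, y⟩ | b) | k)
    · refine Fin.cases ?_ (fun q => ?_) q <;> rfl
    · rfl
    · fin_cases k <;> rfl

theorem quad_pm {α δ : ℂ} {d : ℚ} (hα : α * α = -(d : ℂ)) (hδ : δ * δ = -(d : ℂ)) :
    α = δ ∨ α = -δ := by
  have h3 : (α - δ) * (α + δ) = 0 := by
    linear_combination hα - hδ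
  rcases mul_eq_zero.1 h3 with h4 | h4
  · exact Or.inl (sub_eq_zero.1 h4)
  · exact Or.inr (eq_neg_of_add_eq_zero_left h4)

section step

variable {a : ℕ} {Z : Matrix (Fin a) (Fin a) ℂ} {U : Submodule ℂ (Fin a ⊕ Fin a → ℂ)}
  {φ : Matrix (Fin a ⊕ Fin a) (Fin a ⊕ Fin a) ℚ} {α : ℂ} {d : ℚ}

theorem KT.tr_pm (k : KT Z U φ α d) : tr Z U = 1 ∨ tr Z U = -1 := by
  unfold tr
  rcases k.sgn with h | h
  · left; omega
  · right; omega

/-- The sign. -/
theorem KT.exists_sign (k : KT Z U φ α d) : ∃ s : ℚ, s * s = 1 ∧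
    (s : ℂ) * α = (((-tr Z U : ℤ)) : ℂ) * dE d := by
  rcases quad_pm k.al (dE_sq k.pos) with h | h <;> rcases k.tr_pm with h' | h'
  · exact ⟨-1, by norm_num, by rw [h', h]; push_cast; ring⟩
  · exact ⟨1, by norm_num, by rw [h', h]; push_cast; ring⟩
  · exact ⟨1, by norm_num, by rw [h', h]; push_cast; ring⟩
  · exact ⟨-1, by norm_num, by rw [h', h]; push_cast; ring⟩

theorem KT.eps (k : KT Z U φ α d) {β : ℂ} (hβ : β = (((-tr Z U : ℤ)) : ℂ) * dE d)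
    (σ : ℂ ≃+* ℂ) : (σ (dE d))⁻¹ * (-β) = (tr Z (cjS σ.symm U) : ℂ) := by
  have h1 : σ.symm α = α → σ α = α := fun h => by
    conv_lhs => rw [← h, RingEquiv.apply_symm_apply]
  have h2 : σ.symm α = -α → σ α = -α := fun h => by
    have h3 := congrArg σ h
    rw [RingEquiv.apply_symm_apply, map_neg] at h3
    linear_combination h3
  have hδ : dE d ≠ 0 := dE_ne k.pos
  have h3 : ∀ c : ℂ, σ α = c * α → σ (dE d) = c * dE d := by
    intro c hc
    rcases quad_pm k.al (dE_sq k.pos) with h | h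
    · rwa [h] at hc
    · rw [h, map_neg, mul_neg] at hc
      exact neg_injective hc
  rcases k.tr_cj σ.symm with ⟨h4, h5⟩ | ⟨h4, h5⟩
  · rw [h5, h3 1 (by rw [h1 h4, one_mul]), hβ]
    push_cast
    field_simp
  · rw [h5, h3 (-1) (by rw [h2 h4]; ring), hβ]
    push_cast
    field_simp

end step

section ind

variable {m : ℕ} (hm : 1 ≤ m)

/-- The base of the induction. -/
theorem core_zero {B : Type} [Fintype B] [DecidableEq B] {T : Type} [AddCommGroup T] [Module ℂ T]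
    {per : (B → ℚ) →+ T} {J : Matrix B B ℝ} (h : Cht per J) (hX : St.IsAV per)
    {L : Type} [Fintype L] [DecidableEq L] (μ : L → (B → ℂ) →ₗ[ℂ] ℂ) (εL : L → (ℂ ≃+* ℂ) → ℂ)
    (hL : ∀ b, LineG m J (μ b) (εL b)) (hsum : ∀ σ, ∑ b, εL b σ = 0)
    (ψ : MultilinearMap ℂ (fun _ : L => B → ℂ) ℂ) (hψ : ∀ v, ψ v = ∏ b, μ b (v b)) :
    ψ ∈ NG m per L := by
  choose a Z lam h1 h2 h3 h4 h5 h6 using hL
  exact cm_memG h1 lam εL h5 hsum h2 h3 h4 h hX μ h6 ψ hψ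

include hm in
/-- The pair form. -/
theorem pair_E {B : Type} [Fintype B] [DecidableEq B] {T : Type} [AddCommGroup T] [Module ℂ T]
    {per : (B → ℚ) →+ T} {J : Matrix B B ℝ} (h : Cht per J) (hX : St.IsAV per)
    {M : MultilinearMap ℂ (fun _ : Fin 3 => B → ℂ) ℂ} {ε : (ℂ ≃+* ℂ) → ℂ} (hM : BlockG J M ε) :
    ∃ (d : ℚ) (β c : ℂ), 0 < d ∧ β ≠ 0 ∧ c ≠ 0 ∧ (-β) * (-β) = -(d : ℂ) ∧
      (∀ σ : ℂ ≃+* ℂ, (σ (dE d))⁻¹ * (-β) = ε σ) ∧
      ∃ P ∈ NG m (perP per (perOne (ZE d))) (Fin 3 ⊕ Fin 1), ∀ v, P v =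
        M (fun y i => v (Sum.inl y) (Sum.inl i)) * (c * lamE β (fun i => v (Sum.inr 0) (Sum.inr i))) := by
  obtain ⟨Z₀, U₀, φ₀, α, d, k₀, f₀, R₀, hZ₀, hR₀, hM₀, hε₀⟩ := hM
  have hd := k₀.pos
  obtain ⟨s, hs, hsα⟩ := k₀.exists_sign
  have hβ : ((s : ℂ) * α) * (s * α) = -(d : ℂ) := by
    have hs' : (s : ℂ) * s = 1 := by exact_mod_cast hs
    rw [mul_mul_mul_comm, hs', one_mul, k₀.al]
  have kE := ktE hd k₀.al hs
  have tE : tr (ZE d) (UE (s * α)) = -tr Z₀ U₀ := tr_E hd hβ _ (by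
    rcases k₀.tr_pm with h1 | h1
    · right; rw [h1]
    · left; rw [h1]; norm_num) hsα
  let fE : Basis (Fin 1) ℂ (UE (s * α)) := finBasisOfFinrankEq ℂ _ (finrank_UE _)
  obtain ⟨c, hc, hcf⟩ := altF_E hd k₀.al hs kE fE
  have hβ0 : (s * α : ℂ) ≠ 0 := by
    intro h0
    rw [h0, mul_zero] at hβ
    have h2 : (d : ℂ) = 0 := by rw [← neg_eq_zero, ← hβ]
    exact hd.ne' (by exact_mod_cast h2)
  have h' := h.prod (pmE hd).cht
  have hX' := isAV_perP (per' := perOne (ZE d)) hX (isAV_AV (AVZ (pmE hd)))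
  have hN := clo_NG (m := m) hX'
  refine ⟨d, s * α, c, hd, hβ0, hc, by rw [neg_mul_neg, hβ], fun σ => ?_,
    prd (M.compLinearMap fun _ => LinearMap.funLeft ℂ ℂ Sum.inl)
      ((kE.altF fE).toMultilinearMap.compLinearMap fun _ => LinearMap.funLeft ℂ ℂ Sum.inr), ?_,
    fun v => ?_⟩
  · rw [hε₀]
    exact k₀.eps hsα σ
  · have e1 : ∀ v : Fin 3 ⊕ Fin 1 → B ⊕ (Fin 1 ⊕ Fin 1) → ℂ,
        prd (M.compLinearMap fun _ => LinearMap.funLeft ℂ ℂ Sum.inl)
        ((kE.altF fE).toMultilinearMap.compLinearMap fun _ => LinearMap.funLeft ℂ ℂ Sum.inr) v =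
        k₀.altF f₀ (fun y => (R₀ y * cK ℂ (P1 B (Fin 1 ⊕ Fin 1))) *ᵥ v (Sum.inl y)) *
        kE.altF fE (fun y => cK ℂ (P2 B (Fin 1 ⊕ Fin 1)) *ᵥ v (Sum.inr y)) := by
      intro v
      rw [prd_apply, MultilinearMap.compLinearMap_apply, MultilinearMap.compLinearMap_apply, hM₀]
      congr 1
      · congr 1
        funext y
        rw [← mulVec_mulVec, P1_mulVec]
        rfl
      · change kE.altF fE _ = kE.altF fE _
        congr 1
        funext y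
        rw [P2_mulVec]
        rfl
    have e2 : ∀ y, R₀ y * cK ℂ (P1 B (Fin 1 ⊕ Fin 1)) ∈ Submodule.span ℂ
        (TJ (DJ (fromBlocks J 0 0 (JR (ZE d)))) (DZ Z₀) : Set _) :=
      fun y => TJ_comp (P1_comm J _) (hR₀ y)
    have e3 : ∀ y : Fin 1, cK ℂ (P2 B (Fin 1 ⊕ Fin 1)) ∈ Submodule.span ℂ
        (TJ (DJ (fromBlocks J 0 0 (JR (ZE d)))) (DZ (ZE d)) : Set _) :=
      fun y => Submodule.subset_span ⟨P2 B (Fin 1 ⊕ Fin 1), rfl, P2_comm J _⟩
    rcases k₀.tr_pm with t | t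
    · exact pair_memG hZ₀ (pmE hd) k₀ kE t (by rw [tE, t]) f₀ fE h' hX' (Or.inr rfl) (Or.inl rfl)
        rfl _ _ e2 e3 _ e1
    · refine hN.reindex (Equiv.sumComm (Fin 1) (Fin 3)) (φ := prd
        ((kE.altF fE).toMultilinearMap.compLinearMap fun _ => LinearMap.funLeft ℂ ℂ Sum.inr)
        (M.compLinearMap fun _ => LinearMap.funLeft ℂ ℂ Sum.inl)) ?_ _ fun v => ?_
      · refine pair_memG (pmE hd) hZ₀ kE k₀ (by rw [tE, t]; norm_num) t fE f₀ h' hX' (Or.inl rfl)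
          (Or.inr rfl) rfl _ _ e3 e2 _ fun v => ?_
        have e4 := e1 (fun k => v (Equiv.sumComm _ _ k))
        rw [prd_apply] at e4 ⊢
        rw [mul_comm] at e4
        rw [mul_comm (k₀.altF f₀ _)] at e4
        exact e4
      · rw [prd_apply, prd_apply, mul_comm]
        rfl
  · rw [prd_apply, MultilinearMap.compLinearMap_apply, MultilinearMap.compLinearMap_apply]
    congr 1
    exact hcf _

include hm in
/-- **Balanced products of determinants belong to the system.** -/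
theorem core (n : ℕ) : ∀ {B : Type} [Fintype B] [DecidableEq B] {T : Type} [AddCommGroup T]
    [Module ℂ T] {per : (B → ℚ) →+ T} {J : Matrix B B ℝ} (_ : Cht per J) (_ : St.IsAV per)
    (M : Fin n → MultilinearMap ℂ (fun _ : Fin 3 => B → ℂ) ℂ) (εM : Fin n → (ℂ ≃+* ℂ) → ℂ)
    (_ : ∀ q, BlockG J (M q) (εM q)) {L : Type} [Fintype L] [DecidableEq L]
    (μ : L → (B → ℂ) →ₗ[ℂ] ℂ) (εL : L → (ℂ ≃+* ℂ) → ℂ) (_ : ∀ b, LineG m J (μ b) (εL b))
    (_ : ∀ σ, ∑ q, εM q σ + ∑ b, εL b σ = 0)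
    (ψ : MultilinearMap ℂ (fun _ : (Fin n × Fin 3) ⊕ L => B → ℂ) ℂ)
    (_ : ∀ v, ψ v = (∏ q, M q (fun y => v (Sum.inl (q, y)))) * ∏ b, μ b (v (Sum.inr b))),
    ψ ∈ NG m per ((Fin n × Fin 3) ⊕ L) := by
  induction n with
  | zero =>
    intro B _ _ T _ _ per J h hX M εM hM L _ _ μ εL hL hsum ψ hψ
    let e : L ≃ (Fin 0 × Fin 3) ⊕ L := (Equiv.emptySum (Fin 0 × Fin 3) L).symm
    refine (clo_NG hX).reindex e (φ := (MultilinearMap.mkPiAlgebra ℂ L ℂ).compLinearMap μ)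
      (core_zero h hX μ εL hL (fun σ => ?_) _ fun v => ?_) ψ fun v => ?_
    · have h1 := hsum σ
      rwa [Finset.univ_eq_empty, Finset.sum_empty, zero_add] at h1
    · rw [MultilinearMap.compLinearMap_apply, MultilinearMap.mkPiAlgebra_apply]
    · rw [hψ, Finset.univ_eq_empty, Finset.prod_empty, one_mul,
        MultilinearMap.compLinearMap_apply, MultilinearMap.mkPiAlgebra_apply]
      rfl
  | succ n ih =>
    intro B _ _ T _ _ per J h hX M εM hM L _ _ μ εL hL hsum ψ hψ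
    obtain ⟨d, β, c, hd, hβ0, hc, hββ, hε, P, hP, hPv⟩ := pair_E hm h hX (hM 0)
    have h' := h.prod (pmE hd).cht
    have hXE : St.IsAV (perOne (ZE d)) := isAV_AV (AVZ (pmE hd))
    have hX' := isAV_perP (per' := perOne (ZE d)) hX hXE
    have hN := clo_NG (m := m) hX'
    -- the remaining form
    obtain ⟨Ψ₁, hΨ₁⟩ := exists_prodML (fun _ : Fin n => Fin 3)
      (fun q => (M q.succ).compLinearMap fun _ => mulVecLin (cK ℂ (P1 B (Fin 1 ⊕ Fin 1))))
    let μ' : L ⊕ Unit → (B ⊕ (Fin 1 ⊕ Fin 1) → ℂ) →ₗ[ℂ] ℂ :=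
      Sum.elim (fun b => (μ b).comp (mulVecLin (cK ℂ (P1 B (Fin 1 ⊕ Fin 1)))))
        (fun _ => (lamE (-β)).comp (mulVecLin (cK ℂ (P2 B (Fin 1 ⊕ Fin 1)))))
    let rest : MultilinearMap ℂ (fun _ : (Fin n × Fin 3) ⊕ (L ⊕ Unit) =>
        B ⊕ (Fin 1 ⊕ Fin 1) → ℂ) ℂ :=
      prd (Ψ₁.domDomCongr (Equiv.sigmaEquivProd (Fin n) (Fin 3)))
        ((MultilinearMap.mkPiAlgebra ℂ (L ⊕ Unit) ℂ).compLinearMap μ')
    have hrest : ∀ v, rest v = (∏ q : Fin n, M q.succ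
        (fun y i => v (Sum.inl (q, y)) (Sum.inl i))) *
        ((∏ b, μ b (fun i => v (Sum.inr (Sum.inl b)) (Sum.inl i))) *
          lamE (-β) (fun i => v (Sum.inr (Sum.inr ())) (Sum.inr i))) := by
      intro v
      change prd _ _ v = _
      rw [prd_apply, MultilinearMap.domDomCongr_apply, hΨ₁, MultilinearMap.compLinearMap_apply,
        MultilinearMap.mkPiAlgebra_apply, Fintype.prod_sum_type]
      congr 1
      · refine Finset.prod_congr rfl fun q _ => ?_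
        rw [MultilinearMap.compLinearMap_apply]
        congr 1
        funext y
        rw [mulVecLin_apply, P1_mulVec]
        rfl
      · congr 1
        · refine Finset.prod_congr rfl fun b _ => ?_
          change μ b _ = _
          rw [mulVecLin_apply, P1_mulVec]
        · rw [Finset.univ_unique, Finset.prod_singleton]
          change lamE (-β) _ = _
          rw [mulVecLin_apply, P2_mulVec]
    have hrestN : rest ∈ NG m (perP per (perOne (ZE d))) ((Fin n × Fin 3) ⊕ (L ⊕ Unit)) := by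
      refine ih h' hX' (fun q => (M q.succ).compLinearMap
        fun _ => mulVecLin (cK ℂ (P1 B (Fin 1 ⊕ Fin 1)))) (fun q => εM q.succ)
        (fun q => (hM q.succ).comp (P1_comm J _)) μ'
        (Sum.elim εL (fun _ => fun σ => (σ (dE d))⁻¹ * (-β))) ?_ ?_ rest fun v => ?_
      · rintro (b | b)
        · exact (hL b).comp (P1_comm J _)
        · refine ⟨1, ZE d, lamE (-β), pmE hd, simE hd, cmE hd, hm, lamE_DS hd hββ,
            Submodule.subset_span ⟨_, ⟨P2 B (Fin 1 ⊕ Fin 1), rfl, P2_comm J _⟩, rfl⟩⟩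
      · intro σ
        have h1 := hsum σ
        rw [Fin.sum_univ_succ] at h1
        rw [Fintype.sum_sum_type]
        simp only [Sum.elim_inl, Sum.elim_inr, Finset.univ_unique, Finset.sum_singleton]
        rw [hε, ← h1]
        ring
      · change prd _ _ v = _
        rw [prd_apply, MultilinearMap.domDomCongr_apply, hΨ₁, MultilinearMap.compLinearMap_apply,
          MultilinearMap.mkPiAlgebra_apply]
        rfl
    -- the product
    let θ : MultilinearMap ℂ (fun _ : Fin 2 => Fin 1 ⊕ Fin 1 → ℂ) ℂ :=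
      c • (MultilinearMap.mkPiAlgebra ℂ (Fin 2) ℂ).compLinearMap ![lamE β, lamE (-β)]
    have hθ : ∀ v, θ v = c * lamE β (v 0) * lamE (-β) (v 1) := by
      intro v
      have e1 : θ v = c • (MultilinearMap.mkPiAlgebra ℂ (Fin 2) ℂ).compLinearMap
        ![lamE β, lamE (-β)] v := rfl
      rw [e1, MultilinearMap.compLinearMap_apply, MultilinearMap.mkPiAlgebra_apply,
        Fin.prod_univ_two, smul_eq_mul, mul_assoc]
      rfl
    let F : MultilinearMap ℂ (fun _ : ((Fin (n + 1) × Fin 3) ⊕ L) ⊕ Fin 2 =>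
        B ⊕ (Fin 1 ⊕ Fin 1) → ℂ) ℂ :=
      prd (ψ.compLinearMap fun _ => LinearMap.funLeft ℂ ℂ Sum.inl)
        (θ.compLinearMap fun _ => LinearMap.funLeft ℂ ℂ Sum.inr)
    have hF : ∀ w, F w = ψ (fun k i => w (Sum.inl k) (Sum.inl i)) *
      θ (fun k i => w (Sum.inr k) (Sum.inr i)) := fun w => rfl
    have hFN : F ∈ NG m (perP per (perOne (ZE d))) (((Fin (n + 1) × Fin 3) ⊕ L) ⊕ Fin 2) := by
      refine hN.mul _ _ _ (slotE n L) P rest F hP hrestN fun v => ?_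
      rw [hF, hψ, hθ, hPv, hrest, Fin.prod_univ_succ]
      have e1 : ∀ y, slotE n L (Sum.inl (Sum.inl y)) = Sum.inl (Sum.inl (0, y)) := fun _ => rfl
      have e2 : ∀ y, slotE n L (Sum.inl (Sum.inr y)) = Sum.inr 0 := fun _ => rfl
      have e3 : ∀ q y, slotE n L (Sum.inr (Sum.inl (q, y))) = Sum.inl (Sum.inl (q.succ, y)) :=
        fun _ _ => rfl
      have e4 : ∀ b, slotE n L (Sum.inr (Sum.inr (Sum.inl b))) = Sum.inl (Sum.inr b) :=
        fun _ => rfl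
      have e5 : ∀ b, slotE n L (Sum.inr (Sum.inr (Sum.inr b))) = Sum.inr 1 := fun _ => rfl
      simp only [e1, e2, e3, e4, e5]
      ring
    exact push_memG hX hXE bE hF hFN (altQ_E hβ0 hc hθ)

end ind

end

end Pool.Agent.Y90
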