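import Mathlib
import Pool.Agent.Y90.NCore

/-!
# The irreducible submodules if the simple factors have dimension at most three
-/

set_option linter.unusedSectionVars false

namespace Pool.Agent.Y90

open Matrix Module Pool.Agent.W437.HC Pool.Agent.W437.HD Pool.Agent.W548.Odd Pool.Agent.TH504.CB
open Pool.Agent.H204R3.CM (IsHodge)
open Pool.Agent.W437.HP (cK cK_mul cK_one)

noncomputable section

section simple

variable {g : ℕ} {Z : Matrix (Fin g) (Fin g) ℂ}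

theorem classify2 (h : PM Z) (hs : IsSimpleAV Z) (hg : 0 < g) (hg3 : g ≤ 3)
    {U : Submodule ℂ (Fin g ⊕ Fin g → ℂ)} (hU : IrS (LZ Z) U) :
    (2 ≤ finrank ℂ U → Rk1 Z U) ∧
      ((SDu Z U ∧ 2 ≤ finrank ℂ U) ∨ (g = 3 ∧ ∃ φ α d, KT Z U φ α d) ∨
        (finrank ℂ U = 1 ∧ HasCM Z)) := by
  refine ⟨fun h2 => exists_rk1 h hs hg3 hU h2, ?_⟩
  have hpos : 0 < finrank ℂ U := by
    rw [Nat.pos_iff_ne_zero, ne_eq, Submodule.finrank_eq_zero]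
    exact hU.1
  have hd := finrank_dvd h hs hU
  have hle := Nat.le_of_dvd (by omega) hd
  obtain h1 | h1 | h1 | h1 : finrank ℂ U = 1 ∨ finrank ℂ U = 2 ∨ finrank ℂ U = 3 ∨
      4 ≤ finrank ℂ U := by omega
  · exact Or.inr (Or.inr ⟨h1, cm_of_one h hs hg hU h1⟩)
  · left
    exact ⟨sdu_two h hs hg3 hU h1, h1.ge⟩
  · right; left
    have h2 : g = 3 := by
      rw [h1] at hd
      obtain ⟨k, hk⟩ := hd
      omega
    exact ⟨h2, exists_KT h hs (Or.inr h2) hU (by rw [h1, h2])⟩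
  · left
    have h2 : finrank ℂ U = 2 * g := by
      obtain ⟨k, hk⟩ := hd
      have hk1 : k = 1 := by
        rcases Nat.lt_or_ge k 2 with h3 | h3
        · interval_cases k
          · omega
          · rfl
        · exfalso
          nlinarith
      rw [hk1, mul_one] at hk
      exact hk.symm
    have h3 : U = ⊤ := Submodule.eq_top_of_finrank_eq (by rw [h2, finrank_V])
    refine ⟨?_, by omega⟩
    rw [h3]
    exact sdu_top h hg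

/-- The complex structure on a line. -/
theorem line_tr (h : PM Z) {U : Submodule ℂ (Fin g ⊕ Fin g → ℂ)} (hU : Stab (LZ Z) U)
    (hn : finrank ℂ U = 1) (σ : ℂ ≃+* ℂ) {u : Fin g ⊕ Fin g → ℂ} (hu : u ∈ U) :
    DS Z σ *ᵥ u = (tr Z (cjS σ.symm U) : ℂ) • u := by
  have hU' : Stab (LZ Z) (cjS σ.symm U) := hU.cj gal_LZ σ.symm
  have h1 := pd_add_qd h hU'
  rw [finrank_cjS, hn] at h1
  have h2 : ∀ c : ℂ, finrank ℂ (cjS σ.symm U ⊓ eig Z c : Submodule ℂ (Fin g ⊕ Fin g → ℂ)) = 1 →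
      σ c = c → DS Z σ *ᵥ u = c • u := by
    intro c hc hσ
    have h3 : cjS σ.symm U ⊓ eig Z c = cjS σ.symm U :=
      Submodule.eq_of_le_of_finrank_le inf_le_left (by rw [hc, finrank_cjS, hn])
    have h4 : cjS σ.symm U ≤ eig Z c := inf_eq_left.1 h3
    have h5 : U ≤ cjS σ (eig Z c) := by
      have h6 := cjS_mono (σ := σ) h4
      rwa [cjS_symm'] at h6
    exact mem_cj_eig hσ (h5 hu)
  rcases Nat.eq_zero_or_pos (qd Z (cjS σ.symm U)) with h3 | h3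
  · have h4 : pd Z (cjS σ.symm U) = 1 := by omega
    rw [h2 1 h4 (map_one σ)]
    unfold tr
    rw [h3, h4]
    norm_num
  · have h4 : qd Z (cjS σ.symm U) = 1 := by omega
    have h5 : pd Z (cjS σ.symm U) = 0 := by omega
    rw [h2 (-1) h4 (by rw [map_neg, map_one])]
    unfold tr
    rw [h4, h5]
    norm_num

end simple

variable {G : ℕ} {Z : Matrix (Fin G) (Fin G) ℂ}

/-- All simple factors have dimension at most three, and those with complex multiplication have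
dimension at most `m`. -/
def SmallFm (m : ℕ) (Z : Matrix (Fin G) (Fin G) ℂ) : Prop :=
  ∀ (a : ℕ) (Z' : Matrix (Fin a) (Fin a) ℂ) (E : Matrix (Fin G ⊕ Fin G) (Fin a ⊕ Fin a) ℚ)
    (F : Matrix (Fin a ⊕ Fin a) (Fin G ⊕ Fin G) ℚ), Fac Z Z' E F → PM Z' → IsSimpleAV Z' →
    0 < a → a ≤ 3 ∧ (HasCM Z' → a ≤ m)

/-- A line attached to a simple factor with complex multiplication. -/
def LnD (m : ℕ) (Z : Matrix (Fin G) (Fin G) ℂ) (U : Submodule ℂ (Fin G ⊕ Fin G → ℂ)) : Prop :=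
  finrank ℂ U = 1 ∧ ∃ (a : ℕ) (Z' : Matrix (Fin a) (Fin a) ℂ)
    (E : Matrix (Fin G ⊕ Fin G) (Fin a ⊕ Fin a) ℚ) (F : Matrix (Fin a ⊕ Fin a) (Fin G ⊕ Fin G) ℚ),
    Fac Z Z' E F ∧ PM Z' ∧ IsSimpleAV Z' ∧ HasCM Z' ∧ a ≤ m ∧ (∀ u ∈ U, ml F u = 0 → u = 0) ∧
    IrS (LZ Z') (U.map (ml F))

/-- The classification of the irreducible submodules. -/
theorem loc2 (h : PM Z) {m : ℕ} (hs : SmallFm m Z) {U : Submodule ℂ (Fin G ⊕ Fin G → ℂ)}
    (hU : IrS (LZ Z) U) :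
    (2 ≤ finrank ℂ U → Rk1 Z U ∧ ∀ (σ : ℂ ≃+* ℂ) (c : ℂ), ∃ u ∈ U, DS Z σ *ᵥ u ≠ c • u) ∧
      ((SDu Z U ∧ 2 ≤ finrank ℂ U) ∨ (∃ Z' E F φ α d, KD Z U 3 Z' E F φ α d) ∨ LnD m Z U) := by
  obtain ⟨a, Z', E, F, hf, h', hs', ha, h0⟩ := exists_fac h hU.1
  have hinj := hf.inj hU h0
  have hU' := hf.irr hU h0
  obtain ⟨ha3, hcm⟩ := hs a Z' E F hf h' hs' ha
  obtain ⟨h1, h2⟩ := classify2 h' hs' ha ha3 hU'
  rw [finrank_ml hinj] at h1 h2
  refine ⟨fun hn => ⟨?_, fun σ c => ?_⟩, ?_⟩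
  · obtain ⟨D, hD, N', hN', h3, h4, h5⟩ := h1 hn
    obtain ⟨ε, hε, rfl⟩ : ∃ ε : ℂ, (ε = 1 ∨ ε = -1) ∧ D = ε • DZ Z' := by
      rcases hD with rfl | rfl
      · exact ⟨1, Or.inl rfl, (one_smul _ _).symm⟩
      · exact ⟨-1, Or.inr rfl, (neg_one_smul _ _).symm⟩
    obtain ⟨N, hN, h6, h7, rfl⟩ := hf.lift_rk h h' ε hε hN' h3 h4
    refine ⟨ε • DZ Z, ?_, N, hN, h6, h7, ?_⟩
    · rcases hε with rfl | rfl
      · exact Or.inl (one_smul _ _)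
      · exact Or.inr (neg_one_smul _ _)
    · rw [act_mem hf hN hinj (hU.2.1 N hN)]
      exact h5
  · obtain ⟨u', ⟨u, hu, rfl⟩, hu'⟩ := nonscalar h' hs' ha3 hU' (by rw [finrank_ml hinj]; exact hn)
      σ c
    refine ⟨u, hu, fun h3 => hu' ?_⟩
    have h4 := hf.act (DS_mem σ) u
    rw [h3, hf.fds, Matrix.mul_assoc, hf.fe', Matrix.mul_one] at h4
    rw [← h4, map_smul]
  · rcases h2 with ⟨⟨b, ⟨u', ⟨u, hu, rfl⟩, v', ⟨v, hv, rfl⟩, huv⟩, hb⟩, hn⟩ | ⟨rfl, φ, α, d, hk⟩ |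
      ⟨hn, hcm'⟩
    · refine Or.inl ⟨⟨b.compl₁₂ (ml F) (ml F), ⟨u, hu, v, hv, huv⟩, fun X hX u hu v hv => ?_⟩, hn⟩
      rw [LinearMap.compl₁₂_apply, LinearMap.compl₁₂_apply, hf.act hX, hf.act hX]
      exact hb _ (hf.comp hX).1 _ ⟨u, hu, rfl⟩ _ ⟨v, hv, rfl⟩
    · exact Or.inr (Or.inl ⟨Z', E, F, φ, α, d, hf, h', hinj, hk, Or.inr rfl⟩)
    · exact Or.inr (Or.inr ⟨hn, a, Z', E, F, hf, h', hs', hcm', hcm hcm', hinj, hU'⟩)

section blocks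

variable {U : Submodule ℂ (Fin G ⊕ Fin G → ℂ)} {a : ℕ} {Z' : Matrix (Fin a) (Fin a) ℂ}
  {E : Matrix (Fin G ⊕ Fin G) (Fin a ⊕ Fin a) ℚ} {F : Matrix (Fin a ⊕ Fin a) (Fin G ⊕ Fin G) ℚ}

theorem qmat_comm (hf : Fac Z Z' E F) (h : PM Z) {q : (Fin G ⊕ Fin G → ℂ) →ₗ[ℂ] U}
    (hq : ∀ g x, (q (RZ Z g x) : Fin G ⊕ Fin G → ℂ) = RZ Z g (q x)) (σ : ℂ ≃+* ℂ) :
    qmat F q * DS Z σ = DS Z' σ * qmat F q := by
  have h1 := (rz_equiv h stab_top (U.subtype.comp q)).1 (fun g u _ => hq g u)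
  have h2 : ∀ v, q (DS Z σ *ᵥ v) = DS Z σ *ᵥ (q v : Fin G ⊕ Fin G → ℂ) := fun v =>
    h1 _ (DS_mem σ) v trivial
  apply Matrix.toLin'.injective
  refine LinearMap.ext fun v => ?_
  rw [Matrix.toLin'_apply, Matrix.toLin'_apply, ← mulVec_mulVec, ← mulVec_mulVec, qmat_mulVec,
    qmat_mulVec, h2, ml_apply, ml_apply, mulVec_mulVec, mulVec_mulVec, hf.fds]

theorem qmat_span (hf : Fac Z Z' E F) (h : PM Z) {q : (Fin G ⊕ Fin G → ℂ) →ₗ[ℂ] U}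
    (hq : ∀ g x, (q (RZ Z g x) : Fin G ⊕ Fin G → ℂ) = RZ Z g (q x)) :
    qmat F q ∈ Submodule.span ℂ (TJ (DJ (JR Z)) (DZ Z') : Set _) :=
  exp_mem (qmat_comm hf h hq)

theorem tr_fac (hf : Fac Z Z' E F) (hi : ∀ u ∈ U, ml F u = 0 → u = 0) (hU : Stab (LZ Z) U)
    (τ : ℂ ≃+* ℂ) : tr Z' (cjS τ (U.map (ml F))) = tr Z (cjS τ U) := by
  rw [cjS_ml]
  exact hf.tr_map (inj_cj hi τ) (hU.cj gal_LZ τ)

/-- Determinants of the three-dimensional submodules. -/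
theorem block_of (h : PM Z) {Z' : Matrix (Fin 3) (Fin 3) ℂ}
    {E : Matrix (Fin G ⊕ Fin G) (Fin 3 ⊕ Fin 3) ℚ} {F : Matrix (Fin 3 ⊕ Fin 3) (Fin G ⊕ Fin G) ℚ}
    {φ : Matrix (Fin 3 ⊕ Fin 3) (Fin 3 ⊕ Fin 3) ℚ} {α : ℂ} {d : ℚ} (hU : Stab (LZ Z) U)
    (k : KD Z U 3 Z' E F φ α d) (f : Basis (Fin 3) ℂ U)
    (Q : Fin 3 → (Fin G ⊕ Fin G → ℂ) →ₗ[ℂ] U)
    (hQ : ∀ y g x, (Q y (RZ Z g x) : Fin G ⊕ Fin G → ℂ) = RZ Z g (Q y x))
    (M : MultilinearMap ℂ (fun _ : Fin 3 => Fin G ⊕ Fin G → ℂ) ℂ)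
    (hM : ∀ v, M v = f.det (fun y => Q y (v y))) :
    BlockG (JR Z) M (fun σ => (tr Z (cjS σ.symm U) : ℂ)) := by
  refine ⟨Z', U.map (ml F), φ, α, d, k.kt, f.map k.eqv, fun y => qmat F (Q y), k.pm,
    fun y => qmat_span k.fac h (hQ y), fun v => ?_, fun σ => ?_⟩
  · rw [hM, ← k.alt_q]
    rfl
  · rw [tr_fac k.fac k.inj hU]

/-- Functionals of the lines. -/
theorem line_of (h : PM Z) {m : ℕ} (hU : Stab (LZ Z) U) (hl : LnD m Z U) (c : U →ₗ[ℂ] ℂ)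
    (Q : (Fin G ⊕ Fin G → ℂ) →ₗ[ℂ] U)
    (hQ : ∀ g x, (Q (RZ Z g x) : Fin G ⊕ Fin G → ℂ) = RZ Z g (Q x)) :
    LineG m (JR Z) (c.comp Q) (fun σ => (tr Z (cjS σ.symm U) : ℂ)) := by
  obtain ⟨hn, a, Z', E, F, hf, h', hs', hcm, ham, hinj, hU'⟩ := hl
  obtain ⟨π, hπ1, hπ2, hπ3⟩ := h'.cred (U.map (ml F)) hU'.2.1
  have hn' : finrank ℂ (U.map (ml F)) = 1 := by rw [finrank_ml hinj, hn]
  -- the inverse of the isomorphism
  obtain ⟨e, he⟩ : ∃ e : U ≃ₗ[ℂ] U.map (ml F), ∀ u, (e u : Fin a ⊕ Fin a → ℂ) = ml F u :=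
    ⟨LinearEquiv.ofBijective (((ml F).domRestrict U).codRestrict (U.map (ml F))
      fun u => Submodule.mem_map_of_mem u.2) (by
        constructor
        · rw [injective_iff_map_eq_zero]
          intro u hu
          exact Subtype.ext (hinj u u.2 (congrArg Subtype.val hu))
        · rintro ⟨_, u, hu, rfl⟩
          exact ⟨⟨u, hu⟩, rfl⟩), fun u => rfl⟩
  let lam : (Fin a ⊕ Fin a → ℂ) →ₗ[ℂ] ℂ := c.comp (e.symm.toLinearMap.comp (π.codRestrict _ hπ2))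
  have hlam : ∀ w, lam w = c (e.symm ⟨π w, hπ2 w⟩) := fun w => rfl
  refine ⟨a, Z', lam, h', hs', hcm, ham, fun σ w => ?_, ?_⟩
  · rw [hlam, hlam]
    have h1 : (⟨π (DS Z' σ *ᵥ w), hπ2 _⟩ : U.map (ml F)) =
        (tr Z (cjS σ.symm U) : ℂ) • ⟨π w, hπ2 w⟩ := by
      apply Subtype.ext
      rw [Submodule.coe_smul]
      change π (DS Z' σ *ᵥ w) = _ • π w
      rw [hπ1 _ (DS_mem σ), line_tr h' hU'.2.1 hn' σ (hπ2 w), tr_fac hf hinj hU]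
    rw [h1, map_smul, map_smul, smul_eq_mul]
  · have h1 : c.comp Q = lam.comp (mulVecLin (qmat F Q)) := by
      refine LinearMap.ext fun v => ?_
      rw [LinearMap.comp_apply, LinearMap.comp_apply, mulVecLin_apply, qmat_mulVec, hlam]
      congr 1
      rw [LinearEquiv.eq_symm_apply]
      apply Subtype.ext
      rw [he]
      exact (hπ3 _ (Submodule.mem_map_of_mem (Q v).2)).symm
    rw [h1]
    have h2 := qmat_span hf h hQ
    generalize qmat F Q = R at h2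
    induction h2 using Submodule.span_induction with
    | mem R hR => exact Submodule.subset_span ⟨R, hR, rfl⟩
    | zero =>
      rw [mulVecLin_zero, LinearMap.comp_zero]
      exact Submodule.zero_mem _
    | add x y _ _ hx hy =>
      rw [mulVecLin_add, LinearMap.comp_add]
      exact Submodule.add_mem _ hx hy
    | smul c' x _ hx =>
      have e1 : mulVecLin (c' • x) = c' • mulVecLin x := LinearMap.ext fun w => smul_mulVec c' x w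
      rw [e1, LinearMap.comp_smul]
      exact Submodule.smul_mem _ _ hx

end blocks

end

end Pool.Agent.Y90
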