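import Mathlib
import Pool.Agent.Y90.NLoc
import Pool.Agent.Y90.E3

/-!
# Hodge classes belong to the system
-/

set_option linter.unusedSectionVars false

namespace Pool.Agent.Y90

open Matrix Module Pool.Agent.W437.HC Pool.Agent.W437.HD Pool.Agent.W548.Odd Pool.Agent.TH504.CB
open Pool.Agent.H204R3.CM (IsHodge)
open Pool.Agent.H204R3.SP (Kills bil2 IsTate)
open Pool.Agent.W522.U (exists_reps exists_st Du)
open Pool.Agent.W437.HP (cK cK_mul cK_one)

noncomputable section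

variable {G : ℕ} {Z : Matrix (Fin G) (Fin G) ℂ} {m : ℕ}

theorem PM.isAV (h : PM Z) : St.IsAV (perOne Z) := isAV_AV (AVZ h)

/-- The alternation of an invariant form is a combination of Hodge classes. -/
theorem altQ_memG (h : PM Z) {κ : Type} [Fintype κ] [DecidableEq κ]
    {F : MultilinearMap ℂ (fun _ : κ => Fin G ⊕ Fin G → ℂ) ℂ}
    (hF : ∀ X ∈ LZ Z, act X (CF F) = 0)
    (hR : ∀ r : (Fin G ⊕ Fin G → ℚ) [⋀^κ]→ₗ[ℚ] ℚ, IsHodge (perOne Z) r →
      St.Generated m (perOne Z) κ r) :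
    altQ F ∈ RG' m (perOne Z) κ := by
  obtain ⟨n, c, l, hl⟩ := altQ_expand F
  have h1 : altQ F = ∑ j, c j • fun v : κ → (Fin G ⊕ Fin G → ℚ) => ((ratA F (l j) v : ℚ) : ℂ) := by
    funext v
    rw [hl v, Finset.sum_apply]
    rfl
  rw [h1]
  refine Submodule.sum_mem _ fun j _ => Submodule.smul_mem _ _ ?_
  exact RG_of (hR _ (h.cht.hodge_rat gal_LZ DZ_mem hF (l j)))

theorem bil_memG (h : PM Z) (b : (Fin G ⊕ Fin G → ℂ) →ₗ[ℂ] (Fin G ⊕ Fin G → ℂ) →ₗ[ℂ] ℂ)
    (hb : ∀ g u v, b (RZ Z g u) (RZ Z g v) = (1 : Gam (GG (LZ Z)) →* ℂ) g * b u v) :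
    bil2 b ∈ NG m (perOne Z) (Fin 2) := by
  intro i1 i2
  obtain rfl : i1 = Fin.fintype 2 := Subsingleton.elim _ _
  obtain rfl : i2 = instDecidableEqFin 2 := Subsingleton.elim _ _
  refine altQ_memG h (fun X hX => act_of_kills fun v => ?_) fun r hr =>
    St.Generated.divisor h.isAV (κ := Fin 2) (Nat.card_fin 2) r hr
  have h1 := (rz_bil h stab_top stab_top b).1 (fun g u _ v _ => by
    rw [hb, MonoidHom.one_apply, one_mul]) X hX (v 0) trivial (v 1) trivial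
  rw [Fin.sum_univ_two]
  exact h1

/-- The alternation of an alternating form. -/
theorem altQ_altG (h : PM Z) {κ : Type} [Fintype κ] [DecidableEq κ]
    (f : (Fin G ⊕ Fin G → ℚ) [⋀^κ]→ₗ[ℚ] ℚ)
    (hf : altQ (evalM (cst ℂ (CF f.toMultilinearMap))) ∈ RG' m (perOne Z) κ) :
    St.Generated m (perOne Z) κ f := by
  refine RG_descent h.isAV ?_
  have h1 : (fun v : κ → (Fin G ⊕ Fin G → ℚ) => ((f v : ℚ) : ℂ)) =
      ((Fintype.card (Equiv.Perm κ) : ℂ))⁻¹ • altQ (evalM (cst ℂ (CF f.toMultilinearMap))) := by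
    funext v
    have h2 : ∀ σ : Equiv.Perm κ, ((Equiv.Perm.sign σ : ℤ) : ℂ) *
        evalM (cst ℂ (CF f.toMultilinearMap)) (fun k => cv (v (σ k))) = ((f v : ℚ) : ℂ) := by
      intro σ
      have h3 : evalM (cst ℂ (CF f.toMultilinearMap)) (fun k => cv (v (σ k))) =
          ((f (fun k => v (σ k)) : ℚ) : ℂ) := by
        have h4 := CF_eval f.toMultilinearMap (fun k => v (σ k))
        rw [evalM_apply]
        change _ = ((f.toMultilinearMap (fun k => v (σ k)) : ℚ) : ℂ)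
        rw [h4, evalF_castK]
        rfl
      rw [h3, show (fun k => v (σ k)) = v ∘ σ from rfl, AlternatingMap.map_perm, Units.smul_def,
        zsmul_eq_mul]
      push_cast
      rw [← mul_assoc, ← Int.cast_mul, ← Units.val_mul, Int.units_mul_self, Units.val_one,
        Int.cast_one, one_mul]
    rw [Pi.smul_apply, smul_eq_mul]
    change _ = _ * altQ (evalM (cst ℂ (CF f.toMultilinearMap))) v
    unfold altQ
    rw [Finset.sum_congr rfl fun σ _ => h2 σ, Finset.sum_const, nsmul_eq_mul, Finset.card_univ,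
      ← mul_assoc, inv_mul_cancel₀, one_mul]
    exact_mod_cast Fintype.card_ne_zero
  rw [h1]
  exact Submodule.smul_mem _ _ hf

/-- Balanced products of determinants. -/
theorem reduceG (h : PM Z) (hm : 1 ≤ m) {S : Type} [Fintype S]
    (W : S → Submodule ℂ (Fin G ⊕ Fin G → ℂ)) (hW : ∀ q, IrS (LZ Z) (W q))
    (hbl : ∀ q, (∃ Z' E F φ α d, KD Z (W q) 3 Z' E F φ α d) ∨ LnD m Z (W q))
    (hsum : ∀ σ : ℂ ≃+* ℂ, ∑ q, (tr Z (cjS σ.symm (W q)) : ℂ) = 0)
    (ι : S → Type) [∀ q, Fintype (ι q)] [∀ q, DecidableEq (ι q)]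
    (f : ∀ q, Basis (ι q) ℂ (W q)) (Q : ∀ q, ι q → (Fin G ⊕ Fin G → ℂ) →ₗ[ℂ] W q)
    (hQ : ∀ q y g x, (Q q y (RZ Z g x) : Fin G ⊕ Fin G → ℂ) = RZ Z g (Q q y x))
    (ψ : MultilinearMap ℂ (fun _ : (Σ q, ι q) => Fin G ⊕ Fin G → ℂ) ℂ)
    (hψ : ∀ v, ψ v = ∏ q, (f q).det (fun y => Q q y (v ⟨q, y⟩))) :
    ψ ∈ NG m (perOne Z) (Σ q, ι q) := by
  classical
  let p : S → Prop := fun q => ∃ Z' E F φ α d, KD Z (W q) 3 Z' E F φ α d
  -- the dimensions
  have hD : ∀ q, p q → Fintype.card (ι q) = 3 := by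
    rintro q ⟨Z', E, F, φ, α, d, k⟩
    rw [← finrank_eq_card_basis (f q), ← finrank_ml k.inj, k.kt.dim]
  have hL : ∀ q, ¬p q → LnD m Z (W q) := fun q hq => (hbl q).resolve_left hq
  have hL1 : ∀ q, ¬p q → Fintype.card (ι q) = 1 := fun q hq => by
    rw [← finrank_eq_card_basis (f q), (hL q hq).1]
  let eD : {q // p q} ≃ Fin (Fintype.card {q // p q}) := Fintype.equivFin _
  let e3 : ∀ q : {q // p q}, ι q.1 ≃ Fin 3 := fun q => Fintype.equivFinOfCardEq (hD q.1 q.2)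
  have hy : ∀ q : {q // ¬p q}, ∃ y₀ : ι q.1, ∀ y, y = y₀ := fun q =>
    Fintype.card_eq_one_iff.1 (hL1 q.1 q.2)
  choose y₀ hy₀ using hy
  -- the slots
  let g : (Σ q, ι q) → (Fin (Fintype.card {q // p q}) × Fin 3) ⊕ {q // ¬p q} := fun x =>
    if hx : p x.1 then Sum.inl (eD ⟨x.1, hx⟩, e3 ⟨x.1, hx⟩ x.2) else Sum.inr ⟨x.1, hx⟩
  have g1 : ∀ (q : {q // p q}) (y : ι q.1), g ⟨q.1, y⟩ = Sum.inl (eD q, e3 q y) := by
    intro q y
    simp only [g, dif_pos q.2]
  have g2 : ∀ (q : {q // ¬p q}) (y : ι q.1), g ⟨q.1, y⟩ = Sum.inr q := by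
    intro q y
    simp only [g, dif_neg q.2]
  have hg : Function.Bijective g := by
    constructor
    · rintro ⟨q, y⟩ ⟨q', y'⟩ hxy
      by_cases hq : p q
      · by_cases hq' : p q'
        · rw [g1 ⟨q, hq⟩ y, g1 ⟨q', hq'⟩ y', Sum.inl.injEq, Prod.mk.injEq] at hxy
          obtain ⟨h1, h2⟩ := hxy
          have h3 := eD.injective h1
          obtain rfl : q = q' := congrArg Subtype.val h3
          have h4 := (e3 ⟨q, hq⟩).injective h2
          rw [h4]
        · rw [g1 ⟨q, hq⟩ y, g2 ⟨q', hq'⟩ y'] at hxy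
          exact absurd hxy (by simp)
      · by_cases hq' : p q'
        · rw [g2 ⟨q, hq⟩ y, g1 ⟨q', hq'⟩ y'] at hxy
          exact absurd hxy (by simp)
        · rw [g2 ⟨q, hq⟩ y, g2 ⟨q', hq'⟩ y', Sum.inr.injEq] at hxy
          obtain rfl : q = q' := congrArg Subtype.val hxy
          rw [hy₀ ⟨q, hq⟩ y, hy₀ ⟨q, hq⟩ y']
    · rintro (⟨j, k⟩ | b)
      · exact ⟨⟨(eD.symm j).1, (e3 (eD.symm j)).symm k⟩, by
          rw [g1 (eD.symm j), Equiv.apply_symm_apply, Equiv.apply_symm_apply]⟩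
      · exact ⟨⟨b.1, y₀ b⟩, g2 b _⟩
  let e := Equiv.ofBijective g hg
  have he : ∀ x, e x = g x := fun _ => rfl
  -- the blocks
  let M : Fin (Fintype.card {q // p q}) →
      MultilinearMap ℂ (fun _ : Fin 3 => Fin G ⊕ Fin G → ℂ) ℂ := fun j =>
    ((f (eD.symm j).1).det.toMultilinearMap.compLinearMap (Q (eD.symm j).1)).domDomCongr
      (e3 (eD.symm j))
  have hM : ∀ j v, M j v = (f (eD.symm j).1).det
      (fun y => Q (eD.symm j).1 y (v (e3 (eD.symm j) y))) := fun j v => rfl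
  let μ : {q // ¬p q} → (Fin G ⊕ Fin G → ℂ) →ₗ[ℂ] ℂ := fun b =>
    ((f b.1).coord (y₀ b)).comp (Q b.1 (y₀ b))
  have hμ : ∀ b v, μ b v = (f b.1).coord (y₀ b) (Q b.1 (y₀ b) v) := fun b v => rfl
  have hc := core hm (Fintype.card {q // p q}) h.cht h.isAV M
    (fun j σ => (tr Z (cjS σ.symm (W (eD.symm j).1)) : ℂ)) (fun j => ?_) μ
    (fun b σ => (tr Z (cjS σ.symm (W b.1)) : ℂ)) (fun b => ?_) (fun σ => ?_)
    (ψ.domDomCongr e) fun v => ?_
  · refine (clo_NG h.isAV).reindex e.symm hc ψ fun v => ?_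
    rw [MultilinearMap.domDomCongr_apply]
    congr 1
    funext k
    rw [Equiv.symm_apply_apply]
  · obtain ⟨Z', E, F, φ, α, d, k⟩ := (eD.symm j).2
    refine block_of h (hW _).2.1 k ((f (eD.symm j).1).reindex (e3 (eD.symm j)))
      (fun y => Q (eD.symm j).1 ((e3 (eD.symm j)).symm y)) (fun y g x => hQ _ _ g x) _ fun v => ?_
    rw [hM, Basis.det_reindex]
    congr 1
    funext y
    simp
  · exact line_of h (hW _).2.1 (hL b.1 b.2) _ _ (hQ _ _)
  · rw [← hsum σ, ← Fintype.sum_subtype_add_sum_subtype p]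
    congr 1
    exact Equiv.sum_comp eD.symm (fun q : {q // p q} => (tr Z (cjS σ.symm (W q.1)) : ℂ))
  · rw [MultilinearMap.domDomCongr_apply, hψ, ← Fintype.prod_subtype_mul_prod_subtype p]
    congr 1
    · rw [← Equiv.prod_comp eD.symm]
      refine Finset.prod_congr rfl fun j _ => ?_
      rw [hM]
      congr 1
      funext y
      congr 2
      rw [he, g1, Equiv.apply_symm_apply]
    · refine Finset.prod_congr rfl fun b _ => ?_
      rw [hμ]
      have : Unique (ι b.1) := ⟨⟨y₀ b⟩, hy₀ b⟩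
      rw [Basis.det_apply, Matrix.det_unique]
      have h1 : (default : ι b.1) = y₀ b := hy₀ b _
      rw [h1, Basis.toMatrix_apply, he, g2]
      rfl

/-- The traces of a balanced family. -/
theorem sum_trG (h : PM Z) {s : ℕ} (W : Fin s → Submodule ℂ (Fin G ⊕ Fin G → ℂ))
    (hW : ∀ i, IrS (LZ Z) (W i)) (st : Fin s → Fin s) (hst : ∀ i, st (st i) = i)
    (hDu : ∀ i, Du (RZ Z) 1 (W i) (W (st i))) (a : Fin s → ℤ) (ha : ∀ i, a (st i) = -a i)
    (hdet : ∀ (g : Gam (GG (LZ Z))) (hg : ∀ i, ∀ u ∈ W i, RZ Z g u ∈ W i), ∃ M : ℕ, M ≠ 0 ∧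
      (∏ i, LinearMap.det ((RZ Z g).restrict (hg i)) ^ a i) ^ M = 1) (τ : ℂ ≃+* ℂ) :
    ∑ q : (Σ i, Fin (a i).toNat), (tr Z (cjS τ (W q.1)) : ℂ) = 0 := by
  -- the traces
  have htr : ∑ i, a i * tr Z (cjS τ (W i)) = 0 := by
    have hg : ∀ i, ∀ u ∈ W i, RZ Z (gs h τ.symm) u ∈ W i := fun i =>
      rz_stable h (hW i).2.1 (gs h τ.symm)
    obtain ⟨M, hM, hM'⟩ := hdet (gs h τ.symm) hg
    have h1 : ∀ i, LinearMap.det ((RZ Z (gs h τ.symm)).restrict (hg i)) ^ a i =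
        (2 : ℂ) ^ (a i * tr Z (cjS τ (W i))) := by
      intro i
      rw [det_gs h (hW i).2.1 τ.symm (hg i), ← _root_.zpow_mul, mul_comm]
      rfl
    have h2 : ∀ (t : Finset (Fin s)), ∏ i ∈ t, (2 : ℂ) ^ (a i * tr Z (cjS τ (W i))) =
        (2 : ℂ) ^ ∑ i ∈ t, a i * tr Z (cjS τ (W i)) := by
      intro t
      induction t using Finset.induction_on with
      | empty => simp
      | insert i t hi ih => rw [Finset.prod_insert hi, Finset.sum_insert hi, ih,
          zpow_add₀ two_ne_zero]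
    rw [Finset.prod_congr rfl fun i _ => h1 i, h2, ← zpow_natCast, ← _root_.zpow_mul] at hM'
    have h3 : ((2 : ℝ) ^ ((∑ i, a i * tr Z (cjS τ (W i))) * (M : ℤ)) : ℝ) = (2 : ℝ) ^ (0 : ℤ) := by
      rw [zpow_zero]
      have h9 := congrArg (fun z : ℂ => ‖z‖) hM'
      simp only [norm_zpow, norm_one, Complex.norm_ofNat] at h9
      exact h9
    have h4 := zpow_right_injective₀ (by norm_num : (0 : ℝ) < 2) (by norm_num) h3
    exact (mul_eq_zero.1 h4).resolve_right (by exact_mod_cast hM)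
  have h2 : ∑ i, ((-a i).toNat : ℤ) * tr Z (cjS τ (W i)) =
      -∑ i, ((a i).toNat : ℤ) * tr Z (cjS τ (W i)) := by
    let stE : Equiv.Perm (Fin s) := ⟨st, st, hst, hst⟩
    rw [← Equiv.sum_comp stE, ← Finset.sum_neg_distrib]
    refine Finset.sum_congr rfl fun i _ => ?_
    change ((-a (st i)).toNat : ℤ) * tr Z (cjS τ (W (st i))) = _
    rw [ha, neg_neg, tr_st h (hW i) (hW (st i)) (hDu i) τ]
    ring
  have h1 : ∑ i, a i * tr Z (cjS τ (W i)) =
      ∑ i, ((a i).toNat : ℤ) * tr Z (cjS τ (W i)) -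
        ∑ i, ((-a i).toNat : ℤ) * tr Z (cjS τ (W i)) := by
    rw [← Finset.sum_sub_distrib]
    refine Finset.sum_congr rfl fun i _ => ?_
    rw [← sub_mul]
    congr 1
    omega
  rw [htr, h2] at h1
  have h3 : ∑ i, ((a i).toNat : ℤ) * tr Z (cjS τ (W i)) = 0 := by linarith
  have h4 : ∑ q : (Σ i, Fin (a i).toNat), (tr Z (cjS τ (W q.1)) : ℂ) =
      ((∑ i, ((a i).toNat : ℤ) * tr Z (cjS τ (W i)) : ℤ) : ℂ) := by
    rw [Fintype.sum_sigma, Int.cast_sum]
    refine Finset.sum_congr rfl fun i _ => ?_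
    change ∑ _y : Fin (a i).toNat, (tr Z (cjS τ (W i)) : ℂ) = _
    rw [Finset.sum_const, Finset.card_univ, Fintype.card_fin, nsmul_eq_mul]
    push_cast
    rfl
  rw [h4, h3, Int.cast_zero]

theorem inv_memG (h : PM Z) (hm : 1 ≤ m) (hs : SmallFm m Z) {n : ℕ}
    (φ : MultilinearMap ℂ (fun _ : Fin n × Fin 2 => Fin G ⊕ Fin G → ℂ) ℂ)
    (hφ : ∀ (g : Gam (GG (LZ Z))) v, φ (fun k => RZ Z g (v k)) = φ v) :
    φ ∈ NG m (perOne Z) (Fin n × Fin 2) := by
  have hSI : ∀ {U}, W522.U.SI (RZ Z) U ↔ IrS (LZ Z) U := fun {U} => si_iff h.genI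
  obtain ⟨s, W, hW, hWW, hall⟩ := exists_reps (rz_proj h)
  obtain ⟨st, hst, hDu, hDu'⟩ := exists_st (χ := 1) (rz_proj h) (om G) om_nd (rz_om h) W hW hWW hall
  refine forms_mem3 (χ := 1) (fun Δ hΔ => fi_top Δ hΔ) (om G) om_nd (rz_om h) ?_ ?_ ?_ (rz_proj h)
    W hW hWW hall st hst hDu hDu' (NG m (perOne Z)) (clo_NG h.isAV) (bil_memG h) ?_ φ ?_
  · intro U hU hn
    exact rz_unip h ((loc2 h hs (hSI.1 hU)).1 hn).1
  · intro U hU hn
    exact rz_line h (hSI.1 hU) hn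
  · intro U U' hU hU' hn _ ψ hT
    exact rz_twist h (hSI.1 hU) (hSI.1 hU') ((loc2 h hs (hSI.1 hU)).1 hn).2 ψ hT
  · intro a ha hag ι _ _ f Q hQ ψ hψ
    have hI : ∀ i, IrS (LZ Z) (W i) := fun i => hSI.1 (hW i)
    refine reduceG h hm (fun q : (Σ i, Fin (a i).toNat) => W q.1) (fun q => hI q.1) (fun q => ?_)
      (fun σ => sum_trG h W hI st hst hDu a ha hag σ.symm) ι f Q hQ ψ hψ
    rcases (loc2 h hs (hI q.1)).2 with ⟨h1, -⟩ | h1
    · exfalso
      have h2 := hDu' q.1 q.1 ((rz_du h (hI q.1).2.1 (hI q.1).2.1).2 h1)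
      have h3 := ha q.1
      rw [← h2] at h3
      have h4 : a q.1 = 0 := by omega
      have h5 := q.2.2
      have h6 : (a q.1).toNat = 0 := by rw [h4]; rfl
      exact absurd (lt_of_lt_of_eq h5 h6) (Nat.not_lt_zero _)
    · exact h1
  · refine ⟨⊤, inferInstance, fun g _ v => ?_⟩
    rw [MonoidHom.one_apply, one_pow, one_mul]
    exact hφ g v

/-- **Hodge classes belong to the system.** -/
theorem hodge_genG (h : PM Z) (hm : 1 ≤ m) (hs : SmallFm m Z) {κ : Type} [Finite κ]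
    (f : (Fin G ⊕ Fin G → ℚ) [⋀^κ]→ₗ[ℚ] ℚ) (hf : IsHodge (perOne Z) f) :
    St.Generated m (perOne Z) κ f := by
  classical
  let _ : Fintype κ := Fintype.ofFinite κ
  refine altQ_altG h f ?_
  set φ := evalM (cst ℂ (CF f.toMultilinearMap)) with hφ
  have hinv := hodge_inv h hf
  rcases Nat.even_or_odd (Fintype.card κ) with he | ho
  · obtain ⟨n, hn⟩ := he
    have e : κ ≃ Fin n × Fin 2 := Fintype.equivOfCardEq (by
      rw [Fintype.card_prod, Fintype.card_fin, Fintype.card_fin, hn]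
      ring)
    have h1 := inv_memG h hm hs (φ.domDomCongr e) (fun g v => by
      rw [MultilinearMap.domDomCongr_apply, MultilinearMap.domDomCongr_apply]
      exact hinv g _)
    have h2 : φ ∈ NG m (perOne Z) κ := (clo_NG h.isAV).reindex e.symm h1 φ fun v => by
      rw [MultilinearMap.domDomCongr_apply]
      congr 1
      funext k
      simp
    exact h2 _ _
  · have h0 : φ = 0 := by
      refine MultilinearMap.ext fun v => ?_
      have h1 := hinv (gt (D := ph _ (DZ Z)) (by rw [← map_mul, DZ_sq h.det, map_one])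
        (mem_GG.2 DZ_mem) (-1)) v
      have h2 : (fun k => RZ Z (gt (D := ph _ (DZ Z)) (by rw [← map_mul, DZ_sq h.det, map_one])
        (mem_GG.2 DZ_mem) (-1)) (v k)) = fun k => (-1 : ℂ) • v k := by
        funext k
        change torE (ph _ (DZ Z)) (-1) (v k) = _
        rw [torE_apply]
        simp only [Units.val_neg, Units.val_one, inv_neg, inv_one]
        module
      rw [h2, MultilinearMap.map_smul_univ, Finset.prod_const, Finset.card_univ,
        Odd.neg_one_pow ho, neg_one_smul] at h1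
      rw [← hφ] at h1
      have h3 : φ v = 0 := by linear_combination (-1 / 2 : ℂ) * h1
      rw [h3]
      rfl
    have h1 : φ ∈ NG m (perOne Z) κ := by
      rw [h0]
      exact Submodule.zero_mem _
    exact h1 _ _

end

end Pool.Agent.Y90
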