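import Mathlib
import Pool.Agent.Y90.NAsm
import Pool.Agent.Y90.Ab3

/-!
# Hodge classes on abelian varieties whose simple factors have dimension at most three
-/

set_option linter.unusedSectionVars false

namespace Pool.Agent.Y90

open Matrix Module Pool.Agent.W437.HC Pool.Agent.W437.HD Pool.Agent.W548.Odd Pool.Agent.TH504.CB
open Pool.Agent.H204R3.CM (IsHodge)
open Pool.Agent.W437.HP (cK cK_mul cK_one)

noncomputable section

variable {H T : Type} [AddCommGroup H] [Module ℚ H] [AddCommGroup T] [Module ℂ T] {per : H →+ T}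
  {G : ℕ} {Z : Matrix (Fin G) (Fin G) ℂ}

/-- The simple factors of the period matrix are small. -/
theorem smallFm_of (A : H ≃ₗ[ℚ] (Fin G ⊕ Fin G → ℚ))
    (hC : Cht (per.comp A.symm.toLinearMap.toAddMonoidHom) (JR Z)) {m : ℕ}
    (hs : St.SmallSimpleCM m per) : SmallFm m Z := by
  intro a Z' E F hfac h' hsim ha
  obtain ⟨Ψ₁, h₁⟩ := h'.cht.hom hC (R := E) (by rw [DJ_JR, DJ_JR]; exact hfac.de.symm)
  obtain ⟨Ψ₂, h₂⟩ := hC.hom h'.cht (R := F) (by rw [DJ_JR, DJ_JR]; exact hfac.fd)
  obtain ⟨ι, hι⟩ : ∃ ι : (Fin a ⊕ Fin a → ℚ) →ₗ[ℚ] H, ∀ y, ι y = A.symm (E *ᵥ y) :=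
    ⟨A.symm.toLinearMap.comp (Matrix.mulVecLin E), fun y => rfl⟩
  obtain ⟨π, hπ⟩ : ∃ π : H →ₗ[ℚ] (Fin a ⊕ Fin a → ℚ), ∀ v, π v = F *ᵥ A v :=
    ⟨(Matrix.mulVecLin F).comp A.toLinearMap, fun y => rfl⟩
  have hπι : ∀ y, π (ι y) = y := by
    intro y
    rw [hπ, hι, LinearEquiv.apply_symm_apply, mulVec_mulVec, hfac.fe, one_mulVec]
  have g₁ : ∀ y, Ψ₁ (perOne Z' y) = per (ι y) := fun y => by
    rw [hι]
    exact h₁ y
  have g₂ : ∀ v, Ψ₂ (per v) = perOne Z' (π v) := fun v => by
    have h3 := h₂ (A v)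
    have h4 : (per.comp A.symm.toLinearMap.toAddMonoidHom) (A v) = per v := by
      change per (A.symm (A v)) = per v
      rw [LinearEquiv.symm_apply_apply]
    rw [h4] at h3
    rw [hπ]
    exact h3
  have hsp : ∀ t : Fin a → ℂ, t ∈ Submodule.span ℝ (Set.range (perOne Z')) := by
    intro t
    rw [perOne_span h']
    trivial
  have hr₁ : ∀ (r : ℝ) t, Ψ₁ (r • t) = r • Ψ₁ t := fun r t => Ψ₁.map_smul_of_tower r t
  have hr₂ : ∀ (r : ℝ) t, Ψ₂ (r • t) = r • Ψ₂ t := fun r t => Ψ₂.map_smul_of_tower r t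
  have hinj : Function.Injective ι := fun x y hxy => by
    rw [← hπι x, hxy, hπι]
  obtain ⟨U, hU⟩ : ∃ U : Submodule ℚ H, U = LinearMap.range ι := ⟨_, rfl⟩
  have hUι : ∀ y, ι y ∈ U := fun y => by
    rw [hU]
    exact ⟨y, rfl⟩
  have hrank : finrank ℚ U = 2 * a := by
    rw [hU, LinearMap.finrank_range_of_inj hinj, finrank_fintype_fun_eq_card, Fintype.card_sum,
      Fintype.card_fin]
    ring
  -- the image of the first map
  have hm₁ : ∀ (S : Set H) (S' : Set (Fin a ⊕ Fin a → ℚ)), (∀ y ∈ S', ι y ∈ S) →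
      ∀ t ∈ Submodule.span ℝ (perOne Z' '' S'), Ψ₁ t ∈ Submodule.span ℝ (per '' S) := by
    intro S S' hS t ht
    induction ht using Submodule.span_induction with
    | mem t ht =>
      obtain ⟨y, hy, rfl⟩ := ht
      rw [g₁]
      exact Submodule.subset_span ⟨_, hS y hy, rfl⟩
    | zero =>
      rw [map_zero]
      exact Submodule.zero_mem _
    | add x y _ _ hx hy =>
      rw [map_add]
      exact Submodule.add_mem _ hx hy
    | smul r x _ hx =>
      rw [hr₁]
      exact Submodule.smul_mem _ _ hx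
  have hm₂ : ∀ (S : Set H) (S' : Set (Fin a ⊕ Fin a → ℚ)), (∀ v ∈ S, π v ∈ S') →
      ∀ t ∈ Submodule.span ℝ (per '' S), Ψ₂ t ∈ Submodule.span ℝ (perOne Z' '' S') := by
    intro S S' hS t ht
    induction ht using Submodule.span_induction with
    | mem t ht =>
      obtain ⟨v, hv, rfl⟩ := ht
      rw [g₂]
      exact Submodule.subset_span ⟨_, hS v hv, rfl⟩
    | zero =>
      rw [map_zero]
      exact Submodule.zero_mem _
    | add x y _ _ hx hy =>
      rw [map_add]
      exact Submodule.add_mem _ hx hy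
    | smul r x _ hx =>
      rw [hr₂]
      exact Submodule.smul_mem _ _ hx
  have hΨ : ∀ t, Ψ₂ (Ψ₁ t) = t := by
    intro t
    have ht := hsp t
    induction ht using Submodule.span_induction with
    | mem t ht =>
      obtain ⟨y, rfl⟩ := ht
      rw [g₁, g₂, hπι]
    | zero => rw [map_zero, map_zero]
    | add x y _ _ hx hy => rw [map_add, map_add, hx, hy]
    | smul r x _ hx => rw [hr₁, hr₂, hx]
  have hsub : St.IsSub per U := by
    intro x hx
    obtain ⟨t, rfl⟩ : ∃ t, x = Ψ₁ t := by
      induction hx using Submodule.span_induction with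
      | mem x hx =>
        obtain ⟨v, hv, rfl⟩ := hx
        rw [hU] at hv
        obtain ⟨y, rfl⟩ := hv
        exact ⟨_, (g₁ y).symm⟩
      | zero => exact ⟨0, (map_zero _).symm⟩
      | add x y _ _ hx hy =>
        obtain ⟨s, rfl⟩ := hx
        obtain ⟨t, rfl⟩ := hy
        exact ⟨s + t, (map_add _ _ _).symm⟩
      | smul r x _ hx =>
        obtain ⟨s, rfl⟩ := hx
        exact ⟨r • s, (hr₁ _ _).symm⟩
    rw [← map_smul]
    refine hm₁ U Set.univ (fun y _ => hUι y) _ ?_
    rw [Set.image_univ]
    exact hsp _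
  have hsimple : St.IsSimpleSub per U := by
    refine ⟨hsub, ?_, fun U' hU' hsub' => ?_⟩
    · intro h0
      rw [h0, finrank_bot] at hrank
      omega
    · have h3 := hsim (U'.comap ι) (fun x hx => by
        have h4 := hm₁ U' (U'.comap ι) (fun y hy => hy) x hx
        have h5 := hsub' _ h4
        have h6 := hm₂ U' (U'.comap ι) (fun v hv => by
          have h7 := hU' hv
          rw [hU] at h7
          obtain ⟨y, rfl⟩ := h7
          change ι (π (ι y)) ∈ U'
          rw [hπι]
          exact hv) _ h5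
        rwa [map_smul, hΨ] at h6)
      rcases h3 with h3 | h3
      · left
        rw [Submodule.eq_bot_iff]
        intro v hv
        have h7 := hU' hv
        rw [hU] at h7
        obtain ⟨y, rfl⟩ := h7
        have h8 : y ∈ U'.comap ι := hv
        rw [h3, Submodule.mem_bot] at h8
        rw [h8, map_zero]
      · right
        refine le_antisymm hU' ?_
        intro v hv
        rw [hU] at hv
        obtain ⟨y, rfl⟩ := hv
        have h8 : y ∈ U'.comap ι := by rw [h3]; trivial
        exact h8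
  obtain ⟨h3, h4⟩ := hs U hsimple
  refine ⟨by omega, fun hcm => ?_⟩
  suffices hcm' : St.IsCMSub per U by
    have h5 := h4 hcm'
    omega
  obtain ⟨A', hc, hr, hD⟩ := hcm
  let e₀ : (Fin a ⊕ Fin a → ℚ) ≃ₗ[ℚ] LinearMap.range ι := LinearEquiv.ofInjective ι hinj
  let e : (Fin a ⊕ Fin a → ℚ) ≃ₗ[ℚ] U := e₀.trans (LinearEquiv.ofEq _ _ hU.symm)
  have he : ∀ y, (e y : H) = ι y := fun y => rfl
  let Φ : Matrix (Fin a ⊕ Fin a) (Fin a ⊕ Fin a) ℚ ≃ₗ[ℚ] (U →ₗ[ℚ] U) :=
    Matrix.toLin'.trans e.conj
  have hΦ : ∀ M u, Φ M u = e (M *ᵥ e.symm u) := by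
    intro M u
    change e.conj (Matrix.toLin' M) u = _
    rw [LinearEquiv.conj_apply_apply, Matrix.toLin'_apply]
  have hΦm : ∀ M N, Φ M ∘ₗ Φ N = Φ (M * N) := by
    intro M N
    refine LinearMap.ext fun u => ?_
    rw [LinearMap.comp_apply, hΦ, hΦ, hΦ, LinearEquiv.symm_apply_apply, mulVec_mulVec]
  refine ⟨(Subalgebra.toSubmodule A').map Φ.toLinearMap, ?_, ?_, ?_⟩
  · rintro _ ⟨M, hM, rfl⟩ _ ⟨N, hN, rfl⟩
    change Φ M ∘ₗ Φ N = Φ N ∘ₗ Φ M ∧ Φ M ∘ₗ Φ N ∈ _
    rw [hΦm, hΦm, hc M hM N hN]
    exact ⟨rfl, ⟨N * M, A'.mul_mem hN hM, rfl⟩⟩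
  · rw [hrank, ← hr]
    exact LinearEquiv.finrank_map_eq Φ (Subalgebra.toSubmodule A')
  · rintro _ ⟨M, hM, rfl⟩
    obtain ⟨Ψ₃, h₅⟩ := h'.cht.hom h'.cht (R := M) (by rw [DJ_JR]; exact hD M hM)
    refine ⟨Ψ₁.comp (Ψ₃.comp Ψ₂), fun u => ?_⟩
    obtain ⟨y, rfl⟩ := e.surjective u
    rw [LinearMap.comp_apply, LinearMap.comp_apply, he, g₂, hπι, h₅, g₁]
    change _ = per ((Φ M (e y) : U) : H)
    rw [hΦ, LinearEquiv.symm_apply_apply, he]

/-- Hodge classes extend to alternating real forms. -/
theorem exists_altR {κ : Type} [Fintype κ] [DecidableEq κ] {f : H [⋀^κ]→ₗ[ℚ] ℚ}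
    (hf : IsHodge per f) : ∃ ψ : T [⋀^κ]→ₗ[ℝ] ℝ, (∀ v : κ → H, ψ (fun l => per (v l)) = f v) ∧
      ∀ z : ℂ, ‖z‖ = 1 → ∀ u : κ → T, ψ (fun l => z • u l) = ψ u := by
  obtain ⟨Ψ, h1, h2⟩ := hf
  refine ⟨((Fintype.card (Equiv.Perm κ) : ℝ))⁻¹ • MultilinearMap.alternatization Ψ, fun v => ?_,
    fun z hz u => ?_⟩
  · rw [AlternatingMap.smul_apply, MultilinearMap.alternatization_apply]
    have h3 : ∀ σ : Equiv.Perm κ, Equiv.Perm.sign σ • (Ψ.domDomCongr σ) (fun l => per (v l)) =
        ((f v : ℚ) : ℝ) := by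
      intro σ
      have h4 := h1 (fun l => v (σ l))
      rw [MultilinearMap.domDomCongr_apply, h4, show (fun k => v (σ k)) = v ∘ σ from rfl,
        AlternatingMap.map_perm, Units.smul_def, Units.smul_def, zsmul_eq_mul, zsmul_eq_mul]
      push_cast
      rw [← mul_assoc, ← Int.cast_mul, ← Units.val_mul, Int.units_mul_self, Units.val_one,
        Int.cast_one, one_mul]
    rw [Finset.sum_congr rfl fun σ _ => h3 σ, Finset.sum_const, nsmul_eq_mul, Finset.card_univ,
      smul_eq_mul, ← mul_assoc, inv_mul_cancel₀, one_mul]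
    exact_mod_cast Fintype.card_ne_zero
  · rw [AlternatingMap.smul_apply, AlternatingMap.smul_apply,
      MultilinearMap.alternatization_apply, MultilinearMap.alternatization_apply]
    congr 1
    refine Finset.sum_congr rfl fun σ _ => ?_
    rw [MultilinearMap.domDomCongr_apply, MultilinearMap.domDomCongr_apply, h2 z hz]

/-- Multiplication by complex numbers of absolute value one has determinant one. -/
theorem det_unit [FiniteDimensional ℂ T] {z : ℂ} (hz : ‖z‖ = 1) :
    LinearMap.det ((z • (LinearMap.id : T →ₗ[ℂ] T)).restrictScalars ℝ) = 1 := by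
  rw [LinearMap.det_restrictScalars, LinearMap.det_smul, LinearMap.det_id, mul_one,
    Algebra.norm_complex_apply, Complex.normSq_eq_norm_sq, norm_pow, hz, one_pow, one_pow]

section push

variable {H' T' : Type} [AddCommGroup H'] [Module ℚ H'] [AddCommGroup T'] [Module ℂ T']
  {per' : H' →+ T'}

/-- Push-forwards of Hodge classes are Hodge classes. -/
theorem isHodge_push (hY : St.IsAV per') {κ : Type} [Finite κ] {n : ℕ}
    (e : Basis (Fin n) ℚ H') {f : (H × H') [⋀^κ ⊕ Fin n]→ₗ[ℚ] ℚ}
    (hf : IsHodge (St.perProd per per') f) {g : H [⋀^κ]→ₗ[ℚ] ℚ}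
    (hg : ∀ v : κ → H, g v = f (Sum.elim (fun k => (v k, 0)) (fun j => (0, e j)))) :
    IsHodge per g := by
  classical
  let _ : Fintype κ := Fintype.ofFinite κ
  obtain ⟨ψ, h1, h2⟩ := exists_altR hf
  obtain ⟨y1, y2, y3, y4, -⟩ := hY
  -- the real basis
  have hspan : ⊤ ≤ Submodule.span ℝ (Set.range fun j => per' (e j)) := by
    rw [← y3]
    refine Submodule.span_le.2 ?_
    rintro _ ⟨w, rfl⟩
    rw [← e.sum_repr w, map_sum]
    refine Submodule.sum_mem _ fun i _ => ?_
    rw [per_smul]
    exact Submodule.smul_mem _ _ (Submodule.subset_span ⟨i, rfl⟩)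
  have hcard : Fintype.card (Fin n) = finrank ℝ T' := by
    rw [finrank_real_of_complex, ← y4, finrank_eq_card_basis e]
  have hli := linearIndependent_of_top_le_span_of_card_eq_finrank hspan hcard
  let b : Basis (Fin n) ℝ T' := Basis.mk hli hspan
  have hb : ∀ j, b j = per' (e j) := fun j => Basis.mk_apply hli hspan j
  -- the alternating form in the last variables
  let Θ : (κ → T) → T' [⋀^Fin n]→ₗ[ℝ] ℝ := fun t =>
    { toFun := fun y => ψ (Sum.elim (fun k => (t k, 0)) (fun j => (0, y j)))
      map_update_add' := by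
        intro dn y j x x'
        obtain rfl : dn = instDecidableEqFin n := Subsingleton.elim _ _
        have e1 : ∀ z : T', (Sum.elim (fun k => ((t k, 0) : T × T'))
            (fun j' => (0, Function.update y j z j')) : κ ⊕ Fin n → T × T') =
            Function.update (Sum.elim (fun k => (t k, 0)) (fun j => (0, y j))) (Sum.inr j)
              (0, z) := by
          intro z
          funext k'
          rcases k' with k' | j'
          · rw [Function.update_of_ne (by simp)]
            rfl
          · by_cases hk : j' = j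
            · subst hk
              simp
            · rw [Function.update_of_ne (fun h => hk (Sum.inr.inj h))]
              simp [Function.update_of_ne hk]
        rw [e1, e1, e1]
        have e2 : ((0, x + x') : T × T') = (0, x) + (0, x') := by
          rw [Prod.mk_add_mk, add_zero]
        rw [e2, AlternatingMap.map_update_add]
      map_update_smul' := by
        intro dn y j c x
        obtain rfl : dn = instDecidableEqFin n := Subsingleton.elim _ _
        have e1 : ∀ z : T', (Sum.elim (fun k => ((t k, 0) : T × T'))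
            (fun j' => (0, Function.update y j z j')) : κ ⊕ Fin n → T × T') =
            Function.update (Sum.elim (fun k => (t k, 0)) (fun j => (0, y j))) (Sum.inr j)
              (0, z) := by
          intro z
          funext k'
          rcases k' with k' | j'
          · rw [Function.update_of_ne (by simp)]
            rfl
          · by_cases hk : j' = j
            · subst hk
              simp
            · rw [Function.update_of_ne (fun h => hk (Sum.inr.inj h))]
              simp [Function.update_of_ne hk]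
        rw [e1, e1]
        have e2 : ((0, c • x) : T × T') = c • (0, x) := by
          rw [Prod.smul_mk, smul_zero]
        rw [e2, AlternatingMap.map_update_smul]
      map_eq_zero_of_eq' := by
        intro y i j hy hij
        refine AlternatingMap.map_eq_zero_of_eq _ _ (i := Sum.inr i) (j := Sum.inr j) ?_
          (fun h => hij (Sum.inr.inj h))
        rw [Sum.elim_inr, Sum.elim_inr, hy] }
  have hΘ : ∀ t y, Θ t y = ψ (Sum.elim (fun k => (t k, 0)) (fun j => (0, y j))) := fun _ _ => rfl
  have hrot : ∀ z : ℂ, ‖z‖ = 1 → ∀ t (y : Fin n → T'), Θ t (fun j => z • y j) = Θ t y := by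
    intro z hz t y
    have h3 := (Θ t).eq_smul_basis_det b
    rw [h3, AlternatingMap.smul_apply, AlternatingMap.smul_apply]
    have h4 := b.det_comp ((z • (LinearMap.id : T' →ₗ[ℂ] T')).restrictScalars ℝ) y
    rw [det_unit hz, one_mul] at h4
    rw [← h4]
    rfl
  refine ⟨
    { toFun := fun t => Θ t b
      map_update_add' := ?_
      map_update_smul' := ?_ }, fun v => ?_, fun z hz u => ?_⟩
  · intro dk t k x x'
    have e1 : ∀ z : T, (Sum.elim (fun k' => ((Function.update t k z k', 0) : T × T'))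
        (fun j => (0, b j)) : κ ⊕ Fin n → T × T') =
        Function.update (Sum.elim (fun k => (t k, 0)) (fun j => (0, b j))) (Sum.inl k)
          (z, 0) := by
      intro z
      funext k'
      rcases k' with k' | j
      · by_cases hk : k' = k
        · subst hk
          simp
        · rw [Function.update_of_ne (fun h => hk (Sum.inl.inj h))]
          simp [Function.update_of_ne hk]
      · rw [Function.update_of_ne (by simp)]
        rfl
    rw [hΘ, hΘ, hΘ, e1, e1, e1]
    have e2 : ((x + x', 0) : T × T') = (x, 0) + (x', 0) := by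
      rw [Prod.mk_add_mk, add_zero]
    rw [e2, AlternatingMap.map_update_add]
  · intro dk t k c x
    have e1 : ∀ z : T, (Sum.elim (fun k' => ((Function.update t k z k', 0) : T × T'))
        (fun j => (0, b j)) : κ ⊕ Fin n → T × T') =
        Function.update (Sum.elim (fun k => (t k, 0)) (fun j => (0, b j))) (Sum.inl k)
          (z, 0) := by
      intro z
      funext k'
      rcases k' with k' | j
      · by_cases hk : k' = k
        · subst hk
          simp
        · rw [Function.update_of_ne (fun h => hk (Sum.inl.inj h))]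
          simp [Function.update_of_ne hk]
      · rw [Function.update_of_ne (by simp)]
        rfl
    rw [hΘ, hΘ, e1, e1]
    have e2 : ((c • x, 0) : T × T') = c • (x, 0) := by
      rw [Prod.smul_mk, smul_zero]
    rw [e2, AlternatingMap.map_update_smul]
  · change Θ (fun l => per (v l)) b = _
    rw [hΘ, hg, ← h1]
    congr 1
    funext k
    rcases k with k | j
    · exact Prod.ext rfl (map_zero per').symm
    · exact Prod.ext (map_zero per).symm (hb j)
  · change Θ (fun l => z • u l) b = Θ u b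
    have hz' : ‖z⁻¹‖ = 1 := by rw [norm_inv, hz, inv_one]
    have hz0 : z ≠ 0 := by
      rintro rfl
      rw [norm_zero] at hz
      exact zero_ne_one hz
    rw [← hrot z⁻¹ hz' u b, hΘ, hΘ, ← h2 z hz (Sum.elim (fun k => (u k, 0))
      (fun j => (0, z⁻¹ • b j)))]
    congr 1
    funext k
    rcases k with k | j
    · exact Prod.ext rfl (smul_zero z).symm
    · refine Prod.ext (smul_zero z).symm ?_
      change b j = z • z⁻¹ • b j
      rw [smul_smul, mul_inv_cancel₀ hz0, one_smul]

end push

/-- The classes of the system are Hodge classes. -/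
theorem St.Generated.isHodge {m : ℕ} {κ : Type} {f : H [⋀^κ]→ₗ[ℚ] ℚ}
    (hf : St.Generated m per κ f) : Finite κ → IsHodge per f := by
  induction hf with
  | @unit H T _ _ _ _ per hX κ _ f =>
    intro _
    refine ⟨MultilinearMap.constOfIsEmpty ℝ (fun _ => T) ((f 0 : ℚ) : ℝ), fun v => ?_,
      fun z _ u => ?_⟩
    · rw [Subsingleton.elim v 0]
      rfl
    · rfl
  | divisor hX hκ f hf => exact fun _ => hf
  | weil hX f hf => exact fun _ => hf.2.1
  | cm hX hm f hf => exact fun _ => hf
  | add f g _ _ hf hg =>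
    intro hκ
    obtain ⟨ψ, h1, h2⟩ := hf hκ
    obtain ⟨ψ', h3, h4⟩ := hg hκ
    refine ⟨ψ + ψ', fun v => ?_, fun z hz u => ?_⟩
    · rw [_root_.add_apply, h1, h3, AlternatingMap.add_apply, Rat.cast_add]
    · rw [_root_.add_apply, _root_.add_apply, h2 z hz, h4 z hz]
  | smul a f _ hf =>
    intro hκ
    obtain ⟨ψ, h1, h2⟩ := hf hκ
    refine ⟨(a : ℝ) • ψ, fun v => ?_, fun z hz u => ?_⟩
    · rw [_root_.smul_apply, h1, AlternatingMap.smul_apply, smul_eq_mul, smul_eq_mul, Rat.cast_mul]
    · rw [_root_.smul_apply, _root_.smul_apply, h2 z hz]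
  | zero hX κ =>
    intro _
    refine ⟨0, fun v => ?_, fun z _ u => rfl⟩
    rw [_root_.zero_apply, AlternatingMap.zero_apply, Rat.cast_zero]
  | reindex e f _ hf =>
    intro hκ
    obtain ⟨ψ, h1, h2⟩ := hf (Finite.of_equiv _ e.symm)
    refine ⟨ψ.domDomCongr e, fun v => ?_, fun z hz u => ?_⟩
    · rw [MultilinearMap.domDomCongr_apply, AlternatingMap.domDomCongr_apply]
      exact h1 _
    · rw [MultilinearMap.domDomCongr_apply, MultilinearMap.domDomCongr_apply]
      exact h2 z hz _
  | @cup H T _ _ _ _ per κ κ' _ _ _ _ f g _ _ h hh hf hg =>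
    intro _
    obtain ⟨ψ, h1, h2⟩ := hf inferInstance
    obtain ⟨ψ', h3, h4⟩ := hg inferInstance
    have h5 : h = MultilinearMap.alternatization
        (prd f.toMultilinearMap g.toMultilinearMap) := by
      ext v
      rw [hh, MultilinearMap.alternatization_apply]
      refine Finset.sum_congr rfl fun σ _ => ?_
      rw [MultilinearMap.domDomCongr_apply, prd_apply, Units.smul_def, zsmul_eq_mul]
      rfl
    rw [h5]
    refine isHodge_alt (prd ψ ψ') (fun v => ?_) fun z hz u => ?_
    · rw [prd_apply, prd_apply, h1, h3]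
      push_cast
      rfl
    · rw [prd_apply, prd_apply, h2 z hz, h4 z hz]
  | pull hX f _ h hh hf =>
    intro hκ
    obtain ⟨Ψ, hΨ⟩ := hh
    exact isHodge_comp h Ψ hΨ (hf hκ)
  | push hX hY e f _ g hg hf =>
    intro hκ
    exact isHodge_push hY e (hf inferInstance) hg

/-- **Hodge classes** on abelian varieties all of whose simple factors have dimension at most
three. -/
theorem hodge_generated (m : ℕ) (hm : 1 ≤ m) (per : H →+ T) (hX : St.IsAV per)
    (hs : St.SmallSimpleCM m per) {κ : Type} [Finite κ] (f : H [⋀^κ]→ₗ[ℚ] ℚ) :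
    IsHodge per f ↔ St.Generated m per κ f := by
  refine ⟨fun hf => ?_, fun hf => hf.isHodge inferInstance⟩
  obtain ⟨a, Z, h, A, hC⟩ := exists_ppav hX
  have hsf := smallFm_of A hC hs
  obtain ⟨Ψ₁, h₁⟩ := h.cht.hom hC (R := 1) (by rw [cK_one, Matrix.one_mul, Matrix.mul_one])
  obtain ⟨Ψ₂, h₂⟩ := hC.hom h.cht (R := 1) (by rw [cK_one, Matrix.one_mul, Matrix.mul_one])
  have e₁ : ∀ w, Ψ₁ (perOne Z w) = per (A.symm w) := fun w => by
    rw [h₁, one_mulVec]
    rfl
  have e₂ : ∀ v, Ψ₂ (per v) = perOne Z (A v) := fun v => by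
    have h3 := h₂ (A v)
    have h4 : (per.comp A.symm.toLinearMap.toAddMonoidHom) (A v) = per v := by
      change per (A.symm (A v)) = per v
      rw [LinearEquiv.symm_apply_apply]
    rwa [h4, one_mulVec] at h3
  have h5 : IsHodge (perOne Z) (f.compLinearMap A.symm.toLinearMap) :=
    isHodge_comp A.symm.toLinearMap Ψ₁ e₁ hf
  have h6 := hodge_genG h hm hsf _ h5
  have h7 := St.Generated.pull hX _ h6 A.toLinearMap ⟨Ψ₂, e₂⟩
  have h8 : (f.compLinearMap A.symm.toLinearMap).compLinearMap A.toLinearMap = f := by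
    ext v
    rw [AlternatingMap.compLinearMap_apply, AlternatingMap.compLinearMap_apply]
    congr 1
    funext k
    exact A.symm_apply_apply (v k)
  rwa [h8] at h7

end

end Pool.Agent.Y90
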